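import Mathlib.Tactic
import Mathlib.Algebra.MvPolynomial.Funext
import Mathlib.Algebra.MvPolynomial.NoZeroDivisors
import Mathlib.Algebra.Polynomial.Reverse
import Mathlib.Data.Matrix.ColumnRowPartitioned
import Mathlib.LinearAlgebra.Determinant
import Mathlib.LinearAlgebra.FreeModule.PID
import Mathlib.LinearAlgebra.Matrix.Transvection
import Mathlib.RingTheory.Finiteness.Projective
import Mathlib.RingTheory.Ideal.KrullsHeightTheorem
import Mathlib.RingTheory.Ideal.UFD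
import Mathlib.RingTheory.LocalRing.ResidueField.Ideal
import Mathlib.RingTheory.MvPolynomial.Homogeneous
import Mathlib.RingTheory.Nakayama
import Mathlib.RingTheory.Polynomial.GaussLemma
import Mathlib.RingTheory.Polynomial.Resultant.Basic
import Mathlib.RingTheory.Polynomial.UniqueFactorization
import Mathlib.RingTheory.PowerSeries.Inverse
import Mathlib.RingTheory.PrincipalIdealDomainOfPrime

/-!
Projective modules as idempotent matrices; localizations as ring homomorphisms.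
-/

open Matrix

namespace Pool.Agent.Lib.MP_a37f0b_ag

section eqv

variable {A B : Type} [CommRing A] [CommRing B] {ι κ μ : Type} [Fintype ι] [Fintype κ] [Fintype μ]

/-- The images of two idempotent matrices are isomorphic. -/
def Eqv (e : Matrix ι ι A) (e' : Matrix κ κ A) : Prop :=
  ∃ (u : Matrix ι κ A) (v : Matrix κ ι A), u * v = e ∧ v * u = e'

/-- The image of `e` is free after inverting `h`. -/
def QFree (h : A) (e : Matrix ι ι A) : Prop :=
  ∃ (n : ℕ) (u : Matrix ι (Fin n) A) (v : Matrix (Fin n) ι A),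
    u * v = h • e ∧ v * u = h • (1 : Matrix (Fin n) (Fin n) A)

/-- The image of `e` is free. -/
def Free (e : Matrix ι ι A) : Prop :=
  ∃ (n : ℕ) (u : Matrix ι (Fin n) A) (v : Matrix (Fin n) ι A), u * v = e ∧ v * u = 1

/-- All finitely generated projective modules are free. -/
def AllFree (A : Type) [CommRing A] : Prop :=
  ∀ (ι : Type) [Fintype ι] (e : Matrix ι ι A), e * e = e → Free e

lemma idem_map {e : Matrix ι ι A} (he : e * e = e) (φ : A →+* B) :
    e.map φ * e.map φ = e.map φ := by rw [← Matrix.map_mul, he]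

lemma map_smul' {α β : Type} (φ : A →+* B) (h : A) (e : Matrix α β A) :
    (h • e).map φ = φ h • e.map φ := by
  ext i j; simp

omit [Fintype ι] in
lemma map_one' [DecidableEq ι] (φ : A →+* B) : (1 : Matrix ι ι A).map φ = 1 :=
  Matrix.map_one _ φ.map_zero φ.map_one

lemma map_add' {α β : Type} (φ : A →+* B) (x y : Matrix α β A) :
    (x + y).map φ = x.map φ + y.map φ := by
  ext i j; simp

lemma map_sub' {α β : Type} (φ : A →+* B) (x y : Matrix α β A) :
    (x - y).map φ = x.map φ - y.map φ := by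
  ext i j; simp

lemma map_comp' {C α β : Type} [CommRing C] (φ : A →+* B) (ψ : B →+* C) (x : Matrix α β A) :
    (x.map φ).map ψ = x.map (ψ.comp φ) := rfl

lemma exists_map_eq {α β : Type} (φ : A →+* B) (M : Matrix α β B) (h : ∀ i j, ∃ a, φ a = M i j) :
    ∃ M' : Matrix α β A, M'.map φ = M := by
  choose a ha using h
  exact ⟨Matrix.of a, by ext i j; exact ha i j⟩

lemma Eqv.refl {e : Matrix ι ι A} (he : e * e = e) : Eqv e e := ⟨e, e, he, he⟩

lemma Eqv.symm {e : Matrix ι ι A} {e' : Matrix κ κ A} (h : Eqv e e') : Eqv e' e :=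
  let ⟨u, v, h1, h2⟩ := h; ⟨v, u, h2, h1⟩

lemma Eqv.trans {e : Matrix ι ι A} {e' : Matrix κ κ A} {e'' : Matrix μ μ A} (h : Eqv e e')
    (h' : Eqv e' e'') (he : e * e = e) (he'' : e'' * e'' = e'') : Eqv e e'' := by
  obtain ⟨u, v, h1, h2⟩ := h
  obtain ⟨u', v', h3, h4⟩ := h'
  refine ⟨u * u', v' * v, ?_, ?_⟩
  · rw [Matrix.mul_assoc, ← Matrix.mul_assoc u', h3, ← h2, ← he, ← h1]
    simp only [Matrix.mul_assoc]
  · rw [Matrix.mul_assoc, ← Matrix.mul_assoc v, h2, ← h3, ← he'', ← h4]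
    simp only [Matrix.mul_assoc]

lemma Eqv.map {e : Matrix ι ι A} {e' : Matrix κ κ A} (h : Eqv e e') (φ : A →+* B) :
    Eqv (e.map φ) (e'.map φ) :=
  let ⟨u, v, h1, h2⟩ := h
  ⟨u.map φ, v.map φ, by rw [← Matrix.map_mul, h1], by rw [← Matrix.map_mul, h2]⟩

lemma Free.of_one [DecidableEq κ] {e : Matrix ι ι A} (h : Eqv e (1 : Matrix κ κ A)) : Free e := by
  obtain ⟨u, v, h1, h2⟩ := h
  let ε := (Fintype.equivFin κ).symm
  refine ⟨_, u.submatrix id ε, v.submatrix ε id, ?_, ?_⟩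
  · rw [Matrix.submatrix_mul_equiv, h1]; rfl
  · rw [← Matrix.submatrix_one_equiv ε, ← h2]
    exact (Matrix.submatrix_mul v u ε id ε Function.bijective_id).symm

lemma Free.of_eqv {e : Matrix ι ι A} {e' : Matrix κ κ A} (h : Eqv e e') (he : e * e = e)
    (h' : Free e') : Free e :=
  let ⟨_, h'⟩ := h'
  Free.of_one (h.trans h' he (Matrix.mul_one _))

lemma Free.map {e : Matrix ι ι A} (h : Free e) (φ : A →+* B) : Free (e.map φ) :=
  let ⟨n, u, v, h1, h2⟩ := h
  ⟨n, u.map φ, v.map φ, by rw [← Matrix.map_mul, h1], by rw [← Matrix.map_mul, h2, map_one']⟩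

lemma QFree.map {h : A} {e : Matrix ι ι A} (H : QFree h e) (φ : A →+* B) :
    QFree (φ h) (e.map φ) :=
  let ⟨n, u, v, h1, h2⟩ := H
  ⟨n, u.map φ, v.map φ, by rw [← Matrix.map_mul, h1, map_smul'],
    by rw [← Matrix.map_mul, h2, map_smul', map_one']⟩

lemma QFree.mul {h : A} {e : Matrix ι ι A} (H : QFree h e) (c : A) : QFree (c * h) e :=
  let ⟨n, u, v, h1, h2⟩ := H
  ⟨n, c • u, v, by rw [Matrix.smul_mul, h1, smul_smul], by rw [Matrix.mul_smul, h2, smul_smul]⟩

lemma QFree.of_dvd {h h' : A} {e : Matrix ι ι A} (H : QFree h e) (hd : h ∣ h') : QFree h' e := by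
  obtain ⟨c, rfl⟩ := hd
  rw [mul_comm]
  exact H.mul c

lemma QFree.free {h : A} {e : Matrix ι ι A} (H : QFree h e) (hu : IsUnit h) : Free e := by
  obtain ⟨n, u, v, h1, h2⟩ := H.of_dvd (isUnit_iff_dvd_one.1 hu)
  exact ⟨n, u, v, by rw [h1, one_smul], by rw [h2, one_smul]⟩

lemma Free.qfree {e : Matrix ι ι A} (H : Free e) (h : A) : QFree h e :=
  let ⟨n, u, v, h1, h2⟩ := H
  ⟨n, h • u, v, by rw [Matrix.smul_mul, h1], by rw [Matrix.mul_smul, h2]⟩

lemma qfree_zero (e : Matrix ι ι A) : QFree 0 e :=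
  ⟨0, 0, 0, by simp, by simp⟩

lemma AllFree.of_equiv (h : AllFree A) (ε : A ≃+* B) : AllFree B := fun ι _ e he => by
  have := (h ι _ (idem_map he (ε.symm : B →+* A))).map (ε : A →+* B)
  rwa [show (e.map (ε.symm : B →+* A)).map (ε : A →+* B) = e by ext i j; simp] at this

/-- A trivialization modulo a prime gives a trivialization after inverting an element. -/
lemma lift_free [IsDomain A] [Nontrivial B] (π : A →+* B) {e : Matrix ι ι A} (he : e * e = e)
    {n : ℕ} (u : Matrix ι (Fin n) A) (v : Matrix (Fin n) ι A) (h1 : u.map π * v.map π = e.map π)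
    (h2 : v.map π * u.map π = 1) : ∃ h, π h = 1 ∧ QFree h e := by
  classical
  obtain ⟨G, hG⟩ : ∃ G, G = v * e * u := ⟨_, rfl⟩
  have g1 : G.map π = 1 := by
    rw [hG, Matrix.map_mul, Matrix.map_mul, ← h1, ← Matrix.mul_assoc, h2, Matrix.one_mul, h2]
  have d1 : π G.det = 1 := by rw [RingHom.map_det, RingHom.mapMatrix_apply, g1, det_one]
  have a1 : G.adjugate.map π = 1 := by
    have := π.map_adjugate G
    rwa [RingHom.mapMatrix_apply, RingHom.mapMatrix_apply, g1, adjugate_one] at this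
  have k1 : G.adjugate * v * e * (e * u) = G.det • (1 : Matrix (Fin n) (Fin n) A) := by
    have : G = v * e * (e * u) := by rw [← Matrix.mul_assoc, Matrix.mul_assoc v, he, hG]
    rw [← adjugate_mul G, Matrix.mul_assoc G.adjugate, Matrix.mul_assoc G.adjugate, ← this]
  refine ⟨G.det, d1, n, e * u, G.adjugate * v * e, ?_, k1⟩
  obtain ⟨D, hD⟩ : ∃ D, D = e * u * (G.adjugate * v * e) := ⟨_, rfl⟩
  have e1 : D * D = G.det • D := by
    rw [hD, Matrix.mul_assoc (e * u), ← Matrix.mul_assoc (G.adjugate * v * e), k1,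
      Matrix.smul_mul, Matrix.one_mul, Matrix.mul_smul]
  have e2 : e * D = D := by rw [hD]; simp only [← Matrix.mul_assoc, he]
  have e3 : D * e = D := by rw [hD]; simp only [Matrix.mul_assoc, he]
  have e4 : (G.det • e - D) * (G.det • 1 - (G.det • e - D)) = 0 := by
    simp only [Matrix.mul_sub, Matrix.sub_mul, Matrix.smul_mul, Matrix.mul_smul, he, e1, e2, e3,
      Matrix.mul_one]
    module
  have e5 : π (G.det • 1 - (G.det • e - D)).det = 1 := by
    rw [RingHom.map_det, RingHom.mapMatrix_apply, map_sub', map_sub', map_smul', map_smul', d1,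
      hD, Matrix.map_mul, Matrix.map_mul, Matrix.map_mul, Matrix.map_mul, a1, map_one',
      Matrix.one_mul, Matrix.mul_assoc, ← Matrix.mul_assoc (u.map π), h1, idem_map he,
      idem_map he]
    simp
  have e6 : (G.det • 1 - (G.det • e - D)).det ≠ 0 := fun h0 => by simp [h0] at e5
  have e7 := congrArg (· * (G.det • 1 - (G.det • e - D)).adjugate) e4
  simp only [Matrix.mul_assoc, mul_adjugate, Matrix.mul_smul, Matrix.mul_one,
    Matrix.zero_mul] at e7
  rw [← hD]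
  exact (sub_eq_zero.1 ((smul_eq_zero.1 e7).resolve_left e6)).symm

lemma free_of_range {e : Matrix ι ι A} (he : e * e = e) {n : ℕ} [DecidableEq ι]
    (b : Module.Basis (Fin n) A (LinearMap.range (toLin' e))) : Free e := by
  let f := (LinearMap.range (toLin' e)).subtype ∘ₗ b.equivFun.symm.toLinearMap
  let g := b.equivFun.toLinearMap ∘ₗ (toLin' e).rangeRestrict
  refine ⟨n, LinearMap.toMatrix' f, LinearMap.toMatrix' g, ?_, ?_⟩
  · rw [← LinearMap.toMatrix'_comp, ← LinearMap.toMatrix'_toLin' e]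
    congr 1
    ext1 i
    ext1
    simp [f, g]
  · rw [← LinearMap.toMatrix'_comp, ← LinearMap.toMatrix'_id]
    congr 1
    refine LinearMap.ext fun x => ?_
    obtain ⟨y, rfl⟩ := b.equivFun.surjective x
    have : (toLin' e).rangeRestrict y = y := by
      obtain ⟨_, z, rfl⟩ := y
      apply Subtype.ext
      change toLin' e (toLin' e z) = toLin' e z
      rw [← LinearMap.comp_apply, ← toLin'_mul, he]
    simp [f, g, this]

lemma allFree_pid (A : Type) [CommRing A] [IsDomain A] [IsPrincipalIdealRing A] : AllFree A :=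
  fun ι _ e he => by
  classical
  obtain ⟨n, b⟩ := Submodule.basisOfPid (Pi.basisFun A ι) (LinearMap.range (toLin' e))
  exact free_of_range he b

lemma allFree_local (A : Type) [CommRing A] [IsDomain A] [IsLocalRing A] : AllFree A :=
  fun ι _ e he => by
  obtain ⟨n, u, v, h1, h2⟩ := allFree_pid _ ι _ (idem_map he (IsLocalRing.residue A))
  obtain ⟨u, rfl⟩ := exists_map_eq (IsLocalRing.residue A) u fun i j =>
    IsLocalRing.residue_surjective _
  obtain ⟨v, rfl⟩ := exists_map_eq (IsLocalRing.residue A) v fun i j =>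
    IsLocalRing.residue_surjective _
  obtain ⟨h, h3, h4⟩ := lift_free _ he u v h1 h2
  exact h4.free ((IsLocalRing.residue_ne_zero_iff_isUnit h).1 (by rw [h3]; exact one_ne_zero))

end eqv

section loc

variable {A B C : Type} [CommRing A] [CommRing B] [CommRing C]

/-- `φ` is an injective localization at `M`. -/
structure IsLoc (φ : A →+* B) (M : Submonoid A) : Prop where
  inj : Function.Injective φ
  unit : ∀ m ∈ M, IsUnit (φ m)
  surj : ∀ b, ∃ m ∈ M, ∃ a, b * φ m = φ a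

/-- Divisors of elements of `M`. -/
def Sat (M : Submonoid A) : Submonoid A where
  carrier := {a | ∃ m ∈ M, a ∣ m}
  one_mem' := ⟨1, M.one_mem, dvd_rfl⟩
  mul_mem' := fun ⟨m, hm, h⟩ ⟨m', hm', h'⟩ => ⟨m * m', M.mul_mem hm hm', mul_dvd_mul h h'⟩

lemma le_Sat (M : Submonoid A) : M ≤ Sat M := fun m hm => ⟨m, hm, dvd_rfl⟩

lemma Sat.of_mem {M : Submonoid A} {m : A} (hm : m ∈ M) : m ∈ Sat M := le_Sat M hm

lemma Sat.of_dvd {M : Submonoid A} {a b : A} (hb : b ∈ Sat M) (h : a ∣ b) : a ∈ Sat M :=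
  let ⟨m, hm, h'⟩ := hb; ⟨m, hm, h.trans h'⟩

lemma Sat.of_unit {M : Submonoid A} {a : A} (h : IsUnit a) : a ∈ Sat M :=
  ⟨1, M.one_mem, h.dvd⟩

variable {φ : A →+* B} {M N : Submonoid A}

lemma IsLoc.unit' (h : IsLoc φ M) {a : A} (ha : a ∈ Sat M) : IsUnit (φ a) :=
  let ⟨m, hm, hd⟩ := ha; isUnit_of_dvd_unit (_root_.map_dvd φ hd) (h.unit m hm)

lemma IsLoc.alg (h : IsLoc φ M) : @IsLocalization A _ M B _ φ.toAlgebra := by
  let := φ.toAlgebra
  refine ⟨⟨fun m => h.unit m m.2, fun b => ?_, fun {x y} hxy => ⟨1, by rw [h.inj hxy]⟩⟩⟩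
  obtain ⟨m, hm, a, ha⟩ := h.surj b
  exact ⟨(a, ⟨m, hm⟩), ha⟩

lemma IsLoc.of_alg [Algebra A B] [IsLocalization M B] (h : Function.Injective (algebraMap A B)) :
    IsLoc (algebraMap A B) M :=
  ⟨h, fun m hm => IsLocalization.map_units B ⟨m, hm⟩, fun b =>
    let ⟨⟨a, m⟩, ha⟩ := IsLocalization.surj M b; ⟨m, m.2, a, ha⟩⟩

lemma le_nzd [IsDomain A] (h0 : 0 ∉ M) : M ≤ nonZeroDivisors A :=
  fun _ hm => mem_nonZeroDivisors_of_ne_zero fun h => h0 (h ▸ hm)

lemma isLoc_loc [IsDomain A] (h0 : 0 ∉ M) : IsLoc (algebraMap A (Localization M)) M :=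
  IsLoc.of_alg (IsLocalization.injective _ (le_nzd h0))

lemma IsLoc.zero_notMem [Nontrivial A] (h : IsLoc φ M) : 0 ∉ M := fun h0 => by
  have := h.unit 0 h0
  rw [map_zero, isUnit_zero_iff, ← map_zero φ, ← map_one φ] at this
  exact zero_ne_one (h.inj this)

lemma IsLoc.domain [IsDomain A] (h : IsLoc φ M) : IsDomain B :=
  letI := φ.toAlgebra
  haveI := h.alg
  IsLocalization.isDomain_of_le_nonZeroDivisors B (le_nzd h.zero_notMem)

lemma exists_loc [IsDomain A] (h0 : 0 ∉ M) :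
    ∃ (B : Type) (_ : CommRing B) (_ : IsDomain B) (φ : A →+* B), IsLoc φ M :=
  ⟨_, inferInstance, (isLoc_loc h0).domain, _, isLoc_loc h0⟩

lemma zero_notMem_powers [IsDomain A] {a : A} (ha : a ≠ 0) : 0 ∉ Submonoid.powers a :=
  fun ⟨_, h⟩ => ha (eq_zero_of_pow_eq_zero h)

lemma IsLoc.lift (h : IsLoc φ M) (ψ : A →+* C) (hu : ∀ m ∈ M, IsUnit (ψ m)) :
    ∃ χ : B →+* C, χ.comp φ = ψ :=
  letI := φ.toAlgebra
  haveI := h.alg
  ⟨IsLocalization.lift (M := M) (g := ψ) fun m => hu m m.2, IsLocalization.lift_comp _⟩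

lemma IsLoc.ext (h : IsLoc φ M) {χ χ' : B →+* C} (H : χ.comp φ = χ'.comp φ) : χ = χ' :=
  letI := φ.toAlgebra
  haveI := h.alg
  IsLocalization.ringHom_ext M H

lemma IsLoc.mono (h : IsLoc φ M) (h1 : M ≤ Sat N) (h2 : ∀ n ∈ N, IsUnit (φ n)) : IsLoc φ N :=
  ⟨h.inj, h2, fun b => by
    obtain ⟨m, hm, a, ha⟩ := h.surj b
    obtain ⟨n, hn, c, rfl⟩ := h1 hm
    exact ⟨_, hn, a * c, by rw [map_mul, map_mul, ← ha, mul_assoc]⟩⟩

lemma isLoc_equiv (ε : A ≃+* B) : IsLoc (ε : A →+* B) ⊥ :=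
  ⟨ε.injective, fun m hm => by rw [Submonoid.mem_bot.1 hm, map_one]; exact isUnit_one,
    fun b => ⟨1, Submonoid.one_mem _, ε.symm b, by simp⟩⟩

lemma IsLoc.inj_of_comp (h : IsLoc φ M) {χ : B →+* C} (hi : Function.Injective (χ.comp φ)) :
    Function.Injective χ := by
  rw [injective_iff_map_eq_zero]
  intro b hb
  obtain ⟨m, hm, a, ha⟩ := h.surj b
  have : χ.comp φ a = χ.comp φ 0 := by
    rw [map_zero, RingHom.comp_apply, ← ha, map_mul, hb, zero_mul]
  rw [hi this, map_zero] at ha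
  exact (h.unit m hm).mul_left_eq_zero.1 ha

lemma IsLoc.comp {ψ : B →+* C} {M' : Submonoid B} (h : IsLoc φ N) (h' : IsLoc ψ M')
    (h1 : M ≤ (Sat M').comap φ) (h2 : N ≤ Sat M) (h3 : ∀ m' ∈ M', ∃ m ∈ M, m' ∣ φ m) :
    IsLoc (ψ.comp φ) M := by
  refine ⟨h'.inj.comp h.inj, fun m hm => h'.unit' (h1 hm), fun c => ?_⟩
  obtain ⟨m', hm', b, hb⟩ := h'.surj c
  obtain ⟨m, hm, d, hd⟩ := h3 m' hm'
  obtain ⟨n, hn, a, ha⟩ := h.surj (b * d)
  obtain ⟨m2, hm2, d2, hd2⟩ := h2 hn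
  refine ⟨m * m2, M.mul_mem hm hm2, a * d2, ?_⟩
  simp only [RingHom.comp_apply, map_mul, hd, hd2, ← ha, ← hb]
  ring

lemma IsLoc.of_comp {χ : B →+* C} {M' : Submonoid B} (h : IsLoc φ N) (h' : IsLoc (χ.comp φ) M)
    (h1 : M ≤ (Sat M').comap φ) (h3 : ∀ m' ∈ M', ∃ m ∈ M, m' ∣ φ m) : IsLoc χ M' := by
  refine ⟨h.inj_of_comp h'.inj, fun m' hm' => ?_, fun c => ?_⟩
  · obtain ⟨m, hm, hd⟩ := h3 m' hm'
    exact isUnit_of_dvd_unit (_root_.map_dvd χ hd) (h'.unit m hm)
  · obtain ⟨m, hm, a, ha⟩ := h'.surj c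
    obtain ⟨m', hm', d, hd⟩ := h1 hm
    refine ⟨m', hm', φ a * d, ?_⟩
    simp only [RingHom.comp_apply] at ha
    rw [hd, map_mul, map_mul, ← ha, mul_assoc]

lemma IsLoc.poly (h : IsLoc φ M) :
    IsLoc (Polynomial.mapRingHom φ) (M.map (Polynomial.C : A →+* Polynomial A)) := by
  refine ⟨Polynomial.map_injective φ h.inj, ?_, fun b => ?_⟩
  · rintro _ ⟨m, hm, rfl⟩
    simpa using (h.unit m hm).map (Polynomial.C : B →+* Polynomial B)
  · induction b using Polynomial.induction_on with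
    | C b =>
      obtain ⟨m, hm, a, ha⟩ := h.surj b
      exact ⟨_, ⟨m, hm, rfl⟩, Polynomial.C a, by simp [← ha]⟩
    | add p q hp hq =>
      obtain ⟨m, hm, a, ha⟩ := hp
      obtain ⟨m', hm', a', ha'⟩ := hq
      exact ⟨_, Submonoid.mul_mem _ hm hm', a * m' + a' * m, by
        rw [map_add, map_mul, map_mul, map_mul, ← ha, ← ha']; ring⟩
    | monomial n b hb =>
      obtain ⟨m, hm, a, ha⟩ := hb
      exact ⟨m, hm, a * Polynomial.X, by
        rw [map_mul, ← ha]; simp only [Polynomial.coe_mapRingHom, Polynomial.map_X]; ring⟩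

lemma IsLoc.mv (h : IsLoc φ M) (σ : Type) :
    IsLoc (MvPolynomial.map (σ := σ) φ) (M.map (MvPolynomial.C : A →+* MvPolynomial σ A)) := by
  refine ⟨MvPolynomial.map_injective φ h.inj, ?_, fun b => ?_⟩
  · rintro _ ⟨m, hm, rfl⟩
    simpa using (h.unit m hm).map (MvPolynomial.C : B →+* MvPolynomial σ B)
  · induction b using MvPolynomial.induction_on with
    | C b =>
      obtain ⟨m, hm, a, ha⟩ := h.surj b
      exact ⟨_, ⟨m, hm, rfl⟩, MvPolynomial.C a, by simp [← ha]⟩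
    | add p q hp hq =>
      obtain ⟨m, hm, a, ha⟩ := hp
      obtain ⟨m', hm', a', ha'⟩ := hq
      exact ⟨_, Submonoid.mul_mem _ hm hm', a * m' + a' * m, by
        rw [map_add, map_mul, map_mul, map_mul, ← ha, ← ha']; ring⟩
    | mul_X b n hb =>
      obtain ⟨m, hm, a, ha⟩ := hb
      exact ⟨m, hm, a * MvPolynomial.X n, by
        rw [map_mul, ← ha]; simp only [MvPolynomial.map_X]; ring⟩

/-- Common denominators. -/
lemma IsLoc.den (h : IsLoc φ M) {α β : Type} [Finite α] [Finite β] (e : Matrix α β B) :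
    ∃ m ∈ M, ∃ e' : Matrix α β A, e'.map φ = φ m • e := by
  classical
  have := Fintype.ofFinite α
  have := Fintype.ofFinite β
  choose m hm a ha using fun p : α × β => h.surj (e p.1 p.2)
  refine ⟨∏ p, m p, M.prod_mem fun p _ => hm p, exists_map_eq φ _ fun i j => ?_⟩
  refine ⟨a (i, j) * ∏ p ∈ Finset.univ.erase (i, j), m p, ?_⟩
  rw [← Finset.mul_prod_erase _ _ (Finset.mem_univ (i, j)), map_mul, map_mul, ← ha]
  simp only [Matrix.smul_apply, smul_eq_mul]
  ring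

lemma IsLoc.qfree (h : IsLoc φ M) {ι : Type} [Fintype ι] {e : Matrix ι ι A} {a : A}
    (H : QFree (φ a) (e.map φ)) : ∃ m ∈ M, QFree (m * a) e := by
  obtain ⟨n, u, v, h1, h2⟩ := H
  obtain ⟨m, hm, u', hu⟩ := h.den u
  obtain ⟨m', hm', v', hv⟩ := h.den v
  refine ⟨m * m', M.mul_mem hm hm', n, u', v', Matrix.map_injective h.inj ?_,
    Matrix.map_injective h.inj ?_⟩
  · simp only [Matrix.map_mul, hu, hv, map_smul', Matrix.smul_mul, Matrix.mul_smul, h1, smul_smul,
      map_mul]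
    congr 1; ring
  · simp only [Matrix.map_mul, hu, hv, map_smul', Matrix.smul_mul, Matrix.mul_smul, h2, smul_smul,
      map_mul, map_one']
    congr 1; ring

lemma IsLoc.qfree' (h : IsLoc φ M) {ι : Type} [Fintype ι] {e : Matrix ι ι A}
    (H : Free (e.map φ)) : ∃ m ∈ M, QFree m e := by
  simpa using h.qfree (a := 1) (H.qfree _)

/-- All projective modules over the localization at `M` are free. -/
def AF (A : Type) [CommRing A] (M : Submonoid A) : Prop :=
  ∀ (B : Type) [CommRing B] (φ : A →+* B), IsLoc φ M → AllFree B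

lemma IsLoc.af (h : IsLoc φ M) (H : AllFree B) : AF A M := fun B' _ φ' h' ι _ e he => by
  obtain ⟨χ, hχ⟩ := h.lift φ' h'.unit
  obtain ⟨χ', hχ'⟩ := h'.lift φ h.unit
  have := (H ι _ (idem_map he χ')).map χ
  rwa [map_comp', h'.ext (χ := χ.comp χ') (χ' := RingHom.id _)
    (by rw [RingHom.comp_assoc, hχ', hχ]; rfl)] at this

lemma AF.down {M' : Submonoid B} (H : AF B M') (h : IsLoc φ N) (h1 : M ≤ (Sat M').comap φ)
    (h2 : N ≤ Sat M) (h3 : ∀ m' ∈ M', ∃ m ∈ M, m' ∣ φ m) : AF A M := fun C _ ψ hψ => by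
  obtain ⟨χ, rfl⟩ := h.lift ψ fun n hn => hψ.unit' (h2 hn)
  exact H C χ (h.of_comp hψ h1 h3)

lemma AF.up {M' : Submonoid B} (H : AF A M) (h : IsLoc φ N) (h1 : M ≤ (Sat M').comap φ)
    (h2 : N ≤ Sat M) (h3 : ∀ m' ∈ M', ∃ m ∈ M, m' ∣ φ m) : AF B M' := fun C _ _ hψ =>
  H C _ (h.comp hψ h1 h2 h3)

lemma AF.equiv {M' : Submonoid B} (H : AF A M) (ε : A ≃+* B)
    (h1 : M ≤ (Sat M').comap (ε : A →+* B)) (h2 : M' ≤ (Sat M).comap (ε.symm : B →+* A)) :
    AF B M' :=
  H.up (isLoc_equiv ε) h1 bot_le fun m' hm' => by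
    obtain ⟨m, hm, hd⟩ := h2 hm'
    exact ⟨m, hm, by simpa using _root_.map_dvd ε hd⟩

lemma AF.sat (H : AF A M) (h1 : M ≤ Sat N) (h2 : N ≤ Sat M) : AF A N :=
  H.equiv (RingEquiv.refl A) h1 h2

lemma AllFree.af (H : AllFree A) : AF A ⊥ := (isLoc_equiv (RingEquiv.refl A)).af H

lemma AF.allFree (H : AF A ⊥) : AllFree A := H A _ (isLoc_equiv (RingEquiv.refl A))

lemma AF.qfree [IsDomain A] (H : AF A N) (h : IsLoc φ M) (hM : M ≤ Sat N) {ι : Type} [Fintype ι]
    {e : Matrix ι ι B} (he : e * e = e) : ∃ n ∈ N, QFree (φ n) e := by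
  by_cases h0 : 0 ∈ N
  · exact ⟨0, h0, by rw [map_zero]; exact qfree_zero e⟩
  obtain ⟨C, _, _, ψ, hψ⟩ := exists_loc h0
  obtain ⟨χ, rfl⟩ := h.lift ψ fun m hm => hψ.unit' (hM hm)
  have hχ : IsLoc χ (N.map φ) := h.of_comp hψ (fun n hn => Sat.of_mem ⟨n, hn, rfl⟩)
    (by rintro _ ⟨n, hn, rfl⟩; exact ⟨n, hn, dvd_rfl⟩)
  obtain ⟨_, ⟨n, hn, rfl⟩, hq⟩ := hχ.qfree' (H C _ hψ ι _ (idem_map he χ))
  exact ⟨n, hn, hq⟩

end loc

end Pool.Agent.Lib.MP_a37f0b_ag
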