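import Pool.Agent.Lib.MP_a37f0b_ag.Prim
import Mathlib.RingTheory.Smooth.Field

/-!
Filtered colimits of essentially smooth algebras.
-/

open IsLocalRing

namespace Pool.Agent.Lib.MP_a37f0b_ag

variable {A R : Type} [CommRing A] [CommRing R] [IsLocalRing R] [Algebra A R]

open TensorProduct KaehlerDifferential in
theorem indep_of_param [Algebra.EssFiniteType A R]
    [PerfectField ((maximalIdeal R).comap (algebraMap A R)).ResidueField] {ι : Type} [Fintype ι]
    {r : ι → R} (hr : ∀ i, r i ∈ maximalIdeal R) (h : ∀ a : ι → R, ∑ i, a i * r i ∈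
      maximalIdeal R ^ 2 ⊔ ((maximalIdeal R).comap (algebraMap A R)).map (algebraMap A R) →
        ∀ i, a i ∈ maximalIdeal R) :
    LinearIndependent (ResidueField R) fun i => (1 : ResidueField R) ⊗ₜ[R] D A R (r i) := by
  set p := (maximalIdeal R).comap (algebraMap A R)
  set J := maximalIdeal R ^ 2 ⊔ p.map (algebraMap A R)
  have hJ : J ≤ maximalIdeal R := sup_le (Ideal.pow_le_self two_ne_zero) Ideal.map_comap_le
  let f : (R ⧸ J) →ₐ[A] ResidueField R := Ideal.Quotient.factorₐ A hJ
  have hf : RingHom.ker f = (maximalIdeal R).map (Ideal.Quotient.mk J) := Ideal.Quotient.factor_ker hJ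
  have h2 : RingHom.ker f ^ 2 = ⊥ := by
    rw [hf, ← Ideal.map_pow, Ideal.map_eq_bot_iff_le_ker, Ideal.mk_ker]; exact le_sup_left
  let k : p.ResidueField →ₐ[A] R ⧸ J := Ideal.ResidueField.liftₐ p (Algebra.ofId _ _)
    (fun a ha => Ideal.Quotient.eq_zero_iff_mem.2 (Ideal.mem_sup_right (Ideal.mem_map_of_mem _ ha)))
    fun a ha => (notMem_maximalIdeal.1 ha).map (Ideal.Quotient.mk J)
  let := k.toAlgebra
  let := (f.comp k).toAlgebra
  have := IsScalarTower.of_algebraMap_eq' k.comp_algebraMap.symm
  have := IsScalarTower.of_algebraMap_eq' (f.comp k).comp_algebraMap.symm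
  have : Algebra.EssFiniteType A (ResidueField R) :=
    inferInstanceAs (Algebra.EssFiniteType A (R ⧸ maximalIdeal R))
  have : Algebra.EssFiniteType p.ResidueField (ResidueField R) := .of_comp A _ _
  let f' : (R ⧸ J) →ₐ[p.ResidueField] ResidueField R := { f with commutes' := fun _ => rfl }
  have h3 := Algebra.FormallySmooth.comp_liftOfSurjective (AlgHom.id _ _) f'
    (Ideal.Quotient.factor_surjective hJ) ⟨2, h2⟩
  let L := ((derivationOfSectionOfKerSqZero f h2 (AlgHom.restrictScalars A _)
    congr(AlgHom.restrictScalars A $h3)).compAlgebraMap R).liftKaehlerDifferential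
  rw [Fintype.linearIndependent_iff]
  intro c hc i
  choose a ha using fun i => residue_surjective (c i)
  have h4 : ∑ i, a i • D A R (r i) ∈ maximalIdeal R • (⊤ : Submodule R Ω[R⁄A]) := by
    rw [← LinearMap.ker_tensorProductMk]
    change TensorProduct.mk R (ResidueField R) _ 1 _ = 0
    rw [map_sum, ← hc]
    refine Finset.sum_congr rfl fun i _ => ?_
    rw [map_smul, ← ha, ← algebraMap_smul (ResidueField R)]; rfl
  have h5 : (L (∑ i, a i • D A R (r i))).1 = 0 := by
    refine Submodule.smul_induction_on (p := fun x => (L x).1 = 0) h4 (fun b hb x _ => ?_)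
      fun x y hx hy => by simp [hx, hy]
    rw [map_smul, ← Ideal.mem_bot, ← h2, pow_two]
    exact Ideal.mul_mem_mul (hf.ge (Ideal.mem_map_of_mem _ hb)) (L x).2
  rw [← ha, residue_eq_zero_iff]
  refine h a (Ideal.Quotient.eq_zero_iff_mem.1 ?_) i
  have h6 : ∀ i, f (Ideal.Quotient.mk J (r i)) = 0 := fun i => (residue_eq_zero_iff _).2 (hr i)
  rw [← h5]
  simp [L, h6, Algebra.smul_def]

variable [IsDomain A] [IsPrincipalIdealRing A]
  (hR : ∀ T : Subalgebra A R, T.FG → ∃ (S : Type) (_ : CommRing S) (_ : Algebra A S)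
    (_ : Algebra.EssFiniteType A S) (_ : Algebra.FormallySmooth A S) (g : T →ₐ[A] S)
    (h : S →ₐ[A] R), h.comp g = T.val)
include hR

lemma loc_fac (s : Set R) (hs : s.Finite) :
    ∃ (S : Type) (_ : CommRing S) (_ : IsLocalRing S) (_ : IsDomain S) (_ : Algebra A S)
      (_ : Algebra.EssFiniteType A S) (_ : Algebra.FormallySmooth A S)
      (g : Algebra.adjoin A s →ₐ[A] S) (h : S →ₐ[A] R), (∀ x, h (g x) = x) ∧
        (maximalIdeal R).comap h = maximalIdeal S := by
  obtain ⟨S, _, _, _, _, g, h, H⟩ := hR (Algebra.adjoin A s) (Subalgebra.fg_def.2 ⟨s, hs, rfl⟩)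
  let q := (maximalIdeal R).comap h
  let h' : Localization.AtPrime q →ₐ[A] R := IsLocalization.liftAlgHom (M := q.primeCompl) (f := h)
    fun y => notMem_maximalIdeal.1 y.2
  obtain ⟨-, -, -, -, _, -⟩ := exists_coord (A := A) (R := Localization.AtPrime q) (ι := Empty)
    (r := Empty.elim) linearIndependent_empty_type
  refine ⟨Localization.AtPrime q, _, inferInstance, inferInstance, _, inferInstance, inferInstance,
    (IsScalarTower.toAlgHom A S _).comp g, h', fun x => by simpa [h'] using congr($H x), ?_⟩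
  refine ((maximalIdeal.isMaximal _).eq_of_le (Ideal.IsPrime.ne_top inferInstance) ?_).symm
  rw [← Localization.AtPrime.map_eq_maximalIdeal, Ideal.map_le_iff_le_comap]
  exact fun x hx => by simpa [h', q] using hx

theorem ind_free
    [PerfectField ((maximalIdeal R).comap (algebraMap A R)).ResidueField] {ι : Type} [Fintype ι]
    {r : ι → R} (hr : ∀ i, r i ∈ maximalIdeal R) (h : ∀ a : ι → R, ∑ i, a i * r i ∈
      maximalIdeal R ^ 2 ⊔ ((maximalIdeal R).comap (algebraMap A R)).map (algebraMap A R) →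
        ∀ i, a i ∈ maximalIdeal R) {v : A} (hv : v ≠ 0) :
    AllFree (Localization.Away (algebraMap A R v * ∏ i, r i)) := by
  classical
  have : NoZeroDivisors R := ⟨fun {a b} hab => by
    obtain ⟨S, _, _, _, _, _, _, g, h, h1, -⟩ := loc_fac hR {a, b} (by simp)
    let a' : Algebra.adjoin A {a, b} := ⟨a, Algebra.subset_adjoin (by simp)⟩
    let b' : Algebra.adjoin A {a, b} := ⟨b, Algebra.subset_adjoin (by simp)⟩
    exact (mul_eq_zero.1 (show g a' * g b' = 0 by
      rw [← map_mul, show a' * b' = 0 from Subtype.ext hab, map_zero])).imp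
      (fun h2 => (h1 a').symm.trans (by simp [h2])) fun h2 => (h1 b').symm.trans (by simp [h2])⟩
  have := NoZeroDivisors.to_isDomain R
  intro κ _ e he
  by_cases hw : algebraMap A R v * ∏ i, r i = 0
  · have : Subsingleton (Localization.Away (algebraMap A R v * ∏ i, r i)) :=
      IsLocalization.subsingleton (M := Submonoid.powers _) ⟨1, (pow_one _).trans hw⟩
    exact ⟨0, 0, 0, Subsingleton.elim _ _, Subsingleton.elim _ _⟩
  have h1 := isLoc_loc (zero_notMem_powers hw)
  obtain ⟨_, ⟨k, rfl⟩, E, h2⟩ := h1.den e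
  obtain ⟨S, _, _, _, _, _, _, g, f, h5, h4⟩ := loc_fac hR
    (Set.range r ∪ Set.range (Function.uncurry E)) ((Set.finite_range _).union (Set.finite_range _))
  let r' := fun i => (⟨r i, Algebra.subset_adjoin (Or.inl ⟨i, rfl⟩)⟩ :
    Algebra.adjoin A (Set.range r ∪ Set.range (Function.uncurry E)))
  let E' := Matrix.of fun i j => (⟨E i j, Algebra.subset_adjoin (Or.inr ⟨(i, j), rfl⟩)⟩ :
    Algebra.adjoin A (Set.range r ∪ Set.range (Function.uncurry E)))
  have h6 : (maximalIdeal S).comap (algebraMap A S) = (maximalIdeal R).comap (algebraMap A R) := by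
    ext; simp [← h4]
  have : PerfectField ((maximalIdeal S).comap (algebraMap A S)).ResidueField := by
    convert ‹PerfectField _›
  obtain ⟨τ, _, γ, j, -, h7, h8, h9⟩ := exists_coord (indep_of_param (A := A) (r := fun i => g (r' i))
    (fun i => by simpa [← h4, h5] using hr i) fun a ha i => h4.le (h (fun i => f (a i)) (by
      have : maximalIdeal S ^ 2 ⊔ ((maximalIdeal S).comap (algebraMap A S)).map (algebraMap A S) ≤
          Ideal.comap f (_ ⊔ _) := sup_le ((h4 ▸ Ideal.le_comap_pow f 2).trans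
        (Ideal.comap_mono le_sup_left)) (Ideal.map_le_iff_le_comap.2 fun x hx => by
          simpa using Ideal.mem_sup_right (Ideal.mem_map_of_mem _ (h6.le hx)))
      simpa [h5] using this ha) i))
  have h10 := et_free h7 hv (Finset.univ.map j)
  set w' := algebraMap A _ v * ∏ i, r' i
  rw [show γ (MvPolynomial.C v * ∏ i ∈ Finset.univ.map j, MvPolynomial.X i) = g w' by
    simp [w', h9, ← h8]] at h10
  have h11 : (w' : R) = algebraMap A R v * ∏ i, r i := by simp [w', r']
  generalize algebraMap A R v * ∏ i, r i = w at *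
  set ψ := algebraMap R (Localization (Submonoid.powers w))
  have h13 : E'.map (ψ.comp (Subalgebra.val _).toRingHom) = ψ (w ^ k) • e := h2
  have h12 : E' * E' = w' ^ k • E' := Matrix.map_injective
    (f := ψ.comp (Subalgebra.val _).toRingHom) (h1.inj.comp Subtype.val_injective) (by
      dsimp only
      rw [Matrix.map_mul, map_smul', h13, Matrix.smul_mul, Matrix.mul_smul, he]
      simp [h11])
  obtain ⟨B, _, _, φ, hφ⟩ := exists_loc (zero_notMem_powers (a := g w') fun h => hw (by
    rw [← h11, ← h5, h, map_zero]))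
  obtain ⟨u, hu⟩ := (hφ.unit _ ⟨k, rfl⟩).exists_left_inv
  obtain ⟨l, hl⟩ := hφ.lift (ψ.comp f.toRingHom) (by
    rintro _ ⟨n, rfl⟩
    simpa [h5, h11] using h1.unit _ ⟨n, rfl⟩)
  have := (h10 B φ hφ κ (u • E'.map (φ.comp g.toRingHom)) (by
    rw [Matrix.smul_mul, Matrix.mul_smul, ← Matrix.map_mul, h12, map_smul', smul_smul u, smul_smul]
    congr 1
    simp at hu ⊢
    linear_combination u * hu)).map l
  rwa [map_smul', map_comp', ← RingHom.comp_assoc, hl, show (ψ.comp f.toRingHom).comp g.toRingHom =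
    ψ.comp (Subalgebra.val _).toRingHom from RingHom.ext fun x => congr(ψ $(h5 x)), h13, smul_smul,
    show l u * ψ (w ^ k) = 1 by
      simpa [show l (φ (g w')) = ψ (f (g w')) from congr($hl _), h5, h11] using congr(l $hu),
    one_smul] at this

end Pool.Agent.Lib.MP_a37f0b_ag
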