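import Pool.Agent.Lib.MP_a37f0b_ag.Ind

/-!
Coordinate hyperplanes together with one hyperplane through a point of the base.
-/

open Polynomial IsLocalRing

namespace Pool.Agent.Lib.MP_a37f0b_ag

/-- The equation of the divisor. -/
noncomputable def lw {τ V : Type} [CommRing V] (u v : V) (S I : Finset τ) : MvPolynomial τ V :=
  MvPolynomial.C u * (MvPolynomial.C v - ∑ i ∈ S, MvPolynomial.X i) * ∏ i ∈ I, MvPolynomial.X i

variable {V W B F τ : Type} [CommRing V] [CommRing W] [CommRing B] [Field F]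

lemma lw_ne [IsDomain V] {u v : V} (hu : u ≠ 0) (hv : v ≠ 0) (S I : Finset τ) :
    lw u v S I ≠ 0 :=
  mul_ne_zero (mul_ne_zero (by simpa using hu) fun h => hv (by
    simpa using congrArg MvPolynomial.constantCoeff h))
    (Finset.prod_ne_zero_iff.2 fun i _ => MvPolynomial.X_ne_zero i)

lemma lw_map (a : V →+* W) (u v : V) (S I : Finset τ) :
    MvPolynomial.map a (lw u v S I) = lw (a u) (a v) S I := by simp [lw]

lemma lw_eps [DecidableEq τ] (x : τ) (u v : V) (S I : Finset τ) :
    ((MvPolynomial.renameEquiv V (Equiv.optionSubtypeNe x).symm).trans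
      (MvPolynomial.optionEquivRight V _)).toRingEquiv (lw u v S I) =
    lw (C u * if x ∈ I then X else 1) (C v - if x ∈ S then X else 0) (S.subtype (· ≠ x))
      (I.subtype (· ≠ x)) := by
  set ε := ((MvPolynomial.renameEquiv V (Equiv.optionSubtypeNe x).symm).trans
      (MvPolynomial.optionEquivRight V _)).toRingEquiv
  have e1 : ε (MvPolynomial.X x) = MvPolynomial.C X := by simp [ε]
  have e2 : ∀ i : {i // i ≠ x}, ε (MvPolynomial.X i) = MvPolynomial.X i := fun i => by
    simp [ε, Equiv.optionSubtypeNe_symm_of_ne i.2]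
  have e3 : ∀ v, ε (MvPolynomial.C v) = MvPolynomial.C (C v) := fun v => by simp [ε]
  have e4 : ε (∏ i ∈ I, MvPolynomial.X i) = MvPolynomial.C (if x ∈ I then X else 1) *
      ∏ i ∈ I.subtype (· ≠ x), MvPolynomial.X i := by
    rw [← Finset.prod_filter_not_mul_prod_filter I (· ≠ x), ← Finset.prod_subtype_eq_prod_filter
      (p := (· ≠ x))]
    simp only [map_mul, map_prod, e2, not_not]
    congr 1
    split_ifs with hI
    · rw [Finset.prod_eq_single_of_mem x (by simpa) fun i hi h =>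
        (h (Finset.mem_filter.1 hi).2).elim, e1]
    · rw [Finset.filter_false_of_mem fun i hi (h : i = x) => hI (h ▸ hi), Finset.prod_empty,
        map_one]
  have e5 : ε (∑ i ∈ S, MvPolynomial.X i) = MvPolynomial.C (if x ∈ S then X else 0) +
      ∑ i ∈ S.subtype (· ≠ x), MvPolynomial.X i := by
    rw [← Finset.sum_filter_not_add_sum_filter S (· ≠ x), ← Finset.sum_subtype_eq_sum_filter
      (p := (· ≠ x))]
    simp only [map_add, map_sum, e2, not_not]
    congr 1
    split_ifs with hI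
    · rw [Finset.sum_eq_single_of_mem x (by simpa) fun i hi h =>
        (h (Finset.mem_filter.1 hi).2).elim, e1]
    · rw [Finset.filter_false_of_mem fun i hi (h : i = x) => hI (h ▸ hi), Finset.sum_empty,
        map_zero]
  simp only [lw, map_mul, map_sub, e3, e4, e5]
  ring

lemma exists_refl [DecidableEq τ] (v : V) {S : Finset τ} {x : τ} (hx : x ∈ S) :
    ∃ ε : MvPolynomial τ V ≃+* MvPolynomial τ V, (∀ c, ε (MvPolynomial.C c) = MvPolynomial.C c) ∧
      ε (MvPolynomial.X x) = MvPolynomial.C v - ∑ i ∈ S, MvPolynomial.X i := by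
  let g : MvPolynomial τ V →+* MvPolynomial τ V := MvPolynomial.eval₂Hom MvPolynomial.C fun i =>
    if i = x then MvPolynomial.C v - ∑ i ∈ S, MvPolynomial.X i else MvPolynomial.X i
  have h1 : ∀ c, g (MvPolynomial.C c) = MvPolynomial.C c := fun c => by simp [g]
  have h2 : g (MvPolynomial.X x) = MvPolynomial.C v - ∑ i ∈ S, MvPolynomial.X i := by simp [g]
  have h3 : ∀ i, i ≠ x → g (MvPolynomial.X i) = MvPolynomial.X i := fun i hi => by simp [g, hi]
  have h4 : g.comp g = RingHom.id _ := MvPolynomial.ringHom_ext (by simp [h1]) fun i => by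
    by_cases hi : i = x
    · subst hi
      rw [RingHom.comp_apply, h2, map_sub, h1, map_sum, ← Finset.add_sum_erase _ _ hx, h2,
        Finset.sum_congr rfl fun j hj => h3 j (Finset.ne_of_mem_erase hj),
        ← Finset.add_sum_erase _ _ hx, RingHom.id_apply]
      ring
    · simp [h3 i hi]
  exact ⟨RingEquiv.ofRingHom g g h4 h4, h1, h2⟩

section
variable [IsDomain V] [IsPrincipalIdealRing V]

theorem lw_prod (hV : Inf V) {u v : V} (hu : u ≠ 0) (hv : v ≠ 0) (n : ℕ) : ∀ (τ : Type) [Finite τ]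
    (S I : Finset τ) (B : Type) [CommRing B] [IsDomain B] (γ : MvPolynomial τ V →+* B)
    (χ : B →+* F), Et γ → I.card = n → LQ χ (γ (lw u v S I)) := by
  classical
  induction n with
  | zero =>
    intro τ _ S I B _ _ γ χ h hI
    rw [Finset.card_eq_zero.1 hI]
    rcases S.eq_empty_or_nonempty with rfl | ⟨x, hx⟩
    · simpa [lw] using eml0 hV h χ (mul_ne_zero hu hv)
    · obtain ⟨ε, e1, e2⟩ := exists_refl v hx
      have := et_prod hV hu 1 τ {x} B _ χ (h.equiv ε) rfl
      rw [Finset.prod_singleton, RingHom.comp_apply, RingHom.coe_coe, map_mul, e1, e2] at this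
      rwa [lw, Finset.prod_empty, mul_one]
  | succ n ih =>
    intro τ _ S I B _ _ γ χ h hI
    obtain ⟨x, J, hx, rfl, hJ⟩ := Finset.card_eq_succ.1 hI
    have h1 := ih τ S J B γ χ h hJ
    rw [show lw u v S (insert x J) = lw u v S J * MvPolynomial.X x by
      rw [lw, lw, Finset.prod_insert hx]; ring, map_mul]
    by_cases h0 : χ (γ (MvPolynomial.X x)) = 0
    · have e2 := lw_eps x u v S J
      set ε := ((MvPolynomial.renameEquiv V (Equiv.optionSubtypeNe x).symm).trans
        (MvPolynomial.optionEquivRight V _)).toRingEquiv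
      have e1 : ε (MvPolynomial.X x) = MvPolynomial.C X := by simp [ε]
      have h2 : ∀ i ∈ J, i ≠ x := fun i hi h => hx (h ▸ hi)
      obtain ⟨γ, rfl⟩ : ∃ γ' : _ →+* B, γ'.comp ε = γ :=
        ⟨γ.comp ε.symm.toRingHom, RingHom.ext (by simp)⟩
      obtain ⟨R, _, _, l, χ, h3, rfl, hχ⟩ := exists_locNZ χ
      rw [RingHom.comp_apply γ, RingHom.coe_coe, e2] at h1
      rw [RingHom.comp_apply γ, RingHom.coe_coe, e1] at h0
      rw [RingHom.comp_apply γ, RingHom.comp_apply γ, RingHom.coe_coe, e1, e2, h3.lq, map_mul l]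
      have e3 : MvPolynomial.map (evalRingHom 0) (lw (C u * if x ∈ J then X else 1)
          (C v - if x ∈ S then X else 0) (S.subtype (· ≠ x)) (J.subtype (· ≠ x))) =
          lw u v (S.subtype (· ≠ x)) (J.subtype (· ≠ x)) := by
        rw [lw_map, if_neg hx]; congr 1
        · simp
        · split_ifs <;> simp
      refine et_step hV ((h.up (isLoc_equiv ε)).loc h3) hχ h0 (e3 ▸ lw_ne hu hv _ _)
        ((h3.lq _ _).1 h1) fun R' _ _ γ' χ' h' => ?_
      exact e3 ▸ ih _ _ (J.subtype (· ≠ x)) R' γ' χ' h'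
          (by rwa [Finset.card_subtype, Finset.filter_true_of_mem h2])
    · exact LAF.sat h1 (sup_le (le_sup_left.trans (le_Sat _)) (Submonoid.powers_le.2
        ⟨_, Submonoid.mem_sup_right (Submonoid.mem_powers _), dvd_mul_right _ _⟩))
        ((sup_le le_sup_left (Submonoid.powers_le.2 (mul_mem (Submonoid.mem_sup_right
          (Submonoid.mem_powers _)) (Submonoid.mem_sup_left h0)))).trans (le_Sat _))

end

theorem lw_main [Finite τ] [IsDomain B] [IsDomain W] [UniqueFactorizationMonoid W]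
    {γ : MvPolynomial τ W →+* B} (h : Et γ) {χ : B →+* F} (hχ : ∀ b, χ b ≠ 0 → IsUnit b)
    (hV : (Set.range ((χ.comp γ).comp MvPolynomial.C)).Infinite)
    (hW : ∀ P : Ideal W, P.IsPrime → (∀ m ∈ P, χ (γ (MvPolynomial.C m)) = 0) → ∀ f ∈ P, Prime f →
      ∀ g ∈ P, f ∣ g) {u v : W} (hu : u ≠ 0) (hv : v ≠ 0) (S I : Finset τ) :
    LAF B (Submonoid.powers (γ (lw u v S I))) := by
  obtain ⟨V', _, _, a, γ', ha, rfl, h'⟩ := h.base hχ
  have := ha.pid fun P hP h0 => hW P hP fun m hm => by_contra fun hn =>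
    h0 m (by simpa [NZ] using hn) hm
  have : Inf V' := fun F _ c hc => hV ((hc.image fun y =>
    χ (γ' (MvPolynomial.C (Function.invFun c y)))).subset (by
      rintro _ ⟨x, rfl⟩
      refine ⟨_, ⟨a x, rfl⟩, ?_⟩
      by_contra hn
      refine (ha.nz_unit (Function.invFun c (c (a x)) - a x)
        (by simpa [sub_eq_zero] using hn)).map c |>.ne_zero ?_
      rw [map_sub, Function.invFun_eq (f := c) ⟨_, rfl⟩, sub_self]))
  have := (LAF.lq hχ).2 (lw_prod this ((map_ne_zero_iff _ ha.inj).2 hu)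
    ((map_ne_zero_iff _ ha.inj).2 hv) _ τ S I B γ' χ h' rfl)
  rwa [RingHom.comp_apply, lw_map]

variable [IsDomain V] [IsPrincipalIdealRing V]

theorem lw_inf [Finite τ] [IsDomain B] {γ : MvPolynomial τ V →+* B} (h : Et γ)
    {χ : B →+* F} (hχ : ∀ b, χ b ≠ 0 → IsUnit b) {x : τ}
    (hx : ∀ p : V[X], p.eval₂ ((χ.comp γ).comp MvPolynomial.C) (χ (γ (MvPolynomial.X x))) = 0 →
      p.map ((χ.comp γ).comp MvPolynomial.C) = 0) {u v : V}
    (hu : u ≠ 0) (hv : v ≠ 0) (S I : Finset τ) : LAF B (Submonoid.powers (γ (lw u v S I))) := by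
  classical
  set c := (χ.comp γ).comp MvPolynomial.C
  have e2 := lw_eps x u v S I
  set ε := ((MvPolynomial.renameEquiv V (Equiv.optionSubtypeNe x).symm).trans
    (MvPolynomial.optionEquivRight V _)).toRingEquiv
  have e1 : ε (MvPolynomial.X x) = MvPolynomial.C X := by simp [ε]
  obtain ⟨γ, rfl⟩ : ∃ γ' : _ →+* B, γ'.comp ε = γ :=
    ⟨γ.comp ε.symm.toRingHom, RingHom.ext (by simp)⟩
  have e3 : (χ.comp γ).comp MvPolynomial.C =
      eval₂RingHom c (χ (γ (ε (MvPolynomial.X x)))) := by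
    ext <;> simp [c, e1, ε]
  have e4 : ∀ p, χ (γ (MvPolynomial.C p)) = 0 → p.map c = 0 := fun p hp =>
    hx p ((RingHom.congr_fun e3 p).symm.trans hp)
  rw [RingHom.comp_apply γ, RingHom.coe_coe, e2]
  refine lw_main (h.up (isLoc_equiv ε)) hχ (Set.infinite_of_injective_forall_mem
    (f := fun n : ℕ => χ (γ (MvPolynomial.C (X ^ n)))) (fun n m hnm => ?_) fun n => ⟨_, rfl⟩)
    (fun P hP h0 f hf hp g hg => ?_) (by split_ifs <;> simp [hu])
    (fun h => hv (by have := congrArg (eval 0) h; split_ifs at this <;> simpa using this)) _ _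
  · have := e4 (X ^ n - X ^ m) (by simpa [sub_eq_zero] using hnm)
    simpa using congr(natDegree $(show (X : F[X]) ^ n = X ^ m by simpa [sub_eq_zero] using this))
  · obtain ⟨π, hπ⟩ := (IsPrincipalIdealRing.principal (RingHom.ker c)).principal
    have h1 : ∀ a ∈ P, C π ∣ a := fun a ha => (C_dvd_iff_dvd_coeff _ _).2 fun n =>
      Ideal.mem_span_singleton.1 (hπ.le (by simpa using congr($(e4 a (h0 a ha)).coeff n)))
    refine ((hp.irreducible.dvd_iff.1 (h1 f hf)).resolve_left fun h => ?_).dvd.trans (h1 g hg)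
    exact ((isUnit_C.1 h).map c).ne_zero (hπ.ge (Ideal.mem_span_singleton_self π))

theorem lw_free {R : Type} [CommRing R] [IsLocalRing R] [Finite τ]
    [IsDomain R] {γ : MvPolynomial τ V →+* R} (h : Et γ) {u v : V} (hu : u ≠ 0) (hv : v ≠ 0)
    (S I : Finset τ) : AF R (Submonoid.powers (γ (lw u v S I))) := by
  intro A _ φ hφ ι _ e he
  have := hφ.domain
  let χ := (algebraMap _ (FractionRing (ResidueField R)[X])).comp (mapRingHom (residue R))
  obtain ⟨B, _, _, l, χ', h1, h2, h3⟩ := exists_locNZ χ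
  have h2' : ∀ a, χ' (l a) = χ a := RingHom.congr_fun h2
  let ε := (MvPolynomial.uniqueAlgEquiv R Unit).toRingEquiv
  have h4 := lw_inf ((((h.mv (τ := Unit)).equiv (MvPolynomial.sumRingEquiv V Unit τ)).loc
    (isLoc_equiv ε)).loc h1) h3 (x := Sum.inl ()) (fun p hp => by
      set c := (residue R).comp (γ.comp MvPolynomial.C)
      set j := algebraMap (ResidueField R)[X] (FractionRing (ResidueField R)[X])
      have e1 : (χ'.comp (l.comp ((ε : MvPolynomial Unit R →+* R[X]).comp ((MvPolynomial.map γ).comp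
          (MvPolynomial.sumRingEquiv V Unit τ : MvPolynomial (Unit ⊕ τ) V →+*
            MvPolynomial Unit (MvPolynomial τ V)))))).comp MvPolynomial.C =
          (j.comp C).comp c := RingHom.ext fun a => by simp [ε, h2', χ, c, j]
      have e2 : χ' (l (ε (MvPolynomial.map γ (MvPolynomial.sumRingEquiv V Unit τ
          (MvPolynomial.X (Sum.inl ())))))) = j X := by simp [ε, h2', χ, j]
      rw [e1] at hp ⊢
      replace hp : eval₂ ((j.comp C).comp c) (j X) p = 0 := e2 ▸ hp
      rw [← eval₂_map, ← hom_eval₂, eval₂_C_X, map_eq_zero_iff _ (IsFractionRing.injective _ _)]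
        at hp
      rw [← map_map, hp, Polynomial.map_zero]) hu hv
    (S.map ⟨Sum.inr, Sum.inr_injective⟩) (I.map ⟨Sum.inr, Sum.inr_injective⟩)
  have h5 : LQ χ (C (γ (lw u v S I))) := by
    rw [← h2, h1.lq, ← LAF.lq h3]
    simpa [ε, lw] using h4
  obtain ⟨n, hn, h6⟩ := h5.af.qfree hφ.poly (by
    rintro _ ⟨_, ⟨k, rfl⟩, rfl⟩
    exact Sat.of_mem (Submonoid.mem_sup_right ⟨k, by simp⟩)) (idem_map he C)
  obtain ⟨f, hf, _, ⟨k, rfl⟩, rfl⟩ := Submonoid.mem_sup.1 hn
  refine prim_inv φ he (f := f) (fun h => hf (by simp [χ, h])) (h6.of_dvd ?_)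
  rw [map_mul, IsUnit.mul_right_dvd]
  · rfl
  · simpa only [map_pow, coe_mapRingHom, map_C] using
      (isUnit_C.2 (hφ.unit _ (Submonoid.mem_powers _))).pow k

theorem ind_lw {A R : Type} [CommRing A] [CommRing R] [IsLocalRing R] [IsDomain R] [Algebra A R]
    [IsDomain A] [IsPrincipalIdealRing A]
    (hR : ∀ T : Subalgebra A R, T.FG → ∃ (S : Type) (_ : CommRing S) (_ : Algebra A S)
      (_ : Algebra.EssFiniteType A S) (_ : Algebra.FormallySmooth A S) (g : T →ₐ[A] S)
      (h : S →ₐ[A] R), h.comp g = T.val)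
    [PerfectField ((maximalIdeal R).comap (algebraMap A R)).ResidueField] {ι : Type} [Fintype ι]
    {r : ι → R} (hr : ∀ i, r i ∈ maximalIdeal R) (h : ∀ a : ι → R, ∑ i, a i * r i ∈
      maximalIdeal R ^ 2 ⊔ ((maximalIdeal R).comap (algebraMap A R)).map (algebraMap A R) →
        ∀ i, a i ∈ maximalIdeal R) {v : A} (hv : v ≠ 0) (J : Finset ι) :
    AllFree (Localization.Away ((algebraMap A R v - ∑ i ∈ J, r i) * ∏ i, r i)) := by
  classical
  intro κ _ e he
  by_cases hw : (algebraMap A R v - ∑ i ∈ J, r i) * ∏ i, r i = 0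
  · have : Subsingleton (Localization.Away ((algebraMap A R v - ∑ i ∈ J, r i) * ∏ i, r i)) :=
      IsLocalization.subsingleton (M := Submonoid.powers _) ⟨1, (pow_one _).trans hw⟩
    exact ⟨0, 0, 0, Subsingleton.elim _ _, Subsingleton.elim _ _⟩
  have h1 := isLoc_loc (zero_notMem_powers hw)
  obtain ⟨_, ⟨k, rfl⟩, E, h2⟩ := h1.den e
  obtain ⟨S, _, _, _, _, _, _, g, f, h5, h4⟩ := loc_fac hR
    (Set.range r ∪ Set.range (Function.uncurry E)) ((Set.finite_range _).union (Set.finite_range _))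
  let r' := fun i => (⟨r i, Algebra.subset_adjoin (Or.inl ⟨i, rfl⟩)⟩ :
    Algebra.adjoin A (Set.range r ∪ Set.range (Function.uncurry E)))
  let E' := Matrix.of fun i j => (⟨E i j, Algebra.subset_adjoin (Or.inr ⟨(i, j), rfl⟩)⟩ :
    Algebra.adjoin A (Set.range r ∪ Set.range (Function.uncurry E)))
  have h6 : (maximalIdeal S).comap (algebraMap A S) = (maximalIdeal R).comap (algebraMap A R) := by
    ext; simp [← h4]
  have : PerfectField ((maximalIdeal S).comap (algebraMap A S)).ResidueField := by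
    convert ‹PerfectField _›
  obtain ⟨τ, _, γ, j, -, h7, h8, h9⟩ := exists_coord (indep_of_param (A := A) (r := fun i => g (r' i))
    (fun i => by simpa [← h4, h5] using hr i) fun a ha i => h4.le (h (fun i => f (a i)) (by
      have : maximalIdeal S ^ 2 ⊔ ((maximalIdeal S).comap (algebraMap A S)).map (algebraMap A S) ≤
          Ideal.comap f (_ ⊔ _) := sup_le ((h4 ▸ Ideal.le_comap_pow f 2).trans
        (Ideal.comap_mono le_sup_left)) (Ideal.map_le_iff_le_comap.2 fun x hx => by
          simpa using Ideal.mem_sup_right (Ideal.mem_map_of_mem _ (h6.le hx)))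
      simpa [h5] using this ha) i))
  have h10 := lw_free h7 one_ne_zero hv (J.map j) (Finset.univ.map j)
  set w' := (algebraMap A _ v - ∑ i ∈ J, r' i) * ∏ i, r' i
  rw [show γ (lw 1 v (J.map j) (Finset.univ.map j)) = g w' by
    simp [lw, w', h9, ← h8]] at h10
  have h11 : (w' : R) = (algebraMap A R v - ∑ i ∈ J, r i) * ∏ i, r i := by simp [w', r']
  generalize (algebraMap A R v - ∑ i ∈ J, r i) * ∏ i, r i = w at *
  set ψ := algebraMap R (Localization (Submonoid.powers w))
  have h13 : E'.map (ψ.comp (Subalgebra.val _).toRingHom) = ψ (w ^ k) • e := h2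
  have h12 : E' * E' = w' ^ k • E' := Matrix.map_injective
    (f := ψ.comp (Subalgebra.val _).toRingHom) (h1.inj.comp Subtype.val_injective) (by
      dsimp only
      rw [Matrix.map_mul, map_smul', h13, Matrix.smul_mul, Matrix.mul_smul, he]
      simp [h11])
  obtain ⟨B, _, _, φ, hφ⟩ := exists_loc (zero_notMem_powers (a := g w') fun h => hw (by
    rw [← h11, ← h5, h, map_zero]))
  obtain ⟨u, hu⟩ := (hφ.unit _ ⟨k, rfl⟩).exists_left_inv
  obtain ⟨l, hl⟩ := hφ.lift (ψ.comp f.toRingHom) (by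
    rintro _ ⟨n, rfl⟩
    simpa [h5, h11] using h1.unit _ ⟨n, rfl⟩)
  have := (h10 B φ hφ κ (u • E'.map (φ.comp g.toRingHom)) (by
    rw [Matrix.smul_mul, Matrix.mul_smul, ← Matrix.map_mul, h12, map_smul', smul_smul u, smul_smul]
    congr 1
    simp at hu ⊢
    linear_combination u * hu)).map l
  rwa [map_smul', map_comp', ← RingHom.comp_assoc, hl, show (ψ.comp f.toRingHom).comp g.toRingHom =
    ψ.comp (Subalgebra.val _).toRingHom from RingHom.ext fun x => congr(ψ $(h5 x)), h13, smul_smul,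
    show l u * ψ (w ^ k) = 1 by
      simpa [show l (φ (g w')) = ψ (f (g w')) from congr($hl _), h5, h11] using congr(l $hu),
    one_smul] at this

end Pool.Agent.Lib.MP_a37f0b_ag
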