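import Pool.Agent.Lib.MP_a37f0b_ag.QS
import Mathlib.RingTheory.Flat.EquationalCriterion
import Mathlib.RingTheory.Flat.Stability
import Mathlib.RingTheory.TensorProduct.MvPolynomial

-- part Pool.Agent.Lib.MP_a37f0b_ag.Key
section

/-!
Descent from Laurent series to Laurent polynomials.
-/

open Matrix Polynomial

namespace Pool.Agent.Lib.MP_a37f0b_ag

section defs

variable {A B D : Type} [CommRing A] [CommRing B] [CommRing D]

/-- Functoriality of localization away from an element. -/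
noncomputable def lmap (f : A →+* B) {a : A} {b : B} (h : f a = b) :
    Localization.Away a →+* Localization.Away b :=
  IsLocalization.map (M := Submonoid.powers a) (T := Submonoid.powers b) _ f
    (Submonoid.powers_le.2 ⟨1, by simp [h]⟩)

lemma lmap_alg (f : A →+* B) {a : A} {b : B} (h : f a = b) (x : A) :
    lmap f h (algebraMap _ _ x) = algebraMap _ _ (f x) := IsLocalization.map_eq _ _

/-- Laurent polynomials. -/
abbrev LP (A : Type) [CommRing A] := Localization.Away (X : A[X])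

/-- Laurent series. -/
abbrev LS (A : Type) [CommRing A] := Localization.Away (PowerSeries.X : PowerSeries A)

/-- Polynomials as power series. -/
noncomputable abbrev cS (A : Type) [CommRing A] : A[X] →+* PowerSeries A :=
  coeToPowerSeries.ringHom

/-- Polynomials as Laurent polynomials. -/
noncomputable abbrev iP (A : Type) [CommRing A] : A[X] →+* LP A := algebraMap _ _

/-- Power series as Laurent series. -/
noncomputable abbrev iS (A : Type) [CommRing A] : PowerSeries A →+* LS A := algebraMap _ _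

/-- Base change of Laurent polynomials. -/
noncomputable def mP (f : A →+* B) : LP A →+* LP B := lmap (mapRingHom f) (map_X f)

/-- Base change of Laurent series. -/
noncomputable def mS (f : A →+* B) : LS A →+* LS B := lmap (PowerSeries.map f) (PowerSeries.map_X f)

/-- Laurent polynomials as Laurent series. -/
noncomputable def pS (A : Type) [CommRing A] : LP A →+* LS A := lmap (cS A) coe_X

lemma mP_iP (f : A →+* B) (x : A[X]) : mP f (iP A x) = iP B (x.map f) := lmap_alg _ _ _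

lemma mS_iS (f : A →+* B) (x : PowerSeries A) : mS f (iS A x) = iS B (x.map f) := lmap_alg _ _ _

lemma pS_iP (x : A[X]) : pS A (iP A x) = iS A (cS A x) := lmap_alg _ _ _

lemma map_cS (f : A →+* B) (x : A[X]) : (cS A x).map f = cS B (x.map f) := by
  ext n; simp

lemma mP_comp (f : A →+* B) (g : B →+* D) : (mP g).comp (mP f) = mP (g.comp f) :=
  IsLocalization.ringHom_ext (Submonoid.powers (X : A[X])) (RingHom.ext fun x => by
    simp only [RingHom.comp_apply, mP_iP, Polynomial.map_map])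

lemma mS_comp (f : A →+* B) (g : B →+* D) : (mS g).comp (mS f) = mS (g.comp f) :=
  IsLocalization.ringHom_ext (Submonoid.powers (PowerSeries.X : PowerSeries A)) (RingHom.ext fun x => by
    simp only [RingHom.comp_apply, mS_iS, PowerSeries.map_comp])

lemma mS_id : mS (RingHom.id A) = RingHom.id _ :=
  IsLocalization.ringHom_ext (Submonoid.powers (PowerSeries.X : PowerSeries A)) (RingHom.ext fun x => by
    simp only [RingHom.comp_apply, mS_iS, PowerSeries.map_id, RingHom.id_apply, id])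

lemma mS_pS (f : A →+* B) : (mS f).comp (pS A) = (pS B).comp (mP f) :=
  IsLocalization.ringHom_ext (Submonoid.powers (X : A[X])) (RingHom.ext fun x => by
    simp only [RingHom.comp_apply, mS_iS, mP_iP, pS_iP, map_cS])

lemma isLoc_iP [IsDomain A] : IsLoc (iP A) (Submonoid.powers X) :=
  isLoc_loc (zero_notMem_powers X_ne_zero)

lemma isLoc_iS [IsDomain A] : IsLoc (iS A) (Submonoid.powers PowerSeries.X) :=
  isLoc_loc (zero_notMem_powers PowerSeries.X_ne_zero)

lemma isLoc_id : IsLoc (RingHom.id A) ⊥ := isLoc_equiv (RingEquiv.refl A)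

lemma IsLoc.mP [IsDomain A] [IsDomain B] {f : A →+* B} {a : A}
    (h : IsLoc f (Submonoid.powers a)) : IsLoc (mP f) (Submonoid.powers (iP A (C a))) := by
  have e : (MP_a37f0b_ag.mP f).comp (iP A) = (iP B).comp (mapRingHom f) :=
    RingHom.ext fun x => mP_iP f x
  have u : IsUnit (mapRingHom f (C a)) := h.poly.unit _ ⟨a, Submonoid.mem_powers _, rfl⟩
  have h1 : IsLoc ((iP B).comp (mapRingHom f)) (Submonoid.powers (C a) ⊔ Submonoid.powers X) :=
    h.poly.comp isLoc_iP
      (sup_le (Submonoid.powers_le.2 (Sat.of_unit u))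
        (Submonoid.powers_le.2 (Sat.of_mem ⟨1, by simp⟩)))
      (by rw [Submonoid.map_powers]; exact le_sup_left.trans (le_Sat _))
      (le_sat_map (Submonoid.powers_le.2
        (Sat.of_mem ⟨X, Submonoid.mem_sup_right (Submonoid.mem_powers _), by simp⟩)))
  exact isLoc_iP.of_comp (e ▸ h1)
    (sup_le (Submonoid.powers_le.2 (Sat.of_mem (Submonoid.mem_powers _)))
      (Submonoid.powers_le.2 (Sat.of_unit (isLoc_iP.unit _ (Submonoid.mem_powers _)))))
    (le_sat_map (Submonoid.powers_le.2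
      (Sat.of_mem ⟨_, Submonoid.mem_sup_left (Submonoid.mem_powers _), rfl⟩)))

lemma mS_injective [IsDomain A] [IsDomain B] {f : A →+* B} (h : Function.Injective f) :
    Function.Injective (mS f) :=
  isLoc_iS.inj_of_comp (by
    rw [show (mS f).comp (iS A) = (iS B).comp (PowerSeries.map f) from
      RingHom.ext fun x => mS_iS f x]
    exact isLoc_iS.inj.comp (PowerSeries.map_injective f h))

lemma an_cS {φ : A[X] →+* B} {K : Submonoid A[X]} (h : IsLoc φ K) {i : B →+* PowerSeries A} (hi : i.comp φ = cS A) :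
    An i (φ X) := by
  have hi' : ∀ p, i (φ p) = cS A p := RingHom.congr_fun hi
  refine ⟨h.inj_of_comp (hi ▸ coe_injective A), fun b => ⟨φ (C (PowerSeries.constantCoeff b)), _, by
    rw [hi', hi', coeToPowerSeries.ringHom_apply, coeToPowerSeries.ringHom_apply, coe_X, coe_C,
      add_comm]
    exact PowerSeries.eq_X_mul_shift_add_const b⟩, fun a ha => ?_⟩
  obtain ⟨m, hm, p, hp⟩ := h.surj a
  have h1 := ha.mul_right (i (φ m))
  rw [← map_mul, hp, hi', hi', coeToPowerSeries.ringHom_apply, coe_X, PowerSeries.X_dvd_iff,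
    coeToPowerSeries.ringHom_apply, constantCoeff_coe, ← X_dvd_iff] at h1
  exact (h.unit m hm).dvd_mul_right.1 (hp ▸ _root_.map_dvd φ h1)

lemma unit_ps {n : ℕ} {T : Matrix (Fin n) (Fin n) (PowerSeries A)}
    (h : T.map PowerSeries.constantCoeff = 1) : IsUnit T.det := by
  rw [PowerSeries.isUnit_iff_constantCoeff, RingHom.map_det, RingHom.mapMatrix_apply, h, det_one]
  exact isUnit_one

end defs

section key

variable {A : Type} [CommRing A] {ι μ : Type} [Fintype ι] [Fintype μ]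

/-- A trivialization over Laurent series is a trivialization over Laurent polynomials up to a
power series. -/
lemma bl_desc [IsDomain A] (hB : BQ A) {d : Matrix μ μ (LP A)} (hd : d * d = d) {n : ℕ}
    {U : Matrix μ (Fin n) (LS A)} {V : Matrix (Fin n) μ (LS A)} (h1 : U * V = d.map (pS A))
    (h2 : V * U = 1) : ∃ (θ : Matrix μ (Fin n) (LP A)) (θ' : Matrix (Fin n) μ (LP A))
      (k k' : Matrix (Fin n) (Fin n) (PowerSeries A)), θ * θ' = d ∧ θ' * θ = 1 ∧ k * k' = 1 ∧
      k.map PowerSeries.constantCoeff = 1 ∧ U = θ.map (pS A) * k.map (iS A) ∧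
      V = k'.map (iS A) * θ'.map (pS A) := by
  have hs : Sq (cS A) (iP A) (iS A) (pS A) :=
    (an_cS isLoc_id (RingHom.comp_id _)).sq isLoc_iP
      (by simpa using isLoc_iS) (RingHom.ext pS_iP)
  obtain ⟨e, he, α₁, β₁, α₂, β₂, a1, a2, a3, a4, a5, a6⟩ := hs.symm.patch hd h1 h2
  have c0 : ∀ {α β : Type} (x : Matrix α β A[X]),
      (x.map (cS A)).map PowerSeries.constantCoeff = x.map (evalRingHom 0) := fun x => by
    ext i j; simp [coeff_zero_eq_eval_zero]
  have c1 : ∀ {α β : Type} (x : Matrix α β A[X]),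
      (x.map (iP A)).map (pS A) = (x.map (cS A)).map (iS A) := fun x => by
    ext i j; exact pS_iP _
  have c2 : ∀ {α β : Type} (x : Matrix α β A),
      ((x.map C).map (cS A)).map PowerSeries.constantCoeff = x := fun x => by
    ext i j; simp
  obtain ⟨m, p, q, b1, b2⟩ := hB.free he ⟨n, α₂.map PowerSeries.constantCoeff,
    β₂.map PowerSeries.constantCoeff, by rw [← Matrix.map_mul, a3, c0], by
      rw [← Matrix.map_mul, a4, map_one']⟩
  have qp : ∀ {R : Type} [CommRing R] (f : A[X] →+* R), q.map f * p.map f = 1 := fun f => by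
    rw [← Matrix.map_mul, b2, map_one']
  have pq : ∀ {R : Type} [CommRing R] (f : A[X] →+* R), p.map f * q.map f = e.map f := fun f => by
    rw [← Matrix.map_mul, b1]
  have e1 : q.map (cS A) * α₂ * (β₂ * p.map (cS A)) = 1 := by
    rw [Matrix.mul_assoc, ← Matrix.mul_assoc α₂, a3, ← pq, Matrix.mul_assoc, qp, Matrix.mul_one, qp]
  have e2 : β₂ * p.map (cS A) * (q.map (cS A) * α₂) = 1 := by
    rw [Matrix.mul_assoc, ← Matrix.mul_assoc (p.map _), pq, ← a3, Matrix.mul_assoc, a4,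
      Matrix.mul_one, a4]
  obtain ⟨k, hk⟩ : ∃ k, k = ((q.map (cS A) * α₂).map PowerSeries.constantCoeff).map
    (C : A →+* A[X]) := ⟨_, rfl⟩
  obtain ⟨k', hk'⟩ : ∃ k, k = ((β₂ * p.map (cS A)).map PowerSeries.constantCoeff).map
    (C : A →+* A[X]) := ⟨_, rfl⟩
  have kk : ∀ {R : Type} [CommRing R] (f : A[X] →+* R), k.map f * k'.map f = 1 := fun f => by
    rw [← Matrix.map_mul, hk, hk', ← Matrix.map_mul, ← Matrix.map_mul, e1, map_one', map_one',
      map_one']
  have kk' : ∀ {R : Type} [CommRing R] (f : A[X] →+* R), k'.map f * k.map f = 1 := fun f => by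
    rw [← Matrix.map_mul, hk, hk', ← Matrix.map_mul, ← Matrix.map_mul, e2, map_one', map_one',
      map_one']
  refine ⟨α₁ * p.map (iP A) * k.map (iP A), k'.map (iP A) * (q.map (iP A) * β₁),
    k'.map (cS A) * (q.map (cS A) * α₂), β₂ * p.map (cS A) * k.map (cS A), ?_, ?_, ?_, ?_, ?_, ?_⟩
  · rw [Matrix.mul_assoc, ← Matrix.mul_assoc (k.map _), kk, Matrix.one_mul, Matrix.mul_assoc,
      ← Matrix.mul_assoc (p.map _), pq, ← a2, Matrix.mul_assoc, ← Matrix.mul_assoc, a1, hd]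
  · simp only [Matrix.mul_assoc]
    rw [← Matrix.mul_assoc β₁, a2, ← pq, Matrix.mul_assoc, ← Matrix.mul_assoc (q.map _), qp,
      Matrix.one_mul, ← Matrix.mul_assoc (q.map _), qp, Matrix.one_mul, kk']
  · rw [Matrix.mul_assoc, ← Matrix.mul_assoc _ _ (k.map _), e1, Matrix.one_mul, kk']
  · rw [Matrix.map_mul, hk', c2, ← Matrix.map_mul, e2, map_one']
  · simp only [Matrix.map_mul, c1, Matrix.mul_assoc]
    rw [← a5]
    congr 1
    simp only [← Matrix.map_mul]
    rw [← Matrix.mul_assoc (k.map _), kk, Matrix.one_mul, ← Matrix.mul_assoc, pq, ← a3,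
      Matrix.mul_assoc, a4, Matrix.mul_one]
  · simp only [Matrix.map_mul, c1, ← Matrix.mul_assoc]
    rw [← a6]
    congr 1
    simp only [← Matrix.map_mul]
    rw [Matrix.mul_assoc _ (k.map _), kk, Matrix.mul_one, Matrix.mul_assoc, pq, ← a3,
      ← Matrix.mul_assoc, a4, Matrix.one_mul]

/-- Coefficientwise splitting. -/
lemma split_ps {A₁ A₂ A₃ : Type} [CommRing A₁] [CommRing A₂] [CommRing A₃] (j₁ : A₁ →+* A₃)
    (j₂ : A₂ →+* A₃) (s : A₁) (h : ∀ c, ∃ x y, c = j₂ y + j₁ (s * x)) {n : ℕ}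
    {k : Matrix (Fin n) (Fin n) (PowerSeries A₃)} (hk : k.map PowerSeries.constantCoeff = 1) :
    ∃ (T : Matrix (Fin n) (Fin n) (PowerSeries A₂)) (Z : Matrix (Fin n) (Fin n) (PowerSeries A₁)),
      T.map PowerSeries.constantCoeff = 1 ∧ Z.map PowerSeries.constantCoeff = 0 ∧
      k * T.map (PowerSeries.map j₂) = (1 + PowerSeries.C s • Z).map (PowerSeries.map j₁) := by
  choose x y hxy using h
  let w (t : ℕ → Matrix (Fin n) (Fin n) A₂) (m : ℕ) : Matrix (Fin n) (Fin n) A₃ :=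
    ∑ l ∈ Finset.range m, k.map (PowerSeries.coeff (m - l)) * (t l).map j₂
  obtain ⟨t, ht⟩ : ∃ t : ℕ → Matrix (Fin n) (Fin n) A₂,
      ∀ m, t m = if m = 0 then 1 else -(w t m).map y := by
    refine ⟨Nat.strongRec fun m prev => if m = 0 then 1 else
      -(w (fun l => if h : l < m then prev l h else 0) m).map y, fun m => ?_⟩
    beta_reduce
    rw [Nat.strongRec_eq]
    congr 3
    exact Finset.sum_congr rfl fun l hl => by
      beta_reduce
      rw [dif_pos (Finset.mem_range.1 hl)]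
  refine ⟨Matrix.of fun i j => PowerSeries.mk fun m => t m i j,
    Matrix.of fun i j => PowerSeries.mk fun m => if m = 0 then 0 else x (w t m i j), ?_, ?_, ?_⟩
  · ext i j
    simp [← PowerSeries.coeff_zero_eq_constantCoeff_apply, ht 0]
  · ext i j
    simp [← PowerSeries.coeff_zero_eq_constantCoeff_apply]
  · ext i j m
    have e1 : PowerSeries.coeff m ((k * (Matrix.of fun i j => PowerSeries.mk fun m => t m i j).map
        (PowerSeries.map j₂)) i j) = (w t m + (t m).map j₂) i j := by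
      have : (t m).map j₂ = k.map (PowerSeries.coeff (m - m)) * (t m).map j₂ := by
        rw [Nat.sub_self, PowerSeries.coeff_zero_eq_constantCoeff, hk, Matrix.one_mul]
      rw [this, ← Finset.sum_range_succ (fun l => k.map (PowerSeries.coeff (m - l)) * (t l).map j₂)]
      simp only [Matrix.mul_apply, map_sum, PowerSeries.coeff_mul, Matrix.sum_apply,
        Matrix.map_apply, Matrix.of_apply, PowerSeries.coeff_map, PowerSeries.coeff_mk]
      rw [Finset.sum_comm, ← Finset.Nat.sum_antidiagonal_swap,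
        Finset.Nat.sum_antidiagonal_eq_sum_range_succ_mk]
      rfl
    rw [e1, ht m]
    by_cases hm : m = 0
    · subst hm
      by_cases hij : i = j <;>
        simp [w, hij, -PowerSeries.coeff_zero_eq_constantCoeff]
    · have := hxy (w t m i j)
      by_cases hij : i = j <;>
        simp [hm, hij, PowerSeries.coeff_one] at this ⊢ <;>
        linear_combination this

lemma glue_calc {Ω : Type} [CommRing Ω] {ν : Type} [Fintype ν] {n : ℕ} {e : Matrix ι ι Ω}
    {d : Matrix μ μ Ω} {Q : Matrix ν ν Ω} {u : Matrix ι (Fin n) Ω} {v : Matrix (Fin n) ι Ω}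
    {α : Matrix μ ι Ω} {β : Matrix ι μ Ω} {θ θa : Matrix μ (Fin n) Ω} {θ' θa' : Matrix (Fin n) μ Ω}
    {k k' T T' G G' Z : Matrix (Fin n) (Fin n) Ω} {α₁ : Matrix μ ν Ω} {β₁ : Matrix ν μ Ω}
    {α₂ : Matrix ν (Fin n) Ω} {β₂ : Matrix (Fin n) ν Ω} {s s' : Ω}
    (h1 : u * v = e) (h2 : v * u = 1) (h4 : β * α = e) (h5 : α * u = θ * k) (h6 : v * β = k' * θ')
    (h7 : k * k' = 1) (h8 : θ * θ' = d) (h9 : k * T = G) (h10 : T * T' = 1) (h11 : G * G' = 1)
    (h12 : G = 1 + (s * s') • Z) (h13 : θa = s • θ) (h14 : θa' = s' • θ') (h15 : β₁ * α₁ = Q)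
    (h16 : α₂ * β₂ = Q) (h17 : β₂ * α₂ = 1) (h18 : α₁ * α₂ = θ) (h19 : β₂ * β₁ = θ') :
    β₁ * (d - θa * (Z * G') * θa') * α = α₂ * T' * v ∧
      β * (d + θa * Z * θa') * α₁ = u * T * β₂ := by
  have a1 : G' = T' * k' := by
    rw [← Matrix.one_mul G', ← mul_eq_one_comm.1 h10, ← Matrix.one_mul T, ← mul_eq_one_comm.1 h7,
      Matrix.mul_assoc k', h9, Matrix.mul_assoc, Matrix.mul_assoc, h11, Matrix.mul_one]
  have a2 : d - θa * (Z * G') * θa' = θ * G' * θ' := by
    have : G' = 1 - (s * s') • (Z * G') := by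
      rw [← h11, h12, Matrix.add_mul, Matrix.smul_mul, Matrix.one_mul, add_sub_cancel_right]
    conv_rhs => rw [this]
    simp only [h13, h14, ← h8, Matrix.mul_sub, Matrix.sub_mul, Matrix.mul_one, Matrix.mul_smul,
      Matrix.smul_mul, smul_smul, mul_comm]
  have a3 : d + θa * Z * θa' = θ * G * θ' := by
    simp only [h12, h13, h14, ← h8, Matrix.mul_add, Matrix.add_mul, Matrix.mul_one, Matrix.mul_smul,
      Matrix.smul_mul, smul_smul, mul_comm]
  have a4 : β₁ * θ = α₂ := by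
    rw [← h18, ← Matrix.mul_assoc, h15, ← h16, Matrix.mul_assoc, h17, Matrix.mul_one]
  have a5 : θ' * α₁ = β₂ := by
    rw [← h19, Matrix.mul_assoc, h15, ← h16, ← Matrix.mul_assoc, h17, Matrix.one_mul]
  constructor
  · rw [a2, a1]
    simp only [← Matrix.mul_assoc]
    rw [a4, Matrix.mul_assoc _ k', ← h6, Matrix.mul_assoc, Matrix.mul_assoc v, h4, ← h1,
      ← Matrix.mul_assoc v, h2, Matrix.one_mul]
  · rw [a3, ← h9]
    simp only [Matrix.mul_assoc]
    rw [a5, ← Matrix.mul_assoc θ, ← h5, ← Matrix.mul_assoc, ← Matrix.mul_assoc β, h4, ← h1,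
      Matrix.mul_assoc u, h2, Matrix.mul_one]

/-- The module comes from Laurent polynomials. -/
def Desc (e : Matrix ι ι (LS A)) : Prop :=
  ∃ (μ : Type) (_ : Fintype μ) (d : Matrix μ μ (LP A)), d * d = d ∧ Eqv (d.map (pS A)) e

lemma pull_LS {A₁ A₂ A₃ : Type} [CommRing A₁] [CommRing A₂] [CommRing A₃] [IsDomain A₁]
    [IsDomain A₂] [IsDomain A₃] {i₁ : A →+* A₁} {i₂ : A →+* A₂} {j₁ : A₁ →+* A₃} {j₂ : A₂ →+* A₃}
    (h : Sq i₁ i₂ j₁ j₂) (x : LS A₁) (y : LS A₂) (H : mS j₁ x = mS j₂ y) :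
    ∃ z, mS i₂ z = y := by
  obtain ⟨_, ⟨k, rfl⟩, p, hp⟩ := isLoc_iS.surj x
  obtain ⟨_, ⟨l, rfl⟩, q, hq⟩ := isLoc_iS.surj y
  have e : (p * PowerSeries.X ^ l).map j₁ = (q * PowerSeries.X ^ k).map j₂ := isLoc_iS.inj (by
    have a1 := congrArg (mS j₁) hp
    have a2 := congrArg (mS j₂) hq
    simp only [map_mul, mS_iS, map_pow, PowerSeries.map_X] at a1 a2 ⊢
    rw [← a1, ← a2, H]; ring)
  choose c _ hc using fun m => h.pull (PowerSeries.coeff m (p * PowerSeries.X ^ l))
    (PowerSeries.coeff m (q * PowerSeries.X ^ k)) (by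
      rw [← PowerSeries.coeff_map, e, PowerSeries.coeff_map])
  have e2 : (PowerSeries.mk c).map i₂ = q * PowerSeries.X ^ k := by ext m; simp [hc]
  obtain ⟨w, hw⟩ := (IsLocalization.Away.algebraMap_isUnit (S := LS A)
    (PowerSeries.X : PowerSeries A)).exists_right_inv
  have a3 := congrArg (mS i₂) hw
  rw [map_mul, mS_iS, PowerSeries.map_X, map_one] at a3
  refine ⟨iS A (PowerSeries.mk c) * w ^ (k + l), ?_⟩
  simp only [map_pow] at hq
  rw [map_mul, mS_iS, e2, map_mul, ← hq, map_pow, map_pow, mul_assoc, mul_assoc, ← mul_assoc (_ ^ l),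
    ← pow_add, add_comm l, ← mul_pow, a3, one_pow, mul_one]

theorem key_core {A₁ A₂ A₃ : Type} [CommRing A₁] [CommRing A₂] [CommRing A₃] [IsDomain A]
    [IsDomain A₁] [IsDomain A₂] [IsDomain A₃] {i₁ : A →+* A₁} {i₂ : A →+* A₂} {j₁ : A₁ →+* A₃}
    {j₂ : A₂ →+* A₃} {a b : A} (hab : IsCoprime a b) (h1 : IsLoc i₁ (Submonoid.powers a))
    (h2 : IsLoc i₂ (Submonoid.powers b)) (h3 : IsLoc j₁ (Submonoid.powers (i₁ b)))
    (hc : j₂.comp i₂ = j₁.comp i₁) (hB : BQ A₃) {e : Matrix ι ι (LS A)}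
    (hD : Desc (e.map (mS i₁))) (hF : Free (e.map (mS i₂))) : Desc e := by
  obtain ⟨μ, _, d, hd, α, β, a1, a2⟩ := hD
  obtain ⟨n, u, v, b1, b2⟩ := hF
  have an : An i₁ b := h1.an (by rintro _ ⟨k, rfl⟩; exact hab.pow_left)
  have sq := an.sq h2 h3 hc
  have c1 : ∀ {α β : Type} (x : Matrix α β (LS A)),
      (x.map (mS i₁)).map (mS j₁) = (x.map (mS i₂)).map (mS j₂) := fun x => by
    rw [map_comp', map_comp', mS_comp, mS_comp, hc]
  have c2 : ∀ {R S α β : Type} [CommRing R] [CommRing S] (f : R →+* S) (x : Matrix α β (LP R)),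
      (x.map (pS R)).map (mS f) = (x.map (mP f)).map (pS S) := fun f x => by
    rw [map_comp', map_comp', mS_pS]
  have c3 : ∀ {R S α β : Type} [CommRing R] [CommRing S] (f : R →+* S)
      (x : Matrix α β (PowerSeries R)),
      (x.map (iS R)).map (mS f) = (x.map (PowerSeries.map f)).map (iS S) := fun f x => by
    ext1 i j; exact mS_iS _ _
  have A1 := congrArg (·.map (mS j₁)) a1
  have A2 := congrArg (·.map (mS j₁)) a2
  have B1 := congrArg (·.map (mS j₂)) b1
  have B2 := congrArg (·.map (mS j₂)) b2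
  simp only [Matrix.map_mul, c1, c2, map_one'] at A1 A2 B1 B2
  obtain ⟨θ, θ', k, k', t1, t2, t3, t4, t5, t6⟩ := bl_desc hB (idem_map hd (mP j₁))
    (U := α.map (mS j₁) * u.map (mS j₂)) (V := v.map (mS j₂) * β.map (mS j₁))
    (by rw [Matrix.mul_assoc, ← Matrix.mul_assoc (u.map _), B1, ← A2, Matrix.mul_assoc,
      ← Matrix.mul_assoc, A1, idem_map (idem_map hd _)])
    (by rw [Matrix.mul_assoc, ← Matrix.mul_assoc (β.map _), A2, ← B1, Matrix.mul_assoc, B2,
      Matrix.mul_one, B2])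
  obtain ⟨_, ⟨s, rfl⟩, θa, s1⟩ := h3.mP.den θ
  obtain ⟨_, ⟨s', rfl⟩, θa', s2⟩ := h3.mP.den θ'
  obtain ⟨T, Z, z1, z2, z3⟩ := split_ps j₁ j₂ (i₁ b ^ (s + s')) (fun c => by
    obtain ⟨_, ⟨m, rfl⟩, x, hx⟩ := h3.surj c
    obtain ⟨y, x', rfl⟩ := an.surj_pow (m + (s + s')) x
    obtain ⟨w, hw⟩ := (h2.unit _ ⟨m, rfl⟩).exists_right_inv
    have hw' := congrArg j₂ hw
    have hc' : ∀ z, j₂ (i₂ z) = j₁ (i₁ z) := RingHom.congr_fun hc
    refine ⟨x', i₂ y * w, ?_⟩
    simp only [map_mul, map_add, map_pow, hc', map_one] at hx hw' ⊢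
    linear_combination j₂ w * hx + (j₁ (i₁ b) ^ (s + s') * j₁ x' - c) * hw') t4
  have hab' : IsCoprime (iP A (C a)) (iP A (C b)) := hab.map ((iP A).comp C)
  have : IsDomain (LP A₁) := isLoc_iP.domain
  have sq' : Sq (mP i₁) (mP i₂) (mP j₁) (mP j₂) :=
    (h1.mP.an (by rintro _ ⟨k, rfl⟩; exact hab'.pow_left)).sq h2.mP
      (by rw [mP_iP, map_C]; exact h3.mP) (by rw [mP_comp, mP_comp, hc])
  obtain ⟨Q, hQ, α₁, β₁, α₂, β₂, -, q2, q3, q4, q5, q6⟩ := sq'.patch hd t1 t2
  have u1 := unit_ps z1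
  have u2 : IsUnit (1 + PowerSeries.C (i₁ b ^ (s + s')) • Z).det :=
    unit_ps (by rw [map_add', map_smul', z2, map_one', smul_zero, add_zero])
  obtain ⟨G, hG⟩ : ∃ G, G = 1 + PowerSeries.C (i₁ b ^ (s + s')) • Z := ⟨_, rfl⟩
  rw [← hG] at u2 z3
  obtain ⟨g1, g2⟩ := glue_calc (s := pS A₃ (mP j₁ (iP A₁ (C (i₁ b)) ^ s)))
    (s' := pS A₃ (mP j₁ (iP A₁ (C (i₁ b)) ^ s'))) (θa := (θa.map (mP j₁)).map (pS A₃))
    (θa' := (θa'.map (mP j₁)).map (pS A₃)) (T := (T.map (PowerSeries.map j₂)).map (iS A₃))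
    (T' := (T⁻¹.map (PowerSeries.map j₂)).map (iS A₃)) (d := (d.map (mP j₁)).map (pS A₃))
    (G := (G.map (PowerSeries.map j₁)).map (iS A₃)) (Z := (Z.map (PowerSeries.map j₁)).map (iS A₃))
    (G' := (G⁻¹.map (PowerSeries.map j₁)).map (iS A₃)) (α₁ := (α₁.map (mP j₁)).map (pS A₃))
    (β₁ := (β₁.map (mP j₁)).map (pS A₃)) (α₂ := (α₂.map (mP j₂)).map (pS A₃))
    (β₂ := (β₂.map (mP j₂)).map (pS A₃)) (Q := ((Q.map (mP i₁)).map (mP j₁)).map (pS A₃))
    B1 B2 A2 t5 t6 (map_mul_eq_one t3 _) (by rw [← Matrix.map_mul, t1])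
    (by rw [← Matrix.map_mul, z3]) (map_mul_eq_one (map_mul_eq_one (mul_nonsing_inv _ u1) _) _)
    (map_mul_eq_one (map_mul_eq_one (mul_nonsing_inv _ u2) _) _)
    (by
      rw [hG, map_add', map_add', map_one', map_one', map_smul', map_smul', ← map_mul, ← map_mul,
        ← pow_add, ← map_pow (iP A₁), mP_iP, pS_iP]
      simp)
    (by rw [s1, map_smul']) (by rw [s2, map_smul'])
    (by rw [← Matrix.map_mul, ← Matrix.map_mul, q2])
    (by rw [← Matrix.map_mul, ← Matrix.map_mul, q3, map_comp' (mP i₁), map_comp' (mP i₂), mP_comp,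
      mP_comp, hc])
    (by rw [← Matrix.map_mul, ← Matrix.map_mul, q4, map_one', map_one'])
    (by rw [← Matrix.map_mul, q5]) (by rw [← Matrix.map_mul, q6])
  obtain ⟨M, hM⟩ := exists_map_eq (mS i₂) (α₂.map (pS A₂) * T⁻¹.map (iS A₂) * v) fun i j =>
    pull_LS sq ((β₁.map (pS A₁) * (d.map (pS A₁) - θa.map (pS A₁) * (Z * G⁻¹).map (iS A₁) *
      θa'.map (pS A₁)) * α) i j) _ (by
        rw [← Matrix.map_apply (f := mS j₁), ← Matrix.map_apply (f := mS j₂)]
        simp only [Matrix.map_mul, map_sub', c2, c3, g1])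
  obtain ⟨N, hN⟩ := exists_map_eq (mS i₂) (u * T.map (iS A₂) * β₂.map (pS A₂)) fun i j =>
    pull_LS sq ((β * (d.map (pS A₁) + θa.map (pS A₁) * Z.map (iS A₁) *
      θa'.map (pS A₁)) * α₁.map (pS A₁)) i j) _ (by
        rw [← Matrix.map_apply (f := mS j₁), ← Matrix.map_apply (f := mS j₂)]
        simp only [Matrix.map_mul, map_add', c2, c3, g2])
  refine ⟨_, _, Q, hQ, M, N, Matrix.map_injective (mS_injective h2.inj) ?_,
    Matrix.map_injective (mS_injective h2.inj) ?_⟩
  · simp only [Matrix.map_mul, hM, hN, c2, Matrix.mul_assoc]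
    rw [← Matrix.mul_assoc v, b2, Matrix.one_mul, ← Matrix.mul_assoc (T⁻¹.map _),
      map_mul_eq_one (nonsing_inv_mul _ u1), Matrix.one_mul, ← Matrix.map_mul, q3]
  · simp only [Matrix.map_mul, hM, hN, Matrix.mul_assoc]
    rw [← Matrix.mul_assoc (β₂.map _), ← Matrix.map_mul, q4, map_one', Matrix.one_mul,
      ← Matrix.mul_assoc (T.map _), map_mul_eq_one (mul_nonsing_inv _ u1), Matrix.one_mul, b1]

lemma Free.desc {e : Matrix ι ι (LS A)} (h : Free e) : Desc e :=
  let ⟨n, u, v, h1, h2⟩ := h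
  ⟨Fin n, inferInstance, 1, Matrix.mul_one _, v, u, by rw [h2, map_one'], h1⟩

/-- Locally trivial modules over Laurent series come from Laurent polynomials. -/
theorem key [IsDomain A]
    (hB : ∀ (B : Type) [CommRing B] (φ : A →+* B) (M : Submonoid A), IsLoc φ M → BQ B)
    {e : Matrix ι ι (LS A)} (hl : ∀ 𝔪 : Ideal A, 𝔪.IsMaximal → ∃ a ∉ 𝔪, ∀ (B : Type) [CommRing B] (φ : A →+* B),
      IsUnit (φ a) → Free (e.map (mS φ))) : Desc e := by
  let I (a : A) : Prop := ∀ (B : Type) [CommRing B] [IsDomain B] (φ : A →+* B) (M : Submonoid A),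
    IsLoc φ M → IsUnit (φ a) → Desc (e.map (mS φ))
  have step : ∀ a b, I a → (∀ (B : Type) [CommRing B] (φ : A →+* B), IsUnit (φ b) →
      Free (e.map (mS φ))) → I (a + b) := fun a b ha hb B _ _ φ M hφ hu => by
    by_cases a0 : φ a = 0
    · exact (hb B φ (by simpa [a0] using hu)).desc
    by_cases b0 : φ b = 0
    · exact ha B φ M hφ (by simpa [b0] using hu)
    obtain ⟨A₁, _, _, i₁, h1⟩ := exists_loc (zero_notMem_powers a0)
    obtain ⟨A₂, _, _, i₂, h2⟩ := exists_loc (zero_notMem_powers b0)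
    obtain ⟨A₃, _, _, j₁, h3⟩ := exists_loc (zero_notMem_powers ((map_ne_zero_iff _ h1.inj).2 b0))
    obtain ⟨j₂, hj⟩ := h2.lift (j₁.comp i₁) (by
      rintro _ ⟨n, rfl⟩
      exact h3.unit _ ⟨n, (map_pow i₁ _ n).symm⟩)
    obtain ⟨w, hw⟩ := hu.exists_left_inv
    refine key_core ⟨w, w, by rw [← hw, map_add, mul_add]⟩ h1 h2 h3 hj
      (hB _ _ _ ((hφ.comp' h1).comp' h3)) ?_ ?_
    · rw [map_comp', mS_comp]
      exact ha _ _ _ (hφ.comp' h1) (h1.unit _ (Submonoid.mem_powers _))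
    · rw [map_comp', mS_comp]
      exact hb _ _ (h2.unit _ (Submonoid.mem_powers _))
  let K : Ideal A :=
    { carrier := {x | ∀ c a, I a → I (a + c * x)}
      zero_mem' := fun c a h => by simpa using h
      add_mem' := fun hx hy c a h => by
        rw [mul_add, ← add_assoc]; exact hy c _ (hx c a h)
      smul_mem' := fun c' x hx c a h => by
        rw [smul_eq_mul, ← mul_assoc]; exact hx _ a h }
  have hK : K = ⊤ := by
    by_contra hn
    obtain ⟨𝔪, h𝔪, hle⟩ := Ideal.exists_le_maximal _ hn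
    obtain ⟨b, hb, h⟩ := hl 𝔪 h𝔪
    exact hb (hle fun c a ha => step a _ ha fun B _ φ hu =>
      h B φ (isUnit_of_mul_isUnit_right (map_mul φ c b ▸ hu)))
  have := (hK ▸ Submodule.mem_top : (1 : A) ∈ K) 1 0
    (fun B _ _ φ M _ hu => by simp at hu) A _ _ isLoc_id (by simp)
  rwa [mS_id] at this

/-- The inductive step. -/
theorem step [IsDomain A]
    (hB : ∀ (B : Type) [CommRing B] (φ : A →+* B) (M : Submonoid A), IsLoc φ M → BQ B)
    (hL : ∀ (𝔪 : Ideal A) [𝔪.IsMaximal],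
      AF A[X] (𝔪.primeCompl.comap (evalRingHom 0) ⊔ Submonoid.powers X))
    {K : Submonoid A[X]} (hK : ∀ p ∈ K, IsUnit (p.coeff 0)) (h1 : AF A[X] K)
    (h2 : AF A[X] (Submonoid.powers X)) : AF A[X] (K ⊔ Submonoid.powers X) :=
  fun B _ φ hφ ι _ e he => by
  obtain ⟨B₀, _, _, φ₀, h0⟩ := exists_loc (M := K) fun h => by simpa using hK 0 h
  obtain ⟨j₂, rfl⟩ := h0.lift φ fun m hm => hφ.unit m (Submonoid.mem_sup_left hm)
  have h3 : IsLoc j₂ (Submonoid.powers (φ₀ X)) := h0.of_comp hφ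
    (sup_le (fun m hm => Sat.of_unit (h0.unit m hm))
      (Submonoid.powers_le.2 (Sat.of_mem (Submonoid.mem_powers _))))
    (le_sat_map (Submonoid.powers_le.2
      (Sat.of_mem ⟨_, Submonoid.mem_sup_right (Submonoid.mem_powers _), rfl⟩)))
  obtain ⟨i₁, hi⟩ := h0.lift (cS A) fun m hm => by
    rw [PowerSeries.isUnit_iff_constantCoeff]; exact hK m hm
  have hi' : ∀ p, i₁ (φ₀ p) = cS A p := RingHom.congr_fun hi
  obtain ⟨j, hj, sq⟩ := (an_cS h0 hi).exists_sq (j₁ := iS A)
    (by rw [hi']; simpa using isLoc_iS) h3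
  have hj' : ∀ p, j (j₂ (φ₀ p)) = iS A (cS A p) := fun p => by
    rw [← hi']; exact RingHom.congr_fun hj _
  obtain ⟨μ, _, d, hd, h4⟩ := key hB (e := e.map j) fun 𝔪 _ => by
    obtain ⟨m, hm, hq⟩ := (hL 𝔪).qfree hφ ((sup_le_sup_right (fun p hp h => ‹𝔪.IsMaximal›.ne_top
      (𝔪.eq_top_of_isUnit_mem h (by simpa [← coeff_zero_eq_eval_zero] using hK p hp))) _).trans
      (le_Sat _)) he
    obtain ⟨p, hp, _, ⟨k, rfl⟩, rfl⟩ := Submonoid.mem_sup.1 hm
    refine ⟨p.eval 0, hp, fun D _ ψ hu => ((hq.map j).map (mS ψ)).free ?_⟩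
    rw [RingHom.comp_apply, hj', mS_iS, map_cS, Polynomial.map_mul, map_mul, map_mul]
    refine ((PowerSeries.isUnit_iff_constantCoeff.2 ?_).map _).mul ?_
    · rwa [coeToPowerSeries.ringHom_apply, constantCoeff_coe, coeff_map, coeff_zero_eq_eval_zero]
    · simpa using (IsLocalization.Away.algebraMap_isUnit (S := LS D) PowerSeries.X).pow k
  obtain ⟨ν, _, d', hd', h5, -⟩ := sq.symm.patch' he
    (Free.of_eqv h4.symm (idem_map he j) ((h2 _ _ isLoc_iP μ d hd).map _))
  exact Free.of_eqv h5 he ((h1 _ _ h0 ν d' hd').map _)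

end key

end Pool.Agent.Lib.MP_a37f0b_ag
end

-- part Pool.Agent.Lib.MP_a37f0b_ag.Line
section

/-!
Homogenization, general lines and shears.
-/

open Polynomial

namespace Pool.Agent.Lib.MP_a37f0b_ag

variable {A B : Type} [CommRing A] [CommRing B] {τ : Type}

/-- `f` is regular modulo `g`. -/
def Rg (f g : A) : Prop := ∀ h, g ∣ f * h → g ∣ h

lemma Rg.flat [Algebra A B] [Module.Flat A B] {f g : A} (h : Rg f g) :
    Rg (algebraMap A B f) (algebraMap A B g) := fun b ⟨c, hc⟩ => by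
  obtain ⟨k, a, y, h1, h2⟩ := Module.Flat.isTrivialRelation_of_sum_smul_eq_zero (R := A)
    (f := ![f, -g]) (x := ![b, c]) (by simp [Algebra.smul_def, hc])
  rw [show b = _ from h1 0]
  refine Finset.dvd_sum fun j _ => ?_
  rw [Algebra.smul_def]
  refine (_root_.map_dvd _ (h _ ⟨a 1 j, ?_⟩)).mul_right _
  have := h2 j
  simp only [Fin.sum_univ_two, Matrix.cons_val_zero, Matrix.cons_val_one] at this
  linear_combination this

lemma Rg.loc {φ : A →+* B} {M : Submonoid A} (hφ : IsLoc φ M) {f g : A} (h : Rg f g) :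
    Rg (φ f) (φ g) := fun b ⟨c, hc⟩ => by
  obtain ⟨m, hm, a, ha⟩ := hφ.surj b
  obtain ⟨m', hm', a', ha'⟩ := hφ.surj c
  have := _root_.map_dvd φ (h (a * m') ⟨a' * m, hφ.inj (by
    simp only [map_mul, ← ha, ← ha']; linear_combination φ m * φ m' * hc)⟩)
  rwa [map_mul, ← ha, (hφ.unit m' hm').dvd_mul_right, (hφ.unit m hm).dvd_mul_right] at this

lemma Rg.poly {f g : A} (h : Rg f g) : Rg (C f) (C g) := fun b hb => by
  rw [C_dvd_iff_dvd_coeff] at hb ⊢
  exact fun i => h _ (by simpa using hb i)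

lemma Rg.mv {K F : Type} [Field K] [CommRing F] (ι : K →+* F) {f g : MvPolynomial τ K}
    (h : Rg f g) : Rg (f.map ι) (g.map ι) := by
  let := ι.toAlgebra
  let : Algebra (MvPolynomial τ K) (MvPolynomial τ F) := MvPolynomial.algebraMvPolynomial
  have : Module.Flat (MvPolynomial τ K) (MvPolynomial τ F) :=
    Module.Flat.isBaseChange K (MvPolynomial τ K) F _
      (Algebra.IsPushout.out (R := K) (S := MvPolynomial τ K) (R' := F))
  exact h.flat

lemma Rg.isUnit [IsDomain A] {f g d : A} (h : Rg f g) (hg : g ≠ 0) (h1 : d ∣ f) (h2 : d ∣ g) :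
    IsUnit d := by
  obtain ⟨f, rfl⟩ := h1
  obtain ⟨g, rfl⟩ := h2
  obtain ⟨c, hc⟩ := h g ⟨f, by ring⟩
  exact IsUnit.of_mul_eq_one c (mul_left_cancel₀ (right_ne_zero_of_mul hg)
    (by linear_combination -hc))

/-- The grading map. -/
noncomputable def th (τ A : Type) [CommRing A] : MvPolynomial τ A →+* (MvPolynomial τ A)[X] :=
  MvPolynomial.eval₂Hom (C.comp MvPolynomial.C) fun i => C (MvPolynomial.X i) * X

lemma th_coeff (a : MvPolynomial τ A) (n : ℕ) :
    (th τ A a).coeff n = MvPolynomial.homogeneousComponent n a := by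
  induction a using MvPolynomial.induction_on' with
  | monomial d c =>
    have : th τ A (MvPolynomial.monomial d c) = C (MvPolynomial.monomial d c) * X ^ d.degree := by
      rw [MvPolynomial.monomial_eq, Finsupp.prod, C_mul, map_prod C]
      simp [th, Finsupp.prod, mul_pow, Finset.prod_mul_distrib,
        Finset.prod_pow_eq_pow_sum, Finsupp.degree_apply, mul_assoc]
    rw [this, coeff_C_mul_X_pow, MvPolynomial.homogeneousComponent_of_mem
      (MvPolynomial.isHomogeneous_monomial c rfl)]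
  | add p q hp hq => rw [map_add, map_add, coeff_add, hp, hq]

lemma th_th (a : MvPolynomial τ A) (n : ℕ) :
    th τ A ((th τ A a).coeff n) = C ((th τ A a).coeff n) * X ^ n := by
  ext1 m
  rw [coeff_C_mul_X_pow, th_coeff, th_coeff, MvPolynomial.homogeneousComponent_of_mem
    (MvPolynomial.homogeneousComponent_mem n a)]

lemma th_eval (a : MvPolynomial τ A) : (th τ A a).eval 1 = a :=
  RingHom.congr_fun (f := (evalRingHom 1).comp (th τ A)) (g := RingHom.id _)
    (MvPolynomial.ringHom_ext (by simp [th]) (by simp [th])) a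

/-- The dehomogenization map. -/
noncomputable def et (τ A : Type) [CommRing A] :
    (MvPolynomial τ A)[X] →+* (MvPolynomial τ A)[X] := eval₂RingHom (th τ A) X

lemma et_C (a : MvPolynomial τ A) : et τ A (C a) = th τ A a := eval₂_C _ _

lemma et_X : et τ A X = X := eval₂_X _ _

lemma et_surj (g : (MvPolynomial τ A)[X]) : ∃ G n, et τ A G = g * X ^ n := by
  have add : ∀ p q, (∃ G n, et τ A G = p * X ^ n) → (∃ G n, et τ A G = q * X ^ n) →
      ∃ G n, et τ A G = (p + q) * X ^ n := fun p q ⟨G, n, h⟩ ⟨G', n', h'⟩ =>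
    ⟨G * X ^ n' + G' * X ^ n, n + n', by
      rw [map_add, map_mul, map_mul, map_pow, map_pow, h, h', et_X]; ring⟩
  have h0 : ∀ a, ∃ G n, et τ A G = C a * X ^ n := fun a => by
    induction a using MvPolynomial.induction_on with
    | C c => exact ⟨C (MvPolynomial.C c), 0, by simp [et_C, th]⟩
    | add p q hp hq => rw [C_add]; exact add _ _ hp hq
    | mul_X p i hp =>
      obtain ⟨G, n, h⟩ := hp
      exact ⟨G * C (MvPolynomial.X i), n + 1, by
        rw [map_mul, h, et_C, C_mul]; simp only [th, MvPolynomial.eval₂Hom_X']; ring⟩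
  induction g using Polynomial.induction_on' with
  | add p q hp hq => exact add _ _ hp hq
  | monomial k a =>
    obtain ⟨G, n, h⟩ := h0 a
    exact ⟨G * X ^ k, n, by rw [map_mul, map_pow, h, et_X, ← C_mul_X_pow_eq_monomial]; ring⟩

lemma et_deg (G : (MvPolynomial τ A)[X]) (n : ℕ) :
    (th τ A ((et τ A G).coeff n)).natDegree ≤ n ∧
      (th τ A ((et τ A G).coeff n)).coeff n = (th τ A (G.coeff 0)).coeff n := by
  induction G using Polynomial.induction_on' with
  | add p q hp hq =>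
    simp only [map_add, coeff_add, hp.2, hq.2, and_true]
    exact natDegree_add_le_of_degree_le hp.1 hq.1
  | monomial k a =>
    rw [← C_mul_X_pow_eq_monomial, map_mul, map_pow, et_C, et_X, coeff_mul_X_pow',
      coeff_C_mul_X_pow]
    split_ifs with h1 h2 h2
    · subst h2
      rw [th_th]
      exact ⟨natDegree_C_mul_X_pow_le _ _, by simp⟩
    · rw [th_th, coeff_C_mul_X_pow, if_neg (by omega)]
      exact ⟨(natDegree_C_mul_X_pow_le _ _).trans (Nat.sub_le _ _), by simp⟩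
    · omega
    · simp

lemma isLoc_et [IsDomain A] :
    IsLoc ((iP _).comp (et τ A)) (Submonoid.powers (X : (MvPolynomial τ A)[X])) := by
  have hu := isLoc_iP.unit (X : (MvPolynomial τ A)[X]) (Submonoid.mem_powers _)
  obtain ⟨t, ht⟩ := hu.exists_right_inv
  let κ : (MvPolynomial τ A)[X] →+* LP (MvPolynomial τ A) := eval₂RingHom
    (MvPolynomial.eval₂Hom ((iP _).comp (C.comp MvPolynomial.C))
      fun i => iP _ (C (MvPolynomial.X i)) * t) (iP _ X)
  have hκ : κ.comp (et τ A) = iP _ := Polynomial.ringHom_ext' (MvPolynomial.ringHom_ext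
    (fun c => by simp [κ, et_C, th]) fun i => by
      simp only [κ, et_C, th, RingHom.comp_apply, MvPolynomial.eval₂Hom_X', coe_eval₂RingHom,
        eval₂_mul, eval₂_C, eval₂_X]
      rw [mul_assoc, mul_comm t, ht, mul_one]) (by simp [κ, et_X])
  refine ⟨isLoc_iP.inj.comp (Function.Injective.of_comp (f := κ) (g := et τ A) ?_), ?_, fun b => ?_⟩
  · rw [← RingHom.coe_comp, hκ]; exact isLoc_iP.inj
  · rintro _ ⟨n, rfl⟩
    simpa [et_X] using hu.pow n
  · obtain ⟨_, ⟨m, rfl⟩, a, ha⟩ := isLoc_iP.surj b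
    obtain ⟨G, n, h⟩ := et_surj a
    exact ⟨X ^ (m + n), ⟨_, rfl⟩, G, by
      simp only [RingHom.comp_apply, h, map_pow, map_mul, et_X, ← ha]; ring⟩

lemma gen_line [Finite τ] {F : Type} [Field F] {p q : MvPolynomial τ F} (h : Rg p q) {k : ℕ}
    {q₁ : (MvPolynomial τ F)[X]} (hq : th τ F q = X ^ k * q₁) (h0 : q₁.coeff 0 ≠ 0) :
    ∃ r : MvPolynomial τ F, r ≠ 0 ∧ ∀ β : τ → F, MvPolynomial.eval β r ≠ 0 →
      IsCoprime ((th τ F p).map (MvPolynomial.eval β)) (q₁.map (MvPolynomial.eval β)) := by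
  have := (isLoc_iP (A := MvPolynomial τ F)).domain
  obtain ⟨r, h2, α, β, h3⟩ := gauss_bezout (f := th τ F p) (g := q₁) fun d d1 d2 => by
    have := (h.poly.loc isLoc_et).isUnit (d := iP _ d) (fun h3 => h0 (by
      rw [C_eq_zero.1 ((map_eq_zero_iff _ isLoc_et.inj).1 h3), map_zero, eq_comm] at hq
      simp [(mul_eq_zero.1 hq).resolve_left (pow_ne_zero _ X_ne_zero)]))
      (by simpa [et_C] using _root_.map_dvd (iP _) d1)
      (by simpa [et_C, hq] using _root_.map_dvd (iP _) (d2.mul_left (X ^ k)))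
    obtain ⟨c, hc⟩ := this.exists_right_inv
    obtain ⟨_, ⟨n, rfl⟩, a, ha⟩ := isLoc_iP.surj c
    exact (prime_X.irreducible.isRelPrime_iff_not_dvd.2 (X_dvd_iff.not.2 h0)).pow_left (m := n)
      ⟨a, isLoc_iP.inj (by rw [map_mul, ← ha, ← mul_assoc, hc, one_mul])⟩ d2
  refine ⟨r, h2, fun b hb => ⟨C (MvPolynomial.eval b r)⁻¹ * α.map (MvPolynomial.eval b),
    C (MvPolynomial.eval b r)⁻¹ * β.map (MvPolynomial.eval b), ?_⟩⟩
  rw [mul_assoc, mul_assoc, ← mul_add, ← Polynomial.map_mul, ← Polynomial.map_mul,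
    ← Polynomial.map_add, h3, map_C, ← C_mul, inv_mul_cancel₀ hb, C_1]

lemma coeff_top (c : A →+* B) (y b : τ → B) (g : MvPolynomial τ A) {n : ℕ}
    (hn : (th τ A g).natDegree ≤ n) :
    (MvPolynomial.eval₂Hom (C.comp c) (fun i => C (y i) + C (b i) * X) g).natDegree ≤ n ∧
      (MvPolynomial.eval₂Hom (C.comp c) (fun i => C (y i) + C (b i) * X) g).coeff n =
        MvPolynomial.eval₂Hom c b ((th τ A g).coeff n) := by
  set E := MvPolynomial.eval₂Hom (C.comp c) (fun i => C (y i) + C (b i) * X) with hE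
  let T (j : ℕ) (a : MvPolynomial τ A) : Prop :=
    (E a).natDegree ≤ j ∧ (E a).coeff j = MvPolynomial.eval₂Hom c b a
  have mul : ∀ i j a a', T i a → T j a' → T (i + j) (a * a') := fun i j a a' h h' => by
    simp only [T, map_mul]
    exact ⟨natDegree_mul_le.trans (add_le_add h.1 h'.1), by
      rw [coeff_mul_add_eq_of_natDegree_le h.1 h'.1, h.2, h'.2]⟩
  have hC : ∀ r, T 0 (MvPolynomial.C r) := fun r => by simp [T, hE]
  have hX : ∀ i k, T k (MvPolynomial.X i ^ k) := fun i k => by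
    induction k with
    | zero => simpa using hC 1
    | succ k ih =>
      rw [pow_succ]
      refine mul _ _ _ _ ih ⟨?_, by simp [hE]⟩
      simp only [hE, MvPolynomial.eval₂Hom_X']
      compute_degree
  have hm : ∀ d : τ →₀ ℕ, ∀ r, T d.degree (MvPolynomial.monomial d r) := fun d => by
    induction d using Finsupp.induction_linear with
    | zero => exact hC
    | add d d' h h' =>
      intro r
      rw [map_add, ← mul_one r, ← MvPolynomial.monomial_mul]
      exact mul _ _ _ _ (h r) (h' 1)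
    | single i k =>
      intro r
      rw [Finsupp.degree_single, ← MvPolynomial.C_mul_X_pow_eq_monomial]
      simpa only [zero_add] using mul _ _ _ _ (hC r) (hX i k)
  have h1 : ∀ j a, T j ((th τ A a).coeff j) := fun j a => by
    rw [th_coeff]
    induction a using MvPolynomial.induction_on' with
    | monomial d r =>
      rw [MvPolynomial.homogeneousComponent_of_mem (MvPolynomial.isHomogeneous_monomial r rfl)]
      split_ifs with h
      · exact h ▸ hm d r
      · simp [T]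
    | add p q hp hq =>
      simp only [T, map_add, coeff_add] at hp hq ⊢
      exact ⟨natDegree_add_le_of_degree_le hp.1 hq.1, by rw [hp.2, hq.2]⟩
  have h2 : E g = ∑ j ∈ Finset.range (n + 1), E ((th τ A g).coeff j) := by
    rw [← map_sum]
    conv_lhs => rw [← th_eval g, eval_eq_sum_range' (Nat.lt_succ_of_le hn)]
    simp
  rw [h2]
  refine ⟨natDegree_sum_le_of_forall_le _ _ fun j hj =>
    (h1 j g).1.trans (Nat.le_of_lt_succ (Finset.mem_range.1 hj)), ?_⟩
  rw [finsetSum_coeff, Finset.sum_range_succ, (h1 n g).2, Finset.sum_eq_zero, zero_add]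
  exact fun j hj => coeff_eq_zero_of_natDegree_lt ((h1 j g).1.trans_lt (Finset.mem_range.1 hj))

end Pool.Agent.Lib.MP_a37f0b_ag
end

-- part Pool.Agent.Lib.MP_a37f0b_ag.Pid
section

/-!
A localization of a polynomial ring which is a principal ideal domain.
-/

open Polynomial

namespace Pool.Agent.Lib.MP_a37f0b_ag

variable {A B : Type} [CommRing A] [CommRing B] {τ : Type}

lemma ht2 [IsDomain A] [IsNoetherianRing A] (f : A →+* B) (hf : Function.Surjective f)
    (hk : (RingHom.ker f).IsPrincipal) {q : B} (hq : Prime q) {P₁ P₂ : Ideal A} [P₁.IsPrime]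
    [P₂.IsPrime] (h1 : P₁ ≠ ⊥) (h2 : P₁ < P₂) (h3 : ∀ x ∈ P₂, q ∣ f x) {x : A} (hx : q ∣ f x) :
    x ∈ P₂ := by
  classical
  obtain ⟨a, ha⟩ := hk
  obtain ⟨b, rfl⟩ := hf q
  have := (Ideal.span_singleton_prime hq.ne_zero).2 hq
  have e : (Ideal.span {f b}).comap f = Ideal.span (({b, a} : Finset A) : Set A) := by
    rw [← Set.image_singleton, ← Ideal.map_span, Ideal.comap_map_of_surjective f hf,
      ← RingHom.ker_eq_comap_bot, ha, Finset.coe_pair, Ideal.span_insert]
  have h4 : ((Ideal.span {f b}).comap f).height ≤ 2 :=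
    (Ideal.height_le_card_of_mem_minimalPrimes_span_finset (s := {b, a}) (by
      rw [← e, Ideal.minimalPrimes_eq_subsingleton_self]; rfl)).trans
      (by exact_mod_cast Finset.card_le_two)
  by_contra hn
  have h5 := Ideal.height_add_one_le_of_lt_of_isPrime (I := P₂) (J := (Ideal.span {f b}).comap f)
    (lt_of_le_of_ne (fun y hy => Ideal.mem_span_singleton.2 (h3 y hy)) fun h =>
      hn (h ▸ Ideal.mem_span_singleton.2 hx))
  have h6 := Ideal.height_add_one_le_of_lt_of_isPrime h2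
  have h7 := le_add_self.trans (Ideal.height_add_one_le_of_lt_of_isPrime (bot_lt_iff_ne_bot.2 h1))
  have : (1 : ℕ∞) + 1 + 1 ≤ 2 :=
    (add_le_add_left ((add_le_add_left h7 1).trans h6) 1).trans (h5.trans h4)
  norm_num at this

lemma laf_ufd [IsDomain A] [UniqueFactorizationMonoid A] {M : Submonoid A} (h0 : 0 ∉ M)
    (H : ∀ P : Ideal A, P.IsPrime → (∀ m ∈ M, m ∉ P) → ∀ f ∈ P, Prime f →
      ∀ g ∈ P, f ∣ g) : LAF A M := by
  obtain ⟨Λ, _, _, φ, h⟩ := exists_loc h0
  have := h.pid H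
  exact (h.laf_iff (fun m hm => Sat.of_unit (h.unit m hm)) (le_Sat _) bot_le).2 (laf_pid Λ)

variable {V κ : Type} [CommRing V] [IsDomain V] [IsPrincipalIdealRing V] [Field κ] {ψ : V →+* κ}

/-- The top degree form of `g` survives modulo the kernel of `ψ`. -/
def Top (ψ : V →+* κ) (g : MvPolynomial τ V) : Prop := (th τ V g).leadingCoeff.map ψ ≠ 0

omit [IsPrincipalIdealRing V] in
lemma Top.mul {g g' : MvPolynomial τ V} (h : Top ψ g) (h' : Top ψ g') : Top ψ (g * g') := by
  rw [Top, map_mul, leadingCoeff_mul, map_mul]; exact mul_ne_zero h h'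

omit [IsDomain V] [IsPrincipalIdealRing V] in
lemma Top.ne_zero {g : MvPolynomial τ V} (h : Top ψ g) : th τ V g ≠ 0 := fun h0 => by
  simp [Top, h0] at h

omit [IsDomain V] [IsPrincipalIdealRing V] in
lemma exists_top_lift (g : MvPolynomial τ V) (h : g.map ψ ≠ 0) :
    ∃ g', g'.map ψ = g.map ψ ∧ Top ψ g' := by
  induction hn : (th τ V g).natDegree using Nat.strong_induction_on generalizing g with
  | _ n ih =>
  by_cases h1 : Top ψ g
  · exact ⟨g, rfl, h1⟩
  have h2 : th τ V (g - (th τ V g).leadingCoeff) = (th τ V g).eraseLead := by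
    rw [map_sub, leadingCoeff, th_th, sub_eq_iff_eq_add]
    exact (eraseLead_add_C_mul_X_pow _).symm
  have h3 : (g - (th τ V g).leadingCoeff).map ψ = g.map ψ := by
    rw [map_sub, not_not.1 h1, sub_zero]
  rw [← h3] at h ⊢
  rcases eraseLead_natDegree_lt_or_eraseLead_eq_zero (th τ V g) with h4 | h4
  · exact ih _ (by rwa [← hn, ← h2] at *) _ h rfl
  · exact absurd (by rw [← th_eval (g - _), h2, h4]; simp) h

variable [Finite τ] {P₁ P : Ideal (MvPolynomial τ V)} [P₁.IsPrime] [P.IsPrime]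

lemma exists_top (hψ : Function.Surjective ψ) (h1 : P₁ ≠ ⊥) (h2 : P₁ < P) : ∃ g ∈ P, Top ψ g := by
  by_contra! hn
  have := (Ideal.isPrime_map_C_iff_isPrime P).2 ‹_›
  have := (Ideal.isPrime_map_C_iff_isPrime P₁).2 ‹_›
  have mem : ∀ (I : Ideal (MvPolynomial τ V)) g G n, et τ V G = C g * X ^ n →
      (G ∈ (I.map C).comap (et τ V) ↔ g ∈ I) := fun I g G n h => by
    rw [Ideal.mem_comap, h]
    exact ⟨fun h => by simpa using Ideal.mem_map_C_iff.1 h n,
      fun h => Ideal.mul_mem_right _ _ (Ideal.mem_map_of_mem _ h)⟩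
  refine ‹P.IsPrime›.one_notMem ((mem P 1 X 1 (by simp [et_X])).1 (ht2
    (mapRingHom (MvPolynomial.map ψ)) (map_surjective _ (MvPolynomial.map_surjective _ hψ)) (by
      rw [ker_mapRingHom, MvPolynomial.ker_map]
      exact ((IsPrincipalIdealRing.principal _).map_ringHom _).map_ringHom _) prime_X
    (P₁ := (P₁.map C).comap (et τ V)) (fun h => h1 ?_) (lt_of_le_of_ne
      (Ideal.comap_mono (Ideal.map_mono h2.le)) fun h => h2.not_ge fun g hg => ?_)
    (fun G hG => ?_) (by simp)))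
  · refine eq_bot_iff.2 fun g hg => ?_
    obtain ⟨G, n, hG⟩ := et_surj (C g)
    have := (mem _ _ _ _ hG).2 hg
    rw [h, Ideal.mem_bot] at this
    simpa [this] using hG
  · obtain ⟨G, n, hG⟩ := et_surj (C g)
    exact (mem _ _ _ _ hG).1 (h ▸ (mem _ _ _ _ hG).2 hg)
  · rw [X_dvd_iff, coe_mapRingHom, coeff_map, ← th_eval (G.coeff 0), ← eval_one_map,
      (_ : map _ _ = 0), eval_zero]
    ext1 n
    by_contra h3
    rw [coeff_map, ← (et_deg G n).2] at h3
    refine hn _ (Ideal.mem_map_C_iff.1 hG n) ?_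
    rwa [Top, leadingCoeff, natDegree_eq_of_le_of_coeff_ne_zero (et_deg G n).1
      fun h4 => h3 (by simp [h4])]

lemma exists_rg (hψ : Function.Surjective ψ) (h1 : P₁ ≠ ⊥) (h2 : P₁ < P) {g₀ : MvPolynomial τ V}
    (h3 : g₀ ∉ P) (h4 : g₀.map ψ ≠ 0) : ∃ g ∈ P, Rg (g.map ψ) (g₀.map ψ) := by
  classical
  open UniqueFactorizationMonoid in
  by_cases h : (P : Set (MvPolynomial τ V)) ⊆ ⋃ q ∈ (↑(factors (g₀.map ψ)).toFinset : Set _),
    ↑((Ideal.span {q}).comap (MvPolynomial.map (σ := τ) ψ))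
  · obtain ⟨q, h5, h6⟩ := (Ideal.subset_union_prime 0 0 fun q hq _ _ => by
      have := prime_of_factor q (Multiset.mem_toFinset.1 hq)
      have := (Ideal.span_singleton_prime this.ne_zero).2 this
      infer_instance).1 h
    rw [Multiset.mem_toFinset] at h5
    exact absurd (ht2 (MvPolynomial.map ψ) (MvPolynomial.map_surjective _ hψ) (by
      rw [MvPolynomial.ker_map]
      exact (IsPrincipalIdealRing.principal _).map_ringHom _) (prime_of_factor q h5) h1 h2
      (fun x hx => Ideal.mem_span_singleton.1 (h6 hx)) (dvd_of_mem_factors h5)) h3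
  · obtain ⟨g, hg, h5⟩ := Set.not_subset.1 h
    refine ⟨g, hg, fun _ => dvd_of_dvd_mul_right_of_no_prime_factors h4 fun d1 d2 hd => h5 ?_⟩
    obtain ⟨q, h6, h7⟩ := exists_mem_factors_of_dvd h4 hd.irreducible d1
    exact Set.mem_biUnion (Finset.mem_coe.2 (Multiset.mem_toFinset.2 h6))
      (Ideal.mem_span_singleton.2 (h7.symm.dvd.trans d2))

/-- The elements with good top degree form which are regular modulo `g₀`. -/
def St (ψ : V →+* κ) (g₀ : MvPolynomial τ V) : Submonoid (MvPolynomial τ V) where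
  carrier := {g | Top ψ g ∧ Rg (g.map ψ) (g₀.map ψ)}
  one_mem' := ⟨by simp [Top], fun h => by simp⟩
  mul_mem' := fun h h' => ⟨h.1.mul h'.1, fun x hx => h'.2 _ (h.2 _ (by rwa [map_mul, mul_assoc] at hx))⟩

theorem laf_St (hψ : Function.Surjective ψ) (x : τ) {g₀ w : MvPolynomial τ V} (h0 : g₀.map ψ ≠ 0)
    (hw : w ≠ 0) : LAF _ (St ψ g₀ ⊔ Submonoid.powers (g₀ * w)) := by
  refine laf_ufd (fun h => zero_notMem_nonZeroDivisors (sup_le (c := nonZeroDivisors _)
    (fun g hg => mem_nonZeroDivisors_of_ne_zero fun h => hg.1.ne_zero (by simp [h]))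
    (le_nzd (zero_notMem_powers (mul_ne_zero (fun h => h0 (by simp [h])) hw))) h))
    fun P _ hP f hf hp g hg => ?_
  by_contra hn
  have := (Ideal.span_singleton_prime hp.ne_zero).2 hp
  have h1 : Ideal.span {f} ≠ ⊥ := by simpa using hp.ne_zero
  have h2 : Ideal.span {f} < P := lt_of_le_of_ne ((Ideal.span_singleton_le_iff_mem _).2 hf)
    fun h => hn (Ideal.mem_span_singleton.1 (h ▸ hg))
  obtain ⟨g₁, m1, r1⟩ := exists_rg hψ h1 h2 (fun h => hP _ (Submonoid.mem_sup_right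
    (Submonoid.mem_powers _)) (P.mul_mem_right w h)) h0
  obtain ⟨g₂, m2, t2⟩ := exists_top hψ h1 h2
  obtain ⟨z, e3, t3⟩ := exists_top_lift g₀ h0
  have t4 : th τ V (MvPolynomial.X x) = C (MvPolynomial.X x) * X := by simp [th]
  have t5 : ∀ n, Top ψ (MvPolynomial.X x ^ n) := fun n => by simp [Top, t4]
  refine hP (g₁ + MvPolynomial.X x ^ ((th τ V g₁).natDegree + 1) * (z * g₂))
    (Submonoid.mem_sup_left ⟨?_, fun h hh => r1 h ?_⟩)
    (add_mem m1 (P.mul_mem_left _ (P.mul_mem_left _ m2)))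
  · rw [Top, map_add, leadingCoeff_add_of_degree_lt]
    · exact (t5 _).mul (t3.mul t2)
    · refine degree_lt_degree ?_
      rw [map_mul, natDegree_mul (t5 _).ne_zero (t3.mul t2).ne_zero, map_pow, t4, natDegree_pow,
        natDegree_C_mul_X _ (MvPolynomial.X_ne_zero x)]
      omega
  · rw [map_add, map_mul, map_mul, e3, add_mul] at hh
    exact (dvd_add_left (((dvd_mul_right _ _).mul_left _).mul_right _)).1 hh

end Pool.Agent.Lib.MP_a37f0b_ag
end

-- part Pool.Agent.Lib.MP_a37f0b_ag.Main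
section

/-!
The main lemma and the recursion.
-/

open Matrix Polynomial

namespace Pool.Agent.Lib.MP_a37f0b_ag

variable {A B : Type} [CommRing A] [CommRing B] {τ σ : Type}

lemma exists_equiv {f : A →+* B} (g : B →+* A) (h1 : f.comp g = RingHom.id B)
    (h2 : g.comp f = RingHom.id A) : ∃ ε : A ≃+* B, (ε : A →+* B) = f :=
  ⟨RingEquiv.ofRingHom f g h1 h2, rfl⟩

lemma exists_tr (a : τ → A) : ∃ T : MvPolynomial τ A ≃+* MvPolynomial τ A,
    (T : MvPolynomial τ A →+* _) =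
      MvPolynomial.eval₂Hom MvPolynomial.C fun i => MvPolynomial.X i + MvPolynomial.C (a i) :=
  exists_equiv
    (MvPolynomial.eval₂Hom MvPolynomial.C fun i => MvPolynomial.X i - MvPolynomial.C (a i))
    (MvPolynomial.ringHom_ext (by simp) (by simp)) (MvPolynomial.ringHom_ext (by simp) (by simp))

lemma exists_shear {β : Option σ → A} (hb : IsUnit (β none)) :
    ∃ ε : MvPolynomial (Option σ) A ≃+* (MvPolynomial σ A)[X],
      (ε : MvPolynomial (Option σ) A →+* _) = MvPolynomial.eval₂Hom (C.comp MvPolynomial.C)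
        fun o => C (o.elim 0 MvPolynomial.X) + C (MvPolynomial.C (β o)) * X := by
  obtain ⟨b, hb⟩ := hb.exists_right_inv
  refine exists_equiv (eval₂RingHom (MvPolynomial.eval₂Hom MvPolynomial.C fun i =>
    MvPolynomial.X (some i) - MvPolynomial.C (β (some i)) * (MvPolynomial.C b * MvPolynomial.X none))
    (MvPolynomial.C b * MvPolynomial.X none)) ?_ ?_
  · have : (C (MvPolynomial.C b) * (C (MvPolynomial.C (β none)) * X) : (MvPolynomial σ A)[X]) = X := by
      rw [← mul_assoc, ← C_mul, ← map_mul, mul_comm b, hb]; simp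
    exact Polynomial.ringHom_ext' (MvPolynomial.ringHom_ext (by simp) (by simp [this]))
      (by simp [this])
  · refine MvPolynomial.ringHom_ext (by simp) fun o => ?_
    cases o
    · simp only [RingHom.comp_apply, MvPolynomial.eval₂Hom_X', coe_eval₂RingHom, eval₂_add,
        eval₂_mul, eval₂_C, eval₂_X, MvPolynomial.eval₂Hom_C, Option.elim_none, map_zero]
      rw [← mul_assoc, ← map_mul, hb]; simp
    · simp

section shear

variable {V κ F : Type} [CommRing V] [Field κ] [Field F] {ψ : V →+* κ}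

/-- Translation of the point `χ` to the origin. -/
noncomputable def tr (χ : MvPolynomial τ V →+* F) : MvPolynomial τ V →+* MvPolynomial τ F :=
  MvPolynomial.eval₂Hom (MvPolynomial.C.comp (χ.comp MvPolynomial.C))
    fun i => MvPolynomial.X i + MvPolynomial.C (χ (MvPolynomial.X i))

lemma Rg.tr {ι : κ →+* F} {χ : MvPolynomial τ V →+* F} (hc : χ.comp MvPolynomial.C = ι.comp ψ)
    {g g₀ : MvPolynomial τ V} (h : Rg (g.map ψ) (g₀.map ψ)) : Rg (tr χ g) (tr χ g₀) := by
  obtain ⟨T, hT⟩ := exists_tr fun i => χ (MvPolynomial.X i)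
  rw [(MvPolynomial.ringHom_ext (by simp [hT, hc, MP_a37f0b_ag.tr]) (by simp [hT, MP_a37f0b_ag.tr]) :
    MP_a37f0b_ag.tr χ = (T : MvPolynomial τ F →+* MvPolynomial τ F).comp
      ((MvPolynomial.map ι).comp (MvPolynomial.map ψ)))]
  exact (h.mv ι).loc (isLoc_equiv T)

lemma tr_coeff (χ : MvPolynomial τ V →+* F) (g : MvPolynomial τ V) :
    (th τ F (tr χ g)).coeff 0 = MvPolynomial.C (χ g) := by
  rw [th_coeff, MvPolynomial.homogeneousComponent_zero, ← MvPolynomial.constantCoeff_eq,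
    ← RingHom.comp_apply _ (tr χ), (MvPolynomial.ringHom_ext (by simp [tr]) (by simp [tr]) :
      MvPolynomial.constantCoeff.comp (tr χ) = χ)]

lemma shear_core [Infinite κ] (hψ : Function.Surjective ψ) (hl : ∀ v, ψ v ≠ 0 → IsUnit v)
    {ι : κ →+* F} {χ : MvPolynomial (Option σ) V →+* F} (hc : χ.comp MvPolynomial.C = ι.comp ψ)
    {g : MvPolynomial (Option σ) V} (h1 : Top ψ g) {r : MvPolynomial (Option σ) F} (r0 : r ≠ 0) :
    ∃ (ε : MvPolynomial (Option σ) V ≃+* (MvPolynomial σ V)[X]) (b : Option σ → F) (c : V),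
      MvPolynomial.eval b r ≠ 0 ∧ (∀ c, ε (MvPolynomial.C c) = C (MvPolynomial.C c)) ∧
      (∃ u, IsUnit u ∧ ε (MvPolynomial.X none) = u * X) ∧ IsUnit c ∧
      (ε (MvPolynomial.C c * g)).Monic ∧ ∀ a, (ε a).map (χ.comp (ε.symm.toRingHom.comp C)) =
        eval₂RingHom C (X - C (χ (ε.symm X))) ((th _ F (tr χ a)).map (MvPolynomial.eval b)) := by
  have hc' : ∀ v, χ (MvPolynomial.C v) = ι (ψ v) := RingHom.congr_fun hc
  obtain ⟨b, hb, h3⟩ : ∃ b ∈ Set.pi Set.univ fun _ => Set.range ι, MvPolynomial.eval b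
      (r * (((th _ V g).leadingCoeff.map ψ).map ι * MvPolynomial.X none)) ≠ 0 := by
    by_contra! hn
    exact mul_ne_zero r0 (mul_ne_zero ((map_ne_zero_iff _ (MvPolynomial.map_injective _
      ι.injective)).2 h1) (MvPolynomial.X_ne_zero _)) (MvPolynomial.funext_set _
      (fun _ => Set.infinite_range_of_injective ι.injective) (by simpa using hn))
  choose β hβ using fun o => show ∃ v, ι (ψ v) = b o from
    let ⟨k, hk⟩ := hb o trivial; let ⟨v, hv⟩ := hψ k; ⟨v, hv ▸ hk⟩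
  simp only [map_mul, mul_ne_zero_iff, MvPolynomial.eval_X] at h3
  have hu := hl (β none) fun h => h3.2.2 (by rw [← hβ, h, map_zero])
  obtain ⟨ε, hε⟩ := exists_shear hu
  have e1 : ∀ c, ε (MvPolynomial.C c) = C (MvPolynomial.C c) := fun c => by
    rw [← RingHom.coe_coe, hε]; simp
  have e2 : ∀ o, ε (MvPolynomial.X o) = C (o.elim 0 MvPolynomial.X) +
      C (MvPolynomial.C (β o)) * X := fun o => by rw [← RingHom.coe_coe, hε]; simp
  obtain ⟨c, h4⟩ := (hl (MvPolynomial.eval β (th _ V g).leadingCoeff) fun h => h3.2.1 (by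
    rw [← map_zero ι, ← h]
    exact RingHom.congr_fun (f := (MvPolynomial.eval b).comp ((MvPolynomial.map ι).comp
      (MvPolynomial.map ψ))) (g := (ι.comp ψ).comp (MvPolynomial.eval β))
      (MvPolynomial.ringHom_ext (by simp) (by simp [hβ])) _)).exists_left_inv
  have h5 : (ε (MvPolynomial.C c * g)).Monic := by
    have := coeff_top MvPolynomial.C (fun o => o.elim 0 MvPolynomial.X)
      (fun o => MvPolynomial.C (β o)) g le_rfl
    rw [← hε, RingHom.coe_coe] at this
    rw [map_mul, e1]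
    refine monic_of_natDegree_le_of_coeff_eq_one _ ((natDegree_C_mul_le _ _).trans this.1) ?_
    rw [coeff_C_mul, this.2, ← map_one MvPolynomial.C, ← h4, map_mul]
    exact congrArg _ (RingHom.congr_fun (g := MvPolynomial.C.comp (MvPolynomial.eval β))
      (MvPolynomial.ringHom_ext (by simp) (by simp)) _)
  refine ⟨ε, b, c, h3.1, e1, ⟨_, (hu.map _).map C, by simpa using e2 none⟩,
    IsUnit.of_mul_eq_one _ h4, h5, ?_⟩
  set χ' := χ.comp (ε.symm.toRingHom.comp C) with h6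
  have e3 : ∀ c, χ' (MvPolynomial.C c) = ι (ψ c) := fun c => by simp [h6, ← e1, hc']
  exact RingHom.congr_fun (f := (mapRingHom χ').comp ε) (g := (eval₂RingHom C (X - C (χ (ε.symm X)))).comp
    ((mapRingHom (MvPolynomial.eval b)).comp ((th _ F).comp (tr χ))))
    (MvPolynomial.ringHom_ext (by simp [e1, e3, tr, th, hc']) fun o => by
      have : C (χ (MvPolynomial.X o)) = C (χ' (o.elim 0 MvPolynomial.X)) +
          C (b o) * C (χ (ε.symm X)) := by
        have := congrArg (fun a => C (χ (ε.symm a))) (e2 o)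
        simp only [RingEquiv.symm_apply_apply, map_add, map_mul, ← e1, hc', hβ] at this
        exact this
      simp [e2, e3, tr, th, this, hβ]
      ring)

lemma shear [Finite σ] [Infinite κ] (hψ : Function.Surjective ψ) (hl : ∀ v, ψ v ≠ 0 → IsUnit v)
    (ι : κ →+* F) {χ : MvPolynomial (Option σ) V →+* F} (hc : χ.comp MvPolynomial.C = ι.comp ψ)
    {g g₀ : MvPolynomial (Option σ) V} (h1 : Top ψ g) (h2 : Rg (g.map ψ) (g₀.map ψ))
    (h0 : χ g₀ ≠ 0) :
    ∃ ε : MvPolynomial (Option σ) V ≃+* (MvPolynomial σ V)[X],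
      (∀ c, ε (MvPolynomial.C c) = C (MvPolynomial.C c)) ∧
      (∃ u, IsUnit u ∧ ε (MvPolynomial.X none) = u * X) ∧
      ∃ c, (ε (c * g)).Monic ∧ ∃ ρ, χ (ε.symm (C ρ)) ≠ 0 ∧
        ∃ α β, α * ε (c * g) + β * ε g₀ = C ρ := by
  obtain ⟨r, r0, hr⟩ := gen_line (h2.tr hc) (k := 0) (by rw [pow_zero, one_mul])
    (by simpa [tr_coeff] using h0)
  obtain ⟨ε, b, c, h3, e1, e2, h4, h5, e4⟩ := shear_core hψ hl hc h1 r0
  obtain ⟨ρ, h6, h7⟩ := res_lemma (χ.comp (ε.symm.toRingHom.comp C)) (g := ε g₀) h5 (by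
    rw [map_mul, Polynomial.map_mul, e1, map_C, isCoprime_mul_unit_left_left
      (((h4.map _).map _).map C), e4, e4]
    exact (hr b h3).map _)
  exact ⟨ε, e1, e2, _, h5, ρ, h6.ne_zero, h7⟩

end shear

lemma ml_tail {W B₀ D : Type} [CommRing W] [CommRing B₀] [CommRing D] [IsDomain D] [Nontrivial B]
    {φ₀ : W →+* B₀} {M₀ : Submonoid W} (h₀ : IsLoc φ₀ M₀) {ψ : W →+* D} {j : B₀ →+* B}
    {j₁ : D →+* B} (hj : j₁.comp ψ = j.comp φ₀) {g h : W} (hc : IsCoprime (ψ h) (ψ g))
    (hg : ψ g ≠ 0) (ha : M₀ ≤ (Sat (Submonoid.powers (ψ h))).comap ψ) (hu : IsUnit (j₁ (ψ h)))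
    {ι : Type} [Fintype ι] {e : Matrix ι ι B₀} (he : e * e = e) (hq : QFree (φ₀ g) e)
    (hD : ∀ (μ : Type) [Fintype μ] (d : Matrix μ μ D) (k : ℕ), d * d = d → QFree (ψ g ^ k) d →
      Free d) : Free (e.map j) := by
  obtain ⟨D', _, _, i, hi⟩ := exists_loc (zero_notMem_powers (a := ψ h) fun h0 => by
    simp [h0] at hu)
  obtain ⟨l, hl⟩ := h₀.lift (i.comp ψ) fun m hm => hi.unit' (ha hm)
  obtain ⟨j₂, rfl⟩ := hi.lift j₁ (by rintro _ ⟨n, rfl⟩; simpa using hu.pow n)
  obtain rfl : j₂.comp l = j := h₀.ext (by rw [RingHom.comp_assoc, hl, ← hj]; rfl)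
  obtain ⟨μ, _, d, hd, h1, k, h2⟩ := (hi.an (f := ψ g) (by
    rintro _ ⟨n, rfl⟩; exact hc.pow_left)).desc hg (idem_map he l)
      (RingHom.congr_fun hl g ▸ hq.map l)
  rw [← map_comp']
  exact (Free.of_eqv h1 (idem_map he l) ((hD μ d k hd h2).map i)).map j₂

lemma exists_mf [IsDomain A] (hB : BQ A) (δ : ℕ) : ∃ (D : Type) (_ : CommRing D) (_ : IsDomain D)
    (i : A[X] →+* D), IsLoc i (Submonoid.powers (X ^ δ)) ∧ ∀ (μ : Type) [Fintype μ]
      (d : Matrix μ μ D) (f : A[X]), f.Monic → d * d = d → QFree (i f) d → Free d := by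
  rcases δ with _ | δ
  · exact ⟨_, _, inferInstance, RingHom.id _, isLoc_id.mono bot_le (by rintro _ ⟨n, rfl⟩; simp),
      fun μ _ d f hf hd hq => horrocks hd hf hq⟩
  · refine ⟨_, _, isLoc_iP.domain, iP A, isLoc_iP.mono (Submonoid.powers_le.2
      ⟨_, Submonoid.mem_powers _, dvd_pow_self _ δ.succ_ne_zero⟩) (by
        rintro _ ⟨n, rfl⟩; exact isLoc_iP.unit _ ⟨_, pow_mul _ _ _⟩), fun μ _ d f hf hd hq => ?_⟩
    obtain ⟨ψ, -, -, ν, _, d', hd', h1, h2⟩ := isLoc_iP.extInf hd hf hq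
    exact Free.of_eqv h1 hd ((hB.free hd' h2).map ψ)

/-- The elements not killed by `χ`. -/
def NZ {F : Type} [Field F] (χ : A →+* F) : Submonoid A where
  carrier := {a | χ a ≠ 0}
  one_mem' := by simp
  mul_mem' := fun h h' => by simpa using ⟨h, h'⟩

/-- Freeness over the local ring at the kernel of `χ` with `w` inverted. -/
def LQ {F : Type} [Field F] (χ : A →+* F) (w : A) : Prop := LAF A (NZ χ ⊔ Submonoid.powers w)

lemma IsLoc.lq {φ : A →+* B} {N : Submonoid A} (h : IsLoc φ N) {F : Type} [Field F]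
    (χ : B →+* F) (w : A) : LQ (χ.comp φ) w ↔ LQ χ (φ w) := by
  have h1 : N ≤ NZ (χ.comp φ) := fun n hn => ((h.unit n hn).map χ).ne_zero
  refine h.laf_iff (sup_le (fun a ha => Sat.of_mem (Submonoid.mem_sup_left ha))
    (Submonoid.powers_le.2 (Sat.of_mem (Submonoid.mem_sup_right (Submonoid.mem_powers _)))))
    (h1.trans (le_sup_left.trans (le_Sat _))) (sup_le (fun b hb => ?_) (Submonoid.powers_le.2
      (Sat.of_mem ⟨_, Submonoid.mem_sup_right (Submonoid.mem_powers _), rfl⟩)))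
  obtain ⟨m, hm, a, ha⟩ := h.surj b
  refine ⟨_, ⟨a, Submonoid.mem_sup_left ?_, rfl⟩, _, ha.symm⟩
  change χ (φ a) ≠ 0
  rw [← ha, map_mul]
  exact mul_ne_zero hb (h1 hm)

variable {V : Type} [CommRing V]

/-- Localizations of polynomial rings over `V`. -/
def Good (γ : V →+* A) : Prop := ∃ (σ : Type) (_ : Finite σ) (φ : MvPolynomial σ V →+* A)
  (M : Submonoid _), IsLoc φ M ∧ φ.comp MvPolynomial.C = γ

lemma good_mv [Finite σ] : Good (MvPolynomial.C : V →+* MvPolynomial σ V) :=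
  ⟨σ, ‹_›, _, _, isLoc_id, rfl⟩

lemma Good.loc {γ : V →+* A} (h : Good γ) {φ : A →+* B} {M : Submonoid A} (h' : IsLoc φ M) :
    Good (φ.comp γ) :=
  let ⟨σ, i, _, _, h1, h2⟩ := h
  ⟨σ, i, _, _, h1.comp' h', h2 ▸ rfl⟩

lemma Good.mv {γ : V →+* A} (h : Good γ) (τ : Type) [Finite τ] :
    Good ((MvPolynomial.C : A →+* MvPolynomial τ A).comp γ) :=
  let ⟨σ, _, _, _, h1, h2⟩ := h
  ⟨τ ⊕ σ, inferInstance, _, _, (isLoc_equiv (MvPolynomial.sumRingEquiv V τ σ)).comp' (h1.mv τ),
    RingHom.ext fun v => by simp [← h2]⟩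

lemma Good.poly {γ : V →+* A} (h : Good γ) : ∃ (σ : Type) (_ : Finite σ)
    (φ : MvPolynomial (Option σ) V →+* A[X]) (M : Submonoid _), IsLoc φ M ∧
      φ.comp MvPolynomial.C = C.comp γ ∧ φ (MvPolynomial.X none) = X :=
  let ⟨σ, i, _, _, h1, h2⟩ := h
  ⟨σ, i, _, _, (isLoc_equiv (MvPolynomial.optionEquivLeft V σ).toRingEquiv).comp' h1.poly,
    RingHom.ext fun v => by simp [← h2], by simp⟩

variable [IsDomain V] [IsPrincipalIdealRing V]

lemma Good.bq {γ : V →+* A} (h : Good γ) : BQ A :=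
  let ⟨σ, _, _, _, h1, _⟩ := h
  h1.bq ((quillen_suslin (Option σ) V).of_equiv (MvPolynomial.optionEquivLeft V σ).toRingEquiv)

lemma mem_LM {K : Submonoid A} {w : A} {m : MvPolynomial τ A}
    (h : m ∈ LM τ (K ⊔ Submonoid.powers w)) : ∃ g ∈ K, ∃ x ∈ LM τ (Submonoid.powers w),
      m = MvPolynomial.C g * x := by
  obtain ⟨_, ⟨k, hk, rfl⟩, x, hx, rfl⟩ := Submonoid.mem_sup.1 h
  obtain ⟨g, hg, y, hy, rfl⟩ := Submonoid.mem_sup.1 hk
  exact ⟨g, hg, _, mul_mem (C_mem_LM hy) (Submonoid.mem_sup_right hx), by rw [map_mul, mul_assoc]⟩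

lemma LM_pow_le {w : A} {S : Submonoid (MvPolynomial τ A)} (h1 : MvPolynomial.C w ∈ S)
    (h2 : ∀ i, MvPolynomial.X i ∈ S) : LM τ (Submonoid.powers w) ≤ S :=
  LM_le (Submonoid.powers_le (P := S.comap MvPolynomial.C).2 h1) h2

theorem ml_local [Finite σ] {κ F : Type} [Field κ] [Field F] [Infinite κ] {ψ : V →+* κ}
    (hψ : Function.Surjective ψ) (hl : ∀ v, ψ v ≠ 0 → IsUnit v) (ι : κ →+* F)
    {χ : MvPolynomial (Option σ) V →+* F} (hc : χ.comp MvPolynomial.C = ι.comp ψ) {v : V}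
    (hv : v ≠ 0) (δ : ℕ) : LQ χ (MvPolynomial.C v * MvPolynomial.X none ^ δ) :=
  fun τ _ B _ φ hφ μ _ e he => by
  set w : MvPolynomial (Option σ) V := MvPolynomial.C v * MvPolynomial.X none ^ δ with hw
  have w0 : w ≠ 0 := by simp [hw, hv]
  have := hφ.domain
  obtain ⟨m, hm, e', he'⟩ := hφ.den e
  obtain ⟨g₀, h0, x, hx, rfl⟩ := mem_LM hm
  have g0 : g₀.map ψ ≠ 0 := fun h => h0 (by
    rw [← (MvPolynomial.ringHom_ext (by simpa using fun r => (RingHom.congr_fun hc r).symm)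
      (by simp) : (MvPolynomial.eval₂Hom ι fun i => χ (MvPolynomial.X i)).comp
        (MvPolynomial.map ψ) = χ), RingHom.comp_apply, h, map_zero])
  obtain ⟨B₀, _, _, φ₀, h₀⟩ := exists_loc (zero_notMem_LM (σ := τ) (zero_notMem_powers
    (mul_ne_zero (fun h => g0 (by simp [h])) w0 : g₀ * w ≠ 0)))
  have u1 : ∀ a ∈ NZ χ, IsUnit (φ (MvPolynomial.C a)) := fun a ha =>
    hφ.unit _ (C_mem_LM (Submonoid.mem_sup_left ha))
  have u2 : IsUnit (φ (MvPolynomial.C w)) :=
    hφ.unit _ (C_mem_LM (Submonoid.mem_sup_right (Submonoid.mem_powers _)))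
  have u3 : ∀ i, IsUnit (φ (MvPolynomial.X i)) := fun i => hφ.unit _ (X_mem_LM i)
  obtain ⟨j, hj⟩ := h₀.lift φ (LM_pow_le (S := (IsUnit.submonoid B).comap φ)
    (show IsUnit _ by simpa only [map_mul] using (u1 g₀ h0).mul u2) u3)
  obtain ⟨t, ht⟩ := (h₀.unit' (mul_mem (C_sat_LM ⟨_, Submonoid.mem_powers _, dvd_mul_right g₀ w⟩)
    (LM_pow_le (C_sat_LM ⟨_, Submonoid.mem_powers _, dvd_mul_left w g₀⟩)
      (fun i => Sat.of_mem (X_mem_LM i)) hx))).exists_left_inv
  have h1 : (t • e'.map φ₀).map j = e := by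
    rw [map_smul', map_comp', hj, he', smul_smul, ← hj, RingHom.comp_apply, ← map_mul, ht, map_one,
      one_smul]
  have h2 : (t • e'.map φ₀) * (t • e'.map φ₀) = t • e'.map φ₀ :=
    Matrix.map_injective (h₀.inj_of_comp (hj ▸ hφ.inj)) (by simp only [Matrix.map_mul, h1, he])
  obtain ⟨n, hn, hq⟩ := (laf_St hψ none g0 w0 τ).qfree h₀ (LM_pow_le (Sat.of_mem (C_mem_LM
    (Submonoid.mem_sup_right (Submonoid.mem_powers _)))) fun i => Sat.of_mem (X_mem_LM i)) h2
  obtain ⟨g, hg, y, hy, rfl⟩ := mem_LM hn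
  obtain ⟨ε, e1, ⟨u, hu, e2⟩, c, h5, ρ, h6, α, β, h7⟩ := shear hψ hl ι hc hg.1 hg.2 h0
  obtain ⟨A₂, _, _, φ₂, h₂⟩ := exists_loc (zero_notMem_LM (σ := τ) (zero_notMem_powers
    (mul_ne_zero (fun h => h6 (by simp [h])) (by simpa using hv) : ρ * MvPolynomial.C v ≠ 0)))
  obtain ⟨D, _, _, i, hi, hD⟩ := exists_mf ((good_mv.mv τ).loc h₂).bq δ
  obtain ⟨j₀, hj₀⟩ := h₂.lift (φ.comp (MvPolynomial.map (ε.symm.toRingHom.comp C)))
    (LM_pow_le (S := (IsUnit.submonoid B).comap _) (show IsUnit _ by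
      simpa [← e1] using ⟨u1 _ h6, isUnit_of_dvd_unit (_root_.map_dvd (φ.comp MvPolynomial.C)
        (dvd_mul_right _ _)) u2⟩) fun i => show IsUnit _ by simpa using u3 i)
  obtain ⟨j₁, hj₁⟩ := hi.lift (eval₂RingHom j₀ (φ (MvPolynomial.C (ε.symm X)))) (by
    rintro _ ⟨n, rfl⟩
    have : ε.symm X ∣ MvPolynomial.X none := ⟨ε.symm u, by rw [← map_mul, mul_comm, ← e2]; simp⟩
    simpa [-coe_eval₂RingHom, map_pow, show eval₂RingHom j₀ _ X = _ from eval₂_X _ _] using
      (isUnit_of_dvd_unit (_root_.map_dvd (φ.comp MvPolynomial.C)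
        ((pow_dvd_pow_of_dvd this δ).mul_left _)) u2).pow n)
  let γ := i.comp (mapRingHom (φ₂.comp MvPolynomial.C))
  have h8 : j₁.comp γ = (φ.comp MvPolynomial.C).comp ε.symm.toRingHom := by
    rw [← RingHom.comp_assoc, hj₁]
    exact Polynomial.ringHom_ext (fun a => by
      simpa using RingHom.congr_fun hj₀ (MvPolynomial.C a)) (by simp)
  have h9 := h₂.unit _ (C_mem_LM (Submonoid.mem_powers _))
  rw [map_mul, map_mul, IsUnit.mul_iff] at h9
  rw [← h1]
  refine ml_tail h₀ (ψ := MvPolynomial.eval₂Hom (γ.comp ε) fun l => i (C (φ₂ (MvPolynomial.X l))))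
    (j₁ := j₁) (hj ▸ MvPolynomial.ringHom_ext
      (fun a => by simpa using RingHom.congr_fun h8 (ε a)) fun l => by
        simpa using (RingHom.congr_fun hj₁ _).trans
          ((eval₂_C _ _).trans (RingHom.congr_fun hj₀ (MvPolynomial.X l))))
    (g := MvPolynomial.C (c * g)) (h := MvPolynomial.C g₀) ?_ ?_ (LM_pow_le ?_ fun l =>
      Sat.of_unit (by simpa using ((h₂.unit _ (X_mem_LM l)).map C).map i)) ?_ h2
    (hq.of_dvd ?_) fun μ _ d k hd hq => hD μ d _ ((h5.map (φ₂.comp MvPolynomial.C)).pow k) hd ?_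
  · obtain ⟨s, hs⟩ := ((h9.1.map C).map i).exists_left_inv
    refine ⟨s * γ β, s * γ α, ?_⟩
    simp only [MvPolynomial.eval₂Hom_C, RingHom.comp_apply, RingHom.coe_coe]
    rw [mul_assoc, mul_assoc, ← mul_add, ← map_mul, ← map_mul, ← map_add, add_comm, h7, ← hs]
    simp [γ]
  · rw [MvPolynomial.eval₂Hom_C]
    exact (map_ne_zero_iff _ hi.inj).2 (h5.map _).ne_zero
  · rw [Submonoid.mem_comap, map_mul, map_mul]
    refine mul_mem (Sat.of_mem (Submonoid.mem_powers _)) (Sat.of_unit ?_)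
    rw [MvPolynomial.eval₂Hom_C, RingHom.comp_apply, RingHom.coe_coe, hw, map_mul, map_pow, e1, e2,
      mul_pow, map_mul, map_mul]
    exact IsUnit.mul (by simpa [γ] using (h9.2.map C).map i) (((hu.pow δ).map γ).mul
      (by simpa [γ] using hi.unit _ (Submonoid.mem_powers _)))
  · simpa [← RingHom.comp_apply j₁ γ, h8] using u1 g₀ h0
  · rw [map_mul, (h₀.unit y hy).mul_right_dvd]
    exact _root_.map_dvd (φ₀.comp MvPolynomial.C) (dvd_mul_left g c)
  · rw [map_pow]; rwa [MvPolynomial.eval₂Hom_C] at hq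

lemma pid_dvd {P : Ideal V} (hP : P.IsPrime) {f g : V} (hf : f ∈ P) (hp : Prime f) (hg : g ∈ P) :
    f ∣ g :=
  Ideal.mem_span_singleton.1 (((PrincipalIdealRing.isMaximal_of_irreducible hp.irreducible).eq_of_le
    hP.ne_top ((Ideal.span_singleton_le_iff_mem _).2 hf)).ge hg)

variable {F : Type} [Field F]

lemma loc_base (χ : MvPolynomial τ V →+* F) : ∃ (V' : Type) (_ : CommRing V') (_ : IsDomain V')
    (_ : IsPrincipalIdealRing V') (φ : V →+* V') (M : Submonoid V) (χ' : MvPolynomial τ V' →+* F),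
      IsLoc φ M ∧ χ'.comp (MvPolynomial.map φ) = χ ∧ ∀ b, χ' (MvPolynomial.C b) ≠ 0 → IsUnit b := by
  obtain ⟨V', _, _, φ, h⟩ := exists_loc (M := NZ (χ.comp MvPolynomial.C)) fun h => h (map_zero _)
  obtain ⟨χ', rfl⟩ := (h.mv τ).lift χ (by rintro _ ⟨m, hm, rfl⟩; exact Ne.isUnit hm)
  refine ⟨V', _, ‹_›, h.pid fun _ hP _ _ hf hp _ => pid_dvd hP hf hp, φ, _, χ', h, rfl,
    fun b hb => ?_⟩
  obtain ⟨m, hm, a, ha⟩ := h.surj b
  refine isUnit_of_mul_isUnit_left (ha ▸ h.unit a ?_)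
  simpa [NZ, ← ha, hb] using hm

/-- All residue rings are infinite. -/
def Inf (V : Type) [CommRing V] : Prop :=
  ∀ (F : Type) [Field F] (c : V →+* F), (Set.range c).Infinite

theorem ml [Finite σ] (hV : Inf V) (χ : MvPolynomial (Option σ) V →+* F) {v : V}
    (hv : v ≠ 0) (δ : ℕ) : LQ χ (MvPolynomial.C v * MvPolynomial.X none ^ δ) := by
  obtain ⟨V', _, _, _, φ, M, χ', h, rfl, hl⟩ := loc_base χ
  have : IsLocalHom (χ'.comp MvPolynomial.C) := ⟨fun b hb => hl b hb.ne_zero⟩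
  have := (χ'.comp MvPolynomial.C).domain_isLocalRing
  have : Infinite (IsLocalRing.ResidueField V') :=
    Set.infinite_univ_iff.1 ((hV _ ((IsLocalRing.residue V').comp φ)).mono (Set.subset_univ _))
  simpa [(h.mv _).lq] using ml_local IsLocalRing.residue_surjective
    (fun v => (IsLocalRing.residue_ne_zero_iff_isUnit v).1) _
    (IsLocalRing.ResidueField.lift_comp_residue _).symm ((map_ne_zero_iff _ h.inj).2 hv) δ

lemma zero_notMem_lq [IsDomain A] (χ : A →+* F) {w : A} (hw : w ≠ 0) :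
    0 ∉ NZ χ ⊔ Submonoid.powers w := fun h => zero_notMem_nonZeroDivisors
  (sup_le (le_nzd (M := NZ χ) fun h => h (map_zero _)) (le_nzd (zero_notMem_powers hw)) h)

lemma lq_base [Finite τ] (hV : Inf V) (χ : MvPolynomial τ V →+* F) {v : V} (hv : v ≠ 0) :
    LQ χ (MvPolynomial.C v) := by
  classical
  rcases isEmpty_or_nonempty τ with _ | ⟨⟨x⟩⟩
  · have := (isLoc_equiv (MvPolynomial.isEmptyRingEquiv V τ).symm).lq χ v
    rw [RingHom.coe_coe, MvPolynomial.isEmptyRingEquiv_symm_apply] at this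
    exact this.1 (laf_ufd (zero_notMem_lq _ hv) fun _ hP _ _ hf hp _ => pid_dvd hP hf hp)
  · simpa using ((isLoc_equiv (MvPolynomial.renameEquiv V
      (Equiv.optionSubtypeNe x)).toRingEquiv).lq χ _).1 (ml hV _ hv 0)

lemma LAF.sat {M N : Submonoid A} (h : LAF A M) (h1 : M ≤ Sat N) (h2 : N ≤ Sat M) : LAF A N :=
  (isLoc_id.laf_iff h1 bot_le (by erw [Submonoid.map_id]; exact h2)).1 h

lemma lq_step (hV : Inf V) {γ : V →+* A} (h : Good γ) [IsDomain A] {χ : A[X] →+* F} (hX : χ X = 0)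
    {w : A} (hw : w ≠ 0) (h1 : LQ χ (C w)) (h2 : LQ (χ.comp C) w) : LQ χ (C w * X) := by
  refine LAF.sat (M := NZ χ ⊔ Submonoid.powers (C w) ⊔ Submonoid.powers X) (fun τ _ => ?_)
    (sup_le (sup_le (le_sup_left.trans (le_Sat _)) (Submonoid.powers_le.2
      ⟨_, Submonoid.mem_sup_right (Submonoid.mem_powers _), dvd_mul_right _ _⟩))
      (Submonoid.powers_le.2
      ⟨_, Submonoid.mem_sup_right (Submonoid.mem_powers _), dvd_mul_left _ _⟩))
    ((sup_le (le_sup_left.trans le_sup_left) (Submonoid.powers_le.2 (mul_mem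
      (Submonoid.mem_sup_left (Submonoid.mem_sup_right (Submonoid.mem_powers _)))
      (Submonoid.mem_sup_right (Submonoid.mem_powers _))))).trans (le_Sat _))
  obtain ⟨D, _, _, φ, hφ⟩ := exists_loc (zero_notMem_LM (σ := τ) (zero_notMem_lq (χ.comp C) hw))
  have h3 : NZ (χ.comp C) ⊔ Submonoid.powers w ≤ (NZ χ ⊔ Submonoid.powers (C w)).comap C :=
    sup_le (fun a ha => Submonoid.mem_sup_left ha)
      (Submonoid.powers_le.2 (Submonoid.mem_sup_right (Submonoid.mem_powers _)))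
  have h4 : NZ χ ⊔ Submonoid.powers (C w) ≤
      (NZ (χ.comp C) ⊔ Submonoid.powers w).comap (evalRingHom 0) :=
    sup_le (fun a ha => Submonoid.mem_sup_left (by
      rwa [← (Polynomial.ringHom_ext (by simp) (by simp [hX]) :
        (χ.comp C).comp (evalRingHom 0) = χ)] at ha))
      (Submonoid.powers_le.2 (Submonoid.mem_sup_right ⟨1, by simp⟩))
  have hD := (h.mv τ).loc hφ
  rw [hφ.lm_poly fun k hk => Sat.of_mem (Submonoid.mem_sup_left (h3 hk)), Submonoid.map_sup,
    Submonoid.map_powers, coe_mapRingHom, map_X]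
  refine step (fun _ _ _ _ h => (hD.loc h).bq) (fun 𝔪 _ => ?_) ?_
    ((hφ.lm_poly fun k hk => Sat.of_mem (h3 hk)).1 (h1 τ)) (hφ.lm_option.1 (h2 _))
  · obtain ⟨σ, _, ψ, M, h5, -, h6⟩ := hD.poly
    have := (h5.lq ((algebraMap D 𝔪.ResidueField).comp (evalRingHom 0)) _).1 (ml hV _ one_ne_zero 1)
    rw [map_one, one_mul, pow_one, h6] at this
    convert this.af using 2
    ext p
    exact Ideal.algebraMap_residueField_eq_zero.not.symm
  · rintro _ ⟨p, hp, rfl⟩
    simpa [coeff_zero_eq_eval_zero, eval_zero_map] using hφ.unit _ (C_mem_LM (h4 hp))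

theorem lq_prod (hV : Inf V) {v : V} (hv : v ≠ 0) (n : ℕ) : ∀ (τ : Type) [Finite τ] (I : Finset τ)
    (χ : MvPolynomial τ V →+* F), I.card = n →
      LQ χ (MvPolynomial.C v * ∏ i ∈ I, MvPolynomial.X i) := by
  classical
  induction n with
  | zero => intro τ _ I χ hI; simpa [Finset.card_eq_zero.1 hI] using lq_base hV χ hv
  | succ n ih =>
    intro τ _ I χ hI
    obtain ⟨x, J, hx, rfl, hJ⟩ := Finset.card_eq_succ.1 hI
    have h1 := ih τ J χ hJ
    rw [Finset.prod_insert hx, mul_comm (MvPolynomial.X x), ← mul_assoc]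
    by_cases h0 : χ (MvPolynomial.X x) = 0
    · let ε := ((MvPolynomial.renameEquiv V (Equiv.optionSubtypeNe x).symm).trans
        (MvPolynomial.optionEquivLeft V _)).toRingEquiv
      have e1 : ε (MvPolynomial.X x) = X := by simp [ε]
      have h2 : ∀ i ∈ J, i ≠ x := fun i hi h => hx (h ▸ hi)
      have e2 : ε (MvPolynomial.C v * ∏ i ∈ J, MvPolynomial.X i) =
          C (MvPolynomial.C v * ∏ i ∈ J.subtype (· ≠ x), MvPolynomial.X i) := by
        rw [← Finset.prod_subtype_of_mem _ h2, map_mul, map_mul, map_prod, map_prod]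
        exact congr($(by simp [ε]) * $(Finset.prod_congr rfl fun i _ => by
          simp [ε, Equiv.optionSubtypeNe_symm_of_ne i.2]))
      obtain ⟨χ, rfl⟩ : ∃ χ' : _ →+* F, χ'.comp ε = χ := 
        ⟨χ.comp ε.symm.toRingHom, RingHom.ext (by simp)⟩
      rw [(isLoc_equiv ε).lq, RingHom.coe_coe] at h1 ⊢
      rw [e2] at h1
      rw [map_mul, e1, e2]
      exact lq_step hV good_mv (e1 ▸ h0) (mul_ne_zero (by simpa using hv)
        (Finset.prod_ne_zero_iff.2 fun i _ => MvPolynomial.X_ne_zero i)) h1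
        (ih _ _ _ (by rwa [Finset.card_subtype, Finset.filter_true_of_mem h2]))
    · exact h1.sat (sup_le (le_sup_left.trans (le_Sat _)) (Submonoid.powers_le.2
        ⟨_, Submonoid.mem_sup_right (Submonoid.mem_powers _), dvd_mul_right _ _⟩))
        ((sup_le le_sup_left (Submonoid.powers_le.2 (mul_mem (Submonoid.mem_sup_right
          (Submonoid.mem_powers _)) (Submonoid.mem_sup_left h0)))).trans (le_Sat _))

theorem lq_main [Finite τ] (χ : MvPolynomial τ V →+* F)
    (hV : (Set.range (χ.comp MvPolynomial.C)).Infinite) {v : V} (hv : v ≠ 0) (I : Finset τ) :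
    LQ χ (MvPolynomial.C v * ∏ i ∈ I, MvPolynomial.X i) := by
  obtain ⟨V', _, _, _, φ, M, χ', h, rfl, hl⟩ := loc_base χ
  have : Inf V' := fun F _ c hc => hV ((hc.image fun y =>
    χ' (MvPolynomial.C (Function.invFun c y))).subset (by
      rintro _ ⟨a, rfl⟩
      refine ⟨_, ⟨φ a, rfl⟩, ?_⟩
      by_contra hn
      refine (hl (Function.invFun c (c (φ a)) - φ a) (by simpa [sub_eq_zero] using hn)).map c
        |>.ne_zero ?_
      rw [map_sub, Function.invFun_eq (f := c) ⟨_, rfl⟩, sub_self]))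
  simpa [(h.mv _).lq] using lq_prod this ((map_ne_zero_iff _ h.inj).2 hv) _ τ I χ' rfl

lemma AllFree.free (h : AllFree A) (P : Type) [AddCommGroup P] [Module A P] [Module.Finite A P]
    [Module.Projective A P] : Module.Free A P := by
  obtain ⟨n, f, g, -, -, hfg⟩ := Module.Finite.exists_comp_eq_id_of_projective A P
  obtain ⟨m, u, v, h1, h2⟩ := h (Fin n) (LinearMap.toMatrix' (g ∘ₗ f)) (by
    rw [← LinearMap.toMatrix'_comp, LinearMap.comp_assoc, ← LinearMap.comp_assoc f g f, hfg]; rfl)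
  have h3 : toLin' u ∘ₗ toLin' v = g ∘ₗ f := by rw [← toLin'_mul, h1, toLin'_toMatrix']
  have h4 : toLin' v ∘ₗ toLin' u = LinearMap.id := by rw [← toLin'_mul, h2, toLin'_one]
  refine Module.Free.of_equiv (LinearEquiv.ofLinearMap (f ∘ₗ toLin' u) (toLin' v ∘ₗ g) ?_ ?_)
  · rw [LinearMap.comp_assoc, ← LinearMap.comp_assoc g, h3, LinearMap.comp_assoc, hfg]
    exact hfg
  · rw [LinearMap.comp_assoc, ← LinearMap.comp_assoc _ f, ← h3, LinearMap.comp_assoc, h4]
    exact h4

end Pool.Agent.Lib.MP_a37f0b_ag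
end
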