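import Pool.Agent.Lib.MP_a37f0b_ag.Pop3

/-!
Change of rings for projective dimension.
-/

open MvPolynomial Function

namespace Pool.Agent.Lib.MP_a37f0b_ag.Pop

open IsLocalRing

variable {R : Type} [CommRing R]

lemma cr_zero {M : Type} [AddCommGroup M] [Module R M] : PD R M 0 ↔ Module.Projective R M :=
  ((IsProjective.iff_projective M).trans
    (CategoryTheory.projective_iff_hasProjectiveDimensionLE_zero _)).symm

lemma cr_succ {K F M : Type} [AddCommGroup K] [Module R K] [AddCommGroup F] [Module R F]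
    [AddCommGroup M] [Module R M] [Module.Projective R F] (i : K →ₗ[R] F) (f : F →ₗ[R] M)
    (hi : Injective i) (he : Exact i f) (hf : Surjective f) (n : ℕ) :
    PD R M (n + 1) ↔ PD R K n :=
  (ModuleCat.shortComplex_shortExact (ModuleCat.shortComplexOfCompEqZero i f
    he.linearMap_comp_eq_zero) he hi hf).hasProjectiveDimensionLT_X₃_iff n
    ((IsProjective.iff_projective F).1 ‹_›)

theorem pd_cr [IsNoetherianRing R] {x : R} (hx : IsSMulRegular R x) {n : ℕ} {M : Type}
    [AddCommGroup M] [Module R M] [Module.Finite R M] (hM : IsSMulRegular M x) (h : PD R M n) :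
    PD (R ⧸ Ideal.span {x}) (QuotSMulTop x M) n := by
  have hs : Surjective (algebraMap R (R ⧸ Ideal.span {x})) := Ideal.Quotient.mk_surjective
  induction n generalizing M with
  | zero =>
    have := cr_zero.1 h
    exact cr_zero.2 (Module.Projective.of_equiv
      ((QuotSMulTop.equivQuotTensor x M).extendScalarsOfSurjective hs).symm)
  | succ n ih =>
    obtain ⟨m, f, hf⟩ := Module.Finite.exists_fin' R M
    have hF : IsSMulRegular (Fin m → R) x := fun a b e => funext fun i => hx (congrFun e i)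
    have he : Exact (LinearMap.ker f).subtype f := f.exact_subtype_ker_map
    have hi := (LinearMap.ker f).injective_subtype
    have h0 : Exact (0 : PUnit →ₗ[R] LinearMap.ker f) (LinearMap.ker f).subtype :=
      (LinearMap.exact_zero_iff_injective _ _).2 hi
    have h1 := QuotSMulTop.map_first_exact_on_four_term_exact_of_isSMulRegular_last h0 he hM
    rw [map_zero, LinearMap.exact_zero_iff_injective] at h1
    exact (cr_succ ((QuotSMulTop.map x (LinearMap.ker f).subtype).extendScalarsOfSurjective hs)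
      ((QuotSMulTop.map x f).extendScalarsOfSurjective hs) h1 (QuotSMulTop.map_exact x he hf)
      (QuotSMulTop.map_surjective x hf) n).2
      (ih (hF.of_injective _ hi) ((cr_succ _ f hi he hf n).1 h))

theorem pd_step [IsLocalRing R] [IsNoetherianRing R] {x : R} (hx : IsSMulRegular R x)
    (h1 : x ∈ maximalIdeal R) (h2 : x ∉ maximalIdeal R ^ 2) {n : ℕ}
    (h : PD R (R ⧸ maximalIdeal R) (n + 1)) :
    PD (R ⧸ Ideal.span {x}) ((R ⧸ Ideal.span {x}) ⧸
      (maximalIdeal R).map (Ideal.Quotient.mk (Ideal.span {x}))) n := by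
  have hs : Surjective (algebraMap R (R ⧸ Ideal.span {x})) := Ideal.Quotient.mk_surjective
  have hi := (maximalIdeal R).injective_subtype
  have h3 : PD _ (QuotSMulTop x (maximalIdeal R)) n := pd_cr hx (hx.of_injective _ hi)
    ((cr_succ _ _ hi (LinearMap.exact_subtype_mkQ _) (Submodule.mkQ_surjective _) n).1 h)
  obtain ⟨g, hg⟩ := Module.Projective.exists_dual_eq_one (ResidueField R)
    (show (maximalIdeal R).toCotangent ⟨x, h1⟩ ≠ 0 from fun e =>
      h2 ((Ideal.toCotangent_eq_zero _ _).1 e))
  obtain ⟨φ, hφ⟩ : ∃ φ : maximalIdeal R →ₗ[R] R ⧸ maximalIdeal R, φ ⟨x, h1⟩ = 1 :=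
    ⟨g.restrictScalars R ∘ₗ (maximalIdeal R).toCotangent, hg⟩
  let e := (DoubleQuot.quotQuotEquivQuotOfLEₐ R
    ((Ideal.span_singleton_le_iff_mem _).2 h1)).toLinearEquiv
  let i : (R ⧸ maximalIdeal R) →ₗ[R] QuotSMulTop x (maximalIdeal R) := Submodule.liftQ _
    (LinearMap.toSpanSingleton R _ (Submodule.Quotient.mk ⟨x, h1⟩)) fun a ha => by
      rw [LinearMap.mem_ker, LinearMap.toSpanSingleton_apply, ← Submodule.Quotient.mk_smul,
        Submodule.Quotient.mk_eq_zero,
        show a • (⟨x, h1⟩ : maximalIdeal R) = x • (⟨a, ha⟩ : maximalIdeal R) from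
          Subtype.ext (mul_comm a x)]
      exact Submodule.smul_mem_pointwise_smul _ _ _ trivial
  let r : QuotSMulTop x (maximalIdeal R) →ₗ[R] R ⧸ maximalIdeal R := Submodule.liftQ _ φ
    fun a ha => by
      obtain ⟨b, -, rfl⟩ := (Submodule.mem_smul_pointwise_iff_exists _ _ _).1 ha
      rw [LinearMap.mem_ker, map_smul, Algebra.smul_def, Ideal.Quotient.algebraMap_eq,
        Ideal.Quotient.eq_zero_iff_mem.2 h1, zero_mul]
  have hr : ∀ z, r (i z) = z := fun z => by
    obtain ⟨a, rfl⟩ := Submodule.Quotient.mk_surjective _ z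
    change r (a • Submodule.Quotient.mk ⟨x, h1⟩) = _
    rw [map_smul]
    change a • φ _ = _
    rw [hφ, Algebra.smul_def, mul_one]
    rfl
  exact @CategoryTheory.Retract.hasProjectiveDimensionLT _ _ _ (ModuleCat.of _ _) (ModuleCat.of _ _)
    ⟨ModuleCat.ofHom ((i ∘ₗ e.toLinearMap).extendScalarsOfSurjective hs),
      ModuleCat.ofHom ((e.symm.toLinearMap ∘ₗ r).extendScalarsOfSurjective hs),
      ModuleCat.hom_ext (LinearMap.ext fun z => (congrArg e.symm (hr (e z))).trans
        (e.symm_apply_apply z))⟩ _ h3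

end Pool.Agent.Lib.MP_a37f0b_ag.Pop
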