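import Pool.Agent.Lib.MP_a37f0b_ag.Pop3

/-!
Finite projective dimension of cyclic modules.
-/

open MvPolynomial Function

namespace Pool.Agent.Lib.MP_a37f0b_ag.Pop

open IsLocalRing CategoryTheory

variable {R L : Type} [CommRing R] [CommRing L]

lemma pd_equiv {M N : Type} [AddCommGroup M] [Module R M] [AddCommGroup N] [Module R N] {n : ℕ}
    (e : M ≃ₗ[R] N) (h : PD R M n) : PD R N n := by
  unfold PD at h ⊢
  exact ModuleCat.hasProjectiveDimensionLE_of_linearEquiv (M := ModuleCat.of R M)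
    (N := ModuleCat.of R N) e n

lemma pd_succ {M : Type} [AddCommGroup M] [Module R M] {n : ℕ} (h : PD R M n) :
    PD R M (n + 1) := by
  unfold PD at h ⊢
  exact hasProjectiveDimensionLT_of_ge _ (n + 1) (n + 1 + 1) (Nat.le_succ _)

/-- The projection `R/I → R/(I + a)` and its kernel. -/
lemma pd_proj (I : Ideal R) (a : R) : ∃ g : (R ⧸ I) →ₗ[R] (R ⧸ (I ⊔ Ideal.span {a})),
    Surjective g ∧ ∀ x, g x = 0 ↔ ∃ y, a • y = x := by
  refine ⟨Submodule.factor (le_sup_left : I ≤ I ⊔ Ideal.span {a}), Submodule.factor_surjective _,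
    fun x => ?_⟩
  obtain ⟨x, rfl⟩ := Submodule.mkQ_surjective I x
  rw [Submodule.factor_mk, Submodule.mkQ_apply, Submodule.Quotient.mk_eq_zero]
  constructor
  · intro h
    obtain ⟨i, hi, z, hz, rfl⟩ := Submodule.mem_sup.1 h
    obtain ⟨y, rfl⟩ := Ideal.mem_span_singleton'.1 hz
    refine ⟨Submodule.mkQ I y, ?_⟩
    rw [← map_smul, Submodule.mkQ_apply, Submodule.mkQ_apply, Submodule.Quotient.eq]
    simpa [mul_comm] using hi
  · rintro ⟨y, hy⟩
    obtain ⟨y, rfl⟩ := Submodule.mkQ_surjective I y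
    rw [← map_smul, Submodule.mkQ_apply, Submodule.mkQ_apply, Submodule.Quotient.eq] at hy
    have : x = -(a • y - x) + y * a := by simp [mul_comm]
    rw [this]
    exact Submodule.add_mem_sup (I.neg_mem hy) (Ideal.mem_span_singleton'.2 ⟨y, rfl⟩)

/-- The sequence `0 → R/(I : a) → R/I → R/(I + a) → 0`. -/
lemma pd_ses (I I' : Ideal R) (a : R) (h : ∀ μ, μ ∈ I' ↔ a * μ ∈ I) (n : ℕ) :
    (PD R (R ⧸ I') n → PD R (R ⧸ (I ⊔ Ideal.span {a})) n → PD R (R ⧸ I) n) ∧
    (PD R (R ⧸ I') n → PD R (R ⧸ I) (n + 1) → PD R (R ⧸ (I ⊔ Ideal.span {a})) (n + 1)) := by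
  obtain ⟨g, g1, g2⟩ := pd_proj I a
  let f : (R ⧸ I') →ₗ[R] (R ⧸ I) := Submodule.mapQ I' I (LinearMap.mulLeft R a) fun μ hμ => (h μ).1 hμ
  have hf : ∀ y, f (Submodule.mkQ I' y) = a • Submodule.mkQ I y := fun y => rfl
  have ex : Function.Exact f g := fun x => by
    rw [g2]
    constructor
    · rintro ⟨y, rfl⟩
      obtain ⟨y, rfl⟩ := Submodule.mkQ_surjective I y
      exact ⟨_, hf y⟩
    · rintro ⟨y, rfl⟩
      obtain ⟨y, rfl⟩ := Submodule.mkQ_surjective I' y
      exact ⟨_, (hf y).symm⟩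
  have inj : Injective f := (injective_iff_map_eq_zero f).2 fun y hy => by
    obtain ⟨y, rfl⟩ := Submodule.mkQ_surjective I' y
    rw [hf, ← map_smul, Submodule.mkQ_apply, Submodule.Quotient.mk_eq_zero] at hy
    rw [Submodule.mkQ_apply, Submodule.Quotient.mk_eq_zero]
    exact (h y).2 hy
  have hS := ModuleCat.shortComplex_shortExact
    (ModuleCat.shortComplexOfCompEqZero f g ex.linearMap_comp_eq_zero) ex inj g1
  exact ⟨fun h1 h3 => hS.hasProjectiveDimensionLT_X₂ (n + 1) h1 h3,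
    fun h1 h2 => hS.hasProjectiveDimensionLT_X₃ (n + 1) h1 h2⟩

theorem RS.pd {m J : Ideal R} {d n : ℕ} (h : RS m J d) (H : PD R (R ⧸ J) n) :
    PD R (R ⧸ m) (n + d) := by
  induction h generalizing n with
  | zero => exact H
  | succ J d x _ hx _ ih =>
    have := ih ((pd_ses J J x (fun μ => ⟨fun h => J.mul_mem_left x h, hx μ⟩) n).2 H (pd_succ H))
    rwa [add_assoc, add_comm 1 d] at this

theorem pd_bot : PD R (R ⧸ (⊥ : Ideal R)) 0 := by
  refine pd_equiv (Submodule.quotEquivOfEqBot (⊥ : Ideal R) rfl).symm ?_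
  unfold PD
  exact (projective_iff_hasProjectiveDimensionLE_zero _).1
    (ModuleCat.projective_of_categoryTheory_projective _)

lemma pd_top (n : ℕ) : PD R (R ⧸ (⊤ : Ideal R)) n := by
  unfold PD
  have := (ModuleCat.isZero_of_subsingleton
    (ModuleCat.of R (R ⧸ (⊤ : Ideal R)))).hasProjectiveDimensionLT_zero
  exact hasProjectiveDimensionLT_of_ge _ 0 (n + 1) (Nat.zero_le _)

lemma pd_reg [IsLocalRing R] [IsNoetherianRing R] {n : ℕ} {I : Ideal R} {x : R}
    (hx : x ∈ maximalIdeal R) (hr : ∀ μ, x * μ ∈ I → μ ∈ I)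
    (h : PD R (R ⧸ (I ⊔ Ideal.span {x})) n) : PD R (R ⧸ I) n := by
  obtain ⟨g, g1, g2⟩ := pd_proj I x
  have reg : IsSMulRegular (R ⧸ I) x := by
    refine .of_right_eq_zero_of_smul fun y hy => ?_
    obtain ⟨y, rfl⟩ := Submodule.mkQ_surjective I y
    rw [← map_smul, Submodule.mkQ_apply, Submodule.Quotient.mk_eq_zero] at hy
    rw [Submodule.mkQ_apply, Submodule.Quotient.mk_eq_zero]
    exact hr y hy
  have e : (R ⧸ (I ⊔ Ideal.span {x})) ≃ₗ[R] QuotSMulTop x (R ⧸ I) :=
    (g.quotKerEquivOfSurjective g1).symm.trans (Submodule.quotEquivOfEq _ _ (by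
      ext y
      rw [LinearMap.mem_ker, g2, Submodule.mem_smul_pointwise_iff_exists]
      simp))
  have h1 := (projectiveDimension_le_iff _ _).2 (pd_equiv e h)
  rw [ModuleCat.projectiveDimension_quotSMulTop_eq_succ_of_isSMulRegular
    (ModuleCat.of R (R ⧸ I)) x reg hx] at h1
  refine (projectiveDimension_le_iff _ _).1 (le_trans ?_ h1)
  exact le_add_of_nonneg_right zero_le_one

theorem pd_all [IsLocalRing R] [IsNoetherianRing R] {n : ℕ} (h : PD R (R ⧸ maximalIdeal R) n)
    (I : Ideal R) : PD R (R ⧸ I) n := by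
  induction I using IsNoetherian.induction with | hgt I ih =>
  have lt : ∀ a, a ∉ I → I < I ⊔ Ideal.span {a} := fun a ha =>
    lt_of_le_of_ne le_sup_left fun e => ha (e ▸ Ideal.mem_sup_right (Ideal.mem_span_singleton_self a))
  by_cases h1 : I = ⊤
  · exact h1 ▸ pd_top n
  by_cases h2 : ∀ a b, a * b ∈ I → a ∈ I ∨ b ∈ I
  · by_cases h3 : maximalIdeal R ≤ I
    · exact le_antisymm h3 (le_maximalIdeal h1) ▸ h
    · obtain ⟨x, hx, hx'⟩ := SetLike.not_le_iff_exists.1 h3
      exact pd_reg hx (fun μ hμ => (h2 x μ hμ).resolve_left hx') (ih _ (lt x hx'))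
  · push Not at h2
    obtain ⟨a, b, hab, ha, hb⟩ := h2
    have hm : ∀ μ, μ ∈ Submodule.comap (LinearMap.mulLeft R a) I ↔ a * μ ∈ I := fun μ => Iff.rfl
    refine (pd_ses I _ a hm n).1 (ih _ ?_) (ih _ (lt a ha))
    exact lt_of_le_of_ne (fun μ hμ => (hm μ).2 (Ideal.mul_mem_left I a hμ))
      fun e => hb (e ▸ (hm b).2 hab)

attribute [local instance] RingHomInvPair.of_ringEquiv in
theorem pd_loc {ι : R →+* L} {T : Submonoid R} (hι : Lc ι T) {I : Ideal R} {n : ℕ}
    (h : PD R (R ⧸ I) n) : PD L (L ⧸ I.map ι) n := by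
  have := hι.isLocalization
  algebraize [ι]
  unfold PD at h
  let M := ModuleCat.of R (R ⧸ I)
  have h1 := ModuleCat.localizedModule_hasProjectiveDimensionLE n T M
  let g := Submodule.toLocalizedQuotient' L T (Algebra.linearMap R L) I
  have i1 := ModuleCat.localizedModule_isLocalizedModule M T
  let φ := IsLocalizedModule.linearEquiv T (M.localizedModuleMkLinearMap T) g
  let e : Localization T ≃+* L := (IsLocalization.algEquiv T (Localization T) L).toRingEquiv
  have he : ∀ r, e (algebraMap R _ r) = algebraMap R L r :=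
    (IsLocalization.algEquiv T (Localization T) L).commutes
  have h2 : PD L (L ⧸ I.localized' L T (Algebra.linearMap R L)) n := by
    unfold PD
    refine ModuleCat.hasProjectiveDimensionLE_of_semiLinearEquiv e (M := M.localizedModule T)
      (N := ModuleCat.of L (L ⧸ I.localized' L T (Algebra.linearMap R L)))
      { φ.toAddEquiv with map_smul' := fun z m => ?_ } n
    obtain ⟨⟨r, s⟩, hz⟩ := IsLocalization.surj T z
    have hu := (IsLocalization.map_units L s).smul_left_cancel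
      (x := φ (z • m)) (y := e z • φ m)
    refine hu.1 ?_
    rw [smul_smul, ← he, ← map_mul, mul_comm, hz, he, he, algebraMap_smul, algebraMap_smul,
      ← map_smul, ← map_smul, ← algebraMap_smul (Localization T) (s : R), smul_smul, mul_comm, hz,
      algebraMap_smul]
  exact pd_equiv (Submodule.quotEquivOfEq _ _ (Ideal.localized'_eq_map L T I)) h2

end Pool.Agent.Lib.MP_a37f0b_ag.Pop
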