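import Pool.Agent.Lib.MP_a37f0b_ag.PopReg
import Pool.Agent.Lib.MP_a37f0b_ag.PopPD
import Pool.Agent.Lib.MP_a37f0b_ag.PopCR

/-!
The theorem of Serre: localizations of regular local rings are regular.
-/

open MvPolynomial Function

namespace Pool.Agent.Lib.MP_a37f0b_ag.Pop

open IsLocalRing

section aux

variable {R : Type} [CommRing R] [IsLocalRing R]

/-- A local ring whose residue field is projective is a field. -/
lemma se_zero (h : PD R (R ⧸ maximalIdeal R) 0) : maximalIdeal R = ⊥ := by
  have : Module.Projective R (R ⧸ maximalIdeal R) := (IsProjective.iff_projective _).2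
    ((CategoryTheory.projective_iff_hasProjectiveDimensionLE_zero _).2 h)
  obtain ⟨s, hs⟩ := Module.projective_lifting_property (maximalIdeal R).mkQ LinearMap.id
    (Submodule.mkQ_surjective _)
  have h1 : Ideal.Quotient.mk (maximalIdeal R) (s 1) = 1 := LinearMap.congr_fun hs 1
  have h2 : IsUnit (s 1) := by
    by_contra hu
    rw [Ideal.Quotient.eq_zero_iff_mem.2 ((mem_maximalIdeal _).2 hu)] at h1
    exact zero_ne_one (α := ResidueField R) h1
  refine eq_bot_iff.2 fun r hr => h2.mul_left_eq_zero.1 ?_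
  have h3 : r • (1 : R ⧸ maximalIdeal R) = 0 := by
    rw [Algebra.smul_def, mul_one]
    exact Ideal.Quotient.eq_zero_iff_mem.2 hr
  rw [← smul_eq_mul, ← map_smul, h3, map_zero]

/-- In depth zero the projective dimension of the residue field drops. -/
lemma se_socle [IsNoetherianRing R] {n : ℕ} (h : PD R (R ⧸ maximalIdeal R) (n + 1)) {a : R}
    (ha : a ≠ 0) (hm : ∀ r ∈ maximalIdeal R, r * a = 0) : PD R (R ⧸ maximalIdeal R) n := by
  have h1 : CategoryTheory.HasProjectiveDimensionLE
      (ModuleCat.of R (LinearMap.ker (Ideal.span {a}).mkQ)) n :=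
    (LinearMap.shortExact_shortComplexKer
      (Submodule.mkQ_surjective (Ideal.span {a}))).hasProjectiveDimensionLT_X₁ (n + 1)
      (inferInstanceAs (CategoryTheory.HasProjectiveDimensionLT (ModuleCat.of R R) (n + 1)))
      (pd_all h (Ideal.span {a}))
  have h2 : maximalIdeal R = LinearMap.ker (LinearMap.toSpanSingleton R R a) :=
    (maximalIdeal.isMaximal R).eq_of_le (fun e => ha (by
      simpa using (Ideal.eq_top_iff_one _).1 e)) hm
  have h3 : LinearMap.range (LinearMap.toSpanSingleton R R a) =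
      LinearMap.ker (Ideal.span {a}).mkQ := by
    rw [Submodule.ker_mkQ, ← LinearMap.span_singleton_eq_range]
  exact ModuleCat.hasProjectiveDimensionLE_of_linearEquiv
    (M := ModuleCat.of R (LinearMap.ker (Ideal.span {a}).mkQ))
    (N := ModuleCat.of R (R ⧸ maximalIdeal R))
    ((Submodule.quotEquivOfEq _ _ h2).trans ((LinearMap.quotKerEquivRange _).trans
      (LinearEquiv.ofEq _ _ h3))).symm n

/-- In positive depth there is a regular element outside the square of the maximal ideal. -/
lemma se_avoid [IsNoetherianRing R] (h0 : maximalIdeal R ≠ ⊥)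
    (h : ∀ a : R, (∀ r ∈ maximalIdeal R, r * a = 0) → a = 0) :
    ∃ x ∈ maximalIdeal R, x ∉ maximalIdeal R ^ 2 ∧ IsSMulRegular R x := by
  classical
  by_contra! H
  obtain ⟨P, hP, hle⟩ := (Ideal.subset_union_prime (f := id) (I := maximalIdeal R)
    (s := insert (maximalIdeal R ^ 2) (associatedPrimes.finite R R).toFinset)
    (maximalIdeal R ^ 2) (maximalIdeal R ^ 2) (fun P hP h1 _ => by
      rw [Finset.mem_insert, Set.Finite.mem_toFinset] at hP
      exact (hP.resolve_left h1).isPrime)).1 fun x hx => by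
      by_cases h2 : x ∈ maximalIdeal R ^ 2
      · exact Set.mem_biUnion (x := maximalIdeal R ^ 2) (by simp) h2
      · obtain ⟨P, hP, hxP⟩ := Set.mem_iUnion₂.1
          ((biUnion_associatedPrimes_eq_compl_regular R R).ge (H x hx h2))
        exact Set.mem_biUnion (x := P) (by simp [hP]) hxP
  rw [Finset.mem_insert, Set.Finite.mem_toFinset] at hP
  rcases hP with rfl | hP
  · refine h0 (Submodule.eq_bot_of_le_smul_of_le_jacobson_bot (maximalIdeal R) _
      (IsNoetherian.noetherian _) ?_ (maximalIdeal_le_jacobson _))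
    rwa [smul_eq_mul, ← pow_two]
  · obtain ⟨hp, a, rfl⟩ := isAssociatedPrime_iff.1 hP
    refine hp.ne_top ((Ideal.eq_top_iff_one _).2 ?_)
    rw [h a fun r hr => by simpa using hle hr]
    simp

end aux

theorem rs_of_pd (n : ℕ) : ∀ (R : Type) [CommRing R] [IsLocalRing R] [IsNoetherianRing R],
    PD R (R ⧸ maximalIdeal R) n → ∃ d, RS (maximalIdeal R) ⊥ d := by
  induction n with
  | zero => exact fun R _ _ _ h => ⟨0, se_zero h ▸ RS.zero⟩
  | succ n ih =>
    intro R _ _ _ h
    by_cases h0 : maximalIdeal R = ⊥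
    · exact ⟨0, h0 ▸ RS.zero⟩
    by_cases h1 : ∀ a : R, (∀ r ∈ maximalIdeal R, r * a = 0) → a = 0
    swap
    · push Not at h1
      obtain ⟨a, hm, ha⟩ := h1
      exact ih R (se_socle h ha hm)
    obtain ⟨x, x1, x2, x3⟩ := se_avoid h0 h1
    have hs := Ideal.Quotient.mk_surjective (I := Ideal.span {x})
    have : Nontrivial (R ⧸ Ideal.span {x}) := Ideal.Quotient.nontrivial_iff.2 fun e =>
      (mem_maximalIdeal _).1 x1 (Ideal.span_singleton_eq_top.1 e)
    have : IsLocalRing (R ⧸ Ideal.span {x}) := IsLocalRing.of_surjective' _ hs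
    have h2 := pd_step x3 x1 x2 h
    rw [map_maximalIdeal_of_surjective _ hs] at h2
    obtain ⟨d, hd⟩ := ih _ h2
    have h3 := hd.comap hs
    rw [eq_maximalIdeal (Ideal.comap_isMaximal_of_surjective _ hs), ← RingHom.ker_eq_comap_bot,
      Ideal.mk_ker] at h3
    refine ⟨d + 1, RS.succ ⊥ d x x1 (fun μ hμ => ?_) (by rwa [bot_sup_eq])⟩
    exact x3.right_eq_zero_of_smul hμ

theorem serre (R : Type) [CommRing R] [IsRegularLocalRing R] : LocRS R := by
  intro q _
  obtain ⟨n, hn⟩ := reg_rs (R := R)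
  have hι := lc_of_isLocalization (B := Localization.AtPrime q) q.primeCompl
  have h := pd_loc hι (pd_all (hn.pd pd_bot) q)
  rw [Localization.AtPrime.map_eq_maximalIdeal] at h
  obtain ⟨d, hd⟩ := rs_of_pd _ _ h
  exact ⟨_, _, _, d, hι, Localization.AtPrime.map_eq_maximalIdeal (I := q) ▸ hd⟩

end Pool.Agent.Lib.MP_a37f0b_ag.Pop
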