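import Pool.Agent.Lib.MP_a37f0b_ag.PopChain

/-!
Regular local rings are domains with regular systems of parameters.
-/

open MvPolynomial Function

namespace Pool.Agent.Lib.MP_a37f0b_ag.Pop

open IsLocalRing

variable {R : Type} [CommRing R]

lemma rg_local [IsLocalRing R] {x : R} (hx : x ∈ maximalIdeal R) :
    IsLocalRing (R ⧸ Ideal.span {x}) :=
  have := Ideal.Quotient.nontrivial_iff.2 (Ideal.span_singleton_ne_top hx)
  .of_surjective' _ Ideal.Quotient.mk_surjective

lemma rg_drop [IsLocalRing R] [IsNoetherianRing R] {x : R} (hx : x ∈ maximalIdeal R)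
    (hx2 : x ∉ maximalIdeal R ^ 2) [IsLocalRing (R ⧸ Ideal.span {x})] :
    (maximalIdeal (R ⧸ Ideal.span {x})).spanFinrank + 1 ≤ (maximalIdeal R).spanFinrank := by
  classical
  obtain ⟨s, hs, e⟩ := Submodule.FG.exists_span_finset_card_eq_spanFinrank
    (maximalIdeal R).fg_of_isNoetherianRing
  obtain ⟨c, -, hc⟩ := Submodule.mem_span_finset.1 (e.ge hx)
  obtain ⟨y, hy, hu⟩ : ∃ y ∈ s, IsUnit (c y) := by
    by_contra! h
    exact hx2 (hc ▸ pow_two (maximalIdeal R) ▸ Ideal.sum_mem _ fun y hy =>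
      Ideal.mul_mem_mul (h y hy) (e.le (Submodule.subset_span hy)))
  have h1 : maximalIdeal (R ⧸ Ideal.span {x}) =
      Ideal.span ((s.erase y).image (Ideal.Quotient.mk (Ideal.span {x})) : Finset _) := by
    rw [← map_maximalIdeal_of_surjective _ Ideal.Quotient.mk_surjective, Finset.coe_image,
      ← Ideal.map_span]
    refine le_antisymm (Ideal.map_le_iff_le_comap.2 (e.ge.trans (Ideal.span_le.2 fun z hz => ?_)))
      (Ideal.map_mono ((Ideal.span_mono (by simp)).trans e.le))
    by_cases hz' : z = y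
    · rw [hz', SetLike.mem_coe, ← Ideal.unit_mul_mem_iff_mem _ hu, ← smul_eq_mul,
        eq_sub_of_add_eq ((Finset.add_sum_erase s (fun a => c a • a) hy).trans hc)]
      refine sub_mem ?_ (Ideal.le_comap_map (Ideal.sum_mem _ fun a ha =>
        Ideal.mul_mem_left _ _ (Ideal.subset_span ha)))
      rw [Ideal.mem_comap, Ideal.Quotient.eq_zero_iff_mem.2 (Ideal.mem_span_singleton_self x)]
      exact zero_mem _
    · exact Ideal.le_comap_map (Ideal.subset_span (by simp [hz', hz]))
  rw [h1, ← hs, ← Finset.card_erase_add_one hy, add_le_add_iff_right]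
  exact (Submodule.spanFinrank_span_le_ncard_of_finite (Finset.finite_toSet _)).trans
    ((Set.ncard_coe_finset _).trans_le Finset.card_image_le)

theorem reg_quot [IsRegularLocalRing R] {x : R} (hx : x ∈ maximalIdeal R)
    (hx2 : x ∉ maximalIdeal R ^ 2) : IsRegularLocalRing (R ⧸ Ideal.span {x}) := by
  have := rg_local hx
  refine IsRegularLocalRing.of_spanFinrank_maximalIdeal_le _
    (ENat.WithBot.add_le_add_one_right_iff.1 ?_)
  have h1 := ringKrullDim_le_ringKrullDim_quotient_add_encard {x}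
    (by simpa [ringJacobson_eq_maximalIdeal] using hx)
  rw [Set.encard_singleton, ← IsRegularLocalRing.spanFinrank_maximalIdeal] at h1
  refine le_trans ?_ h1
  exact_mod_cast rg_drop hx hx2

lemma rg_nak [IsLocalRing R] [IsNoetherianRing R] {P : Ideal R} (h : P ≤ maximalIdeal R * P) :
    P = ⊥ :=
  Submodule.eq_bot_of_le_smul_of_le_jacobson_bot _ P P.fg_of_isNoetherianRing h
    (maximalIdeal_le_jacobson _)

lemma rg_main (n : ℕ) : ∀ (R : Type) [CommRing R] [IsRegularLocalRing R],
    (maximalIdeal R).spanFinrank = n → IsDomain R ∧ ∃ d, RS (maximalIdeal R) ⊥ d := by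
  induction n using Nat.strong_induction_on with | _ n ih =>
  intro R _ _ hn
  by_cases h0 : maximalIdeal R = ⊥
  · exact ⟨(isField_iff_maximalIdeal_eq.2 h0).isDomain, 0, h0 ▸ RS.zero⟩
  obtain ⟨x, hx, hx'⟩ := Set.not_subset.1 (mt (Ideal.subset_union_prime_finite (f := id)
    ((minimalPrimes.finite_of_isNoetherianRing R).insert (maximalIdeal R ^ 2))
    (maximalIdeal R ^ 2) (maximalIdeal R ^ 2)
    (fun P hP h _ => Ideal.IsMinimalPrime.isPrime (hP.resolve_left h)) (I := maximalIdeal R)).1 (by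
      rintro ⟨P, rfl | hP, h⟩
      · exact h0 (rg_nak (h.trans_eq (pow_two _)))
      · have := Ideal.IsMinimalPrime.isPrime hP
        have e : maximalIdeal R = P := h.antisymm (le_maximalIdeal this.ne_top)
        have h1 := IsRegularLocalRing.spanFinrank_maximalIdeal (R := R)
        rw [← maximalIdeal_height_eq_ringKrullDim, Ideal.height_eq_zero_iff.2 (e ▸ hP)] at h1
        exact h0 ((Submodule.spanFinrank_eq_zero_iff_eq_bot
          (maximalIdeal R).fg_of_isNoetherianRing).1 (by exact_mod_cast h1))))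
  simp only [Set.mem_iUnion, not_exists] at hx'
  have hx2 : x ∉ maximalIdeal R ^ 2 := hx' _ (Set.mem_insert _ _)
  have := reg_quot hx hx2
  obtain ⟨h1, d, h2⟩ := ih _ (hn ▸ rg_drop hx hx2) (R ⧸ Ideal.span {x}) rfl
  have := (Ideal.Quotient.isDomain_iff_prime _).1 h1
  obtain ⟨P, hP, h3⟩ := Ideal.exists_minimalPrimes_le (bot_le : ⊥ ≤ Ideal.span {x})
  have h4 := Ideal.IsMinimalPrime.isPrime hP
  obtain rfl : P = ⊥ := rg_nak fun y hy => by
    obtain ⟨c, rfl⟩ := Ideal.mem_span_singleton.1 (h3 hy)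
    exact Ideal.mul_mem_mul hx ((h4.mem_or_mem hy).resolve_left (hx' P (Or.inr hP)))
  refine ⟨IsDomain.of_bot_isPrime R, d + 1, RS.succ ⊥ d x hx
    (fun μ h => (h4.mem_or_mem h).resolve_left (hx' ⊥ (Or.inr hP))) ?_⟩
  have h5 := h2.comap Ideal.Quotient.mk_surjective
  have := IsLocalHom.of_surjective _ (Ideal.Quotient.mk_surjective (I := Ideal.span {x}))
  rwa [maximalIdeal_comap, ← RingHom.ker_eq_comap_bot, Ideal.mk_ker,
    ← bot_sup_eq (Ideal.span {x})] at h5

theorem reg_domain [IsRegularLocalRing R] : IsDomain R := by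
  exact (rg_main _ R rfl).1

theorem reg_rs [IsRegularLocalRing R] : ∃ d, RS (maximalIdeal R) ⊥ d := by
  exact (rg_main _ R rfl).2

end Pool.Agent.Lib.MP_a37f0b_ag.Pop
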