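import Pool.Agent.Lib.MP_a37f0b_ag.PopRes
import Pool.Agent.Lib.MP_a37f0b_ag.PopSerre
import Pool.Agent.Lib.MP_a37f0b_ag.Lin

/-!
Regular local rings all of whose strata are unramified.
-/

open IsLocalRing Function

namespace Pool.Agent.Lib.MP_a37f0b_ag

open Pop

variable {A R : Type} [CommRing A] [CommRing R]

theorem core_lw [IsDomain A] [IsPrincipalIdealRing A] [IsLocalRing R] [IsDomain R] {k : Type}
    [Field k] [PerfectField k] {β : A →+* R} (hI : IndSm β) {τ : A →+* k} (hτ : Surjective τ)
    (kτ : RingHom.ker τ = (maximalIdeal R).comap β) {ι : Type} [Fintype ι] {r : ι → R}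
    (hr : ∀ i, r i ∈ maximalIdeal R) (h : ∀ a : ι → R, ∑ i, a i * r i ∈
      maximalIdeal R ^ 2 ⊔ (RingHom.ker τ).map β → ∀ i, a i ∈ maximalIdeal R) {v : A} (hv : v ≠ 0)
    (J : Finset ι) : AllFree (Localization.Away ((β v - ∑ i ∈ J, r i) * ∏ i, r i)) := by
  algebraize [β]
  have : ((maximalIdeal R).comap (algebraMap A R)).IsMaximal :=
    kτ ▸ RingHom.ker_isMaximal_of_surjective τ hτ
  have : PerfectField ((maximalIdeal R).comap (algebraMap A R)).ResidueField := by
    obtain ⟨c, hc⟩ := exists_lift hτ (algebraMap A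
      ((maximalIdeal R).comap (algebraMap A R)).ResidueField) fun a ha =>
        Ideal.algebraMap_residueField_eq_zero.2 (kτ.le ha)
    algebraize [c]
    have : Algebra.IsAlgebraic k ((maximalIdeal R).comap (algebraMap A R)).ResidueField :=
      ⟨fun x => by
        obtain ⟨a, rfl⟩ := Ideal.algebraMap_residueField_surjective _ x
        exact hc a ▸ isAlgebraic_algebraMap (τ a)⟩
    exact Algebra.IsAlgebraic.perfectField k
  refine ind_lw (A := A) (fun T hT => ?_) hr (kτ ▸ h) hv J
  obtain ⟨B, _, g, ψ, h1, h2, h3⟩ := hI T (algebraMap A T) T.val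
    (RingHom.finiteType_algebraMap.2 ((Subalgebra.fg_iff_finiteType T).1 hT)) fun _ => rfl
  algebraize [g.comp (algebraMap A T)]
  exact ⟨B, _, inferInstance, inferInstance, SmOn.formallySmooth' h3,
    { g with commutes' := fun _ => rfl }, { ψ with commutes' := fun a => h2 _ }, AlgHom.ext h2⟩

lemma AllFree.assoc {w w' : R} (h : AllFree (Localization.Away w)) (e : Associated w w') :
    AllFree (Localization.Away w') :=
  have : IsLocalization.Away w' (Localization.Away w) := .of_associated e
  h.of_equiv (IsLocalization.algEquiv (Submonoid.powers w') _ _).toRingEquiv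

theorem core_dvr [IsDomain A] [IsPrincipalIdealRing A] [IsLocalRing R] [IsDomain R] {k : Type}
    [Field k] [PerfectField k] {β : A →+* R} (hI : IndSm β) {τ : A →+* k} (hτ : Surjective τ)
    (kτ : RingHom.ker τ = (maximalIdeal R).comap β) {π : A} (hπ : RingHom.ker τ = Ideal.span {π})
    (h0 : β π ≠ 0) {ι : Type} [Fintype ι] {r : ι → R} (hr : ∀ i, r i ∈ maximalIdeal R)
    (h : ∀ a : ι → R, ∑ i, a i * r i ∈ maximalIdeal R ^ 2 → ∀ i, a i ∈ maximalIdeal R)
    (hU : ∀ I : Set ι, β π ∈ Ideal.span (r '' I) ∨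
      β π ∉ maximalIdeal R ^ 2 ⊔ Ideal.span (r '' I)) :
    AllFree (Localization.Away (∏ i, r i)) := by
  classical
  have hm : β π ∈ maximalIdeal R := kτ.le (hπ.ge (Ideal.mem_span_singleton_self π))
  have hk : (RingHom.ker τ).map β = Ideal.span {β π} := by simp [hπ, Ideal.map_span]
  rcases hU Set.univ with h1 | h1
  · obtain ⟨u, hu⟩ := Ideal.mem_span_range_iff_exists_fun.1 (Set.image_univ ▸ h1)
    let J := Finset.univ.filter fun i => u i ∉ maximalIdeal R
    have h2 := (hU J).resolve_right (not_not.2 (by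
      rw [← hu]
      refine Ideal.sum_mem _ fun i _ => ?_
      by_cases hi : u i ∈ maximalIdeal R
      · exact Ideal.mem_sup_left (pow_two (maximalIdeal R) ▸ Ideal.mul_mem_mul hi (hr i))
      · exact Ideal.mem_sup_right (Ideal.mul_mem_left _ _
          (Ideal.subset_span ⟨i, by simpa [J] using hi, rfl⟩))))
    obtain ⟨c, hc⟩ := (Submodule.mem_span_image_finset_iff_exists_fun' R).1 h2
    let d : ι → R := fun i => if i ∈ J then c i else 1
    have hd : ∀ i, IsUnit (d i) := fun i => by
      by_cases hi : i ∈ J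
      · have := h (fun i => u i - if i ∈ J then c i else 0) (by
          simp only [sub_mul, Finset.sum_sub_distrib, ite_mul, zero_mul, Finset.sum_ite_mem,
            Finset.univ_inter]
          rw [hu, ← hc]; simp) i
        rw [if_pos hi] at this
        simp only [d, if_pos hi]
        exact notMem_maximalIdeal.1 fun h3 => (Finset.mem_filter.1 hi).2 (by
          simpa using Ideal.add_mem _ this h3)
      · simp [d, hi]
    have hc' : ∑ i ∈ J, d i * r i = β π := hc ▸ Finset.sum_congr rfl fun i hi => by simp [d, hi]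
    obtain ⟨j, hj⟩ : J.Nonempty := Finset.nonempty_iff_ne_empty.2 fun h3 => h0 (by simp [← hc', h3])
    have e1 : ∀ g : ι → R, ∑ i ∈ J.subtype (· ≠ j), g i = ∑ i ∈ J.erase j, g i := fun g => by
      rw [Finset.sum_subtype_eq_sum_filter, Finset.filter_ne']
    have h4 := core_lw hI hτ kτ (ι := {i // i ≠ j}) (r := fun i => d i * r i)
      (fun i => Ideal.mul_mem_left _ _ (hr i)) (fun a ha i => by
        obtain ⟨x, hx, y, hy, e⟩ := Submodule.mem_sup.1 ha
        obtain ⟨b, rfl⟩ := Ideal.mem_span_singleton'.1 (hk.le hy)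
        let a' : ι → R := fun i => if h : i = j then 0 else a ⟨i, h⟩
        have h5 := h (fun i => (a' i - if i ∈ J then b else 0) * d i) (by
          convert hx using 1
          simp only [sub_mul, Finset.sum_sub_distrib, ite_mul, zero_mul, Finset.sum_ite_mem,
            Finset.univ_inter, mul_assoc, ← Finset.mul_sum, hc']
          rw [sub_eq_iff_eq_add, e, Fintype.sum_eq_add_sum_subtype_ne _ j]
          simp only [a', dif_pos, zero_mul, zero_add]
          exact Finset.sum_congr rfl fun i _ => by rw [dif_neg i.2])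
        simp only [Ideal.mul_unit_mem_iff_mem _ (hd _)] at h5
        have h6 : b ∈ maximalIdeal R := by simpa [a', hj] using h5 j
        have h7 := h5 i
        simp only [a', dif_neg i.2] at h7
        split_ifs at h7
        · simpa using Ideal.add_mem _ h7 h6
        · simpa using h7)
      (v := π) (fun h => h0 (by simp [h])) (J.subtype (· ≠ j))
    rw [e1 fun i => d i * r i, ← hc', ← Finset.add_sum_erase _ _ hj, add_sub_cancel_right,
      ← Fintype.prod_eq_mul_prod_subtype_ne (fun i => d i * r i) j, Finset.prod_mul_distrib] at h4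
    exact h4.assoc (associated_unit_mul_left _ _ (IsUnit.prod_univ_iff.2 hd))
  · have h4 := core_lw hI hτ kτ hr (fun a ha => by
      obtain ⟨x, hx, y, hy, e⟩ := Submodule.mem_sup.1 ha
      obtain ⟨b, rfl⟩ := Ideal.mem_span_singleton'.1 (hk.le hy)
      by_cases hb : b ∈ maximalIdeal R
      · exact h a (e ▸ Ideal.add_mem _ hx (pow_two (maximalIdeal R) ▸ Ideal.mul_mem_mul hb hm))
      · refine (h1 ?_).elim
        rw [← Ideal.unit_mul_mem_iff_mem _ (notMem_maximalIdeal.1 hb), eq_sub_of_add_eq' e]
        exact Ideal.sub_mem _ (Ideal.mem_sup_right (Ideal.sum_mem _ fun i _ =>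
          Ideal.mul_mem_left _ _ (Ideal.subset_span ⟨i, trivial, rfl⟩))) (Ideal.mem_sup_left hx))
      one_ne_zero ∅
    exact h4.assoc (by simp)

theorem unram {V : Type} [CommRing V] [IsDomain V] [IsPrincipalIdealRing V]
    [PerfectField (FractionRing V)] [IsRegularLocalRing R] (β : V →+* R)
    [PerfectField ((maximalIdeal R).comap β).ResidueField] {π : V}
    (hπ : Ideal.span {π} = (maximalIdeal R).comap β) {ι : Type} [Fintype ι] {r : ι → R}
    (hr : ∀ i, r i ∈ maximalIdeal R)
    (h : ∀ a : ι → R, ∑ i, a i * r i ∈ maximalIdeal R ^ 2 → ∀ i, a i ∈ maximalIdeal R)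
    (hU : ∀ I : Set ι, β π ∈ Ideal.span (r '' I) ∨
      β π ∉ maximalIdeal R ^ 2 ⊔ Ideal.span (r '' I)) :
    AllFree (Localization.Away (∏ i, r i)) := by
  have : IsDomain R := reg_domain
  set p := (maximalIdeal R).comap β
  have hι := lc_of_isLocalization (B := Localization.AtPrime p) p.primeCompl
  set j := algebraMap V (Localization.AtPrime p)
  obtain ⟨β', e⟩ := hι.lift β fun t ht => notMem_maximalIdeal.1 ht
  have h1 : maximalIdeal (Localization.AtPrime p) = Ideal.span {j π} := by
    rw [← Localization.AtPrime.map_eq_maximalIdeal, ← Set.image_singleton, ← Ideal.map_span, hπ]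
  have hm : β π ∈ maximalIdeal R := hπ.le (Ideal.mem_span_singleton_self π)
  by_cases h0 : β π = 0
  · obtain ⟨β₀, -⟩ := exists_lift (p := residue (Localization.AtPrime p)) residue_surjective β'
      fun a ha => by
        obtain ⟨c, rfl⟩ := Ideal.mem_span_singleton'.1 (h1.le ((residue_eq_zero_iff _).1 ha))
        simp [e, h0]
    have hk : RingHom.ker (RingHom.id p.ResidueField) = ⊥ :=
      (RingHom.injective_iff_ker_eq_bot _).1 injective_id
    exact (core_lw (k := p.ResidueField) (popescu_field (k := p.ResidueField) (serre R) β₀)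
      surjective_id (hk.trans (Ideal.eq_bot_of_prime _).symm) hr (by simpa [hk] using h)
      one_ne_zero ∅).assoc (by simp)
  have h2 : π ≠ 0 := fun h => h0 (by simp [h])
  have := IsLocalization.AtPrime.isDiscreteValuationRing_of_dedekind_domain V
    (P := p) (by rw [← hπ]; simpa using h2) (Localization.AtPrime p)
  have hj : Injective j := IsLocalization.injective _ p.primeCompl_le_nonZeroDivisors
  have h3 : j π ≠ 0 := (map_ne_zero_iff _ hj).2 h2
  have hK := IsFractionRing.injective V (FractionRing V)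
  obtain ⟨j', e'⟩ := hι.lift (algebraMap V (FractionRing V)) fun t ht =>
    Ne.isUnit ((map_ne_zero_iff _ hK).2 fun h => ht (h ▸ p.zero_mem))
  have h4 : Lc j' (Submonoid.powers (j π)) := by
    refine ⟨?_, fun x => ?_, fun a ha => ⟨1, one_mem _, ?_⟩⟩
    · rintro _ ⟨n, rfl⟩
      rw [map_pow, e']
      exact (Ne.isUnit ((map_ne_zero_iff _ hK).2 h2)).pow n
    · obtain ⟨a, b, hb, rfl⟩ := IsFractionRing.div_surjective (A := V) x
      have hb' := nonZeroDivisors.ne_zero hb
      obtain ⟨n, u, hu⟩ := IsDiscreteValuationRing.eq_unit_mul_pow_irreducible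
        ((map_ne_zero_iff _ hj).2 hb')
        (IsDiscreteValuationRing.irreducible_of_span_eq_maximalIdeal _ h3 h1)
      refine ⟨_, ⟨n, rfl⟩, j a * ↑u⁻¹, ?_⟩
      rw [div_mul_eq_mul_div, div_eq_iff ((map_ne_zero_iff _ hK).2 hb'), ← e' b, hu, ← e' a,
        ← map_mul, ← map_mul, mul_assoc, Units.inv_mul_cancel_left]
    · obtain ⟨t, ht, b, hb⟩ := hι.surj a
      have := congrArg j' hb
      rw [map_mul, ha, zero_mul, e', eq_comm, map_eq_zero_iff _ hK] at this
      rw [this, map_zero, (hι.unit t ht).mul_left_eq_zero] at hb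
      simp [hb]
  have h5 := reg_quot hm (by simpa using (hU ∅).resolve_left (by simpa using h0))
  have h6 : (maximalIdeal (Localization.AtPrime p)) = (maximalIdeal R).comap β' :=
    (maximalIdeal.isMaximal _).eq_of_le (Ideal.IsPrime.ne_top inferInstance) (by
      rw [h1, Ideal.span_singleton_le_iff_mem, Ideal.mem_comap, e]; exact hm)
  exact core_dvr (k := p.ResidueField) (popescu_dvr (k := p.ResidueField) (π := j π)
    (fun r hr => (mul_eq_zero.1 hr).resolve_left h3)
    (fun r hr => (mul_eq_zero.1 hr).resolve_left (e π ▸ h0)) h4 residue_surjective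
    (ker_residue.trans h1) (serre R) (by rw [e]; exact serre _)) residue_surjective
    (ker_residue.trans h6) (ker_residue.trans h1) (e π ▸ h0) hr h (e π ▸ hU)

end Pool.Agent.Lib.MP_a37f0b_ag
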