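import Mathlib

/-!
Formal smoothness along a set of elements, presentations, Taylor expansion, the Jacobian criterion
and the Elkik ideal.
-/

open MvPolynomial Function

namespace Pool.Agent.Lib.MP_a37f0b_ag.Pop

variable {R A B C : Type} [CommRing R] [CommRing A] [CommRing B] [CommRing C]

/-- Square zero extensions. -/
structure Sz (g : B →+* C) : Prop where
  surj : Surjective g
  sq : ∀ x y, g x = 0 → g y = 0 → x * y = 0

lemma Sz.unit {g : B →+* C} (h : Sz g) {x : B} (hx : IsUnit (g x)) : IsUnit x := by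
  obtain ⟨c, hc⟩ := hx.exists_right_inv
  obtain ⟨y, rfl⟩ := h.surj c
  have h1 : g (1 - x * y) = 0 := by simp [hc]
  exact IsUnit.of_mul_eq_one (y * (1 + (1 - x * y))) (by linear_combination -h.sq _ _ h1 h1)

lemma Sz.sq_le {g : B →+* C} (h : Sz g) {I : Ideal B} (hI : I ≤ RingHom.ker g) : I ^ 2 = ⊥ := by
  rw [pow_two, eq_bot_iff]
  exact Ideal.mul_le.2 fun x hx y hy => h.sq x y (hI hx) (hI hy)

lemma sz_mk {J : Ideal B} (hJ : J ^ 2 = ⊥) : Sz (Ideal.Quotient.mk J) :=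
  ⟨Ideal.Quotient.mk_surjective, fun x y hx hy => by
    rw [Ideal.Quotient.eq_zero_iff_mem] at hx hy
    have := Ideal.mul_mem_mul hx hy
    rwa [← pow_two, hJ] at this⟩

/-- The localization of `A` at `T` is formally smooth over `R`. -/
def SmOn (f : R →+* A) (T : Set A) : Prop :=
  ∀ (B C : Type) [CommRing B] [CommRing C] (g : B →+* C), Sz g → ∀ (β : R →+* B) (φ : A →+* C),
    (∀ r, φ (f r) = g (β r)) → (∀ t ∈ T, IsUnit (φ t)) →
      ∃ ψ : A →+* B, (∀ r, ψ (f r) = β r) ∧ ∀ a, g (ψ a) = φ a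

/-- Smoothness at a prime. -/
def SmAt (f : R →+* A) (p : Ideal A) : Prop := SmOn f {a | a ∉ p}

lemma SmOn.mono {f : R →+* A} {T T' : Set A} (h : SmOn f T)
    (H : ∀ (C : Type) [CommRing C] (φ : A →+* C), (∀ t ∈ T', IsUnit (φ t)) →
      ∀ t ∈ T, IsUnit (φ t)) : SmOn f T' :=
  fun B C _ _ g hg β φ h1 h2 => h B C g hg β φ h1 (H C φ h2)

lemma SmOn.mono' {f : R →+* A} {T T' : Set A} (h : SmOn f T) (H : T ⊆ T') : SmOn f T' :=
  h.mono fun _ _ _ h2 t ht => h2 t (H ht)

lemma SmOn.smAt {f : R →+* A} {s : A} (h : SmOn f {s}) {p : Ideal A} (hs : s ∉ p) : SmAt f p :=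
  h.mono' (Set.singleton_subset_iff.2 hs)

lemma SmOn.comp {f : R →+* A} {h : A →+* B} {T : Set A} {T' : Set B} (h1 : SmOn f T)
    (h2 : SmOn h T') (H : ∀ (C : Type) [CommRing C] (φ : B →+* C), (∀ t ∈ T', IsUnit (φ t)) →
      ∀ t ∈ T, IsUnit (φ (h t))) : SmOn (h.comp f) T' := fun B' C' _ _ g hg β φ e1 e2 => by
  obtain ⟨χ, c1, c2⟩ := h1 B' C' g hg β (φ.comp h) e1 (H C' φ e2)
  obtain ⟨ψ, d1, d2⟩ := h2 B' C' g hg χ φ (fun a => (c2 a).symm) e2
  exact ⟨ψ, fun r => (d1 _).trans (c1 r), d2⟩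

lemma SmAt.comp {f : R →+* A} {h : A →+* B} {p : Ideal B} (h1 : SmAt f (p.comap h))
    (h2 : SmAt h p) : SmAt (h.comp f) p :=
  SmOn.comp h1 h2 fun _ _ _ H _ ht => H _ ht

lemma SmOn.comp_empty {f : R →+* A} {h : A →+* B} {T' : Set B} (h1 : SmOn f ∅)
    (h2 : SmOn h T') : SmOn (h.comp f) T' :=
  h1.comp h2 fun _ _ _ _ _ ht => ht.elim

lemma exists_lift {p : A →+* B} (hp : Surjective p) (q : A →+* C) (h : ∀ k, p k = 0 → q k = 0) :
    ∃ ψ : B →+* C, ∀ a, ψ (p a) = q a :=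
  ⟨p.liftOfSurjective hp ⟨q, h⟩, RingHom.liftOfRightInverse_comp_apply _ _ _ _⟩

/-- Evaluation of polynomials. -/
noncomputable def ev {σ : Type} (β : R →+* B) (x : σ → B) : MvPolynomial σ R →+* B := eval₂Hom β x

@[simp] lemma ev_C {σ : Type} (β : R →+* B) (x : σ → B) (r : R) :
    ev β x (MvPolynomial.C r) = β r := eval₂Hom_C _ _ _

@[simp] lemma ev_X {σ : Type} (β : R →+* B) (x : σ → B) (i : σ) : ev β x (X i) = x i :=
  eval₂Hom_X' _ _ _

lemma map_ev {σ : Type} (g : B →+* C) (β : R →+* B) (x : σ → B) (F : MvPolynomial σ R) :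
    g (ev β x F) = ev (g.comp β) (fun i => g (x i)) F :=
  congr($(comp_eval₂Hom β x g) F)

lemma ev_eq {σ : Type} (q : MvPolynomial σ R →+* C) {β : R →+* C} {x : σ → C}
    (h1 : ∀ r, q (MvPolynomial.C r) = β r) (h2 : ∀ i, q (X i) = x i) (F : MvPolynomial σ R) :
    ev β x F = q F :=
  congr($(MvPolynomial.ringHom_ext (f := ev β x) (g := q) (by simp [h1]) (by simp [h2])) F)

lemma map_ev' {σ : Type} {g : B →+* C} {β : R →+* B} {x : σ → B} {β' : R →+* C} {y : σ → C}
    (h1 : ∀ r, g (β r) = β' r) (h2 : ∀ i, g (x i) = y i) (F : MvPolynomial σ R) :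
    g (ev β x F) = ev β' y F :=
  (ev_eq (g.comp (ev β x)) (by simpa using h1) (by simpa using h2) F).symm

lemma smOn_of_pres {σ : Type} {f : R →+* A} {p : MvPolynomial σ R →+* A} (hp : Surjective p)
    (hf : ∀ r, p (MvPolynomial.C r) = f r) {T : Set A}
    (H : ∀ (B C : Type) [CommRing B] [CommRing C] (g : B →+* C), Sz g → ∀ (β : R →+* B)
      (y : σ → C), (∀ k, p k = 0 → ev (g.comp β) y k = 0) →
      (∀ t, p t ∈ T → IsUnit (ev (g.comp β) y t)) →
      ∃ x : σ → B, (∀ i, g (x i) = y i) ∧ ∀ k, p k = 0 → ev β x k = 0) : SmOn f T :=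
  fun B C _ _ g hg β φ h1 h2 => by
    have e : ∀ F, ev (g.comp β) (fun i => φ (p (X i))) F = φ (p F) :=
      ev_eq (φ.comp p) (by simp [hf, h1]) fun _ => rfl
    obtain ⟨x, a1, a2⟩ := H B C g hg β (fun i => φ (p (X i))) (fun k hk => by simp [e, hk])
      (fun t ht => by rw [e]; exact h2 _ ht)
    obtain ⟨ψ, hψ⟩ := exists_lift hp (ev β x) a2
    refine ⟨ψ, fun r => by rw [← hf, hψ, ev_C], fun a => ?_⟩
    obtain ⟨F, rfl⟩ := hp a
    simp only [hψ, map_ev, a1, e]

variable {σ τ : Type}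

lemma taylor [Fintype σ] (β : R →+* B) (x δ : σ → B) (F : MvPolynomial σ R) :
    ev β (fun i => x i + δ i) F - ev β x F -
      ∑ i, ev β x (pderiv i F) * δ i ∈ Ideal.span (Set.range δ) ^ 2 := by
  classical
  induction F using MvPolynomial.induction_on with
  | C a => simp
  | add p q hp hq =>
    convert Ideal.add_mem _ hp hq using 1
    simp only [map_add, add_mul, Finset.sum_add_distrib]; ring
  | mul_X p j hp =>
    have h1 : ∀ i, δ i ∈ Ideal.span (Set.range δ) := fun i => Ideal.subset_span ⟨i, rfl⟩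
    have h2 : (∑ i, ev β x (pderiv i p) * δ i) * δ j ∈ Ideal.span (Set.range δ) ^ 2 := by
      rw [pow_two]
      exact Ideal.mul_mem_mul (Ideal.sum_mem _ fun i _ => Ideal.mul_mem_left _ _ (h1 i)) (h1 j)
    have h3 : ∑ i, ev β x (pderiv i (p * X j)) * δ i =
        (∑ i, ev β x (pderiv i p) * δ i) * x j + ev β x p * δ j := by
      simp only [pderiv_mul, map_add, map_mul, add_mul, Finset.sum_add_distrib, Finset.sum_mul,
        ev_X, pderiv_X]
      congr 1
      · exact Finset.sum_congr rfl fun i _ => by ring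
      · rw [Finset.sum_eq_single j] <;> simp +contextual [eq_comm]
    convert Ideal.add_mem _ (Ideal.mul_mem_right (x j + δ j) _ hp) h2 using 1
    rw [h3]; simp only [map_mul, ev_X]; ring

lemma taylor0 (β : R →+* B) (x y : σ → B) {I : Ideal B} (h : ∀ i, x i - y i ∈ I)
    (F : MvPolynomial σ R) : ev β x F - ev β y F ∈ I := by
  rw [← Ideal.Quotient.eq, map_ev, map_ev]
  congr 2
  exact funext fun i => Ideal.Quotient.eq.2 (h i)

lemma taylor_sz [Fintype σ] {g : B →+* C} (hg : Sz g) (β : R →+* B) (x δ : σ → B)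
    (hδ : ∀ i, g (δ i) = 0) (F : MvPolynomial σ R) : ev β (fun i => x i + δ i) F =
      ev β x F + ∑ i, ev β x (pderiv i F) * δ i := by
  have := taylor β x δ F
  rw [hg.sq_le (Ideal.span_le.2 (by rintro _ ⟨i, rfl⟩; exact hδ i)), Ideal.mem_bot] at this
  linear_combination this

lemma der_eq [Fintype σ] (D : Derivation R (MvPolynomial σ R) (MvPolynomial σ R))
    (F : MvPolynomial σ R) : D F = ∑ i, pderiv i F * D (X i) := by
  classical
  induction F using MvPolynomial.induction_on with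
  | C a => simp [derivation_C]
  | add p q hp hq => simp [hp, hq, add_mul, Finset.sum_add_distrib]
  | mul_X p j hp =>
    simp only [Derivation.leibniz, smul_eq_mul, hp, add_mul, Finset.sum_add_distrib, pderiv_X,
      Finset.mul_sum]
    congr 1
    · rw [Finset.sum_eq_single j] <;> simp +contextual [eq_comm]
    · exact Finset.sum_congr rfl fun i _ => by ring

lemma det_sub_mem [Fintype τ] [DecidableEq τ] {I : Ideal A} {s : A} {N : Matrix τ τ A}
    (h : ∀ j l, N j l - (if j = l then s else 0) ∈ I) : N.det - s ^ Fintype.card τ ∈ I := by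
  rw [← Ideal.Quotient.eq, RingHom.map_det, show (Ideal.Quotient.mk I).mapMatrix N =
    Matrix.diagonal fun _ => Ideal.Quotient.mk I s from Matrix.ext fun j l => by
      rw [RingHom.mapMatrix_apply, Matrix.map_apply, Ideal.Quotient.eq.2 (h j l),
        Matrix.diagonal_apply]
      split_ifs <;> simp]
  simp

/-- The determinant trick. -/
lemma nak [Fintype τ] {I G : Ideal A} {s : A} {n : τ → A}
    (h : ∀ j, s * n j ∈ I * Ideal.span (Set.range n) ⊔ G) :
    ∃ u, u - s ^ Fintype.card τ ∈ I ∧ ∀ j, u * n j ∈ G := by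
  classical
  have : ∀ j, ∃ q : τ → A, (∀ l, q l ∈ I) ∧ s * n j - ∑ l, q l * n l ∈ G := fun j => by
    obtain ⟨a, ha, b, hb, e⟩ := Submodule.mem_sup.1 (h j)
    rw [← smul_eq_mul, ← Ideal.submodule_span_eq,
      Submodule.mem_ideal_smul_span_iff_exists_sum] at ha
    obtain ⟨c, hc, rfl⟩ := ha
    refine ⟨c, hc, ?_⟩
    rw [← e, Finsupp.sum_fintype _ _ (by simp)]
    simpa using hb
  choose q h1 h2 using this
  let N : Matrix τ τ A := fun j l => (if j = l then s else 0) - q j l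
  refine ⟨N.det, det_sub_mem fun j l => by simpa [N] using h1 j l, fun j => ?_⟩
  have h3 : N.det * n j = ∑ k, N.adjugate j k * (N.mulVec n) k := by
    have := congr($(Matrix.mulVec_mulVec n N.adjugate N) j)
    rw [Matrix.adjugate_mul, Matrix.smul_mulVec, Matrix.one_mulVec] at this
    exact this.symm
  rw [h3]
  refine Ideal.sum_mem _ fun k _ => Ideal.mul_mem_left _ _ ?_
  convert h2 k using 1
  simp [N, Matrix.mulVec, dotProduct, sub_mul, Finset.sum_sub_distrib]

lemma nak_prime [Fintype τ] {q G : Ideal A} [hq : q.IsPrime] {s : A} (hs : s ∉ q) {n : τ → A}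
    (h : ∀ j, s * n j ∈ q * Ideal.span (Set.range n) ⊔ G) : ∃ u ∉ q, ∀ j, u * n j ∈ G := by
  obtain ⟨u, h1, h2⟩ := nak h
  exact ⟨u, fun hu => hs (hq.mem_of_pow_mem _ (by simpa using q.sub_mem hu h1)), h2⟩

/-- The Jacobian criterion. -/
theorem jc [Fintype σ] [Fintype τ] [DecidableEq τ] {f : R →+* A} {p : MvPolynomial σ R →+* A}
    (hp : Surjective p) (hf : ∀ r, p (MvPolynomial.C r) = f r) {T : Set A} (γ : τ → MvPolynomial σ R)
    (hγ : ∀ j, p (γ j) = 0) (D : τ → Derivation R (MvPolynomial σ R) (MvPolynomial σ R))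
    (hD : p (Matrix.of fun j l => D l (γ j)).det ∈ T)
    (hK : ∀ k, p k = 0 → ∃ u, (p u ∈ T ∨ u = 1) ∧ u * k ∈ Ideal.span (Set.range γ)) :
    SmOn f T := by
  refine smOn_of_pres hp hf fun B C _ _ g hg β y h1 h2 => ?_
  choose x hx using fun i => hg.surj (y i)
  have e : ∀ x : σ → B, (∀ i, g (x i) = y i) → ∀ F, g (ev β x F) =
      ev (g.comp β) y F := fun x hx F => by simp only [map_ev, hx]
  let M : Matrix τ τ B := (ev β x).mapMatrix (Matrix.of fun j l => D l (γ j))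
  have hM : IsUnit M.det := hg.unit (by rw [← RingHom.map_det, e x hx]; exact h2 _ hD)
  let c := M⁻¹.mulVec fun j => ev β x (γ j)
  have hc : ∀ l, g (c l) = 0 := fun l => by
    simp only [c, Matrix.mulVec, dotProduct, map_sum, map_mul, e x hx, h1 _ (hγ _), mul_zero,
      Finset.sum_const_zero]
  let δ : σ → B := fun i => -∑ l, ev β x (D l (X i)) * c l
  have hδ : ∀ i, g (δ i) = 0 := fun i => by simp only [δ, map_neg, map_sum, map_mul, hc]; simp
  have hx' : ∀ i, g (x i + δ i) = y i := fun i => by simp [hx, hδ]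
  have h3 : ∀ j, ev β (fun i => x i + δ i) (γ j) = 0 := fun j => by
    have h4 := congr($(Matrix.mulVec_mulVec (fun j => ev β x (γ j)) M M⁻¹) j)
    rw [Matrix.mul_nonsing_inv _ hM, Matrix.one_mulVec] at h4
    rw [taylor_sz hg β x δ hδ, ← h4]
    change ∑ l, M j l * c l + _ = 0
    simp only [M, δ, RingHom.mapMatrix_apply, Matrix.map_apply, Matrix.of_apply,
      der_eq (D _) (γ j), map_sum, map_mul, Finset.sum_mul, mul_neg, Finset.mul_sum,
      Finset.sum_neg_distrib, mul_assoc]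
    rw [Finset.sum_comm]; ring
  refine ⟨_, hx', fun k hk => ?_⟩
  obtain ⟨u, hu, huk⟩ := hK k hk
  have h5 : IsUnit (ev β (fun i => x i + δ i) u) := by
    rcases hu with hu | rfl
    · exact hg.unit (by rw [e _ hx']; exact h2 _ hu)
    · simp
  rw [← h5.mul_right_eq_zero, ← map_mul]
  exact (Ideal.span_le.2 (by rintro _ ⟨j, rfl⟩; exact h3 j) :
    Ideal.span (Set.range γ) ≤ RingHom.ker _) huk

theorem jc_at [Fintype σ] [Fintype τ] [DecidableEq τ] {f : R →+* A} {p : MvPolynomial σ R →+* A}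
    (hp : Surjective p) (hf : ∀ r, p (MvPolynomial.C r) = f r) {q : Ideal A} [hq : q.IsPrime]
    (γ : τ → MvPolynomial σ R) (hγ : ∀ j, p (γ j) = 0)
    (D : τ → Derivation R (MvPolynomial σ R) (MvPolynomial σ R)) {s : MvPolynomial σ R}
    (hs : p s ∉ q) (hD : ∀ j l, p (D l (γ j) - if j = l then s else 0) ∈ q)
    (hK : ∀ k, p k = 0 → ∃ u, p u ∉ q ∧ u * k ∈ Ideal.span (Set.range γ)) : SmAt f q := by
  refine jc hp hf γ hγ D (fun h => hs (hq.mem_of_pow_mem (Fintype.card τ) ?_))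
    fun k hk => (hK k hk).imp fun u hu => ⟨Or.inl hu.1, hu.2⟩
  have := det_sub_mem (I := q.comap p) (s := s) (N := Matrix.of fun j l => D l (γ j)) hD
  simpa using q.sub_mem h this

/-- Localizations. -/
structure Lc (ι : A →+* B) (T : Submonoid A) : Prop where
  unit : ∀ t ∈ T, IsUnit (ι t)
  surj : ∀ b, ∃ t ∈ T, ∃ a, b * ι t = ι a
  ker : ∀ a, ι a = 0 → ∃ t ∈ T, t * a = 0

lemma lc_of_isLocalization [Algebra A B] (T : Submonoid A) [IsLocalization T B] :
    Lc (algebraMap A B) T :=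
  ⟨fun t ht => IsLocalization.map_units B ⟨t, ht⟩, fun b =>
    let ⟨⟨a, t⟩, h⟩ := IsLocalization.surj T b
    ⟨t, t.2, a, h⟩, fun a ha =>
    let ⟨t, h⟩ := (IsLocalization.map_eq_zero_iff T B a).1 ha
    ⟨t, t.2, h⟩⟩

lemma exists_lc (T : Submonoid A) : ∃ (B : Type) (_ : CommRing B) (ι : A →+* B), Lc ι T :=
  ⟨Localization T, inferInstance, _, lc_of_isLocalization T⟩

lemma Lc.isLocalization {ι : A →+* B} {T : Submonoid A} (h : Lc ι T) :
    @IsLocalization A _ T B _ ι.toAlgebra := by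
  algebraize [ι]
  exact ⟨fun t => h.unit t t.2, fun b =>
    let ⟨t, ht, a, e⟩ := h.surj b
    ⟨⟨a, t, ht⟩, e⟩, fun {x y} e => by
    obtain ⟨t, ht, e'⟩ := h.ker (x - y) (by rw [map_sub]; exact sub_eq_zero.2 e)
    exact ⟨⟨t, ht⟩, by linear_combination e'⟩⟩

lemma Lc.mem_map {ι : A →+* B} {T : Submonoid A} (h : Lc ι T) {I : Ideal A} {b : B}
    (hb : b ∈ I.map ι) : ∃ t ∈ T, ∃ a ∈ I, b * ι t = ι a := by
  have := h.isLocalization
  algebraize [ι]
  obtain ⟨⟨a, t⟩, e⟩ := (IsLocalization.mem_map_algebraMap_iff T B).1 hb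
  exact ⟨t, t.2, a, a.2, e⟩

lemma Lc.lift {ι : A →+* B} {T : Submonoid A} (h : Lc ι T) (φ : A →+* C)
    (hφ : ∀ t ∈ T, IsUnit (φ t)) : ∃ ψ : B →+* C, ∀ a, ψ (ι a) = φ a := by
  have := h.isLocalization
  algebraize [ι]
  exact ⟨IsLocalization.lift (M := T) fun t => hφ t t.2, IsLocalization.lift_eq _⟩

lemma Lc.hom_ext {ι : A →+* B} {T : Submonoid A} (h : Lc ι T) {ψ ψ' : B →+* C}
    (e : ∀ a, ψ (ι a) = ψ' (ι a)) (b : B) : ψ b = ψ' b := by
  have := h.isLocalization
  algebraize [ι]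
  exact DFunLike.congr_fun
    (IsLocalization.ringHom_ext T (RingHom.ext e : ψ.comp ι = ψ'.comp ι)) b

lemma Lc.smOn {ι : A →+* B} {T : Submonoid A} (h : Lc ι T) : SmOn ι ∅ :=
  fun B' C' _ _ g hg β φ e _ => by
    obtain ⟨ψ, hψ⟩ := h.lift β fun t ht => hg.unit (e t ▸ (h.unit t ht).map φ)
    exact ⟨ψ, hψ, h.hom_ext (ψ := g.comp ψ) (by simp [hψ, e])⟩

lemma Lc.ft {ι : A →+* B} {s : A} (h : Lc ι (Submonoid.powers s)) : ι.FiniteType := by
  have := h.isLocalization
  algebraize [ι]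
  have := IsLocalization.Away.finitePresentation s (S := B)
  exact RingHom.finiteType_algebraMap.2 inferInstance

lemma Lc.common {ι : A →+* B} {T : Submonoid A} (h : Lc ι T) [Finite σ] (b : σ → B) :
    ∃ t ∈ T, ∃ a : σ → A, ∀ i, b i * ι t = ι (a i) := by
  classical
  have := Fintype.ofFinite σ
  choose t ht a e using fun i => h.surj (b i)
  refine ⟨∏ i, t i, T.prod_mem fun i _ => ht i, fun i => a i * ∏ l ∈ Finset.univ.erase i, t l,
    fun i => ?_⟩
  rw [← Finset.mul_prod_erase _ _ (Finset.mem_univ i), map_mul, ← mul_assoc, e, map_mul]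

end Pool.Agent.Lib.MP_a37f0b_ag.Pop
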