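import Pool.Agent.Lib.MP_a37f0b_ag.Pop1

/-!
The Elkik ideal, the smooth locus, comparison with formal smoothness of localizations.
-/

open MvPolynomial Function

namespace Pool.Agent.Lib.MP_a37f0b_ag.Pop

variable {R A B C : Type} [CommRing R] [CommRing A] [CommRing B] [CommRing C] {σ τ : Type}

lemma exists_pres {f : R →+* A} (hf : f.FiniteType) :
    ∃ (n : ℕ) (p : MvPolynomial (Fin n) R →+* A), Surjective p ∧
      ∀ r, p (MvPolynomial.C r) = f r := by
  algebraize [f]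
  obtain ⟨n, p, hp⟩ := Algebra.FiniteType.iff_quotient_mvPolynomial''.1 hf
  exact ⟨n, p, hp, p.commutes⟩

lemma exists_gen [IsNoetherianRing A] (K : Ideal A) :
    ∃ (m : ℕ) (γ : Fin m → A), Ideal.span (Set.range γ) = K :=
  Submodule.fg_iff_exists_fin_generating_family.1 (IsNoetherian.noetherian K)

lemma ft_C [Finite σ] : (MvPolynomial.C : R →+* MvPolynomial σ R).FiniteType :=
  RingHom.finiteType_algebraMap.2 inferInstance

lemma ft_quot [Finite σ] (K : Ideal (MvPolynomial σ R)) :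
    ((Ideal.Quotient.mk K).comp MvPolynomial.C).FiniteType :=
  ft_C.comp_surjective Ideal.Quotient.mk_surjective

lemma noeth_of_ft [IsNoetherianRing R] {f : R →+* A} (hf : f.FiniteType) : IsNoetherianRing A := by
  obtain ⟨n, p, hp, -⟩ := exists_pres hf
  exact isNoetherianRing_of_surjective _ _ p hp

/-- The conormal sequence splits up to `s` and modulo `G`. -/
def Elk [Fintype σ] (K G : Ideal (MvPolynomial σ R)) (s : MvPolynomial σ R) : Prop :=
  ∃ S : σ → MvPolynomial σ R, (∀ i, S i ∈ K) ∧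
    ∀ k ∈ K, s * k - ∑ i, pderiv i k * S i ∈ K ^ 2 ⊔ G

lemma Elk.of_gen [Fintype σ] {K G : Ideal (MvPolynomial σ R)} {s : MvPolynomial σ R}
    {γ : τ → MvPolynomial σ R} (hγ : Ideal.span (Set.range γ) = K) (S : σ → MvPolynomial σ R)
    (hS : ∀ i, S i ∈ K) (h : ∀ j, s * γ j - ∑ i, pderiv i (γ j) * S i ∈ K ^ 2 ⊔ G) :
    Elk K G s := by
  refine ⟨S, hS, fun k hk => ?_⟩
  rw [← hγ] at hk
  induction hk using Submodule.span_induction with
  | mem x hx => obtain ⟨j, rfl⟩ := hx; exact h j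
  | zero => simp
  | add x y _ _ hx hy =>
    have := Ideal.add_mem _ hx hy
    simp only [map_add, add_mul, Finset.sum_add_distrib]
    exact (congrArg (· ∈ _) (by ring)).mp this
  | smul c x hx h1 =>
    have h2 : x * ∑ i, pderiv i c * S i ∈ K ^ 2 := by
      rw [pow_two]
      exact Ideal.mul_mem_mul (hγ.le hx) (Ideal.sum_mem _ fun i _ => Ideal.mul_mem_left _ _ (hS i))
    have := Ideal.sub_mem _ (Ideal.mul_mem_left _ c h1) (Ideal.mem_sup_left h2)
    simp only [smul_eq_mul, pderiv_mul, add_mul, Finset.sum_add_distrib]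
    refine (congrArg (· ∈ _) ?_).mp this
    simp only [mul_sub, Finset.mul_sum]
    rw [sub_sub, add_comm, mul_left_comm]
    congr 2 <;> exact Finset.sum_congr rfl fun i _ => by ring

/-- The Elkik ideal. -/
def elkI [Fintype σ] (K G : Ideal (MvPolynomial σ R)) : Ideal (MvPolynomial σ R) where
  carrier := {s | Elk K G s}
  zero_mem' := ⟨0, by simp, by simp⟩
  add_mem' := fun {a b} ⟨S, h1, h2⟩ ⟨S', h3, h4⟩ =>
    ⟨S + S', fun i => K.add_mem (h1 i) (h3 i), fun k hk => by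
      have := Ideal.add_mem _ (h2 k hk) (h4 k hk)
      simp only [Pi.add_apply, mul_add, Finset.sum_add_distrib]
      exact (congrArg (· ∈ _) (by ring)).mp this⟩
  smul_mem' := fun c a ⟨S, h1, h2⟩ =>
    ⟨fun i => c * S i, fun i => K.mul_mem_left _ (h1 i), fun k hk => by
      have := Ideal.mul_mem_left _ c (h2 k hk)
      refine (congrArg (· ∈ _) ?_).mp this
      simp only [smul_eq_mul, mul_sub, Finset.mul_sum, mul_assoc, mul_left_comm]⟩

lemma le_elkI [Fintype σ] (K G : Ideal (MvPolynomial σ R)) : K ≤ elkI K G := fun s hs =>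
  ⟨0, by simp, fun k hk => by simpa [pow_two] using Ideal.mem_sup_left (Ideal.mul_mem_mul hs hk)⟩

lemma Elk.congr [Fintype σ] {G : Ideal (MvPolynomial σ R)} {p : MvPolynomial σ R →+* A}
    {s s' : MvPolynomial σ R} (h : Elk (RingHom.ker p) G s) (e : p s' = p s) :
    Elk (RingHom.ker p) G s' := by
  have : s' - s ∈ elkI (RingHom.ker p) G := le_elkI _ _ (by simp [RingHom.mem_ker, e])
  have := (elkI (RingHom.ker p) G).add_mem this h
  rwa [sub_add_cancel] at this

lemma Elk.smOn [Fintype σ] {f : R →+* A} {p : MvPolynomial σ R →+* A} (hp : Surjective p)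
    (hf : ∀ r, p (MvPolynomial.C r) = f r) {s : MvPolynomial σ R} (h : Elk (RingHom.ker p) ⊥ s) :
    SmOn f {p s} := by
  obtain ⟨S, h1, h2⟩ := h
  refine smOn_of_pres hp hf fun B C _ _ g hg β y e1 e2 => ?_
  choose x hx using fun i => hg.surj (y i)
  have e : ∀ F, g (ev β x F) = ev (g.comp β) y F := fun F => by simp only [map_ev, hx]
  obtain ⟨u, hu⟩ := (hg.unit (x := ev β x s) (e s ▸ e2 s rfl)).exists_left_inv
  have hδ : ∀ i, g (-(u * ev β x (S i))) = 0 := fun i => by simp [e, e1 _ (h1 i)]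
  refine ⟨fun i => x i + -(u * ev β x (S i)), fun i => by rw [map_add, hδ, hx, add_zero],
    fun k hk => ?_⟩
  have h3 := Ideal.mem_map_of_mem (ev β x) (h2 k hk)
  rw [sup_bot_eq, Ideal.map_pow, hg.sq_le (Ideal.map_le_iff_le_comap.2 fun k hk => by
    simpa [RingHom.mem_ker, e] using e1 k hk), Ideal.mem_bot] at h3
  rw [taylor_sz hg β x _ hδ]
  simp only [map_sub, map_mul, map_sum] at h3
  have h4 : ∑ i, ev β x (pderiv i k) * -(u * ev β x (S i)) =
      -u * ∑ i, ev β x (pderiv i k) * ev β x (S i) := by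
    rw [Finset.mul_sum]; exact Finset.sum_congr rfl fun i _ => by ring
  rw [h4]
  linear_combination u * h3 - ev β x k * hu

theorem SmOn.elk [Fintype σ] [IsNoetherianRing R] {R₀ : Type} [CommRing R₀] {ρ : R →+* R₀}
    (hρ : Surjective ρ) {c : R₀ →+* A} {p : MvPolynomial σ R →+* A} (hp : Surjective p)
    (hf : ∀ r, p (MvPolynomial.C r) = c (ρ r)) {T : Submonoid A} (h : SmOn c T) :
    ∃ s, p s ∈ T ∧ Elk (RingHom.ker p) ((RingHom.ker ρ).map MvPolynomial.C) s := by
  classical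
  set K := RingHom.ker p
  set W := K ^ 2 ⊔ (RingHom.ker ρ).map MvPolynomial.C
  let T' := (T.comap p).map (Ideal.Quotient.mk W)
  obtain ⟨L, _, ι, hι⟩ := exists_lc T'
  let j : MvPolynomial σ R →+* L := ι.comp (Ideal.Quotient.mk W)
  have hW : ∀ k ∈ W, j k = 0 := fun k hk => by simp [j, Ideal.Quotient.eq_zero_iff_mem.2 hk]
  have hJ : K.map j ^ 2 = ⊥ := by
    rw [← Ideal.map_pow, Ideal.map_eq_bot_iff_le_ker]
    exact fun k hk => hW k (Ideal.mem_sup_left hk)
  obtain ⟨β, hβ⟩ := exists_lift hρ (j.comp MvPolynomial.C) fun k hk => by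
    exact hW _ (Ideal.mem_sup_right (Ideal.mem_map_of_mem _ hk))
  obtain ⟨φ, hφ⟩ := exists_lift hp ((Ideal.Quotient.mk (K.map j)).comp j) fun k hk =>
    Ideal.Quotient.eq_zero_iff_mem.2 (Ideal.mem_map_of_mem _ hk)
  have hu : ∀ t, p t ∈ T → IsUnit (j t) := fun t ht => hι.unit _ ⟨t, ht, rfl⟩
  obtain ⟨ψ, h1, h2⟩ := h _ _ _ (sz_mk hJ) β φ (hρ.forall.2 fun r => by
    rw [← hf, hφ, hβ]; rfl) (hp.forall.2 fun t ht => by
      rw [hφ]; exact (hu t ht).map (Ideal.Quotient.mk _))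
  let δ := fun i => ψ (p (X i)) - j (X i)
  have hδ : ∀ i, Ideal.Quotient.mk (K.map j) (δ i) = 0 := fun i => by
    rw [map_sub, sub_eq_zero]
    exact (h2 (p (X i))).trans (hφ (X i))
  have h3 : ∀ i, ∃ t, p t ∈ T ∧ ∃ κ ∈ K, δ i * j t = j κ := fun i => by
    have := Ideal.Quotient.eq_zero_iff_mem.1 (hδ i)
    rw [← Ideal.map_map] at this
    obtain ⟨_, ⟨t, ht, rfl⟩, _, a, e⟩ := hι.mem_map this
    obtain ⟨κ, hκ, rfl⟩ := (Ideal.mem_map_iff_of_surjective _ Ideal.Quotient.mk_surjective).1 a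
    exact ⟨t, ht, κ, hκ, e⟩
  choose t ht κ hκ e using h3
  let S := fun i => -(κ i * ∏ l ∈ Finset.univ.erase i, t l)
  have hS : ∀ i, j (S i) = -(δ i * j (∏ l, t l)) := fun i => by
    rw [← Finset.mul_prod_erase _ t (Finset.mem_univ i), map_mul, ← mul_assoc, e]
    simp only [S, map_neg, map_mul]
  have h4 : ∀ k ∈ K, ∃ u, p u ∈ T ∧
      u * ((∏ l, t l) * k - ∑ i, pderiv i k * S i) ∈ W := fun k hk => by
    have a1 := ev_eq (ψ.comp p) (β := j.comp MvPolynomial.C) (x := fun i => j (X i) + δ i)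
      (fun r => by rw [RingHom.comp_apply, hf, h1, hβ]) (by simp [δ]) k
    have a2 := taylor_sz (sz_mk hJ) (j.comp MvPolynomial.C) (fun i => j (X i)) δ hδ k
    simp only [a1, ev_eq j (β := j.comp MvPolynomial.C) (fun _ => rfl) (fun _ => rfl),
      RingHom.comp_apply, show p k = 0 from hk, map_zero] at a2
    have a3 : j ((∏ l, t l) * k - ∑ i, pderiv i k * S i) = 0 := by
      simp only [map_sub, map_mul, map_sum, hS, mul_neg, Finset.sum_neg_distrib, ← mul_assoc,
        ← Finset.sum_mul]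
      linear_combination -(j (∏ l, t l)) * a2
    obtain ⟨_, ⟨u, hu, rfl⟩, a4⟩ := hι.ker _ a3
    exact ⟨u, hu, Ideal.Quotient.eq_zero_iff_mem.1 a4⟩
  obtain ⟨m, γ, hγ⟩ := exists_gen K
  choose u hu h5 using fun l => h4 (γ l) (hγ.le (Ideal.subset_span ⟨l, rfl⟩))
  refine ⟨(∏ l, u l) * ∏ l, t l, ?_, .of_gen hγ (fun i => (∏ l, u l) * S i) (fun i =>
    K.mul_mem_left _ (K.neg_mem (K.mul_mem_right _ (hκ i)))) fun l => ?_⟩
  · rw [map_mul, map_prod, map_prod]
    exact T.mul_mem (T.prod_mem fun l _ => hu l) (T.prod_mem fun l _ => ht l)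
  · have := W.mul_mem_left (∏ l' ∈ Finset.univ.erase l, u l') (h5 l)
    rw [← mul_assoc, Finset.prod_erase_mul _ _ (Finset.mem_univ l)] at this
    refine (congrArg (· ∈ _) ?_).mp this
    simp only [mul_sub, Finset.mul_sum, mul_assoc, mul_left_comm]

lemma SmOn.elk' [Fintype σ] [IsNoetherianRing R] {f : R →+* A} {p : MvPolynomial σ R →+* A}
    (hp : Surjective p) (hf : ∀ r, p (MvPolynomial.C r) = f r) {T : Submonoid A} (h : SmOn f T) :
    ∃ s, p s ∈ T ∧ Elk (RingHom.ker p) ⊥ s := by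
  have := h.elk (ρ := RingHom.id R) surjective_id hp hf
  rwa [(RingHom.injective_iff_ker_eq_bot (RingHom.id R)).1 injective_id, Ideal.map_bot] at this

lemma SmOn.exists_single [IsNoetherianRing R] {f : R →+* A} (hf : f.FiniteType) {T : Submonoid A}
    (h : SmOn f T) : ∃ s ∈ T, SmOn f {s} := by
  obtain ⟨n, p, hp, e⟩ := exists_pres hf
  obtain ⟨s, h1, h2⟩ := h.elk' hp e
  exact ⟨_, h1, h2.smOn hp e⟩

lemma SmAt.exists_single [IsNoetherianRing R] {f : R →+* A} (hf : f.FiniteType) {q : Ideal A}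
    [q.IsPrime] (h : SmAt f q) : ∃ s ∉ q, SmOn f {s} :=
  SmOn.exists_single hf (T := q.primeCompl) h

lemma smOn_of_forall [IsNoetherianRing R] {f : R →+* A} (hf : f.FiniteType) {s : A}
    (h : ∀ q : Ideal A, q.IsPrime → s ∉ q → SmAt f q) : SmOn f {s} := by
  obtain ⟨n, p, hp, e⟩ := exists_pres hf
  have : s ∈ ((elkI (RingHom.ker p) ⊥).map p).radical := by
    rw [Ideal.radical_eq_sInf, Submodule.mem_sInf]
    rintro q ⟨h1, h2⟩
    by_contra hs
    obtain ⟨t, h3, h4⟩ := SmOn.elk' hp e (T := Ideal.primeCompl q) (h q h2 hs)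
    exact h3 (h1 (Ideal.mem_map_of_mem _ h4))
  obtain ⟨k, hk⟩ := this
  obtain ⟨t, h1, h2⟩ := (Ideal.mem_map_iff_of_surjective _ hp).1 hk
  refine (Elk.smOn hp e h1).mono fun C _ φ H => ?_
  rintro _ rfl
  rw [h2, map_pow]
  exact (H s rfl).pow k

/-- The singular ideal. -/
def Hs (f : R →+* A) : Ideal A where
  carrier := {a | ∀ q : Ideal A, q.IsPrime → a ∉ q → SmAt f q}
  zero_mem' := fun q _ h => (h q.zero_mem).elim
  add_mem' := fun {a b} ha hb q hq h => by
    by_cases h1 : a ∈ q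
    · exact hb q hq fun h2 => h (q.add_mem h1 h2)
    · exact ha q hq h1
  smul_mem' := fun c a ha q hq h => ha q hq fun h1 => h (q.mul_mem_left c h1)

lemma SmOn.mem_Hs {f : R →+* A} {s : A} (h : SmOn f {s}) : s ∈ Hs f := fun _ _ hs => h.smAt hs

lemma exists_gen_Hs [IsNoetherianRing R] {f : R →+* A} (hf : f.FiniteType) :
    ∃ (m : ℕ) (a : Fin m → A), Ideal.span (Set.range a) = Hs f ∧ (∀ j, SmOn f {a j}) ∧
      ∀ q : Ideal A, q.IsPrime → SmAt f q → ∃ j, a j ∉ q := by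
  have := noeth_of_ft hf
  obtain ⟨m, a, ha⟩ := exists_gen (Hs f)
  refine ⟨m, a, ha, fun j => smOn_of_forall hf (ha.le (Ideal.subset_span ⟨j, rfl⟩)),
    fun q _ hq => ?_⟩
  by_contra! H
  obtain ⟨s, h1, h2⟩ := hq.exists_single hf
  exact h1 ((Ideal.span_le.2 (by rintro _ ⟨j, rfl⟩; exact H j) : _ ≤ q) (ha.ge h2.mem_Hs))

section
variable {L : Type} [CommRing L] [Algebra R A] [Algebra A L] [Algebra R L] [IsScalarTower R A L]
  (M : Submonoid A) [IsLocalization M L]

lemma smOn_of_formallySmooth [Algebra.FormallySmooth R L] : SmOn (algebraMap R A) M :=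
  fun B C _ _ g hg β φ h1 h2 => by
    algebraize [β, g.comp β]
    let φ' : A →ₐ[R] C := { φ with commutes' := h1 }
    let g' : B →ₐ[R] C := { g with commutes' := fun _ => rfl }
    let φ'' : L →ₐ[R] C := IsLocalization.liftAlgHom (M := M) (f := φ') fun y => h2 y y.2
    have := Algebra.FormallySmooth.comp_liftOfSurjective φ'' g' hg.surj ⟨2, hg.sq_le le_rfl⟩
    let ψ : A →ₐ[R] B := (Algebra.FormallySmooth.liftOfSurjective φ'' g' hg.surj
      ⟨2, hg.sq_le le_rfl⟩).comp (IsScalarTower.toAlgHom R A L)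
    refine ⟨ψ, ψ.commutes, fun a => ?_⟩
    exact congr($this (algebraMap A L a)).trans (by simp [φ'', φ'])

lemma SmOn.formallySmooth (h : SmOn (algebraMap R A) M) : Algebra.FormallySmooth R L :=
  .of_comp_surjective fun B _ _ I hI φ => by
    let φ' : A →ₐ[R] B ⧸ I := φ.comp (IsScalarTower.toAlgHom R A L)
    obtain ⟨ψ, h1, h2⟩ := h B _ _ (sz_mk hI) (algebraMap R B) φ' φ'.commutes
      fun t ht => (IsLocalization.map_units L ⟨t, ht⟩).map φ
    let ψ' : A →ₐ[R] B := { ψ with commutes' := h1 }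
    refine ⟨IsLocalization.liftAlgHom (M := M) (f := ψ') fun y => (sz_mk hI).unit ?_, ?_⟩
    · exact (h2 y).symm ▸ (IsLocalization.map_units L y).map φ
    · refine AlgHom.coe_ringHom_injective (IsLocalization.ringHom_ext M (RingHom.ext fun a => ?_))
      simpa [ψ', φ'] using h2 a

end

/-- Inverting an element. -/
lemma SmOn.away {f : R →+* A} (hf : f.FiniteType) {s : A} (h : SmOn f {s}) {ι : A →+* B}
    (hι : Lc ι (Submonoid.powers s)) : (ι.comp f).FiniteType ∧ SmOn (ι.comp f) ∅ :=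
  ⟨hι.ft.comp hf, h.comp hι.smOn fun _ _ φ _ _ ht =>
    (show _ = s from ht) ▸ (hι.unit s (Submonoid.mem_powers s)).map φ⟩

lemma SmOn.formallySmooth' [Algebra R A] (h : SmOn (algebraMap R A) ∅) :
    Algebra.FormallySmooth R A :=
  have := IsLocalization.self (M := (⊥ : Submonoid A)) bot_le
  SmOn.formallySmooth (L := A) ⊥ (h.mono' (Set.empty_subset _))

lemma SmOn.nz [IsNoetherianRing R] {f : R →+* A} (hf : f.FiniteType) (h : SmOn f ∅) {π : R}
    (hπ : ∀ r, π * r = 0 → r = 0) {a : A} (ha : f π * a = 0) : a = 0 := by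
  algebraize [f]
  have : Algebra.FormallySmooth R A := SmOn.formallySmooth' h
  have : Algebra.FinitePresentation R A := Algebra.FinitePresentation.of_finiteType.1 ‹_›
  have : Algebra.Smooth R A := {}
  have h2 : π ∈ nonZeroDivisors R := mem_nonZeroDivisors_iff_left.2 hπ
  have h3 : IsSMulRegular A π := Module.Flat.isSMulRegular_of_nonZeroDivisors h2
  exact h3 (by dsimp only; rw [smul_zero, Algebra.smul_def]; exact ha)

/-- Flatness. -/
lemma SmAt.nz [IsNoetherianRing R] {f : R →+* A} (hf : f.FiniteType) {q : Ideal A} [hq : q.IsPrime]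
    (h : SmAt f q) {π : R} (hπ : ∀ r, π * r = 0 → r = 0) {a : A} (ha : f π * a = 0) :
    ∃ u ∉ q, u * a = 0 := by
  obtain ⟨s, h1, h2⟩ := h.exists_single hf
  obtain ⟨L, _, ι, hι⟩ := exists_lc (Submonoid.powers s)
  obtain ⟨h3, h4⟩ := h2.away hf hι
  obtain ⟨_, ⟨n, rfl⟩, h5⟩ := hι.ker a (h4.nz h3 hπ (by simpa using congrArg ι ha))
  exact ⟨_, fun h => h1 (hq.mem_of_pow_mem n h), h5⟩

/-- Base change along a surjection. -/
lemma SmOn.quot {R₀ A₀ : Type} [CommRing R₀] [CommRing A₀] {f : R →+* A} {ρ : R →+* R₀}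
    (hρ : Surjective ρ) {θ : A →+* A₀} (hθ : Surjective θ) {f₀ : R₀ →+* A₀}
    (e : ∀ r, f₀ (ρ r) = θ (f r)) (hk : RingHom.ker θ ≤ (RingHom.ker ρ).map f) {T : Set A}
    (h : SmOn f T) {T₀ : Set A₀} (hT : ∀ t ∈ T, θ t ∈ T₀) : SmOn f₀ T₀ :=
  fun B C _ _ g hg β φ h1 h2 => by
    obtain ⟨ψ, a1, a2⟩ := h B C g hg (β.comp ρ) (φ.comp θ) (fun r => by simp [← e, h1])
      fun t ht => h2 _ (hT t ht)
    obtain ⟨ψ₀, a3⟩ := exists_lift hθ ψ fun k hk' => (Ideal.map_le_iff_le_comap.2 fun r hr =>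
      (a1 r).trans (by simp [show ρ r = 0 from hr]) : _ ≤ RingHom.ker ψ) (hk hk')
    exact ⟨ψ₀, hρ.forall.2 fun r => by rw [e, a3, a1]; rfl, hθ.forall.2 fun a => by
      rw [a3, a2]; rfl⟩

/-- Base change to a polynomial ring. -/
lemma SmOn.poly {f : R →+* A} {s : A} (h : SmOn f {s}) :
    SmOn (Polynomial.mapRingHom f) {Polynomial.C s} := fun B C _ _ g hg β φ h1 h2 => by
  obtain ⟨ψ, a1, a2⟩ := h B C g hg (β.comp Polynomial.C) (φ.comp Polynomial.C)
    (fun r => by simpa using h1 (Polynomial.C r)) fun t ht => h2 _ (ht ▸ rfl)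
  refine ⟨Polynomial.eval₂RingHom ψ (β Polynomial.X), fun r => congr($(Polynomial.ringHom_ext
    (f := (Polynomial.eval₂RingHom ψ (β Polynomial.X)).comp (Polynomial.mapRingHom f)) (g := β)
    (fun r => ?_) (by simp)) r), fun a => congr($(Polynomial.ringHom_ext
    (f := g.comp (Polynomial.eval₂RingHom ψ (β Polynomial.X))) (g := φ) (fun r => ?_) ?_) a)⟩
  · simpa using a1 r
  · simpa using a2 r
  · simpa using (h1 Polynomial.X).symm

lemma smOn_polyC : SmOn (Polynomial.C : R →+* Polynomial R) ∅ := fun B C _ _ g hg β φ h1 _ => by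
  obtain ⟨x, hx⟩ := hg.surj (φ Polynomial.X)
  exact ⟨Polynomial.eval₂RingHom β x, fun r => by simp, fun a => congr($(Polynomial.ringHom_ext
    (f := g.comp (Polynomial.eval₂RingHom β x)) (g := φ)
    (fun r => by simpa using (h1 r).symm) (by simpa using hx)) a)⟩

end Pool.Agent.Lib.MP_a37f0b_ag.Pop
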