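import Pool.Agent.Lib.MP_a37f0b_ag.Pop2

/-!
Ind-smooth maps, resolutions at a prime, chains, regular sequences.
-/

open MvPolynomial Function

namespace Pool.Agent.Lib.MP_a37f0b_ag.Pop

variable {R A B D L Λ : Type} [CommRing R] [CommRing A] [CommRing B] [CommRing D] [CommRing L]
  [CommRing Λ] {σ τ : Type}

/-- Every map from an algebra of finite type factors through a smooth algebra. -/
def IndSm (β : R →+* Λ) : Prop :=
  ∀ (A : Type) [CommRing A] (f : R →+* A) (φ : A →+* Λ), f.FiniteType → (∀ r, φ (f r) = β r) →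
    ∃ (B : Type) (_ : CommRing B) (h : A →+* B) (ψ : B →+* Λ),
      (h.comp f).FiniteType ∧ (∀ a, ψ (h a) = φ a) ∧ SmOn (h.comp f) ∅

/-- A factorization that is smooth at `q` and wherever `A` was smooth. -/
def Res (f : R →+* A) (φ : A →+* Λ) (q : Ideal Λ) : Prop :=
  ∃ (B : Type) (_ : CommRing B) (h : A →+* B) (ψ : B →+* Λ),
    (h.comp f).FiniteType ∧ (∀ a, ψ (h a) = φ a) ∧ SmAt (h.comp f) (q.comap ψ) ∧
      ∀ r : Ideal Λ, r.IsPrime → SmAt f (r.comap φ) → SmAt (h.comp f) (r.comap ψ)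

/-- Flatness along a composition series from `I` to `n`. -/
inductive Chain (β : R →+* L) (n : Ideal R) : Ideal R → Prop
  | top : Chain β n n
  | step (I : Ideal R) (ε : R) : ε ∈ n → (∀ x ∈ n, x * ε ∈ I) →
      (∀ μ, β ε * μ ∈ I.map β → μ ∈ n.map β) → Chain β n (I ⊔ Ideal.span {ε}) → Chain β n I

/-- The ideal `m` is generated modulo `J` by a regular sequence of length `d`. -/
inductive RS (m : Ideal L) : Ideal L → ℕ → Prop
  | zero : RS m m 0
  | succ (J : Ideal L) (d : ℕ) (x : L) : x ∈ m → (∀ μ, x * μ ∈ J → μ ∈ J) →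
      RS m (J ⊔ Ideal.span {x}) d → RS m J (d + 1)

/-- All localizations at primes are regular. -/
def LocRS (Λ : Type) [CommRing Λ] : Prop :=
  ∀ (q : Ideal Λ) [q.IsPrime], ∃ (L : Type) (_ : CommRing L) (ι : Λ →+* L) (d : ℕ),
    Lc ι q.primeCompl ∧ RS (q.map ι) ⊥ d

/-- Ind-smoothness modulo `I`. -/
def QI (β : R →+* L) (I : Ideal R) : Prop :=
  ∃ (R₁ L₁ : Type) (_ : CommRing R₁) (_ : CommRing L₁) (ρ : R →+* R₁) (θ : L →+* L₁)
    (β₁ : R₁ →+* L₁), Surjective ρ ∧ Surjective θ ∧ RingHom.ker ρ = I ∧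
      RingHom.ker θ = I.map β ∧ (∀ r, β₁ (ρ r) = θ (β r)) ∧ IndSm β₁

/-- Projective dimension at most `n`. -/
def PD (R : Type) [CommRing R] (M : Type) [AddCommGroup M] [Module R M] (n : ℕ) : Prop :=
  CategoryTheory.HasProjectiveDimensionLE (ModuleCat.of R M) n

lemma SmOn.congr {f f' : R →+* A} {T : Set A} (h : SmOn f T) (e : ∀ r, f r = f' r) : SmOn f' T :=
  (RingHom.ext e : f = f') ▸ h

lemma SmAt.congr {f f' : R →+* A} {q : Ideal A} (h : SmAt f q) (e : ∀ r, f r = f' r) :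
    SmAt f' q := SmOn.congr h e

lemma ft_congr {f f' : R →+* A} (h : f.FiniteType) (e : ∀ r, f r = f' r) : f'.FiniteType :=
  (RingHom.ext e : f = f') ▸ h

lemma smOn_id (T : Set R) : SmOn (RingHom.id R) T := fun _ _ _ _ _ _ β _ h _ =>
  ⟨β, fun _ => rfl, fun a => (h a).symm⟩

/-- The Jacobian criterion, with generation of the ideal only up to a nonzerodivisor. -/
theorem jc_nz [IsNoetherianRing R] [Fintype σ] [Fintype τ] [DecidableEq τ] {f₀ : R →+* D}
    (hf₀ : f₀.FiniteType) {f : D →+* A} {p : MvPolynomial σ D →+* A} (hp : Surjective p)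
    (hf : ∀ r, p (MvPolynomial.C r) = f r) {q : Ideal A} [hq : q.IsPrime]
    (h₀ : SmAt f₀ (q.comap f)) (γ : τ → MvPolynomial σ D) (hγ : ∀ j, p (γ j) = 0)
    (Dr : τ → Derivation D (MvPolynomial σ D) (MvPolynomial σ D)) {s : MvPolynomial σ D}
    (hs : p s ∉ q) (hD : ∀ j l, p (Dr l (γ j) - if j = l then s else 0) ∈ q) {π : R}
    (hπ : ∀ r, π * r = 0 → r = 0) (hK : ∀ k, p k = 0 → ∃ u, p u ∉ q ∧
      u * (MvPolynomial.C (f₀ π) * k) ∈ Ideal.span (Set.range γ)) : SmAt (f.comp f₀) q := by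
  set G := Ideal.span (Set.range γ)
  have hG : ∀ k ∈ G, p k = 0 := fun k hk =>
    (Ideal.span_le.2 (by rintro _ ⟨j, rfl⟩; exact hγ j) : G ≤ RingHom.ker p) hk
  obtain ⟨ω, hω⟩ := exists_lift (p := Ideal.Quotient.mk G) Ideal.Quotient.mk_surjective p
    fun k hk => hG k (Ideal.Quotient.eq_zero_iff_mem.1 hk)
  have h1 : SmAt ((Ideal.Quotient.mk G).comp MvPolynomial.C) (q.comap ω) :=
    jc_at Ideal.Quotient.mk_surjective (fun _ => rfl) γ
      (fun j => Ideal.Quotient.eq_zero_iff_mem.2 (Ideal.subset_span ⟨j, rfl⟩)) Dr (s := s)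
      (by simpa [hω] using hs) (fun j l => by rw [Ideal.mem_comap, hω]; exact hD j l)
      fun k hk => ⟨1, by simpa using q.ne_top_iff_one.1 hq.ne_top, by
        simpa using Ideal.Quotient.eq_zero_iff_mem.1 hk⟩
  have h2 := SmAt.comp (f := f₀) (by
    convert h₀ using 1; ext r; simp [hω, hf]) h1
  refine h₀.comp (jc_at hp hf γ hγ Dr hs hD fun k hk => ?_)
  obtain ⟨u, hu, h3⟩ := hK k hk
  obtain ⟨u', h4, h5⟩ := h2.nz ((ft_quot G).comp hf₀) hπ (a := Ideal.Quotient.mk G (u * k)) (by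
    rw [← Ideal.Quotient.eq_zero_iff_mem] at h3
    rw [← h3]; simp only [RingHom.comp_apply, map_mul]; ring)
  obtain ⟨u', rfl⟩ := Ideal.Quotient.mk_surjective u'
  rw [Ideal.mem_comap, hω] at h4
  refine ⟨u' * u, fun h => (hq.mem_or_mem (by rwa [map_mul] at h)).elim h4 hu, ?_⟩
  rw [← Ideal.Quotient.eq_zero_iff_mem, ← h5]; simp only [map_mul]; ring

end Pool.Agent.Lib.MP_a37f0b_ag.Pop
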