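import Pool.Agent.Lib.MP_a37f0b_ag.Pop3

/-!
Lifting a smooth factorization once.
-/

open MvPolynomial Function

namespace Pool.Agent.Lib.MP_a37f0b_ag.Pop

variable {R R₀ Λ Λ₀ A : Type} [CommRing R] [CommRing R₀] [CommRing Λ] [CommRing Λ₀] [CommRing A]

lemma ck_der {σ τ : Type} [Fintype σ] (D : Derivation R (MvPolynomial τ R) (MvPolynomial τ R))
    (j : σ → τ) (F : MvPolynomial σ R) :
    D (rename j F) = ∑ i, rename j (pderiv i F) * D (X (j i)) := by
  classical
  induction F using MvPolynomial.induction_on with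
  | C a => simp [derivation_C]
  | add p q hp hq => simp [hp, hq, add_mul, Finset.sum_add_distrib]
  | mul_X p k hp =>
    simp only [map_mul, rename_X, Derivation.leibniz, smul_eq_mul, hp, add_mul,
      Finset.sum_add_distrib, pderiv_X, Finset.mul_sum, map_add]
    congr 1
    · rw [Finset.sum_eq_single k] <;> simp +contextual [eq_comm]
    · exact Finset.sum_congr rfl fun i _ => by ring

lemma ck_pderiv_mem {σ : Type} {K : Ideal (MvPolynomial σ R)} {ε : R}
    (hε : MvPolynomial.C ε ∈ K) (i : σ) {z : MvPolynomial σ R}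
    (hz : z ∈ K ^ 2 ⊔ Ideal.span {MvPolynomial.C ε}) : pderiv i z ∈ K := by
  obtain ⟨a, ha, b, hb, rfl⟩ := Submodule.mem_sup.1 hz
  obtain ⟨c, rfl⟩ := Ideal.mem_span_singleton'.1 hb
  rw [map_add]
  refine K.add_mem ?_ ?_
  · rw [pow_two] at ha
    refine Submodule.mul_induction_on ha (fun x hx y hy => ?_) fun x y hx hy => ?_
    · rw [pderiv_mul]
      exact K.add_mem (K.mul_mem_left _ hy) (K.mul_mem_right _ hx)
    · rw [map_add]
      exact K.add_mem hx hy
  · rw [pderiv_mul, pderiv_C, mul_zero, add_zero]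
    exact K.mul_mem_left _ hε

/-- The idempotent matrix attached to a splitting of the conormal sequence. -/
lemma ck_mat {σ τ : Type} [Fintype σ] [Fintype τ] {K : Ideal (MvPolynomial σ R)} {ε : R}
    {F : τ → MvPolynomial σ R} (hF : Ideal.span (Set.range F) = K) (hε : MvPolynomial.C ε ∈ K)
    (h : Elk K (Ideal.span {MvPolynomial.C ε}) 1) :
    ∃ (S : σ → τ → MvPolynomial σ R) (M : τ → τ → MvPolynomial σ R),
      (∀ j l, M j l = ∑ i, pderiv i (F j) * S i l) ∧
      (∀ j, F j - ∑ l, M j l * F l ∈ K ^ 2 ⊔ Ideal.span {MvPolynomial.C ε}) ∧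
      ∀ j l, ∑ k, M j k * M k l - M j l ∈ K := by
  obtain ⟨S₀, h1, h2⟩ := h
  choose S hS using fun i => Ideal.mem_span_range_iff_exists_fun.1 (hF.ge (h1 i))
  have hFK : ∀ j, F j ∈ K := fun j => hF.le (Ideal.subset_span ⟨j, rfl⟩)
  obtain ⟨M, hM⟩ : ∃ M : τ → τ → MvPolynomial σ R, ∀ j l, M j l = ∑ i, pderiv i (F j) * S i l :=
    ⟨_, fun _ _ => rfl⟩
  have h3 : ∀ j, F j - ∑ l, M j l * F l ∈ K ^ 2 ⊔ Ideal.span {MvPolynomial.C ε} := fun j => by
    have := h2 _ (hFK j)
    rw [one_mul] at this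
    refine (congrArg (· ∈ _) ?_).mp this
    simp only [hM, ← hS, Finset.mul_sum, Finset.sum_mul, mul_assoc]
    rw [Finset.sum_comm]
  refine ⟨S, M, hM, h3, fun j l => ?_⟩
  have h4 : ∀ i, pderiv i (F j) - ∑ k, M j k * pderiv i (F k) ∈ K := fun i => by
    have := K.add_mem (ck_pderiv_mem hε i (h3 j))
      (K.sum_mem (t := Finset.univ) fun k _ => K.mul_mem_left (pderiv i (M j k)) (hFK k))
    refine (congrArg (· ∈ _) ?_).mp this
    simp only [map_sub, map_sum, pderiv_mul, Finset.sum_add_distrib]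
    ring
  have := K.neg_mem (K.sum_mem (t := Finset.univ) fun i _ => K.mul_mem_right (S i l) (h4 i))
  refine (congrArg (· ∈ _) ?_).mp this
  simp only [sub_mul, Finset.sum_sub_distrib, neg_sub, Finset.sum_mul, ← hM]
  congr 1
  rw [Finset.sum_comm]
  refine Finset.sum_congr rfl fun k _ => ?_
  rw [hM k l, Finset.mul_sum]
  exact Finset.sum_congr rfl fun i _ => by ring

lemma ck_nak {τ : Type} [Fintype τ] {f w y γ : τ → A} {M : τ → τ → A} {e : A}
    (hγ : ∀ j, γ j = f j + w j - ∑ l, M j l * w l - e * y j)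
    (h1 : ∀ j, f j - ∑ l, M j l * f l ∈ Ideal.span (Set.range f) ^ 2 ⊔ Ideal.span {e})
    (h2 : ∀ j l, ∑ k, M j k * M k l - M j l ∈ Ideal.span (Set.range f)) :
    ∃ Δ, Δ - 1 ∈ Ideal.span (Set.range f) ⊔ Ideal.span (Set.range w) ∧
      ∀ j, Δ * f j ∈ Ideal.span (Set.range γ) ⊔ Ideal.span {e} := by
  have key : ∀ j, 1 * f j ∈ (Ideal.span (Set.range f) ⊔ Ideal.span (Set.range w)) *
      Ideal.span (Set.range f) ⊔ (Ideal.span (Set.range γ) ⊔ Ideal.span {e}) := fun j => by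
    have e1 : 1 * f j = (f j - ∑ l, M j l * f l) + ∑ l, w l * (∑ k, M j k * M k l - M j l) +
        (∑ l, M j l * γ l + (∑ l, M j l * y l) * e) := by
      have e2 : ∑ l, w l * ∑ k, M j k * M k l = ∑ k, M j k * ∑ l, M k l * w l := by
        simp only [Finset.mul_sum]
        rw [Finset.sum_comm]
        exact Finset.sum_congr rfl fun k _ => Finset.sum_congr rfl fun l _ => by ring
      have e3 : ∑ l, w l * M j l = ∑ l, M j l * w l := Finset.sum_congr rfl fun l _ => by ring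
      have e4 : (∑ l, M j l * y l) * e = ∑ l, M j l * (e * y l) := by
        rw [Finset.sum_mul]
        exact Finset.sum_congr rfl fun l _ => by ring
      simp only [hγ, mul_sub, mul_add, Finset.sum_sub_distrib, Finset.sum_add_distrib, e2, e3, e4]
      ring
    rw [e1]
    refine Ideal.add_mem _ (Ideal.add_mem _ ?_ ?_) (Ideal.mem_sup_right (Ideal.add_mem _ ?_ ?_))
    · have := h1 j
      rw [pow_two] at this
      exact SetLike.le_def.1 (sup_le_sup (Ideal.mul_mono_left le_sup_left) le_sup_right) this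
    · exact Ideal.mem_sup_left (Ideal.sum_mem _ fun l _ => Ideal.mul_mem_mul
        (Ideal.mem_sup_right (Ideal.subset_span ⟨l, rfl⟩)) (h2 j l))
    · exact Ideal.mem_sup_left (Ideal.sum_mem _ fun l _ =>
        Ideal.mul_mem_left _ _ (Ideal.subset_span ⟨l, rfl⟩))
    · exact Ideal.mem_sup_right (Ideal.mul_mem_left _ _ (Ideal.mem_span_singleton_self e))
  obtain ⟨Δ, a1, a2⟩ := nak key
  exact ⟨Δ, by simpa using a1, a2⟩

/-- A smooth algebra over `R` in which the ideal `K` becomes divisible by `ε`. -/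
lemma ck_core [IsNoetherianRing R] {σ ι : Type} [Fintype σ] [Fintype ι] {β : R →+* Λ} {ε : R}
    (hε : ε * ε = 0) {K : Ideal (MvPolynomial σ R)} (hK : MvPolynomial.C ε ∈ K)
    (h : Elk K (Ideal.span {MvPolynomial.C ε}) 1) (l : σ → Λ)
    (hl : ∀ k ∈ K, ev β l k ∈ Ideal.span {β ε}) (ν : ι → Λ) :
    ∃ (B : Type) (_ : CommRing B) (b : R →+* B) (x : σ → B) (u : ι → B) (ψ : B →+* Λ),
      b.FiniteType ∧ SmOn b ∅ ∧ (∀ r, ψ (b r) = β r) ∧ (∀ i, ψ (x i) = l i) ∧
      (∀ i, ψ (u i) = ν i) ∧ ∀ k ∈ K, ev b x k ∈ Ideal.span {b ε} := by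
  classical
  obtain ⟨m, F, hF⟩ := exists_gen K
  obtain ⟨S, M, hM, h1, h2⟩ := ck_mat hF hK h
  choose μ hμ using fun j => Ideal.mem_span_singleton'.1
    (hl (F j) (hF.le (Ideal.subset_span ⟨j, rfl⟩)))
  let τ := σ ⊕ Fin m ⊕ Fin m ⊕ ι
  obtain ⟨r, hr⟩ : ∃ r : MvPolynomial σ R →+* MvPolynomial τ R, ∀ G, r G = rename Sum.inl G :=
    ⟨(rename Sum.inl).toRingHom, fun _ => rfl⟩
  have hrC : ∀ a, r (MvPolynomial.C a) = MvPolynomial.C a := fun a => by rw [hr, rename_C]
  have hrX : ∀ i, r (X i) = X (Sum.inl i) := fun i => by rw [hr, rename_X]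
  let w : Fin m → MvPolynomial τ R := fun j => X (Sum.inr (Sum.inl j))
  let y : Fin m → MvPolynomial τ R := fun j => X (Sum.inr (Sum.inr (Sum.inl j)))
  obtain ⟨γ, hγ⟩ : ∃ γ : Fin m → MvPolynomial τ R, ∀ j, γ j =
      r (F j) + w j - ∑ l, r (M j l) * w l - MvPolynomial.C ε * y j := ⟨_, fun _ => rfl⟩
  have hmap : K.map r = Ideal.span (Set.range fun j => r (F j)) := by
    rw [← hF, Ideal.map_span, ← Set.range_comp]
    rfl
  obtain ⟨Δ, hΔ1, hΔ2⟩ := ck_nak (f := fun j => r (F j)) (M := fun j l => r (M j l)) hγ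
    (fun j => by
      have := Ideal.mem_map_of_mem r (h1 j)
      rw [Ideal.map_sup, Ideal.map_pow, hmap, Ideal.map_span, Set.image_singleton, hrC] at this
      simpa only [map_sub, map_sum, map_mul] using this)
    (fun j l => by
      have := Ideal.mem_map_of_mem r (h2 j l)
      rw [hmap] at this
      simpa only [map_sub, map_sum, map_mul] using this)
  let E : MvPolynomial τ R →+* Λ := ev β (Sum.elim l (Sum.elim 0 (Sum.elim μ ν)))
  have hEr : ∀ G, E (r G) = ev β l G := fun G =>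
    (ev_eq (E.comp r) (fun a => by simp [E, hrC]) (fun i => by simp [E, hrX]) G).symm
  have hEw : ∀ j, E (w j) = 0 := fun j => by simp [E, w]
  have hEy : ∀ j, E (y j) = μ j := fun j => by simp [E, y]
  have hEC : ∀ a, E (MvPolynomial.C a) = β a := fun a => by simp [E]
  have hEγ : ∀ j, E (γ j) = 0 := fun j => by
    simp only [hγ, map_sub, map_add, map_sum, map_mul, hEr, hEw, hEy, hEC, ← hμ, mul_zero,
      Finset.sum_const_zero]
    ring
  let D : Fin m → Derivation R (MvPolynomial τ R) (MvPolynomial τ R) := fun k =>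
    mkDerivation R (Sum.elim (fun i => r (S i k)) (Sum.elim (fun j => if j = k then 1 else 0) 0))
  have hD : ∀ j k, D k (γ j) - (if j = k then 1 else 0) ∈ Ideal.span (Set.range w) := by
    intro j k
    have a1 : D k (r (F j)) = r (M j k) := by
      rw [hr, ck_der, hM, map_sum]
      refine Finset.sum_congr rfl fun i _ => ?_
      rw [map_mul, hr (pderiv i (F j))]
      simp [D, mkDerivation_X]
    have a2 : ∀ j, D k (w j) = if j = k then 1 else 0 := fun j => by simp [D, w, mkDerivation_X]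
    have a3 : D k (y j) = 0 := by simp [D, y, mkDerivation_X]
    have a4 : D k (γ j) - (if j = k then 1 else 0) = -∑ l, D k (r (M j l)) * w l := by
      simp only [hγ, map_sub, map_add, map_sum, Derivation.leibniz, smul_eq_mul, a1, a2, a3,
        derivation_C, mul_zero, mul_ite, mul_one, Finset.sum_add_distrib, Finset.sum_ite_eq',
        Finset.mem_univ, if_true, mul_comm (w _)]
      ring
    rw [a4]
    exact neg_mem (Ideal.sum_mem _ fun l _ => Ideal.mul_mem_left _ _ (Ideal.subset_span ⟨l, rfl⟩))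
  obtain ⟨d, hd⟩ : ∃ d, d = (Matrix.of fun j k => D k (γ j)).det := ⟨_, rfl⟩
  have hw : Ideal.span (Set.range w) ≤ RingHom.ker E :=
    Ideal.span_le.2 (by rintro _ ⟨j, rfl⟩; exact hEw j)
  have hEd : E d = 1 := by
    have := hw (det_sub_mem (N := Matrix.of fun j k => D k (γ j)) hD)
    rwa [← hd, RingHom.mem_ker, one_pow, map_sub, map_one, sub_eq_zero] at this
  have hEΔ : IsUnit (E Δ) := by
    have a1 : Ideal.span (Set.range fun j => r (F j)) ⊔ Ideal.span (Set.range w) ≤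
        (Ideal.span {β ε}).comap E := by
      refine sup_le (Ideal.span_le.2 ?_) (hw.trans fun k hk => ?_)
      · rintro _ ⟨j, rfl⟩
        show E (r (F j)) ∈ Ideal.span {β ε}
        rw [hEr]
        exact hl _ (hF.le (Ideal.subset_span ⟨j, rfl⟩))
      · rw [Ideal.mem_comap, show E k = 0 from hk]
        exact Ideal.zero_mem _
    obtain ⟨z, hz⟩ := Ideal.mem_span_singleton'.1 (Ideal.mem_comap.1 (a1 hΔ1))
    rw [map_sub, map_one] at hz
    have a2 : β ε * β ε = 0 := by rw [← map_mul, hε, map_zero]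
    exact IsUnit.of_mul_eq_one (1 - z * β ε) (by
      linear_combination (-(1 - z * β ε)) * hz - z ^ 2 * a2)
  let G := Ideal.span (Set.range γ)
  have sm : SmOn ((Ideal.Quotient.mk G).comp MvPolynomial.C) {Ideal.Quotient.mk G d} :=
    jc Ideal.Quotient.mk_surjective (fun _ => rfl) γ
      (fun j => Ideal.Quotient.eq_zero_iff_mem.2 (Ideal.subset_span ⟨j, rfl⟩)) D
      (by rw [← hd]; rfl) fun k hk =>
        ⟨1, Or.inr rfl, by rw [one_mul]; exact Ideal.Quotient.eq_zero_iff_mem.1 hk⟩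
  have sm' : SmOn ((Ideal.Quotient.mk G).comp MvPolynomial.C) {Ideal.Quotient.mk G (d * Δ)} :=
    sm.mono fun _ _ χ H t ht => by
      have := H _ rfl
      rw [map_mul, map_mul] at this
      rw [show t = _ from ht]
      exact isUnit_of_mul_isUnit_left this
  obtain ⟨B, _, j, hj⟩ := exists_lc (Submonoid.powers (Ideal.Quotient.mk G (d * Δ)))
  obtain ⟨ft, sm''⟩ := sm'.away (ft_quot G) hj
  obtain ⟨E', hE'⟩ := exists_lift (p := Ideal.Quotient.mk G) Ideal.Quotient.mk_surjective E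
    fun k hk => (Ideal.span_le.2 (by rintro _ ⟨j, rfl⟩; exact hEγ j) : G ≤ RingHom.ker E)
      (Ideal.Quotient.eq_zero_iff_mem.1 hk)
  obtain ⟨ψ, hψ⟩ := hj.lift E' (by
    rintro _ ⟨n, rfl⟩
    simp only [map_pow, hE', map_mul, hEd, one_mul]
    exact hEΔ.pow n)
  let π : MvPolynomial τ R →+* B := j.comp (Ideal.Quotient.mk G)
  have hπ : ∀ k, ψ (π k) = E k := fun k => (hψ _).trans (hE' k)
  refine ⟨B, inferInstance, _, fun i => π (X (Sum.inl i)),
    fun i => π (X (Sum.inr (Sum.inr (Sum.inr i)))), ψ, ft, sm'',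
    fun a => (hπ (MvPolynomial.C a)).trans (hEC a), fun i => (hπ _).trans (by simp [E]),
    fun i => (hπ _).trans (by simp [E]), fun k hk => ?_⟩
  rw [ev_eq (π.comp r) (fun a => by rw [RingHom.comp_apply, hrC]; rfl)
    (fun i => by rw [RingHom.comp_apply, hrX]) k]
  have hu : IsUnit (π Δ) := by
    have := hj.unit _ (Submonoid.mem_powers _)
    rw [map_mul, map_mul] at this
    exact isUnit_of_mul_isUnit_right this
  refine (?_ : K ≤ Ideal.comap (π.comp r) (Ideal.span {π (MvPolynomial.C ε)})) hk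
  rw [← hF, Ideal.span_le]
  rintro _ ⟨i, rfl⟩
  have a1 : G ⊔ Ideal.span {MvPolynomial.C ε} ≤ (Ideal.span {π (MvPolynomial.C ε)}).comap π := by
    refine sup_le (fun k hk => ?_) ((Ideal.span_singleton_le_iff_mem _).2
      (Ideal.mem_span_singleton_self _))
    rw [Ideal.mem_comap, show π k = 0 by
      simp only [π, RingHom.comp_apply, Ideal.Quotient.eq_zero_iff_mem.2 hk, map_zero]]
    exact Ideal.zero_mem _
  have a2 := Ideal.mem_comap.1 (a1 (hΔ2 i))
  rw [map_mul] at a2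
  exact (Ideal.unit_mul_mem_iff_mem _ hu).1 a2

theorem lift_once [IsNoetherianRing R] {β : R →+* Λ} {ε : R} (hε : ε * ε = 0)
    {ρ : R →+* R₀} (hρ : Surjective ρ) (kρ : RingHom.ker ρ = Ideal.span {ε})
    {θ : Λ →+* Λ₀} (hθ : Surjective θ) (kθ : RingHom.ker θ = Ideal.span {β ε})
    {β₀ : R₀ →+* Λ₀} (e : ∀ r, β₀ (ρ r) = θ (β r)) (h : IndSm β₀)
    {f : R →+* A} (hf : f.FiniteType) {φ : A →+* Λ} (hφ : ∀ r, φ (f r) = β r) :
    ∃ (B B₁ : Type) (_ : CommRing B) (_ : CommRing B₁) (b : R →+* B) (q : B →+* B₁)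
      (κ : A →+* B₁) (ψ : B₁ →+* Λ), b.FiniteType ∧ SmOn b ∅ ∧ Surjective q ∧
      RingHom.ker q ≤ Ideal.span {b ε} ∧ (∀ r, κ (f r) = q (b r)) ∧ ∀ a, ψ (κ a) = φ a := by
  have hθε : ∀ k, θ k = 0 ↔ k ∈ Ideal.span {β ε} := fun k => by rw [← kθ, RingHom.mem_ker]
  have hρε : ρ ε = 0 := kρ.ge (Ideal.mem_span_singleton_self ε)
  let mk := Ideal.Quotient.mk (Ideal.span {f ε})
  obtain ⟨f₀, hf₀⟩ := exists_lift hρ (mk.comp f) fun k hk => by
    obtain ⟨c, rfl⟩ := Ideal.mem_span_singleton'.1 (kρ.le hk)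
    rw [RingHom.comp_apply, Ideal.Quotient.eq_zero_iff_mem, map_mul]
    exact Ideal.mul_mem_left _ _ (Ideal.mem_span_singleton_self _)
  obtain ⟨φ₀, hφ₀⟩ := exists_lift (p := mk) Ideal.Quotient.mk_surjective (θ.comp φ)
    fun k hk => by
      obtain ⟨c, rfl⟩ := Ideal.mem_span_singleton'.1 (Ideal.Quotient.eq_zero_iff_mem.1 hk)
      rw [RingHom.comp_apply, hθε, map_mul, hφ]
      exact Ideal.mul_mem_left _ _ (Ideal.mem_span_singleton_self _)
  have ft : f₀.FiniteType := RingHom.FiniteType.of_comp_finiteType (f := ρ)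
    (ft_congr (hf.comp_surjective Ideal.Quotient.mk_surjective) fun r => (hf₀ r).symm)
  obtain ⟨B₀, _, h₀, ψ₀, ft₀, hψ₀, sm₀⟩ := h _ f₀ φ₀ ft (hρ.forall.2 fun r => by
    rw [hf₀, e, RingHom.comp_apply, hφ₀, RingHom.comp_apply, hφ])
  obtain ⟨n, p, hp, hpC⟩ := exists_pres (f := (h₀.comp f₀).comp ρ)
    (ft₀.comp (RingHom.FiniteType.of_surjective ρ hρ))
  obtain ⟨s, hs, elk⟩ := SmOn.elk hρ hp hpC (T := ⊥) (sm₀.mono' (Set.empty_subset _))
  rw [kρ, Ideal.map_span, Set.image_singleton] at elk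
  obtain ⟨nA, pA, hpA, hpAC⟩ := exists_pres hf
  choose P hP using fun i => hp (h₀ (mk (pA (X i))))
  choose l hl using fun i => hθ (ψ₀ (p (X i)))
  have hE : ∀ G, θ (ev β l G) = ψ₀ (p G) := fun G =>
    (map_ev' (β' := θ.comp β) (fun _ => rfl) hl G).trans (ev_eq (ψ₀.comp p) (fun r => by
      simp only [RingHom.comp_apply, hpC, hψ₀, hf₀, hφ₀, hφ]) (fun _ => rfl) G)
  choose ν hν using fun i => Ideal.mem_span_singleton'.1
    ((hθε (φ (pA (X i)) - ev β l (P i))).1 (by
      rw [map_sub, hE, hP, hψ₀, hφ₀, RingHom.comp_apply, sub_self]))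
  obtain ⟨B, _, b, x, u, ψ', ftb, smb, c1, c2, c3, c4⟩ := ck_core hε (K := RingHom.ker p)
    (by rw [RingHom.mem_ker, hpC, RingHom.comp_apply, hρε, map_zero])
    (elk.congr (by rw [map_one]; exact (Submonoid.mem_bot.1 hs).symm)) l
    (fun k hk => (hθε _).1 (by rw [hE, show p k = 0 from hk, map_zero])) ν
  let z : Fin nA → B := fun i => ev b x (P i) + u i * b ε
  have hz : ∀ G, ψ' (ev b z G) = φ (pA G) := fun G =>
    (map_ev' c1 (y := fun i => φ (pA (X i))) (fun i => by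
      simp only [z, map_add, map_mul, c1, c3, hν, map_ev' c1 c2]
      ring) G).trans (ev_eq (φ.comp pA) (fun r => by rw [RingHom.comp_apply, hpAC, hφ])
        (fun _ => rfl) G)
  let J := Ideal.span {b ε} ⊓ RingHom.ker ψ'
  obtain ⟨ψ, hψ⟩ := exists_lift (p := Ideal.Quotient.mk J) Ideal.Quotient.mk_surjective ψ'
    fun k hk => (Ideal.Quotient.eq_zero_iff_mem.1 hk).2
  obtain ⟨κ, hκ⟩ := exists_lift hpA ((Ideal.Quotient.mk J).comp (ev b z)) fun G hG => by
    refine Ideal.Quotient.eq_zero_iff_mem.2 ⟨?_, (hz G).trans (by rw [hG, map_zero])⟩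
    have a1 := taylor0 b z (fun i => ev b x (P i)) (I := Ideal.span {b ε}) (fun i => by
      simp only [z, add_sub_cancel_left]
      exact Ideal.mul_mem_left _ _ (Ideal.mem_span_singleton_self _)) G
    have a2 : p (ev MvPolynomial.C P G) = 0 := by
      rw [map_ev' (β' := (h₀.comp f₀).comp ρ) hpC hP,
        ev_eq ((h₀.comp mk).comp pA) (β := (h₀.comp f₀).comp ρ) (x := fun i => h₀ (mk (pA (X i))))
          (fun r => by simp only [RingHom.comp_apply, hpAC, hf₀]) (fun _ => rfl) G]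
      simp only [RingHom.comp_apply, hG, map_zero]
    have a3 := c4 _ a2
    rw [map_ev' (β' := b) (ev_C b x) (fun _ => rfl)] at a3
    have := Ideal.add_mem _ a1 a3
    rwa [sub_add_cancel] at this
  refine ⟨B, B ⧸ J, inferInstance, inferInstance, b, Ideal.Quotient.mk J, κ, ψ, ftb, smb,
    Ideal.Quotient.mk_surjective, by rw [Ideal.mk_ker]; exact inf_le_left, fun r => ?_,
    hpA.forall.2 fun G => ?_⟩
  · rw [← hpAC, hκ, RingHom.comp_apply, ev_C]
  · rw [hκ, RingHom.comp_apply, hψ, hz]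

end Pool.Agent.Lib.MP_a37f0b_ag.Pop
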