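import Pool.Agent.Lib.MP_a37f0b_ag.Pop3

/-!
Transfer of chains, regular sequences and localizations.
-/

open MvPolynomial Function

namespace Pool.Agent.Lib.MP_a37f0b_ag.Pop

variable {R R₁ L L₁ Λ Λ₁ : Type} [CommRing R] [CommRing R₁] [CommRing L] [CommRing L₁]
  [CommRing Λ] [CommRing Λ₁]

lemma ch_map_sup (β : R →+* L) (I : Ideal R) (ε : R) :
    (I ⊔ Ideal.span {ε}).map β = I.map β ⊔ Ideal.span {β ε} := by
  rw [Ideal.map_sup, Ideal.map_span, Set.image_singleton]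

lemma ch_mem_sup {I : Ideal L} {ε μ : L} :
    μ ∈ I ⊔ Ideal.span {ε} ↔ ∃ i ∈ I, ∃ ν, μ = i + ε * ν := by
  simp only [Submodule.mem_sup, Ideal.mem_span_singleton']
  constructor
  · rintro ⟨i, hi, _, ⟨ν, rfl⟩, rfl⟩
    exact ⟨i, hi, ν, by ring⟩
  · rintro ⟨i, hi, ν, rfl⟩
    exact ⟨i, hi, _, ⟨ν, rfl⟩, by ring⟩

lemma ch_back {θ : L →+* L₁} (hθ : Surjective θ) {J : Ideal L} (kθ : RingHom.ker θ ≤ J) {a : L}
    (ha : θ a ∈ J.map θ) : a ∈ J := by
  obtain ⟨b, hb, e⟩ := (Ideal.mem_map_iff_of_surjective θ hθ).1 ha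
  have : a - b ∈ J := kθ (by rw [RingHom.mem_ker, map_sub, e, sub_self])
  simpa using J.add_mem this hb

theorem Chain.le {β : R →+* L} {n I : Ideal R} (h : Chain β n I) : I ≤ n := by
  induction h with
  | top => exact le_rfl
  | step I ε _ _ _ _ ih => exact le_sup_left.trans ih

theorem Chain.nil {β : R →+* L} {n I : Ideal R} (h : Chain β n I) : ∃ k : ℕ, n ^ k ≤ I := by
  induction h with
  | top => exact ⟨1, by simp⟩
  | step I ε _ h2 _ _ ih =>
    obtain ⟨k, hk⟩ := ih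
    refine ⟨k + 1, ?_⟩
    rw [pow_succ']
    refine Ideal.mul_le.2 fun x hx y hy => ?_
    obtain ⟨i, hi, ν, rfl⟩ := ch_mem_sup.1 (hk hy)
    rw [mul_add, ← mul_assoc]
    exact I.add_mem (I.mul_mem_left _ hi) (I.mul_mem_right _ (h2 x hx))

theorem Chain.map {β : R →+* L} {n I : Ideal R} (h : Chain β n I) {ρ : R →+* R₁}
    (hρ : Surjective ρ) {θ : L →+* L₁} (hθ : Surjective θ) (kθ : RingHom.ker θ ≤ I.map β)
    {β₁ : R₁ →+* L₁} (e : ∀ r, β₁ (ρ r) = θ (β r)) : Chain β₁ (n.map ρ) (I.map ρ) := by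
  have e' : ∀ J : Ideal R, (J.map ρ).map β₁ = (J.map β).map θ := fun J => by
    rw [Ideal.map_map, Ideal.map_map, (RingHom.ext e : β₁.comp ρ = θ.comp β)]
  induction h with
  | top => exact Chain.top
  | step I ε h1 h2 h3 _ ih =>
    refine Chain.step _ (ρ ε) (Ideal.mem_map_of_mem _ h1) (fun x hx => ?_) (fun μ hμ => ?_) ?_
    · obtain ⟨x, hx', rfl⟩ := (Ideal.mem_map_iff_of_surjective ρ hρ).1 hx
      rw [← map_mul]
      exact Ideal.mem_map_of_mem _ (h2 x hx')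
    · obtain ⟨μ, rfl⟩ := hθ μ
      rw [e', e, ← map_mul] at hμ
      rw [e']
      exact Ideal.mem_map_of_mem _ (h3 μ (ch_back hθ kθ hμ))
    · rw [← ch_map_sup]
      exact ih (kθ.trans (Ideal.map_mono le_sup_left))

theorem Chain.nzd {β : R →+* L} {n I : Ideal R} (h : Chain β n I) {x : L}
    (hx : ∀ μ, x * μ ∈ n.map β → μ ∈ n.map β) : ∀ μ, x * μ ∈ I.map β → μ ∈ I.map β := by
  induction h with
  | top => exact hx
  | step I ε _ h2 h3 _ ih =>
    intro μ hμ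
    have h4 := ih μ (Ideal.map_mono le_sup_left hμ)
    rw [ch_map_sup] at h4
    obtain ⟨i, hi, ν, rfl⟩ := ch_mem_sup.1 h4
    have h5 : β ε * (x * ν) ∈ I.map β := by
      have := (I.map β).sub_mem hμ ((I.map β).mul_mem_left x hi)
      rwa [show x * (i + β ε * ν) - x * i = β ε * (x * ν) by ring] at this
    refine (I.map β).add_mem hi ?_
    have h6 : n.map β ≤ (I.map β).colon {β ε} := by
      rw [Ideal.map_le_iff_le_comap]
      intro z hz
      rw [Ideal.mem_comap, Submodule.mem_colon_singleton, smul_eq_mul, ← map_mul]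
      exact Ideal.mem_map_of_mem _ (h2 z hz)
    have h7 := h6 (hx ν (h3 _ h5))
    rwa [Submodule.mem_colon_singleton, smul_eq_mul, mul_comm] at h7

lemma ch_cancel {β : R →+* L} {γ : R →+* R₁} {β₁ : R₁ →+* L} (e : ∀ r, β₁ (γ r) = β r) {x : R₁}
    (hx : ∀ μ, β₁ x * μ = 0 → μ = 0) {I : Ideal R} {a : ℕ} {μ : L}
    (h : β₁ (x ^ a) * μ ∈ (Ideal.span {x ^ a} * I.map γ ⊔ Ideal.span {x ^ (a + 1)}).map β₁) :
    ∃ i ∈ I.map β, ∃ ν, μ = i + β₁ x * ν := by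
  rw [ch_map_sup, Ideal.map_mul, Ideal.map_map, (RingHom.ext e : β₁.comp γ = β), Ideal.map_span,
    Set.image_singleton] at h
  obtain ⟨j, hj, ν, h⟩ := ch_mem_sup.1 h
  obtain ⟨i, hi, rfl⟩ := Ideal.mem_span_singleton_mul.1 hj
  refine ⟨i, hi, ν, ?_⟩
  have h1 : ∀ (a : ℕ) μ, β₁ x ^ a * μ = 0 → μ = 0 := fun a => by
    induction a with
    | zero => simp
    | succ a ih => exact fun μ hμ => hx _ (ih _ (by rw [← hμ]; ring))
  simp only [map_pow] at h
  exact sub_eq_zero.1 (h1 a _ (by linear_combination h))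

lemma ch_aux {β : R →+* L} {n I : Ideal R} (h : Chain β n I) {γ : R →+* R₁} {β₁ : R₁ →+* L}
    (e : ∀ r, β₁ (γ r) = β r) {x : R₁} (hx : ∀ μ, β₁ x * μ ∈ n.map β → μ ∈ n.map β)
    (hx' : ∀ μ, β₁ x * μ = 0 → μ = 0) (a : ℕ) (H : Chain β₁ (n.map γ ⊔ Ideal.span {x})
      (Ideal.span {x ^ a} * n.map γ ⊔ Ideal.span {x ^ (a + 1)})) :
    Chain β₁ (n.map γ ⊔ Ideal.span {x})
      (Ideal.span {x ^ a} * I.map γ ⊔ Ideal.span {x ^ (a + 1)}) := by
  induction h with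
  | top => exact H
  | step I ε h1 h2 h3 h4 ih =>
    refine Chain.step _ (x ^ a * γ ε) ?_ (fun z hz => ?_) (fun μ hμ => ?_) ?_
    · exact Ideal.mul_mem_left _ _ (Ideal.mem_sup_left (Ideal.mem_map_of_mem _ h1))
    · obtain ⟨u, hu, c, rfl⟩ := ch_mem_sup.1 hz
      have h6 : n.map γ ≤ (I.map γ).colon {γ ε} := by
        rw [Ideal.map_le_iff_le_comap]
        intro z hz
        rw [Ideal.mem_comap, Submodule.mem_colon_singleton, smul_eq_mul, ← map_mul]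
        exact Ideal.mem_map_of_mem _ (h2 z hz)
      have h7 := h6 hu
      rw [Submodule.mem_colon_singleton, smul_eq_mul] at h7
      exact ch_mem_sup.2 ⟨_, Ideal.mem_span_singleton_mul.2 ⟨_, h7, rfl⟩, c * γ ε, by ring⟩
    · rw [map_mul, mul_assoc, e] at hμ
      obtain ⟨i, hi, ν, h5⟩ := ch_cancel e hx' hμ
      have h6 : ν ∈ (I ⊔ Ideal.span {ε}).map β := by
        refine h4.nzd hx ν ?_
        rw [ch_map_sup]
        exact ch_mem_sup.2 ⟨-i, neg_mem hi, μ, by linear_combination -h5⟩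
      rw [ch_map_sup] at h6
      obtain ⟨i', hi', ν', rfl⟩ := ch_mem_sup.1 h6
      have h7 : β ε * (μ - β₁ x * ν') ∈ I.map β := by
        rw [show β ε * (μ - β₁ x * ν') = i + β₁ x * i' by linear_combination h5]
        exact Ideal.add_mem _ hi (Ideal.mul_mem_left _ _ hi')
      rw [ch_map_sup, Ideal.map_map, (RingHom.ext e : β₁.comp γ = β)]
      exact ch_mem_sup.2 ⟨_, h3 _ h7, ν', by ring⟩
    · rw [ch_map_sup, Ideal.mul_sup, Ideal.span_singleton_mul_span_singleton] at ih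
      rwa [sup_right_comm]

theorem Chain.pow {β : R →+* L} {n : Ideal R} (h : Chain β n ⊥) {γ : R →+* R₁} {β₁ : R₁ →+* L}
    (e : ∀ r, β₁ (γ r) = β r) {x : R₁} (hx : ∀ μ, β₁ x * μ ∈ n.map β → μ ∈ n.map β) (N : ℕ) :
    Chain β₁ (n.map γ ⊔ Ideal.span {x}) (Ideal.span {x ^ (N + 1)}) := by
  have hx' : ∀ μ, β₁ x * μ = 0 → μ = 0 := by simpa using h.nzd hx
  have key := fun a H => ch_aux h e hx hx' a H
  simp only [Ideal.map_bot, Ideal.mul_bot, bot_sup_eq] at key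
  induction N with
  | zero => exact key 0 (by simpa using Chain.top)
  | succ N ih =>
    refine key (N + 1) (Chain.step _ (x ^ (N + 1)) ?_ (fun z hz => ?_) (fun μ hμ => ?_) ?_)
    · rw [pow_succ]
      exact Ideal.mul_mem_left _ _ (Ideal.mem_sup_right (Ideal.mem_span_singleton_self x))
    · obtain ⟨u, hu, c, rfl⟩ := ch_mem_sup.1 hz
      exact ch_mem_sup.2 ⟨_, Ideal.mem_span_singleton_mul.2 ⟨_, hu, rfl⟩, c, by ring⟩
    · rw [ch_map_sup, Ideal.map_map, (RingHom.ext e : β₁.comp γ = β)]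
      exact ch_mem_sup.2 (ch_cancel e hx' hμ)
    · rwa [sup_eq_right.2 (sup_le Ideal.mul_le_left
        (Ideal.span_singleton_le_span_singleton.2 (Dvd.intro x (pow_succ x (N + 1)).symm)))]

theorem RS.le {m J : Ideal L} {d : ℕ} (h : RS m J d) : J ≤ m := by
  induction h with
  | zero => exact le_rfl
  | succ J d x _ _ _ ih => exact le_sup_left.trans ih

theorem RS.map {m J : Ideal L} {d : ℕ} (h : RS m J d) {θ : L →+* L₁} (hθ : Surjective θ)
    (kθ : RingHom.ker θ ≤ J) : RS (m.map θ) (J.map θ) d := by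
  induction h with
  | zero => exact RS.zero
  | succ J d x h1 h2 _ ih =>
    refine RS.succ _ d (θ x) (Ideal.mem_map_of_mem _ h1) (fun μ hμ => ?_) ?_
    · obtain ⟨μ, rfl⟩ := hθ μ
      rw [← map_mul] at hμ
      exact Ideal.mem_map_of_mem _ (h2 μ (ch_back hθ kθ hμ))
    · rw [← ch_map_sup]
      exact ih (kθ.trans le_sup_left)

theorem RS.comap {m J : Ideal L₁} {d : ℕ} (h : RS m J d) {θ : L →+* L₁} (hθ : Surjective θ) :
    RS (m.comap θ) (J.comap θ) d := by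
  induction h with
  | zero => exact RS.zero
  | succ J d x h1 h2 _ ih =>
    obtain ⟨x, rfl⟩ := hθ x
    refine RS.succ _ d x h1 (fun μ hμ => h2 _ (by rwa [← map_mul])) ?_
    rwa [show J.comap θ ⊔ Ideal.span {x} = (J ⊔ Ideal.span {θ x}).comap θ from ?_]
    ext z
    rw [Ideal.mem_comap, ch_mem_sup, ch_mem_sup]
    constructor
    · rintro ⟨i, hi, ν, rfl⟩
      exact ⟨θ i, hi, θ ν, by simp⟩
    · rintro ⟨i, hi, ν, e⟩
      obtain ⟨ν, rfl⟩ := hθ ν
      exact ⟨z - x * ν, by simpa [e] using hi, ν, by ring⟩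

theorem Lc.quot {ι : Λ →+* L} {θ : Λ →+* Λ₁} (hθ : Surjective θ) {q : Ideal Λ₁} [q.IsPrime]
    (h : Lc ι (q.comap θ).primeCompl) {θ' : L →+* L₁} (hθ' : Surjective θ')
    (kθ : RingHom.ker θ' ≤ (RingHom.ker θ).map ι) {ι₁ : Λ₁ →+* L₁}
    (e : ∀ a, ι₁ (θ a) = θ' (ι a)) : Lc ι₁ q.primeCompl := by
  refine ⟨fun t ht => ?_, fun b => ?_, fun a ha => ?_⟩
  · obtain ⟨t, rfl⟩ := hθ t
    rw [e]
    exact (h.unit t ht).map θ'
  · obtain ⟨b, rfl⟩ := hθ' b
    obtain ⟨t, ht, a, e'⟩ := h.surj b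
    exact ⟨θ t, ht, θ a, by rw [e, e, ← map_mul, e']⟩
  · obtain ⟨a, rfl⟩ := hθ a
    rw [e] at ha
    obtain ⟨t, ht, a', h1, h2⟩ := h.mem_map (kθ ha)
    obtain ⟨t', ht', h3⟩ := h.ker (a * t - a') (by rw [map_sub, map_mul, h2, sub_self])
    refine ⟨θ (t' * t), (q.comap θ).primeCompl.mul_mem ht' ht, ?_⟩
    rw [← map_mul, show t' * t * a = t' * a' by linear_combination h3, map_mul,
      RingHom.mem_ker.1 h1, mul_zero]

theorem Lc.isField {ι : Λ →+* L} {q : Ideal Λ} [q.IsPrime] (h : Lc ι q.primeCompl) :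
    IsField (L ⧸ q.map ι) := by
  have := h.isLocalization
  algebraize [ι]
  have := IsLocalization.AtPrime.isLocalRing L q
  rw [← Ideal.Quotient.maximal_ideal_iff_isField_quotient]
  exact (IsLocalization.AtPrime.map_eq_maximalIdeal q L).symm ▸ inferInstance

theorem Lc.ann [IsNoetherianRing Λ] {ι : Λ →+* L} {T : Submonoid Λ} (h : Lc ι T) :
    ∃ s ∈ T, ∀ a, ι a = 0 → s * a = 0 := by
  classical
  obtain ⟨m, γ, hγ⟩ := exists_gen (RingHom.ker ι)
  choose t h1 h2 using fun j => h.ker (γ j) (RingHom.mem_ker.1 (hγ ▸ Ideal.subset_span ⟨j, rfl⟩))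
  refine ⟨∏ j, t j, T.prod_mem fun j _ => h1 j, fun a ha => ?_⟩
  obtain ⟨c, rfl⟩ := Ideal.mem_span_range_iff_exists_fun.1 (hγ ▸ RingHom.mem_ker.2 ha :)
  rw [Finset.mul_sum]
  refine Finset.sum_eq_zero fun j _ => ?_
  rw [← Finset.mul_prod_erase _ _ (Finset.mem_univ j)]
  linear_combination (∏ l ∈ Finset.univ.erase j, t l) * c j * h2 j

theorem LocRS.loc (h : LocRS Λ) {ι : Λ →+* L} {T : Submonoid Λ} (hι : Lc ι T) : LocRS L := by
  intro q' hq'
  obtain ⟨L', _, ι', d, h1, h2⟩ := h (q'.comap ι)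
  have hT : ∀ t ∈ T, t ∈ (q'.comap ι).primeCompl := fun t ht h =>
    hq'.ne_top (Ideal.eq_top_of_isUnit_mem _ h (hι.unit t ht))
  obtain ⟨ψ, hψ⟩ := hι.lift ι' fun t ht => h1.unit t (hT t ht)
  refine ⟨L', _, ψ, d, ⟨fun b hb => ?_, fun c => ?_, fun b hb => ?_⟩, ?_⟩
  · obtain ⟨t, ht, a, e⟩ := hι.surj b
    have h3 := h1.unit a fun h => (hq'.mem_or_mem (e ▸ Ideal.mem_comap.1 h :)).elim hb (hT t ht)
    rw [← hψ, ← e, map_mul] at h3
    exact isUnit_of_mul_isUnit_left h3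
  · obtain ⟨t, ht, a, e⟩ := h1.surj c
    exact ⟨ι t, ht, ι a, by rw [hψ, hψ, e]⟩
  · obtain ⟨t, ht, a, e⟩ := hι.surj b
    obtain ⟨s, hs, h3⟩ := h1.ker a (by rw [← hψ, ← e, map_mul, hb, zero_mul])
    refine ⟨ι s, hs, (hι.unit t ht).mul_left_eq_zero.1 ?_⟩
    rw [mul_assoc, e, ← map_mul, h3, map_zero]
  · rwa [show q'.map ψ = (q'.comap ι).map ι' from ?_]
    refine le_antisymm (Ideal.map_le_iff_le_comap.2 fun b hb => ?_)
      (Ideal.map_le_iff_le_comap.2 fun a ha => ?_)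
    · obtain ⟨t, ht, a, e⟩ := hι.surj b
      have h3 : ι' a ∈ (q'.comap ι).map ι' :=
        Ideal.mem_map_of_mem _ (show ι a ∈ q' from e ▸ q'.mul_mem_right _ hb)
      rw [← hψ, ← e, map_mul, hψ] at h3
      exact (Ideal.mul_unit_mem_iff_mem _ (h1.unit t (hT t ht))).1 h3
    · rw [Ideal.mem_comap, ← hψ]
      exact Ideal.mem_map_of_mem _ ha

theorem LocRS.of_bij (h : LocRS Λ) {θ : Λ →+* Λ₁} (hθ : Bijective θ) : LocRS Λ₁ :=
  h.loc (ι := θ) (T := ⊥) ⟨fun t ht => by simp [Submonoid.mem_bot.1 ht], fun b =>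
    let ⟨a, e⟩ := hθ.2 b
    ⟨1, one_mem _, a, by simp [e]⟩, fun a ha =>
    ⟨1, one_mem _, by simpa using hθ.1 (ha.trans (map_zero θ).symm)⟩⟩

theorem min_pow {I q : Ideal Λ} (hq : q ∈ I.minimalPrimes) :
    ∀ y ∈ q, ∃ s ∉ q, ∃ n : ℕ, s * y ^ n ∈ I := by
  intro y hy
  have := hq.1.1
  by_contra! H
  obtain ⟨p, h1, h2, h3⟩ := I.exists_le_prime_disjoint (q.primeCompl ⊔ Submonoid.powers y) (by
    rw [Set.disjoint_left]
    intro z hz hz'
    obtain ⟨s, hs, _, ⟨n, rfl⟩, rfl⟩ := Submonoid.mem_sup.1 hz'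
    exact H s hs n hz)
  rw [Set.disjoint_left] at h3
  have h4 : p ≤ q := fun z hz => by
    by_contra hz'
    exact h3 hz (Submonoid.mem_sup_left hz')
  exact h3 (hq.2 ⟨h1, h2⟩ h4 hy) (Submonoid.mem_sup_right (Submonoid.mem_powers y))

end Pool.Agent.Lib.MP_a37f0b_ag.Pop
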