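import Pool.Agent.Lib.MP_a37f0b_ag.Pop3

/-!
The desingularization lemma.
-/

open MvPolynomial Function

namespace Pool.Agent.Lib.MP_a37f0b_ag.Pop

variable {R A D Λ : Type} [CommRing R] [CommRing A] [CommRing D] [CommRing Λ] {σ : Type}

lemma ds_data [IsNoetherianRing R] [Fintype σ] {I : Ideal (MvPolynomial σ R)} {π : R}
    (hE : Elk I ⊥ (MvPolynomial.C π)) :
    ∃ (m : ℕ) (F : Fin m → MvPolynomial σ R) (S : σ → Fin m → MvPolynomial σ R)
      (M e : Fin m → Fin m → MvPolynomial σ R), Ideal.span (Set.range F) = I ∧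
      (∀ j l, M j l = ∑ i, pderiv i (F j) * S i l) ∧ (∀ j l, e j l ∈ I) ∧
      (∀ j, MvPolynomial.C π * F j - ∑ l, M j l * F l = ∑ l, e j l * F l) ∧
      ∀ j l, ∑ n, M j n * M n l - MvPolynomial.C π * M j l ∈ I := by
  classical
  obtain ⟨S₀, hS, hk⟩ := hE
  obtain ⟨m, F, hF⟩ := exists_gen I
  have hFI : ∀ j, F j ∈ I := fun j => hF.le (Ideal.subset_span ⟨j, rfl⟩)
  choose S hS' using fun i => Ideal.mem_span_range_iff_exists_fun.1 (hF.ge (hS i))
  have : ∀ j, ∃ e : Fin m → MvPolynomial σ R, (∀ l, e l ∈ I) ∧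
      MvPolynomial.C π * F j - ∑ i, pderiv i (F j) * S₀ i = ∑ l, e l * F l := fun j => by
    have ha := hk _ (hFI j)
    rw [sup_bot_eq, pow_two] at ha
    nth_rewrite 2 [← hF] at ha
    rw [← smul_eq_mul, ← Ideal.submodule_span_eq,
      Submodule.mem_ideal_smul_span_iff_exists_sum] at ha
    obtain ⟨c, hc, e⟩ := ha
    refine ⟨c, hc, ?_⟩
    rw [← e, Finsupp.sum_fintype _ _ (by simp)]
    simp
  choose e he1 he2 using this
  obtain ⟨M, hMd⟩ : ∃ M : Fin m → Fin m → MvPolynomial σ R,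
    ∀ j l, M j l = ∑ i, pderiv i (F j) * S i l := ⟨_, fun _ _ => rfl⟩
  have hM : ∀ j, MvPolynomial.C π * F j - ∑ l, M j l * F l = ∑ l, e j l * F l := fun j => by
    rw [← he2 j]
    simp only [hMd, ← hS', Finset.mul_sum, Finset.sum_mul, mul_assoc]
    rw [Finset.sum_comm]
  refine ⟨m, F, S, M, e, hF, hMd, he1, hM, fun j l => ?_⟩
  have h1 : ∀ k, ∑ n, M j n * pderiv k (F n) - MvPolynomial.C π * pderiv k (F j) ∈ I :=
    fun k => by
      have := congrArg (pderiv k) (hM j)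
      simp only [map_sub, map_sum, pderiv_mul, pderiv_C, zero_mul, zero_add,
        Finset.sum_add_distrib] at this
      have h2 : ∑ n, M j n * pderiv k (F n) - MvPolynomial.C π * pderiv k (F j) =
          -(∑ n, pderiv k (M j n) * F n + (∑ n, pderiv k (e j n) * F n +
            ∑ n, e j n * pderiv k (F n))) := by linear_combination -this
      rw [h2]
      exact I.neg_mem (I.add_mem (I.sum_mem fun n _ => I.mul_mem_left _ (hFI n))
        (I.add_mem (I.sum_mem fun n _ => I.mul_mem_left _ (hFI n))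
          (I.sum_mem fun n _ => I.mul_mem_right _ (he1 j n))))
  have h3 := I.sum_mem (t := Finset.univ) fun k _ => I.mul_mem_right (S k l) (h1 k)
  refine (congrArg (· ∈ I) ?_).mp h3
  simp only [hMd _ l, sub_mul, Finset.sum_sub_distrib, Finset.mul_sum, Finset.sum_mul, mul_assoc]
  rw [Finset.sum_comm]

lemma ds_nak {P τ : Type} [CommRing P] [Fintype τ] (w : P) (v F G : τ → P) (M e : τ → τ → P)
    (h1 : ∀ j, w ^ 3 * G j = F j + w ^ 3 * v j - w ^ 2 * ∑ l, M j l * v l)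
    (h2 : ∀ j, w * F j - ∑ l, M j l * F l = ∑ l, e j l * F l)
    (he : ∀ j l, e j l ∈ Ideal.span (Set.range F))
    (hW : ∀ j l, ∑ n, M j n * M n l - w * M j l ∈ Ideal.span (Set.range F)) :
    ∃ u, u - 1 ∈ Ideal.span {w} ∧ ∀ k ∈ Ideal.span (Set.range G) ⊔ Ideal.span (Set.range F),
      u * (w * k) ∈ Ideal.span (Set.range G) := by
  have h3 : ∀ x ∈ Ideal.span (Set.range F), w * x ∈ Ideal.span (Set.range fun j => w * F j) :=
    fun x hx => by
      obtain ⟨c, rfl⟩ := Ideal.mem_span_range_iff_exists_fun.1 hx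
      rw [Finset.mul_sum]
      exact Ideal.sum_mem _ fun j _ => by
        rw [mul_left_comm]; exact Ideal.mul_mem_left _ _ (Ideal.subset_span ⟨j, rfl⟩)
  have h4 : ∀ l, F l = w ^ 2 * (w * G l - w * v l + ∑ n, M l n * v n) := fun l => by
    linear_combination -h1 l
  obtain ⟨u, hu, h5⟩ := nak (I := Ideal.span {w}) (G := Ideal.span (Set.range G)) (s := 1)
    (n := fun j => w * F j) fun j => by
      have a1 : ∑ l, M j l * ∑ n, M l n * v n = ∑ n, (∑ l, M j l * M l n) * v n := by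
        simp only [Finset.mul_sum, Finset.sum_mul, mul_assoc]
        rw [Finset.sum_comm]
      have a2 : ∑ l, M j l * F l = w ^ 3 * ∑ l, M j l * G l - w ^ 3 * ∑ l, M j l * v l +
          w ^ 2 * ∑ l, M j l * ∑ n, M l n * v n := by
        simp only [Finset.mul_sum _ _ (w ^ _), ← Finset.sum_sub_distrib, ← Finset.sum_add_distrib]
        exact Finset.sum_congr rfl fun l _ => by rw [h4 l]; ring
      have a3 : ∑ n, v n * (w * (∑ l, M j l * M l n - w * M j n)) =
          w * ∑ n, (∑ l, M j l * M l n) * v n - w ^ 2 * ∑ l, M j l * v l := by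
        simp only [Finset.mul_sum _ _ w, Finset.mul_sum _ _ (w ^ _), ← Finset.sum_sub_distrib]
        exact Finset.sum_congr rfl fun l _ => by ring
      have a4 : ∑ l, e j l * F l =
          w * ∑ l, (w * G l - w * v l + ∑ n, M l n * v n) * (w * e j l) := by
        rw [Finset.mul_sum]
        exact Finset.sum_congr rfl fun l _ => by rw [h4 l]; ring
      have a5 : 1 * (w * F j) = w * (∑ n, v n * (w * (∑ l, M j l * M l n - w * M j n)) +
          ∑ l, (w * G l - w * v l + ∑ n, M l n * v n) * (w * e j l)) +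
          w ^ 3 * ∑ l, M j l * G l := by
        linear_combination h2 j + a2 + a4 + w ^ 2 * a1 - w * a3
      rw [a5]
      refine Submodule.add_mem_sup (Ideal.mul_mem_mul (Ideal.mem_span_singleton_self w)
        (Ideal.add_mem _ (Ideal.sum_mem _ fun n _ => Ideal.mul_mem_left _ _ (h3 _ (hW j n)))
          (Ideal.sum_mem _ fun n _ => Ideal.mul_mem_left _ _ (h3 _ (he j n))))) ?_
      exact Ideal.mul_mem_left _ _ (Ideal.sum_mem _ fun l _ =>
        Ideal.mul_mem_left _ _ (Ideal.subset_span ⟨l, rfl⟩))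
  refine ⟨u, by simpa using hu, fun k hk => ?_⟩
  obtain ⟨a, ha, b, hb, rfl⟩ := Submodule.mem_sup.1 hk
  rw [mul_add, mul_add]
  refine Ideal.add_mem _ (Ideal.mul_mem_left _ _ (Ideal.mul_mem_left _ _ ha)) ?_
  obtain ⟨c, hc⟩ := Ideal.mem_span_range_iff_exists_fun.1 (h3 b hb)
  rw [← hc, Finset.mul_sum]
  exact Ideal.sum_mem _ fun j _ => by
    rw [mul_left_comm]; exact Ideal.mul_mem_left _ _ (h5 j)

lemma ds_taylor {P τ : Type} [CommRing P] [Fintype σ] [Fintype τ] (c : R →+* P) (w : P)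
    (x t ξ : σ → P) (v : τ → P) (S : σ → τ → MvPolynomial σ R) (F : MvPolynomial σ R)
    (M : τ → MvPolynomial σ R) (hM : ∀ l, M l = ∑ i, pderiv i F * S i l)
    (hξ : ∀ i, ξ i = x i + w ^ 2 * ∑ l, ev c x (S i l) * v l + w ^ 3 * t i)
    (hF : ev c x F ∈ Ideal.span {w ^ 4}) :
    ∃ H, ev c ξ F - w ^ 2 * ∑ l, ev c ξ (M l) * v l - w ^ 3 * ∑ i, ev c x (pderiv i F) * t i =
      w ^ 4 * H := by
  obtain ⟨δ, hδ⟩ : ∃ δ : σ → P, ∀ i, δ i = w ^ 2 * (∑ l, ev c x (S i l) * v l + w * t i) :=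
    ⟨_, fun _ => rfl⟩
  obtain rfl : ξ = fun i => x i + δ i := funext fun i => by rw [hξ, hδ]; ring
  have a1 : ∀ i, δ i ∈ Ideal.span {w ^ 2} := fun i =>
    hδ i ▸ Ideal.mul_mem_right _ _ (Ideal.mem_span_singleton_self _)
  have a2 : Ideal.span (Set.range δ) ^ 2 ≤ Ideal.span {w ^ 4} := by
    refine (Ideal.pow_right_mono (Ideal.span_le.2 ?_ : _ ≤ Ideal.span {w ^ 2}) 2).trans ?_
    · rintro _ ⟨i, rfl⟩; exact a1 i
    · rw [Ideal.span_singleton_pow, ← pow_mul]
  obtain ⟨H1, e1⟩ := Ideal.mem_span_singleton'.1 (a2 (taylor c x δ F))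
  obtain ⟨H2, e2⟩ := Ideal.mem_span_singleton'.1 hF
  choose H3 e3 using fun l => Ideal.mem_span_singleton'.1
    (taylor0 c (fun i => x i + δ i) x (I := Ideal.span {w ^ 2}) (fun i => by simpa using a1 i) (M l))
  have a3 : ∑ i, ev c x (pderiv i F) * δ i = w ^ 2 * ∑ l, ev c x (M l) * v l +
      w ^ 3 * ∑ i, ev c x (pderiv i F) * t i := by
    have : ∑ l, ev c x (M l) * v l = ∑ i, ev c x (pderiv i F) * ∑ l, ev c x (S i l) * v l := by
      simp only [hM, map_sum, map_mul, Finset.mul_sum, Finset.sum_mul, mul_assoc]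
      rw [Finset.sum_comm]
    rw [this]
    simp only [Finset.mul_sum _ _ (w ^ _), ← Finset.sum_add_distrib]
    exact Finset.sum_congr rfl fun i _ => by rw [hδ]; ring
  have a4 : ∑ l, ev c (fun i => x i + δ i) (M l) * v l =
      ∑ l, ev c x (M l) * v l + w ^ 2 * ∑ l, H3 l * v l := by
    rw [Finset.mul_sum, ← Finset.sum_add_distrib]
    exact Finset.sum_congr rfl fun l _ => by linear_combination -(e3 l) * v l
  exact ⟨H1 + H2 - ∑ l, H3 l * v l, by linear_combination -e1 - e2 + a3 - w ^ 2 * a4⟩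

theorem desing [IsNoetherianRing R] [Fintype σ] {β : R →+* Λ} {π : R}
    (hπ : ∀ r, π * r = 0 → r = 0) (hΛ : ∀ μ, β π ^ 4 * μ = 0 → β π * μ = 0)
    {f : R →+* A} {p : MvPolynomial σ R →+* A} (hp : Surjective p)
    (hf : ∀ r, p (MvPolynomial.C r) = f r) (hE : Elk (RingHom.ker p) ⊥ (MvPolynomial.C π))
    {φ : A →+* Λ} (hφ : ∀ r, φ (f r) = β r) {f₀ : R →+* D} (hD : f₀.FiniteType) {δ : D →+* Λ}
    (hδ : ∀ r, δ (f₀ r) = β r) (d : σ → D)
    (h1 : ∀ F, p F = 0 → ev f₀ d F ∈ Ideal.span {f₀ π ^ 4})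
    (h2 : ∀ i, φ (p (X i)) - δ (d i) ∈ Ideal.span {β π ^ 4}) (h3 : SmOn f₀ {f₀ π}) :
    ∃ (B : Type) (_ : CommRing B) (h : A →+* B) (ψ : B →+* Λ), (h.comp f).FiniteType ∧
      (∀ a, ψ (h a) = φ a) ∧ SmOn (h.comp f) {h (f π)} ∧ ∀ q : Ideal Λ, q.IsPrime → β π ∈ q →
        SmAt f₀ (q.comap δ) → SmAt (h.comp f) (q.comap ψ) := by
  classical
  obtain ⟨m, F, S, M, e, hF, hM, he, hrel, hW⟩ := ds_data hE
  have hpF : ∀ j, p (F j) = 0 := fun j => hF.le (Ideal.subset_span ⟨j, rfl⟩)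
  obtain ⟨c, hc⟩ : ∃ c : R →+* MvPolynomial (Fin m ⊕ σ) D, ∀ r, c r = MvPolynomial.C (f₀ r) :=
    ⟨MvPolynomial.C.comp f₀, fun _ => rfl⟩
  have hcd : ∀ k, ev c (fun i => MvPolynomial.C (d i)) k = MvPolynomial.C (ev f₀ d k) := fun k =>
    (map_ev' (fun r => (hc r).symm) (fun _ => rfl) k).symm
  obtain ⟨ξ, hξ⟩ : ∃ ξ : σ → MvPolynomial (Fin m ⊕ σ) D, ∀ i, ξ i = MvPolynomial.C (d i) +
      c π ^ 2 * ∑ l, MvPolynomial.C (ev f₀ d (S i l)) * X (.inl l) + c π ^ 3 * X (.inr i) :=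
    ⟨_, fun _ => rfl⟩
  choose H hH using fun j => ds_taylor c (c π) (fun i => MvPolynomial.C (d i))
    (fun i => X (.inr i)) ξ (fun l => X (.inl l)) S (F j) (M j) (hM j) (by simpa [hcd] using hξ)
    (by
      obtain ⟨a, ha⟩ := Ideal.mem_span_singleton'.1 (h1 _ (hpF j))
      rw [hcd, ← ha, map_mul, map_pow, ← hc]
      exact Ideal.mul_mem_left _ _ (Ideal.mem_span_singleton_self _))
  simp only [hcd] at hH
  obtain ⟨G, hG⟩ : ∃ G : Fin m → MvPolynomial (Fin m ⊕ σ) D, ∀ j, G j = X (.inl j) +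
      ∑ i, MvPolynomial.C (ev f₀ d (pderiv i (F j))) * X (.inr i) + c π * H j := ⟨_, fun _ => rfl⟩
  have hG3 : ∀ j, c π ^ 3 * G j = ev c ξ (F j) + c π ^ 3 * X (.inl j) -
      c π ^ 2 * ∑ l, ev c ξ (M j l) * X (.inl l) := fun j => by
    rw [hG]; linear_combination -hH j
  have hI : ∀ k, p k = 0 → ev c ξ k ∈ Ideal.span (Set.range fun j => ev c ξ (F j)) := fun k hk => by
    obtain ⟨a, rfl⟩ := Ideal.mem_span_range_iff_exists_fun.1 (hF.ge hk)
    rw [map_sum]
    exact Ideal.sum_mem _ fun j _ => by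
      rw [map_mul]; exact Ideal.mul_mem_left _ _ (Ideal.subset_span ⟨j, rfl⟩)
  obtain ⟨K, hK⟩ : ∃ K, K = Ideal.span (Set.range G) ⊔
    Ideal.span (Set.range fun j => ev c ξ (F j)) := ⟨_, rfl⟩
  have hKle : ∀ {C' : Type} [CommRing C'] (E : MvPolynomial (Fin m ⊕ σ) D →+* C'),
      (∀ j, E (G j) = 0) → (∀ j, E (ev c ξ (F j)) = 0) → ∀ k, Ideal.Quotient.mk K k = 0 →
        E k = 0 := fun E a1 a2 k hk => by
    rw [Ideal.Quotient.eq_zero_iff_mem, hK] at hk
    exact (sup_le (Ideal.span_le.2 (by rintro _ ⟨j, rfl⟩; exact a1 j))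
      (Ideal.span_le.2 (by rintro _ ⟨j, rfl⟩; exact a2 j)) : _ ≤ RingHom.ker E) hk
  have hKG : ∀ j, Ideal.Quotient.mk K (G j) = 0 := fun j => Ideal.Quotient.eq_zero_iff_mem.2
    (hK ▸ Ideal.mem_sup_left (Ideal.subset_span ⟨j, rfl⟩))
  have hKF : ∀ k, p k = 0 → Ideal.Quotient.mk K (ev c ξ k) = 0 := fun k hk =>
    Ideal.Quotient.eq_zero_iff_mem.2 (hK ▸ Ideal.mem_sup_right (hI k hk))
  obtain ⟨h, hh⟩ := exists_lift hp ((Ideal.Quotient.mk K).comp (ev c ξ)) hKF
  simp only [RingHom.comp_apply] at hh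
  have hb : ∀ r, (((Ideal.Quotient.mk K).comp MvPolynomial.C).comp f₀) r = (h.comp f) r :=
    fun r => by simp [← hf, hh, hc]
  choose lam hlam using fun i => Ideal.mem_span_singleton'.1 (h2 i)
  obtain ⟨E, hEC, hEv, hEt⟩ : ∃ E : MvPolynomial (Fin m ⊕ σ) D →+* Λ,
      (∀ r, E (MvPolynomial.C r) = δ r) ∧ (∀ l, E (X (.inl l)) = 0) ∧
        ∀ i, E (X (.inr i)) = β π * lam i :=
    ⟨ev δ (Sum.elim 0 fun i => β π * lam i), by simp, by simp, by simp⟩
  have hEc : ∀ r, E (c r) = β r := fun r => by rw [hc, hEC, hδ]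
  have hEξ : ∀ k, E (ev c ξ k) = φ (p k) := fun k =>
    (map_ev' hEc (y := fun i => φ (p (X i))) (fun i => by
      simp only [hξ, map_add, map_mul, map_pow, map_sum, hEC, hEv, hEt, hEc, mul_zero,
        Finset.sum_const_zero]
      linear_combination hlam i) k).trans (ev_eq (φ.comp p) (by simp [hf, hφ]) (fun _ => rfl) k)
  have hEG : ∀ j, E (G j) = 0 := fun j => by
    have a1 : E (G j) = β π * (∑ i, δ (ev f₀ d (pderiv i (F j))) * lam i + E (H j)) := by
      simp only [hG, map_add, map_mul, map_sum, hEC, hEv, hEt, hEc, zero_add, mul_add,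
        Finset.mul_sum, mul_left_comm]
    have a2 := congrArg E (hG3 j)
    simp only [map_add, map_sub, map_mul, map_pow, map_sum, hEv, hEc, hEξ, hpF, mul_zero,
      Finset.sum_const_zero, map_zero] at a2
    rw [a1] at a2 ⊢
    exact hΛ _ (by linear_combination a2)
  obtain ⟨ψ, hψ⟩ := exists_lift Ideal.Quotient.mk_surjective E
    (hKle E hEG fun j => by rw [hEξ, hpF, map_zero])
  refine ⟨_, inferInstance, h, ψ, ft_congr ((ft_quot K).comp hD) hb,
    hp.forall.2 fun k => by rw [hh, hψ, hEξ], ?_, fun q hq hπq hsm => ?_⟩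
  · refine SmOn.congr (h3.comp (smOn_of_pres Ideal.Quotient.mk_surjective (fun _ => rfl)
      fun B' C' _ _ g hg β' y a1 a2 => ?_) fun C' _ φ' H t ht => H _ ?_) hb
    · obtain ⟨Y, hYC, hYX, hY⟩ : ∃ Y : MvPolynomial (Fin m ⊕ σ) D →+* C',
          (∀ r, Y (MvPolynomial.C r) = g (β' r)) ∧ (∀ i, Y (X i) = y i) ∧
            Y = ev (g.comp β') y := ⟨_, by simp, by simp, rfl⟩
      rw [← hY] at a1 a2
      have hYc : ∀ r, Y (c r) = g (β' (f₀ r)) := fun r => by rw [hc, hYC]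
      have b1 : IsUnit (g (β' (f₀ π))) := hYc π ▸ a2 (c π) (by simp [← hf, hh])
      obtain ⟨u, hu⟩ := (hg.unit b1).exists_left_inv
      have hu' := congrArg g hu
      rw [map_mul, map_one] at hu'
      obtain ⟨χ, hχ⟩ := exists_lift hp (Y.comp (ev c ξ)) fun k hk => a1 _ (hKF k hk)
      simp only [RingHom.comp_apply] at hχ
      obtain ⟨a, ha, ha'⟩ := hE.smOn hp hf B' C' g hg (β'.comp f₀) χ
        (fun r => by simp [← hf, hχ, hYc]) (by
          rintro _ rfl
          rwa [hχ, ev_C, hYc])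
      simp only [RingHom.comp_apply] at ha
      choose v hv using fun l => hg.surj (y (.inl l))
      obtain ⟨v', hv'⟩ : ∃ v' : Fin m → B', ∀ j, v' j = u * ∑ l, a (p (M j l)) * v l :=
        ⟨_, fun _ => rfl⟩
      have b2 : ∀ j, g (v' j) = y (.inl j) := fun j => by
        have b3 := congrArg Y (hG3 j)
        simp only [map_add, map_sub, map_mul, map_pow, map_sum, hYX, hYc, a1 _ (hKG j),
          a1 _ (hKF _ (hpF j))] at b3
        simp only [hv', map_mul, map_sum, ha', hχ, hv]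
        refine (b1.pow 3).mul_left_cancel ?_
        linear_combination b3 + (g (β' (f₀ π)) ^ 2 * ∑ l, Y (ev c ξ (M j l)) * y (.inl l)) * hu'
      have hu3 : u ^ 3 * β' (f₀ π) ^ 3 = 1 := by rw [← mul_pow, hu, one_pow]
      obtain ⟨t', ht'⟩ : ∃ t' : σ → B', ∀ i, t' i = u ^ 3 * (a (p (X i)) - β' (d i) -
          β' (f₀ π) ^ 2 * ∑ l, β' (ev f₀ d (S i l)) * v' l) := ⟨_, fun _ => rfl⟩
      have b4 : ∀ i, g (t' i) = y (.inr i) := fun i => by
        have hu4 := congrArg g hu3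
        simp only [map_mul, map_pow, map_one] at hu4
        simp only [ht', map_mul, map_sub, map_pow, map_sum, ha', hχ, ev_X, hξ, map_add, hYC, hYc,
          hYX, b2]
        linear_combination y (.inr i) * hu4
      obtain ⟨Z, hZC, hZv, hZt, hZ⟩ : ∃ Z : MvPolynomial (Fin m ⊕ σ) D →+* B',
          (∀ r, Z (MvPolynomial.C r) = β' r) ∧ (∀ l, Z (X (.inl l)) = v' l) ∧
            (∀ i, Z (X (.inr i)) = t' i) ∧ ev β' (Sum.elim v' t') = Z :=
        ⟨_, by simp, by simp, by simp, rfl⟩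
      have hZc : ∀ r, Z (c r) = β' (f₀ r) := fun r => by rw [hc, hZC]
      have hZξ : ∀ k, Z (ev c ξ k) = a (p k) := fun k =>
        (map_ev' (β' := β'.comp f₀) hZc (y := fun i => a (p (X i))) (fun i => by
          simp only [hξ, map_add, map_mul, map_pow, map_sum, hZC, hZv, hZt, hZc, ht']
          linear_combination (a (p (X i)) - β' (d i) -
            β' (f₀ π) ^ 2 * ∑ l, β' (ev f₀ d (S i l)) * v' l) * hu3) k).trans
          (ev_eq (a.comp p) (by simp [hf, ha]) (fun _ => rfl) k)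
      refine ⟨Sum.elim v' t', by rintro (l | i); exacts [b2 l, b4 i], ?_⟩
      rw [hZ]
      refine hKle Z (fun j => ?_) fun j => by rw [hZξ, hpF, map_zero]
      have b5 := congrArg Z (hG3 j)
      simp only [map_add, map_sub, map_mul, map_pow, map_sum, hZv, hZc, hZξ, hpF, map_zero] at b5
      have b6 : ∀ l, ∑ n, a (p (M j n)) * a (p (M n l)) = β' (f₀ π) * a (p (M j l)) := fun l => by
        have := congrArg a (show p _ = 0 from hW j l)
        simp only [map_sub, map_mul, map_sum, hf, ha, map_zero] at this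
        linear_combination this
      have b7 : ∑ l, a (p (M j l)) * v' l =
          u * ∑ n, (∑ l, a (p (M j l)) * a (p (M l n))) * v n := by
        simp only [hv', Finset.mul_sum, Finset.sum_mul]
        rw [Finset.sum_comm]
        exact Finset.sum_congr rfl fun _ _ => Finset.sum_congr rfl fun _ _ => by ring
      simp only [b6, mul_assoc, ← Finset.mul_sum] at b7
      rw [← ((hg.unit b1).pow 3).mul_right_eq_zero]
      linear_combination b5 - β' (f₀ π) ^ 2 * b7 + β' (f₀ π) ^ 3 * hv' j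
    · rw [Set.mem_singleton_iff.1 ht]
      exact hb π
  · have : (q.comap ψ).IsPrime := Ideal.comap_isPrime ψ q
    refine SmAt.congr (jc_nz hD Ideal.Quotient.mk_surjective (fun _ => rfl) (q := q.comap ψ)
      ?_ G hKG (fun l => pderiv (.inl l)) (s := 1) ?_ (fun j l => ?_) hπ fun k hk => ?_) hb
    · have : (q.comap ψ).comap ((Ideal.Quotient.mk K).comp MvPolynomial.C) = q.comap δ :=
        Ideal.ext fun r => by simp [hψ, hEC]
      rwa [this]
    · simpa using q.ne_top_iff_one.1 hq.ne_top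
    · have : pderiv (.inl l) (G j) - (if j = l then 1 else 0) =
          c π * pderiv (.inl l) (H j) := by
        simp [hG, hc, pderiv_X, Pi.single_apply, eq_comm]
      rw [Ideal.mem_comap, hψ, this, map_mul, hEc]
      exact q.mul_mem_right _ hπq
    · obtain ⟨u, hu, hu'⟩ := ds_nak (c π) (fun l => X (.inl l)) (fun j => ev c ξ (F j)) G
        (fun j l => ev c ξ (M j l)) (fun j l => ev c ξ (e j l)) hG3
        (fun j => by simpa using congrArg (ev c ξ) (hrel j)) (fun j l => hI _ (he j l))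
        fun j l => by simpa using hI _ (hW j l)
      refine ⟨u, fun hq' => ?_, hc π ▸ hu' k (hK ▸ Ideal.Quotient.eq_zero_iff_mem.1 hk)⟩
      obtain ⟨z, hz⟩ := Ideal.mem_span_singleton'.1 hu
      rw [Ideal.mem_comap, hψ] at hq'
      have := congrArg E hz
      rw [map_mul, map_sub, map_one, hEc] at this
      have := q.sub_mem hq' (this ▸ q.mul_mem_left (E z) hπq)
      exact q.ne_top_iff_one.1 hq.ne_top (by simpa using this)

end Pool.Agent.Lib.MP_a37f0b_ag.Pop
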