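import Pool.Agent.Lib.MP_a37f0b_ag.Pop3

/-!
Delocalization in height zero.
-/

open MvPolynomial Function

namespace Pool.Agent.Lib.MP_a37f0b_ag.Pop

variable {R A B Λ : Type} [CommRing R] [CommRing A] [CommRing B] [CommRing Λ]

/-- The universal algebra with `F j (x) = ∑ i, Y i * t i j` and `z * Y i = 0`. -/
lemma hz_univ {N m : ℕ} (r : ℕ) (F : Fin m → MvPolynomial (Fin N) A) :
    ∃ (B' : Type) (_ : CommRing B') (h' : A →+* B') (x : Fin N → B') (Y : Fin r → B') (z : B')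
      (t : Fin r → Fin m → B'), h'.FiniteType ∧ (∀ j, ev h' x (F j) = ∑ i, Y i * t i j) ∧
      (∀ i, z * Y i = 0) ∧
      (∀ (D : Type) [CommRing D] (β : A →+* D) (x' : Fin N → D) (Y' : Fin r → D) (z' : D)
        (t' : Fin r → Fin m → D), (∀ j, ev β x' (F j) = ∑ i, Y' i * t' i j) →
        (∀ i, z' * Y' i = 0) → ∃ χ : B' →+* D, (∀ a, χ (h' a) = β a) ∧ (∀ i, χ (x i) = x' i) ∧
          (∀ i, χ (Y i) = Y' i) ∧ χ z = z' ∧ ∀ i j, χ (t i j) = t' i j) ∧
      ∀ (D : Type) [CommRing D] (χ χ' : B' →+* D), (∀ a, χ (h' a) = χ' (h' a)) →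
        (∀ i, χ (x i) = χ' (x i)) → (∀ i, χ (Y i) = χ' (Y i)) → χ z = χ' z →
        (∀ i j, χ (t i j) = χ' (t i j)) → ∀ b, χ b = χ' b := by
  let γ : Fin m ⊕ Fin r → MvPolynomial ((Fin N ⊕ Fin r) ⊕ Option (Fin r × Fin m)) A := Sum.elim
    (fun j => ev C (fun i => X (.inl (.inl i))) (F j) -
      ∑ i, X (.inl (.inr i)) * X (.inr (some (i, j)))) fun i => X (.inr none) * X (.inl (.inr i))
  let π := Ideal.Quotient.mk (Ideal.span (Set.range γ))
  have hγ : ∀ j, π (γ j) = 0 := fun j =>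
    Ideal.Quotient.eq_zero_iff_mem.2 (Ideal.subset_span ⟨j, rfl⟩)
  refine ⟨_, inferInstance, π.comp C, fun i => π (X (.inl (.inl i))),
    fun i => π (X (.inl (.inr i))), π (X (.inr none)), fun i j => π (X (.inr (some (i, j)))),
    ft_quot _, fun j => ?_, fun i => ?_, fun D _ β x' Y' z' t' h1 h2 => ?_,
    fun D _ χ χ' h1 h2 h3 h4 h5 b => ?_⟩
  · simpa only [γ, Sum.elim_inl, map_sub, map_sum, map_mul, map_ev, sub_eq_zero] using hγ (.inl j)
  · simpa only [γ, Sum.elim_inr, map_mul] using hγ (.inr i)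
  · let E := ev β (Sum.elim (Sum.elim x' Y')
      fun o : Option (Fin r × Fin m) => o.elim z' fun k => t' k.1 k.2)
    have hE : Ideal.span (Set.range γ) ≤ RingHom.ker E := Ideal.span_le.2 (by
      rintro _ ⟨j | i, rfl⟩
      · have := map_ev' (g := E) (β := C) (x := fun i => X (.inl (.inl i))) (β' := β) (y := x')
          (by simp [E]) (by simp [E]) (F j)
        change E _ = 0
        simp only [γ, Sum.elim_inl, map_sub, map_sum, map_mul, this, h1]
        simp [E]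
      · change E _ = 0
        simpa [γ, E] using h2 i)
    obtain ⟨χ, hχ⟩ := exists_lift (p := π) Ideal.Quotient.mk_surjective E
      fun k hk => hE (Ideal.Quotient.eq_zero_iff_mem.1 hk)
    exact ⟨χ, fun a => by simp [hχ, E], fun i => by simp [hχ, E], fun i => by simp [hχ, E],
      by simp [hχ, E], fun i j => by simp [hχ, E]⟩
  · obtain ⟨G, rfl⟩ := Ideal.Quotient.mk_surjective b
    refine congr($(MvPolynomial.ringHom_ext (f := χ.comp π) (g := χ'.comp π) h1 ?_) G)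
    rintro ((i | i) | _ | ⟨i, j⟩)
    exacts [h2 i, h3 i, h4, h5 i j]

theorem height_zero [IsNoetherianRing R] {f : R →+* A} (hf : f.FiniteType) {φ : A →+* Λ}
    {q : Ideal Λ} [q.IsPrime] (hq : ∀ y ∈ q, ∃ s ∉ q, ∃ n : ℕ, s * y ^ n = 0) {h : A →+* B}
    {ψ : B →+* Λ} (hB : (h.comp f).FiniteType) (e : ∀ a, ψ (h a) = φ a)
    (hs : SmAt (h.comp f) (q.comap ψ)) : Res f φ q := by
  classical
  by_cases hA : SmAt f (q.comap φ)
  · exact ⟨A, inferInstance, RingHom.id A, φ, hf, fun _ => rfl, hA, fun _ _ h => h⟩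
  obtain ⟨r, a, -, ha1, ha2⟩ := exists_gen_Hs hf
  choose s hs1 n hn using fun i => hq (φ (a i)) (by_contra fun H => hA ((ha1 i).smAt H))
  have hl : ∏ i, s i ∉ q := q.primeCompl.prod_mem fun i _ => hs1 i
  obtain ⟨s0, hs0, hs0'⟩ := hs.exists_single hB
  obtain ⟨N, p, hp, hpC⟩ := exists_pres (RingHom.FiniteType.of_comp_finiteType hB)
  obtain ⟨s', rfl⟩ := hp s0
  have := noeth_of_ft hf
  obtain ⟨m, F, hF⟩ := exists_gen (RingHom.ker p)
  have hF0 : ∀ j, p (F j) = 0 := fun j => hF.le (Ideal.subset_span ⟨j, rfl⟩)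
  obtain ⟨B', _, h', x, Y, z, t, hft, r1, r2, univ, ext⟩ := hz_univ r F
  have e1 := ev_eq (ψ.comp p) (β := φ) (x := fun i => ψ (p (X i)))
    (fun a => by simp [hpC, e]) fun _ => rfl
  obtain ⟨ψ', c1, c2, c3, c4, -⟩ := univ Λ φ (fun i => ψ (p (X i))) (fun i => φ (a i) ^ n i)
    (∏ i, s i) (fun _ _ => 0) (fun j => by simp [e1, hF0]) fun i => by
      rw [← Finset.prod_erase_mul _ _ (Finset.mem_univ i), mul_assoc, hn, mul_zero]
  have k1 : SmOn (h'.comp f) {z * ev h' x s'} := fun B₁ C₁ _ _ g hg β φ₁ h1 h2 => by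
    obtain ⟨u1, u2⟩ := IsUnit.mul_iff.1 (map_mul φ₁ _ _ ▸ h2 _ rfl)
    have hY : ∀ i, φ₁ (Y i) = 0 := fun i => by
      rw [← u1.mul_right_eq_zero, ← map_mul, r2, map_zero]
    obtain ⟨ω, hω⟩ := exists_lift hp (φ₁.comp (ev h' x)) fun k hk =>
      (Ideal.span_le.2 (by
        rintro _ ⟨j, rfl⟩
        change φ₁ (ev h' x (F j)) = 0
        simp [r1, hY]) : Ideal.span (Set.range F) ≤ RingHom.ker (φ₁.comp (ev h' x))) (hF.ge hk)
    have hωh : ∀ a, ω (h a) = φ₁ (h' a) := fun a => by rw [← hpC, hω]; simp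
    obtain ⟨χ, d1, d2⟩ := hs0' B₁ C₁ g hg β ω (fun r => (hωh _).trans (h1 r))
      (by rintro _ rfl; rw [hω]; exact u2)
    obtain ⟨z', hz'⟩ := hg.surj (φ₁ z)
    choose t' ht' using fun i j => hg.surj (φ₁ (t i j))
    obtain ⟨χ', b1, b2, b3, b4, b5⟩ := univ B₁ (χ.comp h) (fun i => χ (p (X i))) (fun _ => 0) z' t'
      (fun j => by
        rw [ev_eq (χ.comp p) (β := χ.comp h) (x := fun i => χ (p (X i)))
          (fun a => by simp [hpC]) fun _ => rfl]
        simp [hF0]) fun _ => mul_zero _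
    exact ⟨χ', fun r => (b1 _).trans (d1 r), ext C₁ (g.comp χ') φ₁
      (fun a => by simp [b1, d2, hωh]) (fun i => by simp [b2, d2, hω])
      (fun i => by simp [b3, hY]) (by simp [b4, hz']) fun i j => by simp [b5, ht']⟩
  have k2 : ∀ l, SmOn h' {Y l} := fun l B₁ C₁ _ _ g hg β φ₁ h1 h2 => by
    have hz : φ₁ z = 0 := by rw [← (h2 _ rfl).mul_left_eq_zero, ← map_mul, r2, map_zero]
    choose x' hx' using fun i => hg.surj (φ₁ (x i))
    choose Y' hY' using fun i => hg.surj (φ₁ (Y i))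
    choose t' ht' using fun i j => hg.surj (φ₁ (t i j))
    obtain ⟨w, hw⟩ := (hg.unit (hY' l ▸ h2 _ rfl)).exists_right_inv
    have hδ : ∀ j, g (ev β x' (F j) - ∑ i, Y' i * t' i j) = 0 := fun j => by
      rw [map_sub, map_ev' (β' := φ₁.comp h') (y := fun i => φ₁ (x i)) (fun a => (h1 a).symm) hx',
        ← map_ev, r1]
      simp [hY', ht']
    obtain ⟨χ', b1, b2, b3, b4, b5⟩ := univ B₁ β x' Y' 0 (fun i j => t' i j +
      if i = l then w * (ev β x' (F j) - ∑ i, Y' i * t' i j) else 0) (fun j => by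
        simp only [mul_add, Finset.sum_add_distrib, mul_ite, mul_zero, Finset.sum_ite_eq',
          Finset.mem_univ, if_true, ← mul_assoc, hw]
        ring) fun _ => zero_mul _
    exact ⟨χ', b1, ext C₁ (g.comp χ') φ₁ (fun a => by simp [b1, h1]) (fun i => by simp [b2, hx'])
      (fun i => by simp [b3, hY']) (by simp [b4, hz]) fun i j => by
        rw [RingHom.comp_apply, b5, map_add, ht']
        split_ifs
        · rw [map_mul, hδ, mul_zero, add_zero]
        · rw [map_zero, add_zero]⟩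
  refine ⟨B', inferInstance, h', ψ', hft.comp hf, c1, k1.smAt fun H => ?_, fun r hr H => ?_⟩
  · rw [Ideal.mem_comap, map_mul, c4, map_ev' c1 c2, e1] at H
    exact (Ideal.IsPrime.mem_or_mem ‹_› H).elim hl hs0
  · obtain ⟨j, hj⟩ := ha2 _ (hr.comap φ) H
    refine SmAt.comp ?_ ((k2 j).smAt fun H => hj (hr.mem_of_pow_mem (n j) ?_))
    · rwa [Ideal.comap_comap, (RingHom.ext c1 : ψ'.comp h' = φ)]
    · rwa [Ideal.mem_comap, c3] at H

end Pool.Agent.Lib.MP_a37f0b_ag.Pop
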