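import Pool.Agent.Lib.MP_a37f0b_ag.Pop3

/-!
The lifting lemma.
-/

open MvPolynomial Function

namespace Pool.Agent.Lib.MP_a37f0b_ag.Pop

variable {R R₀ Λ Λ₀ C₀ : Type} [CommRing R] [CommRing R₀] [CommRing Λ] [CommRing Λ₀] [CommRing C₀]
  {σ : Type}

lemma lf_chain [Fintype σ] {τ : Type} (x : σ → MvPolynomial τ R)
    (D : Derivation R (MvPolynomial τ R) (MvPolynomial τ R)) (F : MvPolynomial σ R) :
    D (ev C x F) = ∑ i, ev C x (pderiv i F) * D (x i) := by
  classical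
  induction F using MvPolynomial.induction_on with
  | C a => simp
  | add p q hp hq => simp [hp, hq, add_mul, Finset.sum_add_distrib]
  | mul_X p j hp =>
    simp only [map_mul, ev_X, Derivation.leibniz, smul_eq_mul, hp, map_add, add_mul,
      Finset.sum_add_distrib, pderiv_X, Finset.mul_sum]
    congr 1
    · rw [Finset.sum_eq_single j] <;> simp +contextual [eq_comm]
    · exact Finset.sum_congr rfl fun i _ => by ring

section
variable {B τ : Type} [CommRing B] [Fintype τ] [DecidableEq τ]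

open Matrix

lemma lf_mat {r M : Matrix τ τ B} {s : B} (h : r * M = 0 ∧ M + r = s • 1) (N : Matrix τ τ B) :
    r * r - s • r = 0 ∧ s • M + r * (r * N + r - s • N) = s ^ 2 • (1 : Matrix τ τ B) := by
  have h3 : r * r = s • r := by simpa [mul_add, h.1] using congrArg (r * ·) h.2
  refine ⟨sub_eq_zero.2 h3, ?_⟩
  rw [mul_sub, mul_add, ← mul_assoc, h3, smul_mul_assoc, mul_smul_comm, pow_two, mul_smul, ← h.2,
    smul_add]
  abel

omit [DecidableEq τ] in
lemma lf_gen {r : Matrix τ τ B} {s w : B} {z d y : τ → B} (h1 : r *ᵥ y = d)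
    (h2 : w • y = -(r *ᵥ d)) (h3 : ∀ l, w * d l = 0) (h4 : ∀ n l, y n * d l = 0)
    (h5 : ∀ n l, d n * d l = 0)
    (hW : ∀ j l x, (∀ k, (w * z k - d k) * x = 0) → (r * r - s • r) j l * x = 0) (j : τ) :
    s ^ 2 * d j = 0 := by
  have a1 : (r * r) *ᵥ d = 0 := by
    rw [← mulVec_mulVec, ← neg_eq_zero, ← mulVec_neg, ← h2, mulVec_smul, h1]
    exact funext h3
  have a2 : (r * r - s • r) *ᵥ d = 0 := funext fun j => Finset.sum_eq_zero fun l _ =>
    hW j l _ fun k => by linear_combination z k * h3 l - h5 k l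
  rw [sub_mulVec, a1, zero_sub, neg_eq_zero, smul_mulVec] at a2
  have a3 : s * ((r * r - s • r) *ᵥ y) j = 0 := by
    rw [mulVec, dotProduct, Finset.mul_sum]
    refine Finset.sum_eq_zero fun n _ => (mul_left_comm _ _ _).trans (hW j n _ fun k => ?_)
    have b1 : w * y n = -(r *ᵥ d) n := congrFun h2 n
    have b2 : s * (r *ᵥ d) n = 0 := congrFun a2 n
    linear_combination z k * s * b1 - z k * b2 - s * h4 n k
  rw [sub_mulVec, ← mulVec_mulVec, smul_mulVec, h1] at a3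
  have b2 : s * (r *ᵥ d) j = 0 := congrFun a2 j
  have b3 : s * ((r *ᵥ d) j - s * d j) = 0 := a3
  linear_combination b2 - b3

lemma lf_rho [Fintype σ] {f : τ → MvPolynomial σ R} {a : R} {s : MvPolynomial σ R}
    (ha : C a ∈ Ideal.span (Set.range f))
    (h : Elk (Ideal.span (Set.range f)) ((Ideal.span {a}).map C) s) :
    ∃ (S : σ → τ → MvPolynomial σ R) (r : Matrix τ τ (MvPolynomial σ R))
      (g : τ → MvPolynomial σ R), (∀ j, ∑ l, r j l * f l = C a * g j) ∧
      ∀ (B : Type) [CommRing B] (ψ : MvPolynomial σ R →+* B), (∀ k, ψ (f k) = 0) →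
        r.map ψ * (of fun j l => ψ (∑ i, pderiv i (f j) * S i l)) = 0 ∧
          (of fun j l => ψ (∑ i, pderiv i (f j) * S i l)) + r.map ψ = ψ s • 1 := by
  obtain ⟨S0, h1, h2⟩ := h
  choose S hS using fun i => Ideal.mem_span_range_iff_exists_fun.1 (h1 i)
  have : ∀ j, ∃ (e : τ → MvPolynomial σ R) (g : MvPolynomial σ R),
      (∀ l, e l ∈ Ideal.span (Set.range f)) ∧
      s * f j - ∑ i, pderiv i (f j) * S0 i = ∑ l, e l * f l + g * C a := fun j => by
    obtain ⟨x, hx, y, hy, e⟩ := Submodule.mem_sup.1 (h2 _ (Ideal.subset_span ⟨j, rfl⟩))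
    rw [pow_two, ← smul_eq_mul] at hx
    obtain ⟨c, hc, rfl⟩ := (Submodule.mem_ideal_smul_span_iff_exists_sum _ f x).1 hx
    rw [Ideal.map_span, Set.image_singleton] at hy
    obtain ⟨g, rfl⟩ := Ideal.mem_span_singleton'.1 hy
    exact ⟨c, g, hc, by rw [← e, Finsupp.sum_fintype _ _ (by simp)]; rfl⟩
  choose e g he hg using this
  obtain ⟨r, hr⟩ : ∃ r : Matrix τ τ (MvPolynomial σ R), ∀ j l,
      r j l = (if j = l then s else 0) - ∑ i, pderiv i (f j) * S i l - e j l :=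
    ⟨of _, fun _ _ => rfl⟩
  have h3 : ∀ j, ∑ l, r j l * f l = C a * g j := fun j => by
    have := hg j
    simp only [← hS, Finset.mul_sum] at this
    rw [Finset.sum_comm] at this
    simp only [hr, sub_mul, Finset.sum_sub_distrib, ite_mul, zero_mul, Finset.sum_ite_eq,
      Finset.mem_univ, if_true, Finset.sum_mul, mul_assoc]
    linear_combination this
  refine ⟨S, r, g, h3, fun B _ ψ hψ => ?_⟩
  have h4 : ∀ k ∈ Ideal.span (Set.range f), ψ k = 0 :=
    (Ideal.span_le.2 (by rintro _ ⟨j, rfl⟩; exact hψ j) : _ ≤ RingHom.ker ψ)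
  refine ⟨Matrix.ext fun j l => ?_, Matrix.ext fun j l => ?_⟩
  · have h5 : ∀ i, ∑ n, ψ (r j n) * ψ (pderiv i (f n)) = 0 := fun i => by
      simpa [hψ, h4 _ ha] using congrArg (fun F => ψ (pderiv i F)) (h3 j)
    simp only [mul_apply, map_apply, of_apply, map_sum, map_mul, Finset.mul_sum, ← mul_assoc]
    rw [Finset.sum_comm]
    simp [← Finset.sum_mul, h5]
  · simp [hr, h4 _ (he j l), one_apply, apply_ite ψ]

end

theorem lift_lemma [IsNoetherianRing R] [Fintype σ] {β : R →+* Λ} {ϖ : R}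
    (hϖ : ∀ r, ϖ * r = 0 → r = 0) (hΛ : ∀ μ, β ϖ ^ 2 * μ = 0 → β ϖ * μ = 0)
    {ρ : R →+* R₀} (hρ : Surjective ρ) (kρ : RingHom.ker ρ = Ideal.span {ϖ ^ 2})
    {θ : Λ →+* Λ₀} (hθ : Surjective θ) (kθ : RingHom.ker θ = Ideal.span {β ϖ ^ 2})
    {c : R₀ →+* C₀} {χ : C₀ →+* Λ₀} (e : ∀ r, χ (c (ρ r)) = θ (β r))
    {p : MvPolynomial σ R →+* C₀} (hp : Surjective p)
    (hf : ∀ r, p (MvPolynomial.C r) = c (ρ r)) :
    ∃ (D : Type) (_ : CommRing D) (j : MvPolynomial σ R →+* D) (δ : D →+* Λ),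
      (j.comp MvPolynomial.C).FiniteType ∧ (∀ r, δ (j (MvPolynomial.C r)) = β r) ∧
      (∀ F, θ (δ (j F)) = χ (p F)) ∧
      (∀ F, p F = 0 → j F ∈ Ideal.span {j (MvPolynomial.C ϖ)}) ∧
      SmOn (j.comp MvPolynomial.C) {j (MvPolynomial.C ϖ)} ∧
      ∀ r₀ : Ideal Λ₀, r₀.IsPrime → SmAt c (r₀.comap χ) →
        SmAt (j.comp MvPolynomial.C) ((r₀.comap θ).comap δ) := by
  classical
  obtain ⟨m, f, hI⟩ := exists_gen (RingHom.ker p)
  choose l hl using fun i => hθ (χ (p (X i)))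
  have e1 : ∀ F, θ (ev β l F) = χ (p F) := fun F =>
    (map_ev' (β' := θ.comp β) (fun _ => rfl) hl F).trans
      (ev_eq (χ.comp p) (fun r => by simp [hf, e]) (fun _ => rfl) F)
  have hfI : ∀ j, p (f j) = 0 := fun j => hI.le (Ideal.subset_span ⟨j, rfl⟩)
  choose μ hμ using fun j => Ideal.mem_span_singleton'.1
    (kθ.le (show θ (ev β l (f j)) = 0 by rw [e1, hfI, map_zero]))
  let ι : MvPolynomial σ R →+* MvPolynomial (σ ⊕ Fin m) R := ev C fun i => X (Sum.inl i)
  have hιC : ∀ r, ι (C r) = C r := fun r => ev_C _ _ r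
  have hι : ∀ {B : Type} [CommRing B] (β' : R →+* B) (y : σ ⊕ Fin m → B) F,
      ev β' y (ι F) = ev β' (fun i => y (.inl i)) F := fun β' y => map_ev' (by simp) (by simp)
  let E := ev β (Sum.elim l fun j => β ϖ * μ j)
  have hE : ∀ F, E (ι F) = ev β l F := hι β _
  have hEC : ∀ r, E (C r) = β r := fun r => ev_C _ _ r
  have hEz : ∀ j, E (X (.inr j)) = β ϖ * μ j := fun j => ev_X _ _ _
  obtain ⟨d, hd⟩ : ∃ d : Fin m → MvPolynomial (σ ⊕ Fin m) R,
    ∀ j, d j = C ϖ * X (Sum.inr j) - ι (f j) := ⟨_, fun _ => rfl⟩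
  have hdm : ∀ j, d j ∈ Ideal.span (Set.range d) := fun j => Ideal.subset_span ⟨j, rfl⟩
  obtain ⟨K, hK⟩ : ∃ K : Ideal (MvPolynomial (σ ⊕ Fin m) R),
      ∀ k, k ∈ K ↔ C ϖ * k ∈ Ideal.span (Set.range d) ∧ E k = 0 :=
    ⟨Submodule.comap (LinearMap.mulLeft _ (C ϖ)) (Ideal.span (Set.range d)) ⊓ RingHom.ker E,
      fun _ => Iff.rfl⟩
  have hdK : ∀ j, d j ∈ K := fun j => (hK _).2 ⟨Ideal.mul_mem_left _ _ (hdm j), by
    rw [hd, map_sub, map_mul, hE, hEC, hEz, ← hμ]; ring⟩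
  have hmk := @Ideal.Quotient.eq_zero_iff_mem _ _ K
  obtain ⟨δ, hδ⟩ := exists_lift (p := Ideal.Quotient.mk K) Ideal.Quotient.mk_surjective E
    fun k hk => ((hK k).1 (hmk.1 hk)).2
  have hj : ∀ r, ((Ideal.Quotient.mk K).comp C) r =
      (((Ideal.Quotient.mk K).comp ι).comp C) r := fun r => by simp only [RingHom.comp_apply, hιC]
  refine ⟨_, inferInstance, (Ideal.Quotient.mk K).comp ι, δ, ft_congr (ft_quot K) hj,
    fun r => by rw [RingHom.comp_apply, hδ, hιC, hEC],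
    fun F => by rw [RingHom.comp_apply, hδ, hE, e1], fun F hF => ?_, ?_, fun r₀ hr₀ hs => ?_⟩
  · refine Ideal.mem_comap.1 ((Ideal.span_le.2 ?_ : Ideal.span (Set.range f) ≤ _) (hI.ge hF))
    rintro _ ⟨j, rfl⟩
    refine Ideal.mem_comap.2 (Ideal.mem_span_singleton'.2 ⟨Ideal.Quotient.mk K (X (.inr j)), ?_⟩)
    rw [RingHom.comp_apply, RingHom.comp_apply, hιC, ← map_mul, Ideal.Quotient.eq, mul_comm, ← hd]
    exact hdK j
  · refine smOn_of_pres Ideal.Quotient.mk_surjective hj fun B B' _ _ g hg β' y e1 e2 => ?_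
    have hw : IsUnit (β' ϖ) := hg.unit (by simpa using e2 (C ϖ) (hj ϖ))
    obtain ⟨u, hu⟩ := hw.exists_left_inv
    choose x hx using fun i => hg.surj (y (.inl i))
    refine ⟨Sum.elim x fun j => u * ev β' x (f j), ?_, fun k hk => ?_⟩
    · rintro (i | j)
      · exact hx i
      · have h1 := e1 _ (hmk.2 (hdK j))
        have h2 := congrArg g hu
        simp only [hd, map_sub, map_mul, ev_C, ev_X, hι, RingHom.comp_apply, map_one] at h1 h2
        simp only [Sum.elim_inr, map_mul, map_ev, hx]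
        linear_combination y (.inr j) * h2 - g u * h1
    · rw [← hw.mul_right_eq_zero, ← ev_C β' _ ϖ, ← map_mul]
      refine (Ideal.span_le.2 ?_ : _ ≤ RingHom.ker _) ((hK k).1 (hmk.1 hk)).1
      rintro _ ⟨j, rfl⟩
      simp [RingHom.mem_ker, hd, hι, ← mul_assoc, mul_comm _ u, hu]
  obtain ⟨s, hs, hElk⟩ := SmOn.elk hρ hp hf (T := (r₀.comap χ).primeCompl) hs
  have hw2 : C (ϖ ^ 2) ∈ Ideal.span (Set.range f) := hI.ge (by
    rw [RingHom.mem_ker, hf, show ρ (ϖ ^ 2) = 0 from kρ.ge (Ideal.mem_span_singleton_self _),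
      map_zero])
  rw [← hI, kρ] at hElk
  obtain ⟨S, r, g, h1, h2⟩ := lf_rho hw2 hElk
  obtain ⟨y, hy⟩ : ∃ y : Fin m → MvPolynomial (σ ⊕ Fin m) R,
    ∀ j, y j = C ϖ * ι (g j) - ∑ n, ι (r j n) * X (.inr n) := ⟨_, fun _ => rfl⟩
  have h3 : ∀ j, ∑ n, ι (r j n) * ι (f n) = C ϖ ^ 2 * ι (g j) := fun j => by
    simpa only [map_sum, map_mul, map_pow, hιC] using congrArg ι (h1 j)
  have h4 : ∀ j, C ϖ * y j = -∑ n, ι (r j n) * d n := fun j => by
    simp only [hy, hd, mul_sub, Finset.sum_sub_distrib, h3, Finset.mul_sum, mul_left_comm]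
    ring
  have hyK : ∀ j, y j ∈ K := fun j => (hK _).2 ⟨by
    rw [h4]; exact neg_mem (sum_mem fun n _ => Ideal.mul_mem_left _ _ (hdm n)), by
      have h5 := congrArg E (h3 j)
      simp only [map_sum, map_mul, map_pow, hE, hEC, ← hμ] at h5
      have h6 := hΛ (ev β l (g j) - ∑ n, ev β l (r j n) * μ n) (by
        rw [mul_sub, ← h5, Finset.mul_sum, sub_eq_zero]
        exact Finset.sum_congr rfl fun _ _ => by ring)
      simpa only [hy, map_sub, map_sum, map_mul, hE, hEC, hEz, mul_sub, Finset.mul_sum,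
        mul_left_comm] using h6⟩
  let q := r₀.comap (θ.comp E)
  have hq : ∀ F, Ideal.Quotient.mk K F ∈ (r₀.comap θ).comap δ ↔ F ∈ q := fun F => by
    rw [Ideal.mem_comap, hδ]; rfl
  have hqι : ∀ F, ι F ∈ q ↔ χ (p F) ∈ r₀ := fun F => by
    rw [Ideal.mem_comap, RingHom.comp_apply, hE, e1]
  have hqK : ∀ k ∈ K, k ∈ q := fun k hk => (hq k).1 (by rw [hmk.2 hk]; exact zero_mem _)
  have hqw : C ϖ ∈ q := Ideal.IsPrime.mem_of_pow_mem inferInstance 2 (by
    rw [← map_pow, ← hιC, hqι, show p _ = 0 from hI.le hw2, map_zero]; exact zero_mem _)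
  have hqs : ι s ^ 2 ∉ q := fun h =>
    hs ((hqι s).1 (Ideal.IsPrime.mem_of_pow_mem inferInstance 2 h))
  obtain ⟨N, hN⟩ : ∃ N : Matrix (Fin m) (Fin m) (MvPolynomial (σ ⊕ Fin m) R), ∀ n k,
    N n k = ∑ t, ι (∑ i, pderiv i (r n t) * S i k) * X (.inr t) := ⟨.of _, fun _ _ => rfl⟩
  obtain ⟨γ, hγ⟩ : ∃ γ : Fin m → MvPolynomial (σ ⊕ Fin m) R,
    ∀ j, γ j = ∑ n, ι (r j n) * y n - d j := ⟨_, fun _ => rfl⟩
  let Dr := fun k => mkDerivation R (A := MvPolynomial (σ ⊕ Fin m) R)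
    (Sum.elim (fun i => ι s * ι (S i k)) fun t => -(N t k + if t = k then 1 else 0))
  have hD1 : ∀ k F, Dr k (ι F) = ι s * ι (∑ i, pderiv i F * S i k) := fun k F => by
    rw [lf_chain, map_sum, Finset.mul_sum]
    exact Finset.sum_congr rfl fun i _ => by
      rw [mkDerivation_X, Sum.elim_inl, map_mul, mul_left_comm]
  have hD2 : ∀ k t, Dr k (X (.inr t)) = -(N t k + if t = k then 1 else 0) :=
    fun k t => mkDerivation_X _ _ _
  refine (jc_nz (f₀ := RingHom.id R) (RingHom.FiniteType.id R) Ideal.Quotient.mk_surjective hj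
    (smOn_id _) γ (fun j => hmk.2 ?_) Dr (s := ι s ^ 2) (by rwa [hq]) (fun j k => ?_) hϖ
    fun k hk => ?_).congr fun _ => rfl
  · rw [hγ]
    exact sub_mem (sum_mem fun n _ => K.mul_mem_left _ (hyK n)) (hdK j)
  · rw [hq, ← Ideal.Quotient.eq_zero_iff_mem]
    set φ := Ideal.Quotient.mk q
    have a0 : ∀ x ∈ q, φ x = 0 := fun x => Ideal.Quotient.eq_zero_iff_mem.2
    have a1 := congrFun₂ (lf_mat (h2 _ (φ.comp ι) fun n => a0 _ ((hqι _).2 (by simp [hfI])))
      (N.map φ)).2 j k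
    have a2 : ∀ n, Dr k (y n) = C ϖ * Dr k (ι (g n)) +
        (∑ t, ι (r n t) * N t k + ι (r n k) - ι s * N n k) := fun n => by
      rw [hy, map_sub, map_sum, Derivation.leibniz, derivation_C, hN n k, Finset.mul_sum,
        Finset.sum_congr rfl fun t _ => by rw [Derivation.leibniz, hD1, hD2]]
      simp only [smul_eq_mul, mul_neg, mul_add, mul_ite, mul_one, mul_zero, Finset.sum_add_distrib,
        Finset.sum_neg_distrib, Finset.sum_ite_eq', Finset.mem_univ, if_true, ← mul_assoc,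
        mul_comm (X _)]
      ring
    simp only [Matrix.add_apply, Matrix.smul_apply, Matrix.mul_apply, Matrix.sub_apply,
      Matrix.map_apply, Matrix.of_apply, RingHom.comp_apply, smul_eq_mul, Matrix.one_apply] at a1
    simp only [hγ, hd, map_sub, map_sum (Dr k), map_sum φ, Derivation.leibniz, smul_eq_mul, map_add,
      map_mul, a2, a0 _ (hqK _ (hyK _)), a0 _ hqw, derivation_C, hD1, zero_mul, mul_zero, add_zero,
      map_zero, apply_ite φ, map_pow, zero_add]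
    rw [mul_ite, mul_one, mul_zero] at a1
    linear_combination a1
  · obtain ⟨u, hu, h5⟩ := nak_prime (G := Ideal.span (Set.range γ)) hqs (n := d) fun j => by
      rw [← Ideal.Quotient.eq_zero_iff_mem, map_mul, map_pow]
      set φ := Ideal.Quotient.mk (q * Ideal.span (Set.range d) ⊔ Ideal.span (Set.range γ))
      have a0 : ∀ x ∈ q, ∀ n, φ x * φ (d n) = 0 := fun x hx n =>
        Ideal.Quotient.eq_zero_iff_mem.2 (Ideal.mem_sup_left (Ideal.mul_mem_mul hx (hdm n)))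
      refine lf_gen (r := r.map (φ.comp ι)) (w := φ (C ϖ)) (z := fun n => φ (X (.inr n)))
        (d := fun n => φ (d n)) (y := fun n => φ (y n)) (funext fun n => ?_) (funext fun n => ?_)
        (a0 _ hqw) (fun n => a0 _ (hqK _ (hyK n))) (fun n => a0 _ (hqK _ (hdK n)))
        (fun n t x hx => ?_) j
      · have : φ (γ n) = 0 := Ideal.Quotient.eq_zero_iff_mem.2
          (Ideal.mem_sup_right (Ideal.subset_span ⟨n, rfl⟩))
        simpa [hγ, sub_eq_zero, Matrix.mulVec, dotProduct] using this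
      · simpa [Matrix.mulVec, dotProduct] using congrArg φ (h4 n)
      · have a1 := congrFun₂ (lf_mat (h2 _ (Ideal.Quotient.mk (Ideal.span (Set.range f))) fun n =>
          Ideal.Quotient.eq_zero_iff_mem.2 (Ideal.subset_span ⟨n, rfl⟩)) 0).1 n t
        obtain ⟨b, hb⟩ := Ideal.mem_span_range_iff_exists_fun.1
          (Ideal.Quotient.eq_zero_iff_mem.1 (show Ideal.Quotient.mk _ ((r * r - s • r) n t) = 0 by
            simpa [Matrix.mul_apply] using a1))
        have a2 := congrArg (φ.comp ι) hb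
        have a3 : ∀ k, φ (ι (f k)) * x = 0 := fun k => by simpa [hd] using hx k
        simp only [Matrix.sub_apply, Matrix.mul_apply, Matrix.smul_apply, Matrix.map_apply,
          smul_eq_mul, map_sub, map_sum, map_mul, RingHom.comp_apply] at a2 ⊢
        simp [← a2, Finset.sum_mul, mul_assoc, a3]
    refine ⟨u, by rwa [hq], ?_⟩
    obtain ⟨b, hb⟩ := Ideal.mem_span_range_iff_exists_fun.1 ((hK k).1 (hmk.1 hk)).1
    rw [RingHom.id_apply, ← hb, Finset.mul_sum]
    exact sum_mem fun n _ => by rw [mul_left_comm]; exact Ideal.mul_mem_left _ _ (h5 n)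

end Pool.Agent.Lib.MP_a37f0b_ag.Pop
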