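import Pool.Agent.Lib.MP_a37f0b_ag.PopCK

/-!
Lifting ind-smoothness along a square zero element.
-/

open MvPolynomial Function

namespace Pool.Agent.Lib.MP_a37f0b_ag.Pop

variable {R R₀ Λ Λ₀ : Type} [CommRing R] [CommRing R₀] [CommRing Λ] [CommRing Λ₀]

lemma nl_sz {q : Λ →+* Λ₀} (hq : Surjective q) {x : Λ} (hx : x * x = 0)
    (kq : RingHom.ker q ≤ Ideal.span {x}) : Sz q :=
  ⟨hq, fun u v hu hv => by
    obtain ⟨s, rfl⟩ := Ideal.mem_span_singleton'.1 (kq hu)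
    obtain ⟨t, rfl⟩ := Ideal.mem_span_singleton'.1 (kq hv)
    linear_combination s * t * hx⟩

lemma nl_lift {I : Ideal R} {x : R} {q : R →+* R₀} (hq : Surjective q)
    (kq : RingHom.ker q = I ⊔ Ideal.span {x}) : ∃ ψ : R ⧸ I →+* R₀, Surjective ψ ∧
      (∀ r, ψ (Ideal.Quotient.mk I r) = q r) ∧
      RingHom.ker ψ = Ideal.span {Ideal.Quotient.mk I x} := by
  obtain ⟨ψ, hψ⟩ := exists_lift (p := Ideal.Quotient.mk I) Ideal.Quotient.mk_surjective q
    fun k hk => (kq.ge (Ideal.mem_sup_left (Ideal.Quotient.eq_zero_iff_mem.1 hk)) : _)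
  refine ⟨ψ, fun y => ?_, hψ, Ideal.ext fun y => ?_⟩
  · obtain ⟨r, rfl⟩ := hq y
    exact ⟨_, hψ r⟩
  · obtain ⟨r, rfl⟩ := Ideal.Quotient.mk_surjective y
    rw [RingHom.mem_ker, hψ, ← RingHom.mem_ker, kq, ← Set.image_singleton, ← Ideal.map_span,
      ← Ideal.mem_comap, Ideal.comap_map_of_surjective _ Ideal.Quotient.mk_surjective,
      ← RingHom.ker_eq_comap_bot, Ideal.mk_ker, sup_comm]

theorem nil_lift [IsNoetherianRing R] {β : R →+* Λ} {ε : R} (hε : ε * ε = 0) {a : Ideal R}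
    (ha : ∀ x ∈ a, x * ε = 0) (hc : ∀ μ, β ε * μ = 0 → μ ∈ a.map β)
    {ρ : R →+* R₀} (hρ : Surjective ρ) (kρ : RingHom.ker ρ = Ideal.span {ε})
    {θ : Λ →+* Λ₀} (hθ : Surjective θ) (kθ : RingHom.ker θ = Ideal.span {β ε})
    {β₀ : R₀ →+* Λ₀} (e : ∀ r, β₀ (ρ r) = θ (β r)) (h : IndSm β₀) : IndSm β := by
  intro A _ f φ hf hφ
  obtain ⟨B, B₁, _, _, b, q, κ, ψ, hb, sb, hq, kq, e1, e2⟩ := lift_once hε hρ kρ hθ kθ e h hf hφ
  have e3 : ∀ r, ψ (q (b r)) = β r := fun r => by rw [← e1, e2, hφ]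
  have := noeth_of_ft hb
  obtain ⟨m, η, hη⟩ := exists_gen (RingHom.ker q)
  have hη' : ∀ l, q (η l) = 0 := fun l => hη.le (Ideal.subset_span ⟨l, rfl⟩)
  choose y hy using fun l => Ideal.mem_span_singleton'.1 (kq (hη' l))
  obtain ⟨n, α, hα⟩ := exists_gen a
  have h1 : ∀ l, ∃ c : Fin n → Λ, ∑ k, c k * β (α k) = ψ (q (y l)) := fun l => by
    have h2 := hc (ψ (q (y l))) (by
      rw [← e3, ← map_mul, ← map_mul, mul_comm, hy, hη', map_zero])
    rw [← hα, Ideal.map_span, ← Set.range_comp] at h2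
    exact Ideal.mem_span_range_iff_exists_fun.1 h2
  choose c hc' using h1
  let γ : Fin m → MvPolynomial (Fin m × Fin n) B := fun l =>
    MvPolynomial.C (y l) - ∑ k, X (l, k) * MvPolynomial.C (b (α k))
  let K := Ideal.span (Set.range γ)
  obtain ⟨φ', hφ'⟩ := exists_lift (p := Ideal.Quotient.mk K) Ideal.Quotient.mk_surjective
    (ev (ψ.comp q) fun i : Fin m × Fin n => c i.1 i.2) fun k hk =>
      (Ideal.span_le.2 (by
        rintro _ ⟨l, rfl⟩
        simp [γ, RingHom.mem_ker, e3, hc']) : K ≤ RingHom.ker _)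
        (Ideal.Quotient.eq_zero_iff_mem.1 hk)
  let j : B →+* MvPolynomial (Fin m × Fin n) B ⧸ K := (Ideal.Quotient.mk K).comp MvPolynomial.C
  have e4 : ∀ x, φ' (j x) = ψ (q x) := fun x => by
    simp only [j, RingHom.comp_apply, hφ', ev_C]
  obtain ⟨B', B₁', _, _, b', q', κ', ψ', hb', sb', hq', kq', e1', e2'⟩ :=
    lift_once hε hρ kρ hθ kθ e h (f := j.comp b) ((ft_quot K).comp hb) (φ := φ')
      fun r => (e4 _).trans (e3 r)
  have hε' : b' ε * b' ε = 0 := by rw [← map_mul, hε, map_zero]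
  obtain ⟨χ, c1, c2⟩ := sb B' B₁' q' (nl_sz hq' hε' kq') b' (κ'.comp j) e1' fun _ ht => ht.elim
  choose ξ hξ using fun i => hq' (κ' (Ideal.Quotient.mk K (X i)))
  have h3 : ∀ l, χ (η l) = 0 := fun l => by
    have h4 : Ideal.Quotient.mk K (γ l) = 0 :=
      Ideal.Quotient.eq_zero_iff_mem.2 (Ideal.subset_span ⟨l, rfl⟩)
    have h5 : q' (χ (y l) - ∑ k, ξ (l, k) * b' (α k)) = 0 := by
      rw [← map_zero κ', ← h4]
      simp only [γ, map_sub, map_sum, map_mul, c2, hξ, ← e1', RingHom.comp_apply, j]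
    obtain ⟨w, hw⟩ := Ideal.mem_span_singleton'.1 (kq' h5)
    have h6 : (∑ k, ξ (l, k) * b' (α k)) * b' ε = 0 := by
      rw [Finset.sum_mul]
      refine Finset.sum_eq_zero fun k _ => ?_
      rw [mul_assoc, ← map_mul, ha _ (hα.le (Ideal.subset_span ⟨k, rfl⟩)), map_zero, mul_zero]
    rw [← hy, map_mul, c1]
    linear_combination h6 + w * hε' - b' ε * hw
  obtain ⟨χ₁, hχ⟩ := exists_lift hq χ fun k hk =>
    (Ideal.span_le.2 (by rintro _ ⟨l, rfl⟩; exact h3 l) : _ ≤ RingHom.ker χ) (hη.ge hk)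
  have e5 : ∀ r, b' r = ((χ₁.comp κ).comp f) r := fun r => by
    simp only [RingHom.comp_apply, e1, hχ, c1]
  refine ⟨B', inferInstance, χ₁.comp κ, ψ'.comp q', ft_congr hb' e5, fun x => ?_, sb'.congr e5⟩
  obtain ⟨z, hz⟩ := hq (κ x)
  rw [← e2, RingHom.comp_apply, RingHom.comp_apply, ← hz, hχ, c2, RingHom.comp_apply, e2', e4]

theorem Chain.qi [IsNoetherianRing R] {β : R →+* Λ} {n I : Ideal R} (h : Chain β n I)
    (H : QI β n) : QI β I := by
  induction h with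
  | top => exact H
  | step I ε hε h1 h2 _ ih =>
    obtain ⟨R₁, L₁, _, _, ρ, θ, β₁, hρ, hθ, kρ, kθ, e, hI⟩ := ih
    rw [Ideal.map_sup, Ideal.map_span, Set.image_singleton] at kθ
    obtain ⟨ρ', r1, r2, r3⟩ := nl_lift hρ kρ
    obtain ⟨θ', t1, t2, t3⟩ := nl_lift hθ kθ
    obtain ⟨β', hβ⟩ := exists_lift (p := Ideal.Quotient.mk I) Ideal.Quotient.mk_surjective
      ((Ideal.Quotient.mk (I.map β)).comp β) fun k hk => Ideal.Quotient.eq_zero_iff_mem.2
        (Ideal.mem_map_of_mem _ (Ideal.Quotient.eq_zero_iff_mem.1 hk))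
    simp only [RingHom.comp_apply] at hβ
    refine ⟨R ⧸ I, Λ ⧸ I.map β, inferInstance, inferInstance, Ideal.Quotient.mk I,
      Ideal.Quotient.mk _, β', Ideal.Quotient.mk_surjective, Ideal.Quotient.mk_surjective,
      Ideal.mk_ker, Ideal.mk_ker, hβ, ?_⟩
    refine nil_lift (ε := Ideal.Quotient.mk I ε) ?_ (a := n.map (Ideal.Quotient.mk I))
      (fun x hx => ?_) (fun μ hμ => ?_) r1 r3 t1 (by rw [t3, hβ]) (β₀ := β₁) (fun r => ?_) hI
    · rw [← map_mul]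
      exact Ideal.Quotient.eq_zero_iff_mem.2 (h1 ε hε)
    · obtain ⟨x, hx', rfl⟩ := (Ideal.mem_map_iff_of_surjective _ Ideal.Quotient.mk_surjective).1 hx
      rw [← map_mul]
      exact Ideal.Quotient.eq_zero_iff_mem.2 (h1 x hx')
    · obtain ⟨μ, rfl⟩ := Ideal.Quotient.mk_surjective μ
      rw [hβ, ← map_mul, Ideal.Quotient.eq_zero_iff_mem] at hμ
      have h3 := Ideal.mem_map_of_mem (Ideal.Quotient.mk (I.map β)) (h2 μ hμ)
      rw [Ideal.map_map] at h3 ⊢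
      rwa [(RingHom.ext hβ : β'.comp (Ideal.Quotient.mk I) = (Ideal.Quotient.mk _).comp β)]
    · obtain ⟨r, rfl⟩ := Ideal.Quotient.mk_surjective r
      rw [r2, hβ, t2, e]

theorem QI.bot [IsNoetherianRing R] {β : R →+* Λ} (h : QI β ⊥) : IndSm β := by
  obtain ⟨R₁, L₁, _, _, ρ, θ, β₁, hρ, hθ, kρ, kθ, e, hI⟩ := h
  exact nil_lift (ε := 0) (mul_zero _) (a := ⊤) (fun x _ => mul_zero x)
    (fun μ _ => by simp [Ideal.map_top]) hρ (by simpa using kρ) hθ (by simpa using kθ) e hI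

end Pool.Agent.Lib.MP_a37f0b_ag.Pop
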