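import Pool.Agent.Lib.MP_a37f0b_ag.Pop3

/-!
Delocalization, purification and the case of fields.
-/

open MvPolynomial Function

namespace Pool.Agent.Lib.MP_a37f0b_ag.Pop

variable {R A B L Λ : Type} [CommRing R] [CommRing A] [CommRing B] [CommRing L] [CommRing Λ]
  {τ : Type}

/-- Homogenization. -/
lemma wk_hom {σ : Type} (F : MvPolynomial σ A) : ∃ (D : ℕ) (H : MvPolynomial (Option σ) A),
    ∀ (C' : Type) [CommRing C'] (α : A →+* C') (y : σ → C') (w : Option σ → C'),
      (∀ i, w (some i) = y i * w none) → ev α w H = w none ^ D * ev α y F := by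
  induction F using MvPolynomial.induction_on with
  | C a => exact ⟨0, C a, fun _ _ _ _ _ _ => by simp⟩
  | add p q hp hq =>
    obtain ⟨D, H, h⟩ := hp
    obtain ⟨D', H', h'⟩ := hq
    refine ⟨D + D', X none ^ D' * H + X none ^ D * H', fun C' _ α y w e => ?_⟩
    simp only [map_add, map_mul, map_pow, ev_X, h C' α y w e, h' C' α y w e]
    ring
  | mul_X p j hp =>
    obtain ⟨D, H, h⟩ := hp
    refine ⟨D + 1, H * X (some j), fun C' _ α y w e => ?_⟩
    simp only [map_mul, ev_X, h C' α y w e, e]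
    ring

lemma wk_rename {σ σ' : Type} (α : A →+* B) (w : σ' → B) (k : σ → σ') (H : MvPolynomial σ A) :
    ev α w (rename k H) = ev α (fun i => w (k i)) H :=
  (ev_eq ((ev α w).comp (rename k : MvPolynomial σ A →ₐ[A] MvPolynomial σ' A).toRingHom)
    (fun r => by simp) (fun i => by simp) H).symm

lemma wk_span {γ : τ → A} (q : A →+* B) (h : ∀ j, q (γ j) = 0) {k : A}
    (hk : k ∈ Ideal.span (Set.range γ)) : q k = 0 :=
  (Ideal.span_le.2 (by rintro _ ⟨j, rfl⟩; exact h j) : _ ≤ RingHom.ker q) hk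

lemma wk_lift {γ : τ → A} (q : A →+* B) (h : ∀ j, q (γ j) = 0) :
    ∃ ψ : (A ⧸ Ideal.span (Set.range γ)) →+* B, ∀ a, ψ (Ideal.Quotient.mk _ a) = q a :=
  exists_lift Ideal.Quotient.mk_surjective q fun _ hk =>
    wk_span q h (Ideal.Quotient.eq_zero_iff_mem.1 hk)

lemma wk_zero (γ : τ → A) (j : τ) : Ideal.Quotient.mk (Ideal.span (Set.range γ)) (γ j) = 0 :=
  Ideal.Quotient.eq_zero_iff_mem.2 (Ideal.subset_span ⟨j, rfl⟩)

theorem weak [IsNoetherianRing R] {f : R →+* A} (hf : f.FiniteType) (φ : A →+* Λ) {ι : Λ →+* L}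
    {T : Submonoid Λ} (hι : Lc ι T) {h : A →+* B} {ψ : B →+* L} (hB : (h.comp f).FiniteType)
    (e : ∀ a, ψ (h a) = ι (φ a)) (hs : SmOn (h.comp f) ∅) :
    ∃ (C' : Type) (_ : CommRing C') (h' : A →+* C') (ψ' : C' →+* Λ) (c : C'),
      (h'.comp f).FiniteType ∧ (∀ a, ψ' (h' a) = φ a) ∧ ψ' c ∈ T ∧ SmOn (h'.comp f) {c} := by
  classical
  have := noeth_of_ft hf
  obtain ⟨n, p, hp, hC⟩ := exists_pres hB.of_comp_finiteType
  obtain ⟨m, F, hF⟩ := exists_gen (RingHom.ker p)
  have hF0 : ∀ j, p (F j) = 0 := fun j => hF.le (Ideal.subset_span ⟨j, rfl⟩)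
  obtain ⟨t, ht, l, hl⟩ := hι.common fun i => ψ (p (X i))
  choose D H hH using fun j => wk_hom (F j)
  let v : Option (Fin n) → Λ := fun o => o.elim t l
  have h1 : ∀ j, ι (ev φ v (H j)) = 0 := fun j => by
    rw [map_ev, hH j L _ (fun i => ψ (p (X i))) _ fun i => (hl i).symm,
      ev_eq (ψ.comp p) (x := fun i => ψ (p (X i))) (fun r => by simp [hC, e]) (fun _ => rfl),
      RingHom.comp_apply, hF0,
      map_zero, mul_zero]
  choose s hs1 hs2 using fun j => hι.ker _ (h1 j)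
  let γ : Fin m → MvPolynomial (Option (Option (Fin n))) A := fun j => X none * rename some (H j)
  obtain ⟨ψ', hψ'⟩ := wk_lift (γ := γ) (ev φ fun o => o.elim (∏ j, s j) v) fun j => by
    simp only [γ, map_mul, ev_X, wk_rename, Option.elim]
    rw [← Finset.prod_erase_mul _ _ (Finset.mem_univ j), mul_assoc]
    exact mul_eq_zero_of_right _ (hs2 j)
  refine ⟨_, inferInstance, (Ideal.Quotient.mk _).comp C, ψ',
    Ideal.Quotient.mk _ (X (some none) * X none), (ft_quot _).comp hf,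
    fun a => by rw [RingHom.comp_apply, hψ', ev_C], ?_, fun B' C' _ _ g hg β φ' e1 e2 => ?_⟩
  · rw [hψ', map_mul, ev_X, ev_X]
    exact T.mul_mem ht (T.prod_mem fun j _ => hs1 j)
  let q := φ'.comp (Ideal.Quotient.mk (Ideal.span (Set.range γ)))
  have u0 : IsUnit (q (X (some none)) * q (X none)) := map_mul q _ _ ▸ e2 _ rfl
  obtain ⟨u1, u2⟩ := IsUnit.mul_iff.1 u0
  obtain ⟨ui, hui⟩ := u1.exists_left_inv
  have u3 : ∀ i, q (X (some (some i))) = q (X (some (some i))) * ui * q (X (some none)) :=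
    fun i => by rw [mul_assoc, hui, mul_one]
  obtain ⟨χ, hχ⟩ := exists_lift hp (ev (q.comp C) fun i => q (X (some (some i))) * ui)
    fun k hk => wk_span _ (fun j => by
      have a1 := hH j C' (q.comp C) _ (fun o => q (X (some o))) u3
      have a2 : q (γ j) = 0 := by rw [RingHom.comp_apply, wk_zero, map_zero]
      rw [← ev_eq q (β := q.comp C) (fun _ => rfl) (fun _ => rfl)] at a2
      simp only [γ, map_mul, ev_X, wk_rename] at a2
      rw [a1, u2.mul_right_eq_zero, (u1.pow _).mul_right_eq_zero] at a2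
      exact a2) (hF.ge hk)
  obtain ⟨χ', c1, c2⟩ := hs B' C' g hg β χ (fun r => by
    rw [RingHom.comp_apply, ← hC, hχ, ev_C]; exact e1 r) (fun _ h => h.elim)
  obtain ⟨u, hu⟩ := hg.surj (q (X (some none)))
  obtain ⟨z, hz⟩ := hg.surj (q (X none))
  let w : Option (Option (Fin n)) → B' := fun o =>
    o.elim z fun o' => o'.elim u fun i => χ' (p (X i)) * u
  obtain ⟨Ψ, hΨ⟩ := wk_lift (γ := γ) (ev (χ'.comp h) w) fun j => by
    simp only [γ, map_mul, wk_rename]
    rw [hH j B' _ (fun i => χ' (p (X i))) _ fun _ => rfl,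
      ev_eq (χ'.comp p) (x := fun i => χ' (p (X i))) (fun r => by simp [hC]) (fun _ => rfl),
      RingHom.comp_apply, hF0,
      map_zero, mul_zero, mul_zero]
  refine ⟨Ψ, fun r => ?_, Ideal.Quotient.mk_surjective.forall.2 fun G => ?_⟩
  · rw [RingHom.comp_apply, RingHom.comp_apply, hΨ, ev_C]
    exact c1 r
  · rw [hΨ, map_ev]
    refine ev_eq q (fun a => ?_) (fun o => ?_) G
    · rw [RingHom.comp_apply g, RingHom.comp_apply χ', c2, ← hC, hχ, ev_C, RingHom.comp_apply q]
    · rcases o with _ | _ | i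
      · exact hz.symm
      · exact hu.symm
      · simp only [w, Option.elim, map_mul, c2, hχ, ev_X, hu]
        exact u3 i

theorem pure [IsNoetherianRing R] [Fintype τ] {f : R →+* A} (hf : f.FiniteType) (φ : A →+* Λ)
    {a : τ → A} (ha : ∀ j, SmOn f {a j}) {π : R} {n : ℕ}
    (hπ : φ (f π) ^ n ∈ Ideal.span (Set.range fun j => φ (a j))) :
    ∃ (B : Type) (_ : CommRing B) (h : A →+* B) (ψ : B →+* Λ), (h.comp f).FiniteType ∧
      (∀ a, ψ (h a) = φ a) ∧ SmOn (h.comp f) {h (f π)} ∧ ∀ j, SmOn (h.comp f) {h (a j)} := by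
  classical
  obtain ⟨c, hc⟩ := Ideal.mem_span_range_iff_exists_fun.1 hπ
  let γ : Unit → MvPolynomial τ A := fun _ => C (f π) ^ n - ∑ j, X j * C (a j)
  obtain ⟨ψ, hψ⟩ := wk_lift (γ := γ) (ev φ c) fun _ => by simp [γ, hc]
  have hft := (ft_quot (Ideal.span (Set.range γ))).comp hf
  have h1 : ∀ j, SmOn (((Ideal.Quotient.mk (Ideal.span (Set.range γ))).comp C).comp f)
      {((Ideal.Quotient.mk (Ideal.span (Set.range γ))).comp C) (a j)} := fun j => by
    refine (ha j).comp (smOn_of_pres Ideal.Quotient.mk_surjective (fun _ => rfl)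
      fun B' C' _ _ g hg β y e1 e2 => ?_) fun _ _ _ H t ht => ht ▸ H _ rfl
    have u0 := e2 (C (a j)) rfl
    rw [ev_C] at u0
    obtain ⟨w, hw⟩ := (hg.unit u0).exists_left_inv
    choose x hx using fun i => hg.surj (y i)
    have r0 : g (ev β x (γ ())) = 0 := by
      rw [map_ev' (β' := g.comp β) (fun _ => rfl) hx]
      exact e1 _ (wk_zero γ ())
    refine ⟨fun i => x i + if i = j then w * ev β x (γ ()) else 0, fun i => ?_, fun k hk =>
      wk_span _ (fun _ => ?_) (Ideal.Quotient.eq_zero_iff_mem.1 hk)⟩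
    · beta_reduce
      split_ifs <;> simp [hx, r0]
    · generalize hρ : ev β x (γ ()) = ρ
      simp only [γ, map_sub, map_pow, map_sum, map_mul, ev_C, ev_X, add_mul,
        Finset.sum_add_distrib, ite_mul, zero_mul, Finset.sum_ite_eq', Finset.mem_univ,
        if_true] at hρ ⊢
      linear_combination hρ - ρ * hw
  refine ⟨_, inferInstance, (Ideal.Quotient.mk _).comp C, ψ, hft,
    fun a => by rw [RingHom.comp_apply, hψ, ev_C], smOn_of_forall hft fun q hq hs => ?_, h1⟩
  by_contra H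
  refine hs (hq.mem_of_pow_mem n ?_)
  have e := wk_zero γ ()
  simp only [γ, map_sub, map_pow, map_sum, map_mul, sub_eq_zero] at e
  rw [RingHom.comp_apply, e]
  exact q.sum_mem fun j _ => q.mul_mem_left _ (by_contra fun h => H ((h1 j).smAt h))

theorem finish [IsNoetherianRing R] {f : R →+* A} (hf : f.FiniteType) (φ : A →+* Λ)
    (H : ∀ q : Ideal Λ, q.IsPrime → SmAt f (q.comap φ)) :
    ∃ (B : Type) (_ : CommRing B) (h : A →+* B) (ψ : B →+* Λ), (h.comp f).FiniteType ∧
      (∀ a, ψ (h a) = φ a) ∧ SmOn (h.comp f) ∅ := by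
  obtain ⟨m, a, -, ha, hq⟩ := exists_gen_Hs hf
  have h1 : Ideal.span (Set.range fun j => φ (a j)) = ⊤ := by
    by_contra h
    obtain ⟨q, q1, q2⟩ := Ideal.exists_le_maximal _ h
    have := q1.isPrime
    obtain ⟨j, hj⟩ := hq _ inferInstance (H q this)
    exact hj (q2 (Ideal.subset_span ⟨j, rfl⟩))
  obtain ⟨B, _, h, ψ, a1, a2, a3, -⟩ := pure hf φ ha (π := 1) (n := 0) (h1 ▸ Submodule.mem_top)
  refine ⟨B, inferInstance, h, ψ, a1, a2, a3.mono fun _ _ φ' _ t ht => ?_⟩
  rw [show t = _ from ht, map_one, map_one, map_one]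
  exact isUnit_one

theorem indSm_field {k : Type} [Field k] [PerfectField k] (hL : IsField L) (β : k →+* L) :
    IndSm β := by
  intro A _ f φ hf e
  letI := hL.toField
  let f' : k →+* A ⧸ RingHom.ker φ := (Ideal.Quotient.mk _).comp f
  have hf' : f'.FiniteType := hf.comp_surjective Ideal.Quotient.mk_surjective
  have hi := RingHom.kerLift_injective φ
  have : IsDomain (A ⧸ RingHom.ker φ) := hi.isDomain _
  have h1 : SmOn f' (nonZeroDivisors (A ⧸ RingHom.ker φ)) := by
    algebraize [f']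
    exact smOn_of_formallySmooth (L := FractionRing (A ⧸ RingHom.ker φ)) _
  obtain ⟨s, s1, s2⟩ := h1.exists_single hf'
  obtain ⟨B, _, ι, hι⟩ := exists_lc (Submonoid.powers s)
  obtain ⟨a1, a2⟩ := s2.away hf' hι
  obtain ⟨ψ, hψ⟩ := hι.lift φ.kerLift (by
    rintro _ ⟨n, rfl⟩
    rw [map_pow]
    exact (((map_ne_zero_iff _ hi).2 (nonZeroDivisors.ne_zero s1)).isUnit).pow n)
  exact ⟨B, inferInstance, ι.comp (Ideal.Quotient.mk _), ψ, a1,
    fun a => by rw [RingHom.comp_apply, hψ, RingHom.kerLift_mk], a2⟩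

end Pool.Agent.Lib.MP_a37f0b_ag.Pop
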