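import Pool.Agent.Lib.MP_a37f0b_ag.PopSlice
import Pool.Agent.Lib.MP_a37f0b_ag.PopNil
import Pool.Agent.Lib.MP_a37f0b_ag.PopWeak
import Pool.Agent.Lib.MP_a37f0b_ag.PopHZ
import Pool.Agent.Lib.MP_a37f0b_ag.PopChain

/-!
The desingularization theorem over perfect fields and over discrete valuation rings.
-/

open Function

namespace Pool.Agent.Lib.MP_a37f0b_ag.Pop

variable {R A Λ L : Type} [CommRing R] [CommRing A] [CommRing Λ] [CommRing L]

lemma IndSm.of_comp {R₁ : Type} [CommRing R₁] {ρ : R →+* R₁} (hρ : Surjective ρ)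
    {β : R₁ →+* Λ} (h : IndSm (β.comp ρ)) : IndSm β := fun A _ f φ hf e => by
  obtain ⟨B, _, h, ψ, h1, h2, h3⟩ := h A (f.comp ρ) φ (hf.comp (.of_surjective _ hρ))
    fun r => e _
  refine ⟨B, _, h, ψ, RingHom.FiniteType.of_comp_finiteType (f := ρ) h1, h2,
    fun B' C' _ _ g hg β' φ' e1 e2 => ?_⟩
  obtain ⟨χ, a1, a2⟩ := h3 B' C' g hg (β'.comp ρ) φ' (fun r => e1 _) e2
  exact ⟨χ, hρ.forall.2 a1, a2⟩

lemma exists_quot (f : R →+* A) (φ : A →+* Λ) {R₀ Λ₀ : Type} [CommRing R₀] [CommRing Λ₀]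
    {ρ : R →+* R₀} (hρ : Surjective ρ) {θ : Λ →+* Λ₀} (hf : f.FiniteType)
    (k : ∀ r, ρ r = 0 → θ (φ (f r)) = 0) :
    ∃ (A₀ : Type) (_ : CommRing A₀) (κ : A →+* A₀) (f₀ : R₀ →+* A₀) (φ₀ : A₀ →+* Λ₀),
      f₀.FiniteType ∧ (∀ r, f₀ (ρ r) = κ (f r)) ∧ (∀ a, φ₀ (κ a) = θ (φ a)) ∧
        ∀ s, SmOn f {s} → SmOn f₀ {κ s} := by
  let κ := Ideal.Quotient.mk ((RingHom.ker ρ).map f)
  obtain ⟨f₀, h1⟩ := exists_lift hρ (κ.comp f) fun r hr =>
    Ideal.Quotient.eq_zero_iff_mem.2 (Ideal.mem_map_of_mem _ hr)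
  obtain ⟨φ₀, h2⟩ := exists_lift (p := κ) Ideal.Quotient.mk_surjective (θ.comp φ) fun a ha =>
    (Ideal.map_le_iff_le_comap.2 k : _ ≤ RingHom.ker (θ.comp φ))
      (Ideal.Quotient.eq_zero_iff_mem.1 ha)
  refine ⟨_, _, κ, f₀, φ₀, RingHom.FiniteType.of_comp_finiteType (f := ρ)
    (ft_congr (hf.comp_surjective Ideal.Quotient.mk_surjective) fun r => (h1 r).symm), h1, h2,
    fun s hs => hs.quot hρ Ideal.Quotient.mk_surjective h1 Ideal.mk_ker.le (by simp [κ])⟩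

lemma RS.of_zero {m J : Ideal L} (h : RS m J 0) : m = J := by cases h; rfl

lemma RS.of_succ {m J : Ideal L} {d : ℕ} (h : RS m J (d + 1)) :
    ∃ x ∈ m, (∀ μ, x * μ ∈ J → μ ∈ J) ∧ RS m (J ⊔ Ideal.span {x}) d := by
  cases h with | succ _ _ x h1 h2 h3 => exact ⟨x, h1, h2, h3⟩

lemma exists_mk (x : R) : ∃ (S : Type) (_ : CommRing S) (θ : R →+* S), Surjective θ ∧
    RingHom.ker θ = Ideal.span {x} ∧ θ x = 0 ∧
    ∀ (T : Type) [CommRing T] (g : R →+* T), g x = 0 → ∀ r, θ r = 0 → g r = 0 :=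
  ⟨_, _, Ideal.Quotient.mk _, Ideal.Quotient.mk_surjective, Ideal.mk_ker,
    Ideal.Quotient.eq_zero_iff_mem.2 (Ideal.mem_span_singleton_self _), fun T _ g hg r hr => by
      obtain ⟨c, rfl⟩ := Ideal.mem_span_singleton'.1 (Ideal.Quotient.eq_zero_iff_mem.1 hr)
      simp [hg]⟩

lemma nzd_pow {x : R} (h : ∀ μ, x * μ = 0 → μ = 0) (n : ℕ) (μ : R) (H : x ^ n * μ = 0) : μ = 0 := by
  induction n with
  | zero => simpa using H
  | succ n ih => exact ih (h _ (by linear_combination H))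

lemma prime_map {θ : R →+* A} (hθ : Surjective θ) {x : R} {N : ℕ}
    (kθ : RingHom.ker θ = Ideal.span {x ^ (N + 1)}) {q : Ideal R} (hq : q.IsPrime) (hx : x ∈ q) :
    (q.map θ).IsPrime ∧ (q.map θ).comap θ = q := by
  have : RingHom.ker θ ≤ q := by
    rw [kθ, Ideal.span_singleton_le_iff_mem]
    exact q.pow_mem_of_mem hx _ (Nat.succ_pos _)
  refine ⟨Ideal.map_isPrime_of_surjective hθ this, ?_⟩
  rw [Ideal.comap_map_of_surjective _ hθ]; exact sup_eq_left.2 this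

theorem res_zero {k : Type} [Field k] [PerfectField k] [IsNoetherianRing R]
    {τ : R →+* k} (hτ : Surjective τ) {f : R →+* A} (hf : f.FiniteType) {φ : A →+* Λ}
    {q : Ideal Λ} [q.IsPrime] {ι : Λ →+* L} (hι : Lc ι q.primeCompl) {γ : R →+* L}
    (e : ∀ r, ι (φ (f r)) = γ r) (hc : Chain γ (RingHom.ker τ) ⊥)
    (hm : q.map ι = (RingHom.ker τ).map γ) : Res f φ q := by
  obtain ⟨β₁, h1⟩ := exists_lift hτ ((Ideal.Quotient.mk (q.map ι)).comp γ) fun r hr =>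
    Ideal.Quotient.eq_zero_iff_mem.2 (hm.ge (Ideal.mem_map_of_mem _ hr))
  have h2 : IndSm γ := (hc.qi ⟨k, _, _, _, τ, Ideal.Quotient.mk _, β₁, hτ,
    Ideal.Quotient.mk_surjective, rfl, Ideal.mk_ker.trans hm, h1,
    indSm_field hι.isField β₁⟩).bot
  obtain ⟨B, _, h, ψ, a1, a2, a3⟩ := h2 A f (ι.comp φ) hf e
  obtain ⟨C', _, h', ψ', c, b1, b2, b3, b4⟩ := weak hf φ hι a1 a2 a3
  refine height_zero hf (fun y hy => ?_) b1 b2 (b4.smAt b3)
  obtain ⟨n, hn⟩ := hc.nil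
  have : ι y ^ n ∈ (q.map ι) ^ n := Ideal.pow_mem_pow (Ideal.mem_map_of_mem _ hy) n
  rw [hm, ← Ideal.map_pow, le_bot_iff.1 hn, Ideal.map_bot, Ideal.mem_bot, ← map_pow] at this
  obtain ⟨s, hs, h3⟩ := hι.ker _ this
  exact ⟨s, hs, n, h3⟩

open Polynomial in
theorem res {k : Type} [Field k] [PerfectField k] (d : ℕ) : ∀ (R A Λ L : Type) [CommRing R]
    [CommRing A] [CommRing Λ] [CommRing L] [IsNoetherianRing R] [IsNoetherianRing Λ]
    (τ : R →+* k) (f : R →+* A) (φ : A →+* Λ) (q : Ideal Λ) [q.IsPrime] (ι : Λ →+* L)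
    (γ : R →+* L), Surjective τ → f.FiniteType → Lc ι q.primeCompl → (∀ r, ι (φ (f r)) = γ r) →
    Chain γ (RingHom.ker τ) ⊥ → RS (q.map ι) ((RingHom.ker τ).map γ) d →
    (∀ y ∈ q, ∃ s ∉ q, ∃ n : ℕ, s * y ^ n ∈ (Hs f).map φ) → Res f φ q := by
  induction d with
  | zero =>
    intro R A Λ L _ _ _ _ _ _ τ f φ q _ ι γ hτ hf hι e hc hr _
    exact res_zero hτ hf hι e hc hr.of_zero
  | succ d ih =>
    intro R A Λ L _ _ _ _ _ _ τ f φ q hq ι γ hτ hf hι e hc hr hmin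
    obtain ⟨x, hx, hx1, hr⟩ := hr.of_succ
    obtain ⟨t, ht, y, hy, e1⟩ := hι.mem_map hx
    obtain ⟨s₀, hs₀, n, hn⟩ := hmin y hy
    obtain ⟨s₁, hs₁, h1⟩ := hι.ann
    obtain ⟨m, a, a1, a2, a3⟩ := exists_gen_Hs hf
    set π := s₀ * s₁ * y
    have hπq : π ∈ q := q.mul_mem_left _ hy
    obtain ⟨u, hu⟩ : ∃ u : Lˣ, ι π = u * x := by
      obtain ⟨u, hu⟩ := ((hι.unit _ hs₀).mul (hι.unit _ hs₁)).mul (hι.unit _ ht)
      exact ⟨u, by rw [hu]; simp only [π, map_mul, ← e1]; ring⟩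
    have hx2 : ∀ μ, ι π * μ ∈ (RingHom.ker τ).map γ → μ ∈ (RingHom.ker τ).map γ := fun μ h => by
      refine hx1 μ ?_
      rwa [hu, mul_assoc, Ideal.unit_mul_mem_iff_mem _ u.isUnit] at h
    have hx3 : ∀ μ, ι π * μ = 0 → μ = 0 := by simpa using hc.nzd hx2
    let β : R[X] →+* Λ := eval₂RingHom (φ.comp f) π
    let φ' : A[X] →+* Λ := eval₂RingHom φ π
    have hφ' : ∀ r, φ' (mapRingHom f r) = β r := fun r => by simp [φ', β, eval₂_map]
    have hf' : (mapRingHom f).FiniteType := RingHom.FiniteType.of_comp_finiteType (f := C)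
      (ft_congr ((RingHom.finiteType_algebraMap.2 inferInstance :
        (algebraMap A A[X]).FiniteType).comp hf) (by simp))
    obtain ⟨A', _, h', φ'', b1, b2, b3, b4⟩ := pure hf' φ' (fun j => (a2 j).poly) (π := X)
      (n := n + 1) (by
        have : (Hs f).map φ = Ideal.span (Set.range fun j => φ' (C (a j))) := by
          rw [← a1, Ideal.map_span, ← Set.range_comp]; simp [φ', Function.comp_def]
        rw [← this]
        convert Ideal.mul_mem_left _ (s₀ ^ n * s₁ ^ (n + 1) * y) hn using 1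
        simp only [φ', coe_mapRingHom, map_X, coe_eval₂RingHom, eval₂_X, π]; ring)
    have hβ : β X = π := by simp [β]
    obtain ⟨N, hN⟩ := slice (β := β) (π := X) (fun r hr => by simpa using hr) (fun n μ h => by
      rw [hβ] at h ⊢
      have : ι μ = 0 := nzd_pow hx3 n _ (by simpa using congrArg ι h)
      simp only [π]
      linear_combination s₀ * y * h1 μ this) b1 (φ := φ'') (fun r => (b2 _).trans (hφ' r)) b3
    obtain ⟨R₀, _, ρ, hρ, kρ, c0, lρ⟩ := exists_mk ((X : R[X]) ^ (N + 1))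
    obtain ⟨Λ₀, _, θ, hθ, kθ, c1, lθ⟩ := exists_mk (β X ^ (N + 1))
    obtain ⟨L₀, _, θ', hθ', kθ', c2, -⟩ := exists_mk (ι (β X) ^ (N + 1))
    have := isNoetherianRing_of_surjective _ _ ρ hρ
    have := isNoetherianRing_of_surjective _ _ θ hθ
    obtain ⟨A₀, _, κ, f₀, φ₀, d1, d2, d3, d4⟩ := exists_quot (h'.comp (mapRingHom f)) φ'' hρ
      (θ := θ) b1 fun r hr => by
        rw [RingHom.comp_apply, b2, hφ']; exact lρ _ (θ.comp β) (by simpa using c1) r hr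
    obtain ⟨hq₀, hqq⟩ := prime_map hθ kθ hq (hβ ▸ hπq)
    obtain ⟨ι₀, hι₀⟩ := exists_lift hθ (θ'.comp ι) (lθ _ _ (by simpa using c2))
    obtain ⟨τ₀, hτ₀⟩ := exists_lift hρ (eval₂RingHom τ 0) (lρ _ _ (by simp))
    obtain ⟨γ₀, hγ₀⟩ := exists_lift hρ (θ'.comp (ι.comp β)) (lρ _ _ (by simpa using c2))
    have hk : RingHom.ker τ₀ = ((RingHom.ker τ).map C ⊔ Ideal.span {X}).map ρ := by
      refine le_antisymm (hρ.forall.2 fun r hr => Ideal.mem_map_of_mem _ ?_)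
        (Ideal.map_le_iff_le_comap.2 (sup_le (Ideal.map_le_iff_le_comap.2 fun r hr => ?_) ?_))
      · rw [RingHom.mem_ker, hτ₀] at hr
        rw [← r.divX_mul_X_add, add_comm]
        exact Submodule.add_mem_sup (Ideal.mem_map_of_mem _ (by simpa [eval₂_at_zero] using hr))
          (Ideal.mul_mem_left _ _ (Ideal.mem_span_singleton_self _))
      · simpa [RingHom.mem_ker, hτ₀] using hr
      · simp [RingHom.mem_ker, hτ₀]
    have hγ : ∀ r, (ι.comp β) (C r) = γ r := fun r => by simp [β, e]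
    have hc₀ := (hc.pow hγ (x := X) (by simpa [hβ] using hx2) N).map hρ hθ' (β₁ := γ₀)
      (by simp [kθ', Ideal.map_span]) hγ₀
    rw [← hk, (Ideal.map_eq_bot_iff_le_ker ρ).2 kρ.ge] at hc₀
    have hxx : Ideal.span {x} = Ideal.span {ι (β X)} := by
      rw [hβ, hu, Ideal.span_singleton_mul_left_unit u.isUnit]
    have hr₀ := hr.map hθ' (by
      rw [kθ', hxx]
      exact (Ideal.span_singleton_le_span_singleton.2 (dvd_pow_self _ (by simp))).trans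
        le_sup_right)
    rw [show (q.map ι).map θ' = (q.map θ).map ι₀ by
        rw [Ideal.map_map, Ideal.map_map]; congr 1; exact RingHom.ext fun r => (hι₀ r).symm,
      show ((RingHom.ker τ).map γ ⊔ Ideal.span {x}).map θ' = (RingHom.ker τ₀).map γ₀ by
        rw [hk, Ideal.map_map, show γ₀.comp ρ = θ'.comp (ι.comp β) from RingHom.ext hγ₀,
          ← Ideal.map_map (ι.comp β) θ', Ideal.map_sup (ι.comp β), Ideal.map_map, hxx,
          show (ι.comp β).comp C = γ from RingHom.ext hγ]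
        simp [Ideal.map_span]] at hr₀
    obtain ⟨C₀, _, h₀, χ, g1, g2, g3, g4⟩ := ih _ A₀ _ _ τ₀ f₀ φ₀ (q.map θ) ι₀ γ₀
      (fun c => let ⟨r, hr⟩ := hτ c; ⟨ρ (C r), by simp [hτ₀, hr]⟩) d1
      (Lc.quot hθ (by convert hι) hθ' (by simp [kθ, kθ', Ideal.map_span]) hι₀)
      (hρ.forall.2 fun r => by rw [d2, d3, hι₀, hγ₀, RingHom.comp_apply _ _ r, b2, hφ']; rfl)
      hc₀ hr₀ (hθ.forall.2 fun y hy => by
        obtain ⟨s, hs, n, hn⟩ := hmin y (hqq.le hy)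
        refine ⟨θ s, fun h => hs (hqq.le h), n, ?_⟩
        rw [← map_pow, ← map_mul]
        refine (?_ : _ ≤ Ideal.comap θ ((Hs f₀).map φ₀)) hn
        rw [← a1, Ideal.map_le_iff_le_comap, Ideal.span_le]
        rintro _ ⟨j, rfl⟩
        have := Ideal.mem_map_of_mem φ₀ (d4 _ (b4 j)).mem_Hs
        rw [d3, b2] at this
        simpa [φ'] using this)
    obtain ⟨B, _, h, ψ, i1, i2, i3, i4⟩ := hN _ _ C₀ ρ θ (h₀.comp f₀) (h₀.comp κ) χ hρ hθ
      kρ kθ g1 (fun r => by simp [d2]) (fun a => by simp [g2, d3])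
    have j1 : ∀ r, ((h.comp (h'.comp (mapRingHom f))).comp C) r =
        (((h.comp h').comp C).comp f) r := fun r => by simp
    have j2 : ∀ p : Ideal B, SmAt (h.comp (h'.comp (mapRingHom f))) p →
        SmAt (((h.comp h').comp C).comp f) p := fun p hp =>
      SmAt.congr (smOn_polyC.comp_empty hp) j1
    refine ⟨B, _, (h.comp h').comp C, ψ, ft_congr (i1.comp (RingHom.finiteType_algebraMap.2
      inferInstance : (algebraMap R R[X]).FiniteType)) j1, fun a => by simp [i2, b2, φ'],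
      j2 _ (hqq ▸ i4 _ hq₀ g3), fun r hr hs => j2 _ ?_⟩
    by_cases h2 : β X ∈ r
    · obtain ⟨hr₀, hrr⟩ := prime_map hθ kθ hr h2
      obtain ⟨j, hj⟩ := a3 _ inferInstance hs
      refine hrr ▸ i4 _ hr₀ (g4 _ hr₀ ((d4 _ (b4 j)).smAt fun h3 => hj (hrr.le ?_)))
      rw [Ideal.mem_comap, d3, b2] at h3
      simpa [φ'] using h3
    · exact i3.smAt fun h3 => h2 (by
        rwa [Ideal.mem_comap, i2, RingHom.comp_apply, b2, hφ'] at h3)

lemma smAt_iff [IsNoetherianRing R] {f : R →+* A} (hf : f.FiniteType) (φ : A →+* Λ) {q : Ideal Λ}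
    (hq : q.IsPrime) : SmAt f (q.comap φ) ↔ ¬(Hs f).map φ ≤ q := by
  rw [Ideal.map_le_iff_le_comap]
  refine ⟨fun h h1 => ?_, fun h => ?_⟩
  · obtain ⟨s, h2, h3⟩ := h.exists_single hf
    exact h2 (h1 h3.mem_Hs)
  · obtain ⟨s, h1, h2⟩ := Set.not_subset.1 h
    exact h1 _ inferInstance h2

/-- Desingularization over a perfect field. -/
theorem popescu_field {k : Type} [Field k] [PerfectField k] [IsNoetherianRing Λ] (hΛ : LocRS Λ)
    (β : k →+* Λ) : IndSm β := by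
  suffices ∀ (J : Ideal Λ) (A : Type) [CommRing A] (f : k →+* A) (φ : A →+* Λ), f.FiniteType →
      (∀ r, φ (f r) = β r) → ((Hs f).map φ).radical = J →
      ∃ (B : Type) (_ : CommRing B) (h : A →+* B) (ψ : B →+* Λ),
        (h.comp f).FiniteType ∧ (∀ a, ψ (h a) = φ a) ∧ SmOn (h.comp f) ∅ from
    fun A _ f φ hf e => this _ A f φ hf e rfl
  intro J
  induction J using IsNoetherian.induction with | hgt J ih => ?_
  intro A _ f φ hf e hJ
  by_cases h : (Hs f).map φ = ⊤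
  · exact finish hf φ fun q hq => (smAt_iff hf φ hq).2 fun h1 => hq.ne_top (top_le_iff.1 (h ▸ h1))
  obtain ⟨⟨q, hq⟩⟩ := Ideal.nonempty_minimalPrimes h
  have := hq.1.1
  obtain ⟨L, _, ι, d, h1, h2⟩ := hΛ q
  have hk : RingHom.ker (RingHom.id k) = ⊥ := (RingHom.injective_iff_ker_eq_bot _).1 injective_id
  obtain ⟨B, _, h, ψ, a1, a2, a3, a4⟩ := res d k A Λ L (RingHom.id k) f φ q ι (ι.comp β)
    surjective_id hf h1 (fun r => congrArg ι (e r)) (hk ▸ .top) (by rwa [hk, Ideal.map_bot])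
    (min_pow hq)
  obtain ⟨B', _, h', ψ', b1, b2, b3⟩ := ih _ (show J < _ from lt_of_le_of_ne (by
      rw [← hJ, Ideal.radical_eq_sInf ((Hs (h.comp f)).map ψ)]
      refine le_sInf fun r ⟨hr, hr'⟩ => hr'.radical_le_iff.2 ?_
      by_contra h3
      exact (smAt_iff a1 ψ hr').1 (a4 r hr' ((smAt_iff hf φ hr').2 h3)) hr) fun h3 =>
    (smAt_iff a1 ψ this).1 a3 (Ideal.le_radical.trans (h3.symm.trans hJ.symm).le |>.trans
      (this.radical_le_iff.2 hq.1.2))) B (h.comp f) ψ a1 (fun r => (a2 _).trans (e r)) rfl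
  exact ⟨B', _, h'.comp h, ψ', b1, fun a => (b2 _).trans (a2 a), b3⟩

/-- Desingularization over a discrete valuation ring. -/
theorem popescu_dvr {K k : Type} [Field K] [PerfectField K] [Field k] [PerfectField k]
    [IsNoetherianRing R] [IsNoetherianRing Λ] {β : R →+* Λ} {π : R}
    (hπ : ∀ r, π * r = 0 → r = 0) (hπ' : ∀ μ, β π * μ = 0 → μ = 0) {j : R →+* K}
    (hj : Lc j (Submonoid.powers π)) {τ : R →+* k} (hτ : Surjective τ)
    (kτ : RingHom.ker τ = Ideal.span {π}) (h1 : LocRS Λ) (h2 : LocRS (Λ ⧸ Ideal.span {β π})) :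
    IndSm β := fun A _ f φ hf e => by
  obtain ⟨L, _, ι, hι⟩ := exists_lc (Submonoid.powers (β π))
  obtain ⟨A', _, ι', hι'⟩ := exists_lc (Submonoid.powers (f π))
  have : IsNoetherianRing L := noeth_of_ft hι.ft
  obtain ⟨f', c1⟩ := hj.lift (ι'.comp f) (by
    rintro _ ⟨n, rfl⟩; exact hι'.unit _ ⟨n, by simp⟩)
  obtain ⟨φ', c2⟩ := hι'.lift (ι.comp φ) (by
    rintro _ ⟨n, rfl⟩; exact hι.unit _ ⟨n, by simp [e]⟩)
  obtain ⟨B, _, h, ψ, a1, a2, a3⟩ := popescu_field (h1.loc hι) (φ'.comp f') A' f' φ'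
    (RingHom.FiniteType.of_comp_finiteType (f := j) (ft_congr (hι'.ft.comp hf) fun r =>
      (c1 r).symm)) fun _ => rfl
  have c3 : ∀ r, ((h.comp f').comp j) r = ((h.comp ι').comp f) r := fun r => by simp [c1]
  obtain ⟨C₁, _, h₁, ψ₁, c, b1, b2, ⟨n, b3⟩, b4⟩ := weak hf φ hι (h := h.comp ι') (ψ := ψ)
    (ft_congr (a1.comp hj.ft) c3) (fun a => (a2 _).trans (c2 a)) ((hj.smOn.comp_empty a3).congr c3)
  obtain ⟨C₂, _, h₂, ψ₂, d1, d2, d3, -⟩ := pure b1 ψ₁ (a := fun _ : Unit => c) (fun _ => b4)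
    (π := π) (n := n) (Ideal.subset_span ⟨(), by simp [← b3, b2, e]⟩)
  have e₂ : ∀ r, ψ₂ ((h₂.comp (h₁.comp f)) r) = β r := fun r => by simp [d2, b2, e]
  obtain ⟨N, hN⟩ := slice hπ (fun n μ h => by rw [nzd_pow hπ' n μ h, mul_zero]) d1 e₂ d3
  obtain ⟨β₁, c4⟩ := exists_lift hτ ((Ideal.Quotient.mk (Ideal.span {β π})).comp β) fun r hr => by
    obtain ⟨c, rfl⟩ := Ideal.mem_span_singleton'.1 (kτ.le hr)
    exact Ideal.Quotient.eq_zero_iff_mem.2 (by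
      rw [map_mul]; exact Ideal.mul_mem_left _ _ (Ideal.mem_span_singleton_self _))
  obtain ⟨R₀, Λ₀, _, _, ρ, θ, β₀, hρ, hθ, kρ, kθ, c5, c6⟩ := ((Chain.top (β := β)).pow
    (γ := RingHom.id R) (β₁ := β) (fun _ => rfl) (x := π) (by simpa using hπ') N).qi
    ⟨k, _, _, _, τ, Ideal.Quotient.mk _, β₁, hτ, Ideal.Quotient.mk_surjective, by simp [kτ],
      by simp [Ideal.map_span], c4, popescu_field h2 β₁⟩
  rw [Ideal.map_span, Set.image_singleton, map_pow] at kθ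
  obtain ⟨A₀, _, κ, f₀, φ₀, g1, g2, g3, -⟩ := exists_quot _ ψ₂ hρ (θ := θ) d1 fun r hr => by
    rw [e₂, ← c5, hr, map_zero]
  obtain ⟨C₀, _, h₀, χ, i1, i2, i3⟩ := c6 A₀ f₀ φ₀ g1 (hρ.forall.2 fun r => by rw [g2, g3, e₂, c5])
  obtain ⟨B₁, _, h₃, ψ₃, k1, k2, k3, k4⟩ := hN R₀ Λ₀ C₀ ρ θ (h₀.comp f₀) (h₀.comp κ) χ hρ hθ kρ kθ
    i1 (fun r => by simp [g2]) fun a => by simp [i2, g3]
  obtain ⟨B₂, _, h₄, ψ₄, l1, l2, l3⟩ := finish k1 ψ₃ fun q hq => by
    by_cases h3 : β π ∈ q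
    · obtain ⟨h4, h5⟩ := prime_map hθ kθ hq h3
      exact h5 ▸ k4 _ h4 (i3.mono' (Set.empty_subset _))
    · exact k3.smAt fun h4 => h3 (by rwa [Ideal.mem_comap, k2, e₂] at h4)
  exact ⟨B₂, _, h₄.comp (h₃.comp (h₂.comp h₁)), ψ₄, l1, fun a => by simp [l2, k2, d2, b2], l3⟩

end Pool.Agent.Lib.MP_a37f0b_ag.Pop
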