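import Pool.Agent.Lib.MP_a37f0b_ag.PopLift
import Pool.Agent.Lib.MP_a37f0b_ag.PopDes

/-!
Reduction modulo a power of a standard element.
-/

open MvPolynomial Function

namespace Pool.Agent.Lib.MP_a37f0b_ag.Pop

variable {R A Λ : Type} [CommRing R] [CommRing A] [CommRing Λ]

theorem slice [IsNoetherianRing R] {β : R →+* Λ} {π : R} (hπ : ∀ r, π * r = 0 → r = 0)
    (hΛ : ∀ n μ, β π ^ n * μ = 0 → β π * μ = 0) {f : R →+* A} (hf : f.FiniteType)
    {φ : A →+* Λ} (hφ : ∀ r, φ (f r) = β r) (hs : SmOn f {f π}) :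
    ∃ N : ℕ, ∀ (R₀ Λ₀ C₀ : Type) [CommRing R₀] [CommRing Λ₀] [CommRing C₀] (ρ : R →+* R₀)
      (θ : Λ →+* Λ₀) (c : R₀ →+* C₀) (κ : A →+* C₀) (χ : C₀ →+* Λ₀), Surjective ρ →
      Surjective θ → RingHom.ker ρ = Ideal.span {π ^ (N + 1)} →
      RingHom.ker θ = Ideal.span {β π ^ (N + 1)} → c.FiniteType → (∀ r, κ (f r) = c (ρ r)) →
      (∀ a, χ (κ a) = θ (φ a)) →
      ∃ (B : Type) (_ : CommRing B) (h : A →+* B) (ψ : B →+* Λ), (h.comp f).FiniteType ∧
        (∀ a, ψ (h a) = φ a) ∧ SmOn (h.comp f) {h (f π)} ∧ ∀ r₀ : Ideal Λ₀, r₀.IsPrime →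
          SmAt c (r₀.comap χ) → SmAt (h.comp f) ((r₀.comap θ).comap ψ) := by
  have nz : ∀ n r, π ^ n * r = 0 → r = 0 := fun n => by
    induction n with
    | zero => simp
    | succ n ih => exact fun r hr => hπ r (ih _ (by rw [← hr]; ring))
  have nl : ∀ n m μ, β π ^ n * μ = 0 → β π ^ (m + 1) * μ = 0 := fun n m μ h => by
    rw [pow_succ, mul_assoc, hΛ n μ h, mul_zero]
  obtain ⟨n, pA, hpA, eA⟩ := exists_pres hf
  obtain ⟨s, ⟨M, hM⟩, hE⟩ := SmOn.elk' hpA eA (T := Submonoid.powers (f π))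
    (hs.mono' (Set.singleton_subset_iff.2 (Submonoid.mem_powers _)))
  have hE' : Elk (RingHom.ker pA) ⊥ (MvPolynomial.C (π ^ (M + 1))) :=
    Elk.congr ((elkI (RingHom.ker pA) ⊥).mul_mem_left (MvPolynomial.C π) hE) (by
      rw [map_mul, eA, eA, ← hM, map_pow, pow_succ'])
  refine ⟨8 * M + 7, fun R₀ Λ₀ C₀ _ _ _ ρ θ c κ χ hρ hθ kρ kθ hc e1 e2 => ?_⟩
  obtain ⟨m, p, hp, ep⟩ := exists_pres (hc.comp (RingHom.FiniteType.of_surjective ρ hρ))
  obtain ⟨D, _, j, δ, a1, a2, a3, a4, a5, a6⟩ := lift_lemma (β := β) (ϖ := (π ^ (M + 1)) ^ 4)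
    (fun r hr => nz _ r (by rwa [← pow_mul] at hr))
    (fun μ h => by
      rw [map_pow, map_pow, ← pow_mul] at h ⊢
      exact nl _ (4 * M + 3) μ (by rwa [← pow_mul] at h) ▸ congrArg (β π ^ · * μ) (by ring))
    hρ (kρ.trans (by congr 2; ring)) hθ (kθ.trans (by rw [map_pow, map_pow]; congr 2; ring))
    (c := c) (χ := χ) (fun r => by rw [← e1, e2, hφ]) hp ep
  choose P hP using fun i => hp (κ (pA (X i)))
  have b1 : ∀ F, p (ev MvPolynomial.C P F) = κ (pA F) := fun F =>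
    (map_ev' (β' := κ.comp f) (fun r => (ep r).trans (e1 r).symm) hP F).trans
      (ev_eq (κ.comp pA) (fun r => congrArg κ (eA r)) (fun _ => rfl) F)
  obtain ⟨B, _, h, ψ, c1, c2, c3, c4⟩ := desing (β := β) (π := π ^ (M + 1)) (nz _)
    (fun μ h => by
      rw [map_pow] at h ⊢
      exact nl _ M μ (by rwa [← pow_mul] at h))
    hpA eA hE' hφ a1 a2 (fun i => j (P i))
    (fun F hF => by
      rw [← map_ev j, ← map_pow]
      exact a4 _ (by rw [b1, hF, map_zero]))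
    (fun i => by
      have : φ (pA (X i)) - δ (j (P i)) ∈ RingHom.ker θ := by
        rw [RingHom.mem_ker, map_sub, a3, hP, e2, sub_self]
      rw [kθ, Ideal.mem_span_singleton] at this
      rw [Ideal.mem_span_singleton, map_pow, ← pow_mul]
      exact (pow_dvd_pow _ (by omega)).trans this)
    (a5.mono fun C _ g hg t ht => by
      rw [show t = (j.comp MvPolynomial.C) (π ^ (M + 1)) ^ 4 from
        ht.trans (map_pow (j.comp MvPolynomial.C) _ _), map_pow]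
      exact (hg _ rfl).pow 4)
  refine ⟨B, _, h, ψ, c1, c2, c3.mono fun C _ g hg t ht => ?_, fun r₀ hr h0 =>
    c4 _ (hr.comap θ) ?_ (a6 r₀ hr h0)⟩
  · rw [show t = h (f (π ^ (M + 1))) from ht, map_pow, map_pow, map_pow]
    exact (hg _ rfl).pow _
  · have : β π ^ (8 * M + 7 + 1) ∈ RingHom.ker θ := kθ ▸ Ideal.mem_span_singleton_self _
    rw [map_pow]
    exact Ideal.pow_mem_of_mem _ ((hr.comap θ).mem_of_pow_mem _
      (Ideal.mem_comap.2 ((RingHom.mem_ker.1 this).symm ▸ r₀.zero_mem))) _ (Nat.succ_pos M)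

end Pool.Agent.Lib.MP_a37f0b_ag.Pop
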