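import Pool.Agent.Lib.MP_a37f0b_ag.Smooth
import Mathlib.Algebra.Polynomial.Homogenize

/-!
Inverting primitive polynomials, and finite residue fields.
-/

open Polynomial IsLocalRing

namespace Pool.Agent.Lib.MP_a37f0b_ag

variable {R B Q : Type} [CommRing R] [CommRing B] [CommRing Q]

noncomputable def ev (φ : R →+* B) (x z : B) (n : ℕ) (g : R[X]) : B :=
  ∑ k ∈ Finset.antidiagonal n, φ (g.coeff k.1) * (x ^ k.1 * z ^ k.2)

variable {φ : R →+* B} {x z : B} {n m : ℕ} {g g' : R[X]}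

lemma ev_eq : ev φ x z n g = MvPolynomial.eval₂Hom φ ![x, z] (g.homogenize n) := by
  simp [ev, homogenize, Finsupp.prod_fintype]

lemma ev_mul (h : g.natDegree ≤ n) (h' : g'.natDegree ≤ m) :
    ev φ x z (n + m) (g * g') = ev φ x z n g * ev φ x z m g' := by
  simp [ev_eq, homogenize_mul _ _ h h']

lemma ev_add : ev φ x z n (g + g') = ev φ x z n g + ev φ x z n g' := by simp [ev_eq]

lemma ev_X_pow (a b : ℕ) : ev φ x z (a + b) (X ^ a) = x ^ a * z ^ b := by
  simp [ev_eq]

lemma ev_one : ev φ x z n 1 = z ^ n := by simp [ev_eq]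

lemma ev_map (ρ : B →+* Q) : ρ (ev φ x z n g) = ev (ρ.comp φ) (ρ x) (ρ z) n g := by simp [ev]

lemma ev_alg [Algebra R B] [Algebra R Q] (ρ : B →ₐ[R] Q) :
    ρ (ev (algebraMap R B) x z n g) = ev (algebraMap R Q) (ρ x) (ρ z) n g := by simp [ev]

lemma ev_smul (s : B) : ev φ (s * x) (s * z) n g = s ^ n * ev φ x z n g := by
  rw [ev, ev, Finset.mul_sum]
  refine Finset.sum_congr rfl fun k hk => ?_
  rw [← Finset.mem_antidiagonal.1 hk]; ring

lemma ev_zero : ev φ x 0 n g = φ (g.coeff n) * x ^ n := by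
  rw [ev, Finset.sum_eq_single (n, 0)]
  · simp
  · rintro ⟨a, b⟩ h h'
    rw [zero_pow, mul_zero, mul_zero]
    rintro rfl
    simp_all
  · simp

lemma ev_eval (h : g.natDegree ≤ n) : ev φ x 1 n g = g.eval₂ φ x :=
  ev_eq.trans (eval₂_homogenize_of_eq_one h φ _ rfl)

lemma ev_congr (h : g.map φ = g'.map φ) : ev φ x z n g = ev φ x z n g' :=
  Finset.sum_congr rfl fun k _ => by rw [← coeff_map, h, coeff_map]

lemma ev_coprime {y : B} (hg : g.Monic) (h1 : IsCoprime x y) (h2 : y ∣ z) :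
    IsCoprime (ev φ x z g.natDegree g) y := by
  obtain ⟨c, hc⟩ : y ∣ ev φ x z g.natDegree g - x ^ g.natDegree := by
    rw [← Ideal.mem_span_singleton, ← Ideal.Quotient.eq_zero_iff_mem, map_sub, ev_map,
      Ideal.Quotient.eq_zero_iff_mem.2 (Ideal.mem_span_singleton.2 h2), ev_zero]
    simp [hg]
  rw [eq_add_of_sub_eq' hc]
  exact h1.pow_left.add_mul_left_left c

lemma ev_div [Nontrivial R] {f h : R[X]} {D : ℕ} (hh : h.Monic) (hc : IsCoprime f h) (hf : f.natDegree ≤ D)
    (h0 : ev φ x z D f = 0) (hD : D ≤ m) (hg : g.natDegree ≤ h.natDegree + m) :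
    ∃ w : R[X], w.natDegree ≤ m ∧
      ev φ x z (h.natDegree + m) g = ev φ x z h.natDegree h * ev φ x z m w := by
  obtain ⟨a, b, hab⟩ := hc
  obtain ⟨l, rfl⟩ := Nat.exists_eq_add_of_le hD
  have h1 : ((g * a) %ₘ h).natDegree ≤ h.natDegree := natDegree_le_natDegree
    (degree_modByMonic_lt _ hh).le
  have h2 : g = (g * a) %ₘ h * f + h * (g * b + (g * a) /ₘ h * f) := by
    linear_combination -g * hab - f * modByMonic_add_div (g * a) h
  have h3 : (g * b + (g * a) /ₘ h * f).natDegree ≤ D + l := by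
    by_cases h4 : g * b + (g * a) /ₘ h * f = 0
    · simp [h4]
    have := hh.natDegree_mul' h4
    rw [← sub_eq_iff_eq_add'.2 h2] at this
    have := (natDegree_sub_le _ _).trans' this.ge
    have := natDegree_mul_le (p := (g * a) %ₘ h) (q := f)
    omega
  refine ⟨_, h3, ?_⟩
  rw [← ev_mul le_rfl h3]
  nth_rw 1 [h2]
  rw [ev_add, add_comm D, ← add_assoc, ev_mul (h1.trans le_self_add) hf, h0, mul_zero, zero_add]

noncomputable def evM (R : Type) [CommRing R] [Algebra R B] (x z : B) (n : ℕ) : Submodule R B :=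
  Submodule.span R {x, z} ^ n

lemma mem_evM [Algebra R B] {b : B} :
    b ∈ evM R x z n ↔ ∃ g : R[X], g.natDegree ≤ n ∧ b = ev (algebraMap R B) x z n g := by
  constructor
  · intro hb
    induction hb using Submodule.pow_induction_on_left' with
    | algebraMap r => exact ⟨C r, by simp, by simp [ev]⟩
    | add a b i _ _ h h' =>
      obtain ⟨g, h1, rfl⟩ := h
      obtain ⟨g', h2, rfl⟩ := h'
      exact ⟨g + g', natDegree_add_le_of_degree_le h1 h2, ev_add.symm⟩
    | mem_mul a ha i b _ h =>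
      obtain ⟨g, h1, rfl⟩ := h
      obtain ⟨c, d, rfl⟩ := Submodule.mem_span_pair.1 ha
      have : (C c * X + C d).natDegree ≤ 1 := natDegree_linear_le
      refine ⟨g * _, natDegree_mul_le.trans (add_le_add h1 this), ?_⟩
      rw [ev_mul h1 this, mul_comm]
      simp [ev, Finset.Nat.antidiagonal_succ, Algebra.smul_def, add_comm]
  · rintro ⟨g, -, rfl⟩
    refine sum_mem fun k hk => ?_
    rw [← Algebra.smul_def, evM, ← Finset.mem_antidiagonal.1 hk, pow_add]
    exact Submodule.smul_mem _ _ (Submodule.mul_mem_mul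
      (Submodule.pow_mem_pow _ (Submodule.subset_span (by simp)) _)
      (Submodule.pow_mem_pow _ (Submodule.subset_span (by simp)) _))

lemma ev_mem [Algebra R B] (h : g.natDegree ≤ n) : ev (algebraMap R B) x z n g ∈ evM R x z n :=
  mem_evM.2 ⟨g, h, rfl⟩

lemma evM_mul [Algebra R B] {a b : B} (ha : a ∈ evM R x z n) (hb : b ∈ evM R x z m) :
    a * b ∈ evM R x z (n + m) := by
  rw [evM, pow_add]; exact Submodule.mul_mem_mul ha hb

lemma cop_res [IsLocalRing R] {f h w : R[X]} (hh : h.Monic)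
    (H : h.map (residue R) = 1 + f.map (residue R) * w.map (residue R)) : IsCoprime f h := by
  obtain ⟨ρ, h1, a, b, h2⟩ := res_lemma (residue R) hh (g := f)
    ⟨1, -w.map (residue R), by rw [H]; ring⟩
  obtain ⟨u, hu⟩ := ((res_unit ρ h1.ne_zero).map C).exists_left_inv
  exact ⟨u * b, u * a, by linear_combination u * h2 + hu⟩

lemma core_fin [IsLocalRing R] [Algebra R B] {y t : B} (ha : Algebra.adjoin R {y, t} = ⊤)
    {f F : R[X]} {i D : ℕ} (hF : F.Monic) (hi : F.natDegree = i + 1)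
    (hf : f.map (residue R) = F.map (residue R)) (hD : f.natDegree ≤ D) (hx : x = y * t - 1)
    (h0 : ev (algebraMap R B) x (y ^ 2) D f = 0)
    (h1 : ev (algebraMap R B) x (y ^ 2) (i + 1) F * t + (y ^ 2) ^ i * (x + y + y ^ 3) = 0) :
    Module.Finite R B := by
  set z := y ^ 2 with hz
  let M := evM R x z (i + 1 + D)
  let N := M ⊔ M.map (LinearMap.mulLeft R y)
  have hN : ∀ u ∈ M, ∀ v ∈ M, u + y * v ∈ N := fun u hu v hv =>
    Submodule.add_mem_sup hu ⟨v, hv, rfl⟩
  have e0 : ∀ a b, x ^ a * z ^ b ∈ evM R x z (a + b) := fun a b =>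
    mem_evM.2 ⟨_, by simp, (ev_X_pow a b).symm⟩
  have e1 : x * z ^ i ∈ evM R x z (i + 1) := by simpa [add_comm] using e0 1 i
  have e2 : z ^ (i + 1) ∈ evM R x z (i + 1) := by simpa using e0 0 (i + 1)
  have e3 := ev_mem (x := x) (z := z) hi.le
  have m1 : (F + 1).Monic := hF.add_of_left (by rw [degree_one, ← natDegree_pos_iff_degree_pos]; omega)
  have d1 : (F + 1).natDegree = i + 1 := by rw [← hi, ← C_1, natDegree_add_C]
  have m2 : (X * F + 1).Monic := (monic_X.mul hF).add_of_left (by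
    rw [degree_one, ← natDegree_pos_iff_degree_pos, monic_X.natDegree_mul hF]; omega)
  have d2 : (X * F + 1).natDegree = 1 + (i + 1) := by
    rw [← hi, ← C_1, natDegree_add_C, monic_X.natDegree_mul hF, natDegree_X]
  have hy : ∀ b ∈ N, y * b ∈ N := fun b hb => by
    obtain ⟨u, hu, _, ⟨v, hv, rfl⟩, rfl⟩ := Submodule.mem_sup.1 hb
    obtain ⟨g, h2, h3⟩ := mem_evM.1 (evM_mul (show z ∈ evM R x z 1 by simpa using e0 0 1) hv)
    obtain ⟨w, h4, h5⟩ := ev_div m2 (cop_res m2 (w := X) (by simp [hf]; ring)) hD h0 le_rfl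
      (g := g) (by omega)
    rw [d2, add_assoc 1, ← h3, ev_add, ev_mul natDegree_X_le hi.le, ev_one,
      show ev _ x z 1 X = x by simp [ev, Finset.Nat.antidiagonal_succ]] at h5
    have h6 := ev_mem (x := x) (z := z) h4
    convert hN _ (neg_mem (evM_mul (add_mem e3 e2) h6)) _ (sub_mem hu (evM_mul e1 h6)) using 1
    rw [LinearMap.mulLeft_apply]
    generalize ev (algebraMap R B) x z D w = W at *
    generalize ev (algebraMap R B) x z (i + 1) F = E at *
    rw [hz] at *
    linear_combination h5 + W * y * h1 + W * E * hx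
  have ht : ∀ u ∈ M, t * u ∈ N := fun u hu => by
    obtain ⟨g, h2, rfl⟩ := mem_evM.1 hu
    obtain ⟨w, h4, h5⟩ := ev_div m1 (cop_res m1 (w := 1) (by simp [hf]; ring)) hD h0 le_rfl
      (g := g) (by omega)
    rw [d1, ev_add, ev_one] at h5
    have h6 := ev_mem (x := x) (z := z) h4
    convert hN _ (neg_mem (evM_mul e1 h6)) _ (evM_mul (sub_mem e1 e2) h6) using 1
    rw [h5]
    generalize ev (algebraMap R B) x z D w = W at *
    generalize ev (algebraMap R B) x z (i + 1) F = E at *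
    rw [hz] at *
    linear_combination W * h1 - W * y * (y ^ 2) ^ i * hx
  have hs : ∀ c, ∀ b ∈ N, c * b ∈ N := fun c => by
    induction (ha.ge trivial : c ∈ Algebra.adjoin R {y, t}) using Algebra.adjoin_induction with
    | mem c hc =>
      obtain rfl | rfl := hc
      · exact hy
      · intro b hb
        obtain ⟨u, hu, _, ⟨v, hv, rfl⟩, rfl⟩ := Submodule.mem_sup.1 hb
        rw [LinearMap.mulLeft_apply, mul_add, mul_left_comm]
        exact add_mem (ht u hu) (hy _ (ht v hv))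
    | algebraMap r => exact fun b hb => Algebra.smul_def r b ▸ N.smul_mem r hb
    | add c d _ _ h h' => exact fun b hb => add_mul c d b ▸ add_mem (h b hb) (h' b hb)
    | mul c d _ _ h h' => exact fun b hb => mul_assoc c d b ▸ h _ (h' b hb)
  have hM : M.FG := (Submodule.fg_span (by simp)).pow _
  refine ⟨(eq_top_iff.2 fun b _ => ?_ : N = ⊤) ▸ hM.sup (hM.map _)⟩
  obtain ⟨c, d, h⟩ : IsCoprime (x ^ (i + 1 + D)) (z ^ (i + 1 + D)) :=
    (IsCoprime.pow_right ⟨-1, t, by rw [hx]; ring⟩).pow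
  rw [← mul_one b, ← h]
  exact hs _ _ (add_mem (hs _ _ (Submodule.mem_sup_left (by simpa using e0 (i + 1 + D) 0)))
    (hs _ _ (Submodule.mem_sup_left (by simpa using e0 0 (i + 1 + D)))))

lemma core_mono {y t : B} {F : R[X]} {i e : ℕ} (hF : F.Monic) (hi : F.natDegree = i + 1)
    (he : e ≤ i) (hx : x = y * t - 1) (h0 : (y ^ 2) ^ e * ev φ x (y ^ 2) (i + 1) F = 0)
    (h1 : ev φ x (y ^ 2) (i + 1) F * t + (y ^ 2) ^ i * (x + y + y ^ 3) = 0) :
    ∃ a : R[X], a.eval₂ φ y = t := by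
  have c1 : IsCoprime x y := ⟨-1, t, by rw [hx]; ring⟩
  have c2 := hi ▸ ev_coprime (φ := φ) hF c1 (dvd_pow_self y two_ne_zero)
  obtain ⟨l, k, h2⟩ := ev_coprime (φ := C) (x := -1 - X ^ 2) hF ⟨-1, -X, by ring⟩ dvd_rfl
  replace h2 := congr(eval₂RingHom φ y $h2)
  rw [map_add, map_mul, map_mul, ev_map, hi, map_one] at h2
  simp only [coe_eval₂RingHom, eval₂_X, eval₂_sub, eval₂_neg, eval₂_one, eval₂_pow] at h2
  rw [show (eval₂RingHom φ y).comp C = φ from RingHom.ext (by simp)] at h2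
  refine ⟨(k ^ 2 * X ^ 2) ^ e * k * (1 - X - X ^ 3), ?_⟩
  simp only [eval₂_mul, eval₂_pow, eval₂_X, eval₂_sub, eval₂_one]
  obtain ⟨d, rfl⟩ := Nat.exists_eq_add_of_le he
  set E := ev φ x (y ^ 2) (e + d + 1) F
  set κ := k.eval₂ φ y
  obtain ⟨c, hc⟩ : E ∣ (κ ^ 2 * y ^ 2) ^ e * κ * (1 - y - y ^ 3) - t := by
    rw [← Ideal.mem_span_singleton, ← Ideal.Quotient.eq_zero_iff_mem]
    set ρ := Ideal.Quotient.mk (Ideal.span {E})
    have h3 : ρ E = 0 := Ideal.Quotient.mk_singleton_self E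
    have h4 : IsUnit (ρ y) := isCoprime_zero_left.1 (h3 ▸ c2.map ρ)
    have h5 : ρ x = ρ (y * (-1 - y ^ 2)) := by
      have := congr(ρ $h1)
      rw [map_add, map_mul, h3, zero_mul, zero_add, map_zero, map_mul, map_pow, map_pow,
        ((h4.pow 2).pow _).mul_right_eq_zero] at this
      rw [← sub_eq_zero, ← map_sub, ← this]; congr 1; ring
    replace h3 : ρ (ev φ x (y ^ 2) (e + d + 1) F) = 0 := h3
    rw [ev_map, h5, pow_two y, ← ev_map, ev_smul, map_mul, map_pow,
      (h4.pow _).mul_right_eq_zero] at h3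
    replace h2 := congr(ρ $h2)
    rw [map_add, map_mul, pow_two, h3, mul_zero, zero_add, map_mul, map_one] at h2
    simp only [hx, map_sub, map_mul, map_pow, map_one, map_neg] at h5 ⊢
    rw [← mul_pow, h2, one_pow, one_pow]
    linear_combination -ρ κ * h5 + ρ t * h2
  obtain ⟨p, q, h⟩ : IsCoprime (E * E) ((y ^ 2) ^ e) := (c2.mul_left c2).pow_right.pow_right
  rw [mul_pow] at hc ⊢
  linear_combination -((κ ^ 2) ^ e * (y ^ 2) ^ e * κ * (1 - y - y ^ 3) - t) * h + p * E * (κ ^ 2) ^ e * κ * (1 - y - y ^ 3) * h0 - p * E * h1 +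
    p * (y ^ 2) ^ d * (x + y + y ^ 3) * h0 + q * (y ^ 2) ^ e * hc + q * c * h0

variable [IsLocalRing R]

lemma core_surj [Algebra R B] {y t : B} (ha : Algebra.adjoin R {y, t} = ⊤)
    {f F : R[X]} {i e : ℕ} (hF : F.Monic) (hi : F.natDegree = i + 1) (he : e ≤ i)
    (hf : f.map (residue R) = F.map (residue R)) (hD : f.natDegree ≤ e + (i + 1))
    (hx : x = y * t - 1) (h0 : ev (algebraMap R B) x (y ^ 2) (e + (i + 1)) f = 0)
    (h1 : ev (algebraMap R B) x (y ^ 2) (i + 1) F * t + (y ^ 2) ^ i * (x + y + y ^ 3) = 0) :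
    (∃ a : R[X], aeval y a = t) ∧ IsIntegral R y := by
  have := core_fin ha hF hi hf hD hx h0 h1
  refine ⟨?_, Algebra.IsIntegral.isIntegral y⟩
  let ρ := Ideal.Quotient.mkₐ R ((maximalIdeal R).map (algebraMap R B))
  obtain ⟨a, h2⟩ := core_mono (φ := algebraMap R _) (x := ρ x) (y := ρ y) (t := ρ t) hF hi he
    (by simp [hx]) (by
      have : f.map (algebraMap R _) = (1 * F).map (algebraMap R
          (B ⧸ (maximalIdeal R).map (algebraMap R B))) := by
        ext n
        rw [one_mul, coeff_map, coeff_map, ← sub_eq_zero, ← map_sub]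
        refine Ideal.Quotient.eq_zero_iff_mem.2 (Ideal.mem_map_of_mem _ ?_)
        rw [← residue_eq_zero_iff, map_sub, ← coeff_map, hf, coeff_map, sub_self]
      rw [← ev_one (φ := algebraMap R _) (x := ρ x), ← ev_mul (by simp) hi.le, ← ev_congr this]
      simpa [ev_alg] using congr(ρ $h0)) (by simpa [ev_alg] using congr(ρ $h1))
  have h3 : (ρ.comp (aeval y)).range = ⊤ := by
    rw [eq_top_iff, ← (AlgHom.range_eq_top ρ).2 Ideal.Quotient.mk_surjective, ← Algebra.map_top,
      ← ha, AlgHom.map_adjoin, Algebra.adjoin_le_iff]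
    rintro _ ⟨_, rfl | rfl, rfl⟩
    · exact ⟨X, by simp⟩
    · exact ⟨a, by rw [← h2, ← aeval_def, aeval_algHom_apply]; rfl⟩
  refine Submodule.le_of_le_smul_of_le_jacobson_bot (N := (aeval y).range.toSubmodule) (N' := ⊤)
    Module.Finite.fg_top (maximalIdeal_le_jacobson _) (fun b _ => ?_) trivial
  obtain ⟨g, hg⟩ := h3.ge (show ρ b ∈ ⊤ from trivial)
  rw [← add_sub_cancel (aeval y g) b, Ideal.smul_top_eq_map]
  exact Submodule.add_mem_sup ⟨g, rfl⟩ (Ideal.Quotient.eq.1 hg.symm)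

lemma monic_lift (hg : g.map (residue R) ≠ 0) : ∃ (c : R) (G : R[X]), G.Monic ∧
    G.map (residue R) = (C c * g).map (residue R) ∧ G.natDegree ≤ g.natDegree := by
  obtain ⟨c, hc⟩ := residue_surjective (g.map (residue R)).leadingCoeff⁻¹
  obtain ⟨G, h1, h2, h3⟩ := lifts_and_natDegree_eq_and_monic (f := residue R)
    (map_surjective _ residue_surjective _) (monic_mul_leadingCoeff_inv hg)
  exact ⟨c, G, h3, by simp [h1, hc, mul_comm],
    by rw [h2, natDegree_mul_leadingCoeff_inv _ hg]; exact natDegree_map_le⟩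

lemma prim_core {f F : R[X]} {j e : ℕ} (hF : F.Monic) (hj : F.natDegree = j + 1) (he : e ≤ j)
    (hf : f.map (residue R) = F.map (residue R)) (hD : f.natDegree < e + (j + 1)) :
    ∃ a β G : R[X], β.Monic ∧ IsUnit (G.coeff 0) ∧ IsCoprime G β ∧
      ev C a (X ^ 2) (e + (j + 1)) f ∣ β * G := by
  let y : R[X][X] := C X
  let Φ := ev (algebraMap R _) (y * X - 1) (y ^ 2) (e + (j + 1)) f
  let Ψ := ev (algebraMap R _) (y * X - 1) (y ^ 2) (2 * j + 1 + 1) (F * F) * X +
    (y ^ 2) ^ (2 * j + 1) * (y * X - 1 + y + y ^ 3)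
  let ρ := Ideal.Quotient.mkₐ R (Ideal.span {Φ * Φ, Ψ})
  have hρ : ∀ p, ρ p = 0 → ∃ u v, u * (Φ * Φ) + v * Ψ = p := fun p hp =>
    Ideal.mem_span_pair.1 (Ideal.Quotient.eq_zero_iff_mem.1 hp)
  have hC : ∀ q, aeval y q = C q := fun q => by
    rw [show y = CAlgHom (R := R) X from rfl, aeval_algHom_apply, aeval_X_left_apply]; rfl
  obtain ⟨⟨a, ha⟩, p, hp, h1⟩ := core_surj (x := ρ (y * X - 1)) (y := ρ y) (t := ρ X) (f := f * f)
    (i := 2 * j + 1) (e := 2 * e) (by
      rw [← Set.image_pair, ← AlgHom.map_adjoin, ← (AlgHom.range_eq_top ρ).2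
        Ideal.Quotient.mk_surjective, ← Algebra.map_top]
      refine congr(Subalgebra.map ρ $(eq_top_iff.2 fun p _ => ?_))
      induction p using Polynomial.induction_on' with
      | add p q hp hq => exact add_mem (hp trivial) (hq trivial)
      | monomial n q =>
        rw [← C_mul_X_pow_eq_monomial, ← hC]
        exact mul_mem (Algebra.adjoin_mono (by simp) (aeval_mem_adjoin_singleton R y))
          (pow_mem (Algebra.subset_adjoin (by simp)) n))
    (hF.mul hF) (by rw [hF.natDegree_mul hF]; omega) (by omega) (by simp [hf])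
    (natDegree_mul_le.trans (by omega)) (by simp) (by
      rw [show 2 * e + (2 * j + 1 + 1) = e + (j + 1) + (e + (j + 1)) by omega, ev_mul hD.le hD.le]
      rw [← map_pow, ← ev_alg, ← map_mul]
      exact Ideal.Quotient.eq_zero_iff_mem.2 (Ideal.subset_span (Or.inl rfl))) (by
      simp only [← map_pow, ← ev_alg, ← map_mul, ← map_add]
      exact Ideal.Quotient.eq_zero_iff_mem.2 (Ideal.subset_span (Or.inr rfl)))
  obtain ⟨u, v, h2⟩ := hρ (X - C a) (by rw [map_sub, ← ha, aeval_algHom_apply, hC, sub_self])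
  obtain ⟨u', v', h3⟩ := hρ (C p) (by rw [← hC, ← aeval_algHom_apply]; exact h1)
  have h4 := congr(eval a (derivative $h2))
  have h5 : ∀ b : R[X], (Φ.eval b).eval 0 = 0 ∧ (b.eval 0 = 0 → (Ψ.eval b).eval 0 = 0) := fun b => by
    refine ⟨?_, fun hb => by simp [Ψ, y, hb]⟩
    rw [← coe_evalRingHom, ← coe_evalRingHom, ev_map, ev_map]
    simp [y, ev_zero, coeff_eq_zero_of_natDegree_lt hD]
  have h6 : a.eval 0 = 0 := by simpa [h5] using congr(eval 0 (eval 0 $h2)).symm
  replace h2 := congr(eval a $h2)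
  replace h3 := congr(eval a $h3)
  simp only [derivative_add, derivative_mul, derivative_sub, derivative_X, derivative_C, eval_add,
    eval_mul, eval_sub, eval_X, eval_C, eval_one, sub_zero, sub_self] at h2 h3 h4
  have h7 : Φ.eval a = ev C (X * a - 1) (X ^ 2) (e + (j + 1)) f := by
    rw [← coe_evalRingHom, ev_map]
    congr 1
    · ext; simp
    all_goals simp [y]
  have h8 : IsUnit ((v.eval a).coeff 0) := IsUnit.of_mul_eq_one ((Ψ.derivative.eval a).eval 0) (by
    simpa [h5, h6, coeff_zero_eq_eval_zero] using congr(eval 0 $h4))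
  obtain ⟨c, G, h9, h10, -⟩ := monic_lift (g := v.eval a) fun h =>
    (h8.map (residue R)).ne_zero (by simpa using congr(coeff $h 0))
  generalize Φ.eval a = K at *
  generalize Ψ.eval a = P at *
  generalize v.eval a = w at *
  obtain ⟨s₁, s₂, s₃, h11⟩ : ∃ s₁ s₂ s₃, K * s₁ + P * s₂ + w * s₃ = 1 :=
    ⟨u.derivative.eval a * K + 2 * u.eval a * Φ.derivative.eval a, v.derivative.eval a,
      Ψ.derivative.eval a, by linear_combination h4⟩
  let b := K * K * s₁ ^ 2 + P * s₂ * (1 + K * s₁)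
  have h12 : (p * G * X ^ (b.natDegree + 1) + b).Monic :=
    ((hp.mul h9).mul (monic_X_pow _)).add_of_left (degree_lt_degree (by
      rw [(hp.mul h9).natDegree_mul (monic_X_pow _), natDegree_X_pow]; omega))
  refine ⟨X * a - 1, _, w, h12, h8, cop_res h12 (w := p * C c * X ^ (b.natDegree + 1) - s₃ * (1 + K * s₁))
    ?_, h7 ▸ ?_⟩
  · replace h11 := congr(map (residue R) $h11)
    simp only [b, Polynomial.map_add, Polynomial.map_mul, Polynomial.map_pow, Polynomial.map_one,
      Polynomial.map_sub, h10] at h11 ⊢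
    linear_combination (1 + K.map (residue R) * s₁.map (residue R)) * h11
  · exact ⟨K * ((u'.eval a * w - v'.eval a * u.eval a) * G * X ^ (b.natDegree + 1) + s₁ ^ 2 * w -
      u.eval a * s₂ * (1 + K * s₁)), by
      linear_combination (v'.eval a * G * X ^ (b.natDegree + 1) + s₂ * (1 + K * s₁)) * h2 -
        G * X ^ (b.natDegree + 1) * w * h3⟩

variable {A ι : Type} [CommRing A] [IsDomain A] [Fintype ι] {e : Matrix ι ι A}

lemma two_patch (he : e * e = e) {β G : A[X]} (hβ : β.Monic) (hG : IsUnit (G.coeff 0))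
    (hc : IsCoprime G β) (hq : QFree (iP A (β * G)) (e.map ((iP A).comp C))) : Free e := by
  obtain ⟨ψ, h1, h2, h3⟩ := (isLoc_iP (A := A)).inv
  have hu := (isLoc_iP (A := A)).unit X (Submonoid.mem_powers _)
  have g0 : (reverse β).eval 0 = 1 := by
    rw [← coeff_zero_eq_eval_zero, coeff_zero_reverse, hβ.leadingCoeff]
  have c1 : IsCoprime (reverse β) X := by
    refine ⟨1, -divX (reverse β), ?_⟩
    have := divX_mul_X_add (reverse β)
    rw [coeff_zero_eq_eval_zero, g0, C_1] at this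
    linear_combination -this
  have c2 : IsCoprime (reverse β) (reverse G) := by
    obtain ⟨p, q, h⟩ := hc.map (iP A)
    obtain ⟨_, ⟨k, rfl⟩, p', hp⟩ := h1.surj (p * iP A X ^ G.natDegree)
    obtain ⟨_, ⟨l, rfl⟩, q', hq⟩ := h1.surj (q * iP A X ^ β.natDegree)
    have : X ^ k * X ^ l = reverse G * (p' * X ^ l) + reverse β * (q' * X ^ k) := h1.inj (by
      simp only [map_add, map_mul, ← hp, ← hq]
      rw [← h3 G, ← h3 β] at h
      linear_combination -ψ (X ^ k) * ψ (X ^ l) * h)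
    exact (this ▸ c1.pow_right.mul_right c1.pow_right).of_add_mul_left_right.of_mul_right_left
  obtain ⟨w, hw⟩ := ((hu.pow β.natDegree).mul (hu.pow G.natDegree)).exists_right_inv
  rw [← h2, ← map_comp'] at hq
  obtain ⟨_, ⟨n, rfl⟩, h4⟩ := h1.qfree (a := reverse β * reverse G) (hq.of_dvd ⟨w, by
    rw [map_mul, map_mul, ← h3 β, ← h3 G]; linear_combination -ψ β.reverse * ψ G.reverse * hw⟩)
  obtain ⟨u, hu⟩ := hG.exists_left_inv
  have h5 : (C u * reverse G * X ^ n).Monic := (monic_C_mul_of_mul_leadingCoeff_eq_one (by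
    rwa [reverse_leadingCoeff, trailingCoeff_eq_coeff_zero hG.ne_zero])).mul (monic_X_pow n)
  obtain ⟨B, _, _, l, hl⟩ := exists_loc (zero_notMem_powers (a := reverse β) fun h => by simp [h] at g0)
  obtain ⟨w', hw'⟩ := (hl.unit _ (Submonoid.mem_powers _)).exists_right_inv
  obtain ⟨μ, _, d, hd, h6, k, h7⟩ := (hl.an (f := C u * reverse G * X ^ n) (by
    rintro _ ⟨k, rfl⟩
    exact (((isCoprime_mul_unit_left_right (isUnit_C.2 (.of_mul_eq_one _ hu)) _ _).2 c2).mul_right
      c1.pow_right).pow_left)).desc h5.ne_zero (idem_map (idem_map he C) l)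
    ((h4.map l).of_dvd ⟨w' * l (C u), by
      simp only [map_mul]; linear_combination -l (C u) * l G.reverse * l (X ^ n) * hw'⟩)
  obtain ⟨χ, hχ⟩ := hl.lift (evalRingHom 0) (by rintro _ ⟨k, rfl⟩; simp [g0])
  have := (Free.of_eqv h6 (idem_map (idem_map he C) l) ((horrocks hd (h5.pow k) h7).map l)).map χ
  rwa [map_comp', hχ, map_comp', show (evalRingHom 0).comp C = RingHom.id A by ext; simp,
    RingHom.coe_id, Matrix.map_id] at this

theorem prim_inv (φ : R →+* A) (he : e * e = e) {f : R[X]} (hf : f.map (residue R) ≠ 0)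
    (hq : QFree (f.map φ) (e.map C)) : Free e := by
  obtain ⟨c, F, h1, h2, h3⟩ := monic_lift hf
  obtain ⟨N, hN⟩ := Nat.exists_eq_add_of_le h3
  have hD : (C c * f * X ^ (N + 2)).natDegree < N + 1 + (F.natDegree + N + 1 + 1) :=
    natDegree_mul_le.trans_lt (by have := natDegree_C_mul_le c f; rw [natDegree_X_pow]; omega)
  obtain ⟨a, β, G, h4, h5, h6, h7⟩ := prim_core (h1.mul (monic_X_pow (N + 2)))
    (by rw [h1.natDegree_mul (monic_X_pow _), natDegree_X_pow]; omega) (by omega)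
    (by rw [Polynomial.map_mul, ← h2, Polynomial.map_mul]) hD
  obtain ⟨t, ht⟩ := (((isLoc_iP (A := A)).unit X (Submonoid.mem_powers _)).pow 2).exists_right_inv
  have h8 := hq.map (eval₂RingHom ((iP A).comp C) (t * iP A (a.map φ)))
  rw [map_comp', show (eval₂RingHom _ _).comp C = (iP A).comp C from RingHom.ext (by simp)] at h8
  refine two_patch he (h4.map φ) (by simpa using h5.map φ) (h6.map (mapRingHom φ)) (h8.of_dvd ?_)
  replace h7 := map_dvd ((iP A).comp (mapRingHom φ)) h7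
  rw [ev_map, show ((iP A).comp (mapRingHom φ)) a = iP A X ^ 2 * (t * iP A (a.map φ)) by
    rw [← mul_assoc, ht, one_mul]; rfl, show ((iP A).comp (mapRingHom φ)) (X ^ 2) = iP A X ^ 2 * 1 by
      simp, ev_smul, ev_eval hD.le, eval₂_mul, eval₂_mul] at h7
  refine .trans ?_ (h7.trans (by simp))
  rw [coe_eval₂RingHom, eval₂_map, show ((iP A).comp C).comp φ =
    ((iP A).comp (mapRingHom φ)).comp C by ext; simp]
  exact ((dvd_mul_left _ _).mul_right _).mul_left _

theorem et_free {V τ : Type} [CommRing V] [IsDomain V] [IsPrincipalIdealRing V] [Finite τ]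
    [IsDomain R] {γ : MvPolynomial τ V →+* R} (h : Et γ) {v : V} (hv : v ≠ 0) (I : Finset τ) :
    AF R (Submonoid.powers (γ (MvPolynomial.C v * ∏ i ∈ I, MvPolynomial.X i))) := by
  intro A _ φ hφ ι _ e he
  have := hφ.domain
  let χ := (algebraMap _ (FractionRing (ResidueField R)[X])).comp (mapRingHom (residue R))
  obtain ⟨B, _, _, l, χ', h1, h2, h3⟩ := exists_locNZ χ
  let ε := (MvPolynomial.uniqueAlgEquiv R Unit).toRingEquiv
  have h4 := et_inf ((((h.mv (τ := Unit)).equiv (MvPolynomial.sumRingEquiv V Unit τ)).loc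
    (isLoc_equiv ε)).loc h1) h3 (Set.infinite_of_injective_forall_mem
      (f := fun n : ℕ => χ (X ^ n)) (fun n m hnm => by
        simpa using congr(natDegree $(IsFractionRing.injective (ResidueField R)[X] _
          (show algebraMap _ _ (mapRingHom _ _) = algebraMap _ _ (mapRingHom _ _) from hnm))))
      fun n => ⟨l (X ^ n), by rw [← h2]; rfl⟩) hv (I.map ⟨Sum.inr, Sum.inr_injective⟩)
  have h5 : LQ χ (C (γ (MvPolynomial.C v * ∏ i ∈ I, MvPolynomial.X i))) := by
    rw [← h2, h1.lq, ← LAF.lq h3]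
    simpa [ε] using h4
  obtain ⟨n, hn, h6⟩ := h5.af.qfree hφ.poly (by
    rintro _ ⟨_, ⟨k, rfl⟩, rfl⟩
    exact Sat.of_mem (Submonoid.mem_sup_right ⟨k, by simp⟩)) (idem_map he C)
  obtain ⟨f, hf, _, ⟨k, rfl⟩, rfl⟩ := Submonoid.mem_sup.1 hn
  refine prim_inv φ he (f := f) (fun h => hf (by simp [χ, h])) (h6.of_dvd ?_)
  rw [map_mul, IsUnit.mul_right_dvd]
  · rfl
  · simpa only [map_pow, coe_mapRingHom, map_C] using
      (isUnit_C.2 (hφ.unit _ (Submonoid.mem_powers _))).pow k

end Pool.Agent.Lib.MP_a37f0b_ag
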