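import Pool.Agent.Lib.MP_a37f0b_ag.Basic

-- part Pool.Agent.Lib.MP_a37f0b_ag.Patch
section

/-!
Patching of projective modules.
-/

open Matrix

namespace Pool.Agent.Lib.MP_a37f0b_ag

section patch

variable {A A₁ A₂ A₃ : Type} [CommRing A] [CommRing A₁] [CommRing A₂] [CommRing A₃]
  {i₁ : A →+* A₁} {i₂ : A →+* A₂} {j₁ : A₁ →+* A₃} {j₂ : A₂ →+* A₃}
  {I ι κ : Type} [Fintype I] [DecidableEq I] [Fintype ι] [Fintype κ]

/-- Factorization of an invertible matrix. -/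
def Fac (j₁ : A₁ →+* A₃) (j₂ : A₂ →+* A₃) (σ : Matrix I I A₃) : Prop :=
  ∃ (g₁ g₁' : Matrix I I A₁) (g₂ g₂' : Matrix I I A₂), g₁ * g₁' = 1 ∧ g₂ * g₂' = 1 ∧
    σ = g₁.map j₁ * g₂.map j₂

lemma map_mul_eq_one {g g' : Matrix I I A₁} (h : g * g' = 1) (j : A₁ →+* A₃) :
    g.map j * g'.map j = 1 := by rw [← Matrix.map_mul, h, map_one']

lemma Fac.symm {σ σ' : Matrix I I A₃} (h : Fac j₁ j₂ σ') (hσ : σ * σ' = 1) : Fac j₂ j₁ σ := by
  obtain ⟨g₁, g₁', g₂, g₂', h1, h2, rfl⟩ := h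
  refine ⟨g₂', g₂, g₁', g₁, mul_eq_one_comm.1 h2, mul_eq_one_comm.1 h1, ?_⟩
  calc σ = σ * (g₁.map j₁ * (g₂.map j₂ * g₂'.map j₂) * g₁'.map j₁) := by
        rw [map_mul_eq_one h2, Matrix.mul_one, map_mul_eq_one h1, Matrix.mul_one]
    _ = _ := by
        simp only [← Matrix.mul_assoc] at hσ ⊢
        rw [hσ, Matrix.one_mul]

/-- Approximation property. -/
def Apx (j₁ : A₁ →+* A₃) (j₂ : A₂ →+* A₃) : Prop :=
  ∀ (c : A₃) (s : Finset A₂), ∃ a : A₂, ∀ x ∈ s, ∃ b, j₁ b = j₂ x * (c - j₂ a)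

lemma Fac.step (hA : Apx j₁ j₂) (hj : Function.Injective j₁) {σ : Matrix I I A₃}
    (h : Fac j₁ j₂ σ) {p q : Matrix I I A₂} (hp : q * p = 0) (N : Matrix I I A₃) :
    Fac j₁ j₂ (σ * (1 + p.map j₂ * N * q.map j₂)) := by
  classical
  obtain ⟨g₁, g₁', g₂, g₂', h1, h2, rfl⟩ := h
  have h2' := mul_eq_one_comm.1 h2
  choose a ha using fun i j => hA (N i j) (Finset.univ.image fun t : I × I × I × I =>
    (g₂ * p) t.1 t.2.1 * (q * g₂') t.2.2.1 t.2.2.2)
  obtain ⟨D, hD⟩ : ∃ D, D = N - (Matrix.of a).map j₂ := ⟨_, rfl⟩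
  obtain ⟨E, hE⟩ := exists_map_eq j₁ ((g₂ * p).map j₂ * D * (q * g₂').map j₂) fun i j => by
    change _ ∈ j₁.range
    simp only [Matrix.mul_apply (M := _ * D), Matrix.mul_apply (N := D), Finset.sum_mul]
    refine sum_mem fun k _ => sum_mem fun l _ => ?_
    obtain ⟨b, hb⟩ := ha l k _ (Finset.mem_image_of_mem _ (Finset.mem_univ (i, l, k, j)))
    refine ⟨b, ?_⟩
    rw [hb, hD]
    simp only [map_mul, Matrix.map_apply, Matrix.sub_apply, Matrix.of_apply]
    ring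
  have qp : q.map j₂ * p.map j₂ = 0 := by rw [← Matrix.map_mul, hp]; ext; simp
  have G2 := map_mul_eq_one h2' j₂
  have E2 : E * E = 0 := Matrix.map_injective hj (by
    simp only [Matrix.map_mul, hE, Matrix.mul_assoc]
    rw [← Matrix.mul_assoc (g₂'.map j₂), G2, Matrix.one_mul, ← Matrix.mul_assoc (q.map j₂), qp]
    ext; simp)
  have N2 : p * Matrix.of a * q * (p * Matrix.of a * q) = 0 := by
    simp only [Matrix.mul_assoc]
    rw [← Matrix.mul_assoc q, hp]; simp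
  refine ⟨g₁ * (1 + E), (1 - E) * g₁', g₂ * (1 + p * Matrix.of a * q),
    (1 - p * Matrix.of a * q) * g₂', ?_, ?_, ?_⟩
  · rw [Matrix.mul_assoc, ← Matrix.mul_assoc (1 + E)]
    simp [Matrix.mul_sub, Matrix.add_mul, E2, h1]
  · rw [Matrix.mul_assoc, ← Matrix.mul_assoc (1 + _)]
    simp [Matrix.mul_sub, Matrix.add_mul, N2, h2]
  · have e1 : N = D + (Matrix.of a).map j₂ := by rw [hD, sub_add_cancel]
    simp only [Matrix.map_mul, map_add', map_one', hE, Matrix.mul_assoc]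
    congr 1
    rw [e1]
    simp only [Matrix.mul_add, Matrix.add_mul, Matrix.mul_assoc, Matrix.one_mul, Matrix.mul_one]
    rw [G2, ← Matrix.mul_assoc (g₂'.map j₂), G2, Matrix.one_mul, ← Matrix.mul_assoc (q.map j₂), qp]
    simp only [Matrix.zero_mul, Matrix.mul_zero, add_zero, Matrix.mul_one]
    abel

/-- Patching squares. -/
structure Sq (i₁ : A →+* A₁) (i₂ : A →+* A₂) (j₁ : A₁ →+* A₃) (j₂ : A₂ →+* A₃) : Prop where
  inj₁ : Function.Injective i₁
  inj₂ : Function.Injective i₂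
  pull : ∀ a₁ a₂, j₁ a₁ = j₂ a₂ → ∃ a, i₁ a = a₁ ∧ i₂ a = a₂
  fac : ∀ (ι κ : Type) [Fintype ι] [Fintype κ] [DecidableEq ι] [DecidableEq κ]
    (N₁ N₃ : Matrix ι κ A₃) (N₂ : Matrix κ ι A₃),
    Fac j₁ j₂ (fromBlocks 1 N₁ 0 1 * fromBlocks 1 0 N₂ 1 * fromBlocks 1 N₃ 0 1)

lemma Sq.symm (h : Sq i₁ i₂ j₁ j₂) : Sq i₂ i₁ j₂ j₁ :=
  ⟨h.inj₂, h.inj₁, fun a₂ a₁ H => let ⟨a, h1, h2⟩ := h.pull a₁ a₂ H.symm; ⟨a, h2, h1⟩,
    fun ι κ _ _ _ _ N₁ N₃ N₂ => (h.fac ι κ (-N₃) (-N₁) (-N₂)).symm (by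
      simp only [Matrix.mul_assoc]
      rw [← Matrix.mul_assoc (fromBlocks 1 N₃ 0 1)]
      simp [fromBlocks_multiply])⟩

lemma Apx.fac (hA : Apx j₁ j₂) (hj : Function.Injective j₁) [DecidableEq ι] [DecidableEq κ]
    (N₁ N₃ : Matrix ι κ A₃) (N₂ : Matrix κ ι A₃) :
    Fac j₁ j₂ (fromBlocks 1 N₁ 0 1 * fromBlocks 1 0 N₂ 1 * fromBlocks 1 N₃ 0 1) := by
  have h0 : Fac j₁ j₂ (1 : Matrix (ι ⊕ κ) (ι ⊕ κ) A₃) :=
    ⟨1, 1, 1, 1, Matrix.mul_one _, Matrix.mul_one _, by simp⟩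
  have e1 : ∀ N : Matrix ι κ A₃, fromBlocks 1 N 0 1 =
      1 + (fromBlocks 1 0 0 0 : Matrix (ι ⊕ κ) (ι ⊕ κ) A₂).map j₂ * fromBlocks 0 N 0 0 *
        (fromBlocks 0 0 0 1 : Matrix (ι ⊕ κ) (ι ⊕ κ) A₂).map j₂ := fun N => by
    simp [fromBlocks_map, fromBlocks_multiply, ← fromBlocks_one, fromBlocks_add]
  have e2 : fromBlocks 1 0 N₂ 1 =
      1 + (fromBlocks 0 0 0 1 : Matrix (ι ⊕ κ) (ι ⊕ κ) A₂).map j₂ * fromBlocks 0 0 N₂ 0 *
        (fromBlocks 1 0 0 0 : Matrix (ι ⊕ κ) (ι ⊕ κ) A₂).map j₂ := by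
    simp [fromBlocks_map, fromBlocks_multiply, ← fromBlocks_one, fromBlocks_add]
  rw [e1, e1, e2, ← Matrix.one_mul (1 + _ * fromBlocks 0 N₁ 0 0 * _)]
  exact ((h0.step hA hj (by simp [fromBlocks_multiply]) _).step hA hj
    (by simp [fromBlocks_multiply]) _).step hA hj (by simp [fromBlocks_multiply]) _

theorem Sq.patch (h : Sq i₁ i₂ j₁ j₂) [DecidableEq κ] {e : Matrix ι ι A₁} (he : e * e = e)
    {U : Matrix ι κ A₃} {V : Matrix κ ι A₃} (h1 : U * V = e.map j₁) (h2 : V * U = 1) :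
    ∃ d : Matrix (ι ⊕ κ) (ι ⊕ κ) A, d * d = d ∧ ∃ (α₁ : Matrix ι (ι ⊕ κ) A₁)
      (β₁ : Matrix (ι ⊕ κ) ι A₁) (α₂ : Matrix (ι ⊕ κ) κ A₂) (β₂ : Matrix κ (ι ⊕ κ) A₂),
      α₁ * β₁ = e ∧ β₁ * α₁ = d.map i₁ ∧ α₂ * β₂ = d.map i₂ ∧ β₂ * α₂ = 1 ∧
      α₁.map j₁ * α₂.map j₂ = U ∧ β₂.map j₂ * β₁.map j₁ = V := by
  classical
  obtain ⟨g₁, g₁', g₂, g₂', a1, a2, hσ⟩ := h.fac ι κ U U (-V)
  have eU : e.map j₁ * U = U := by rw [← h1, Matrix.mul_assoc, h2, Matrix.mul_one]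
  have Ve : V * e.map j₁ = V := by rw [← h1, ← Matrix.mul_assoc, h2, Matrix.one_mul]
  have ee := idem_map he j₁
  have s1 : g₁.map j₁ * g₂.map j₂ = fromBlocks (1 - e.map j₁) U (-V) 0 := by
    rw [← hσ]
    simp [fromBlocks_multiply, h1, h2, ← sub_eq_add_neg, Matrix.sub_mul, eU]
  have G1 := map_mul_eq_one a1 j₁
  have G2 := map_mul_eq_one a2 j₂
  have G1' := mul_eq_one_comm.1 G1
  have G2' := mul_eq_one_comm.1 G2
  have s2 : g₂'.map j₂ * g₁'.map j₁ = fromBlocks (1 - e.map j₁) (-U) V 0 := by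
    have : fromBlocks (1 - e.map j₁) U (-V) 0 * fromBlocks (1 - e.map j₁) (-U) V 0 = 1 := by
      simp [fromBlocks_multiply, h1, h2, Matrix.sub_mul, Matrix.mul_sub, eU, Ve, ee]
    rw [← Matrix.mul_one (g₂'.map j₂ * _), ← this, ← s1]
    simp only [Matrix.mul_assoc]
    rw [← Matrix.mul_assoc (g₁'.map j₁), G1', Matrix.one_mul, ← Matrix.mul_assoc, G2',
      Matrix.one_mul]
  have s3 : (g₁' * fromBlocks e 0 0 0 * g₁).map j₁ = (g₂ * fromBlocks 0 0 0 1 * g₂').map j₂ := by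
    have : (fromBlocks e 0 0 0).map j₁ * (g₁.map j₁ * g₂.map j₂) =
        g₁.map j₁ * g₂.map j₂ * (fromBlocks 0 0 0 1).map j₂ := by
      rw [s1]
      simp [fromBlocks_map, fromBlocks_multiply, Matrix.mul_sub, ee, eU]
    simp only [Matrix.map_mul]
    rw [← Matrix.mul_one (_ * g₁.map j₁), ← G2, ← Matrix.mul_assoc, Matrix.mul_assoc _ _ (g₂.map j₂),
      Matrix.mul_assoc (g₁'.map j₁), this]
    simp only [← Matrix.mul_assoc, G1', Matrix.one_mul]
  choose d hd1 hd2 using fun i j => h.pull _ _ (congrFun (congrFun s3 i) j)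
  have d1 : (Matrix.of d).map i₁ = g₁' * fromBlocks e 0 0 0 * g₁ := by ext i j; exact hd1 i j
  have d2 : (Matrix.of d).map i₂ = g₂ * fromBlocks 0 0 0 1 * g₂' := by ext i j; exact hd2 i j
  refine ⟨Matrix.of d, Matrix.map_injective h.inj₁ ?_, fromCols e 0 * g₁, g₁' * fromRows e 0,
    g₂ * fromRows 0 1, fromCols 0 1 * g₂', ?_, ?_, ?_, ?_, ?_, ?_⟩
  · simp only [Matrix.map_mul, d1, Matrix.mul_assoc]
    rw [← Matrix.mul_assoc g₁, a1, Matrix.one_mul, ← Matrix.mul_assoc (fromBlocks e 0 0 0)]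
    simp [fromBlocks_multiply, he]
  · rw [Matrix.mul_assoc, ← Matrix.mul_assoc g₁, a1]
    simp [fromCols_mul_fromRows, he]
  · rw [d1, Matrix.mul_assoc, ← Matrix.mul_assoc (fromRows e 0), fromRows_mul_fromCols]
    simp [he, Matrix.mul_assoc]
  · rw [d2, Matrix.mul_assoc, ← Matrix.mul_assoc (fromRows 0 1), fromRows_mul_fromCols]
    simp [Matrix.mul_assoc]
  · rw [Matrix.mul_assoc, ← Matrix.mul_assoc g₂', mul_eq_one_comm.1 a2]
    simp [fromCols_mul_fromRows]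
  · simp only [Matrix.map_mul, Matrix.mul_assoc]
    rw [← Matrix.mul_assoc (g₁.map j₁), s1]
    simp [fromCols_map, fromRows_map, fromBlocks_mul_fromRows, fromCols_mul_fromRows, eU]
  · simp only [Matrix.map_mul, Matrix.mul_assoc]
    rw [← Matrix.mul_assoc (g₂'.map j₂), s2]
    simp [fromCols_map, fromRows_map, fromBlocks_mul_fromRows, fromCols_mul_fromRows, Ve]

theorem Sq.patch' (h : Sq i₁ i₂ j₁ j₂) {e : Matrix ι ι A₁} (he : e * e = e)
    (hf : Free (e.map j₁)) : ∃ (μ : Type) (_ : Fintype μ) (d : Matrix μ μ A), d * d = d ∧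
      Eqv e (d.map i₁) ∧ Free (d.map i₂) := by
  obtain ⟨n, U, V, h1, h2⟩ := hf
  obtain ⟨d, hd, α₁, β₁, α₂, β₂, a1, a2, a3, a4, -⟩ := h.patch he h1 h2
  exact ⟨_, _, d, hd, ⟨α₁, β₁, a1, a2⟩, n, α₂, β₂, a3, a4⟩

/-- Analytic isomorphisms along `f`. -/
structure An (φ : A →+* A₁) (f : A) : Prop where
  inj : Function.Injective φ
  surj : ∀ b, ∃ a b', b = φ a + φ f * b'
  dvd : ∀ a, φ f ∣ φ a → f ∣ a

lemma An.surj_pow {f : A} (h : An i₁ f) (n : ℕ) (b : A₁) : ∃ a b', b = i₁ a + i₁ f ^ n * b' := by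
  induction n with
  | zero => exact ⟨0, b, by simp⟩
  | succ n ih =>
    obtain ⟨a, b', h1⟩ := ih
    obtain ⟨a', b'', h2⟩ := h.surj b'
    exact ⟨a + f ^ n * a', b'', by rw [h1, h2, map_add, map_mul, map_pow]; ring⟩

lemma An.dvd_pow [IsDomain A₁] {f : A} (h : An i₁ f) (hf : i₁ f ≠ 0) (n : ℕ) :
    ∀ a, i₁ f ^ n ∣ i₁ a → f ^ n ∣ a := by
  induction n with
  | zero => simp
  | succ n ih =>
    intro a ha
    obtain ⟨a', rfl⟩ := h.dvd a ((dvd_pow_self _ n.succ_ne_zero).trans ha)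
    rw [map_mul, pow_succ', mul_dvd_mul_iff_left hf] at ha
    rw [pow_succ']
    exact mul_dvd_mul_left _ (ih a' ha)

theorem An.sq [IsDomain A₁] {f : A} (h : An i₁ f) (h2 : IsLoc i₂ (Submonoid.powers f))
    (h3 : IsLoc j₁ (Submonoid.powers (i₁ f))) (hc : j₂.comp i₂ = j₁.comp i₁) :
    Sq i₁ i₂ j₁ j₂ := by
  classical
  have hc' : ∀ a, j₂ (i₂ a) = j₁ (i₁ a) := fun a => congrArg (fun g : A →+* A₃ => g a) hc
  have hf : i₁ f ≠ 0 := fun h0 => h3.zero_notMem (h0 ▸ Submonoid.mem_powers _)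
  refine ⟨h.inj, h2.inj, fun b y H => ?_, fun ι κ _ _ _ _ => Apx.fac (fun c s => ?_) h3.inj⟩
  · obtain ⟨_, ⟨n, rfl⟩, a, ha⟩ := h2.surj y
    have e1 : i₁ a = i₁ f ^ n * b := h3.inj (by
      rw [← hc', ← ha, map_mul, map_mul, ← H, hc', map_pow, mul_comm])
    obtain ⟨a', rfl⟩ := h.dvd_pow hf n a ⟨b, e1⟩
    refine ⟨a', ?_, ?_⟩
    · rw [map_mul, map_pow] at e1
      exact mul_left_cancel₀ (pow_ne_zero n hf) e1
    · rw [map_mul, mul_comm y] at ha
      exact ((h2.unit _ ⟨n, rfl⟩).mul_left_cancel ha).symm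
  · obtain ⟨_, ⟨n, rfl⟩, b, hb⟩ := h3.surj c
    obtain ⟨_, ⟨M, rfl⟩, x', hx'⟩ := h2.den (Matrix.of fun (x : s) (_ : Unit) => x.1)
    obtain ⟨a, b', rfl⟩ := h.surj_pow (n + M) b
    obtain ⟨w, hw⟩ := (h2.unit _ ⟨n, rfl⟩).exists_right_inv
    refine ⟨i₂ a * w, fun x hx => ⟨i₁ (x' ⟨x, hx⟩ ()) * b', ?_⟩⟩
    have e1 : i₂ (x' ⟨x, hx⟩ ()) = i₂ (f ^ M) * x := congrFun (congrFun hx' ⟨x, hx⟩) ()
    have e2 := congrArg j₂ hw
    simp only [map_mul, map_add, map_pow, hc', map_one] at hb e2 ⊢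
    rw [← hc' (x' _ _), e1]
    simp only [map_mul, map_pow, hc']
    linear_combination (-j₂ x * j₂ w) * hb + (j₂ x * c - j₂ x * j₁ (i₁ f) ^ M * j₁ b') * e2

lemma An.exists_sq [IsDomain A] [IsDomain A₁] {f : A} (h : An i₁ f)
    (h3 : IsLoc j₁ (Submonoid.powers (i₁ f))) (h2 : IsLoc i₂ (Submonoid.powers f)) :
    ∃ j₂ : A₂ →+* A₃, j₂.comp i₂ = j₁.comp i₁ ∧ Sq i₁ i₂ j₁ j₂ := by
  obtain ⟨j₂, hj⟩ := h2.lift (j₁.comp i₁) (by
    rintro _ ⟨n, rfl⟩
    exact h3.unit _ ⟨n, (map_pow i₁ f n).symm⟩)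
  exact ⟨j₂, hj, h.sq h2 h3 hj⟩

lemma IsLoc.an {M : Submonoid A} {f : A} (h : IsLoc i₁ M) (hc : ∀ m ∈ M, IsCoprime m f) :
    An i₁ f := by
  refine ⟨h.inj, fun b => ?_, fun a ⟨b, hb⟩ => ?_⟩
  · obtain ⟨m, hm, a, ha⟩ := h.surj b
    obtain ⟨x, y, hxy⟩ := hc m hm
    have := congrArg i₁ hxy
    simp only [map_add, map_mul, map_one] at this
    exact ⟨a * x, i₁ y * b, by rw [map_mul]; linear_combination (-b) * this + i₁ x * ha⟩
  · obtain ⟨m, hm, a', ha⟩ := h.surj b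
    refine (hc m hm).symm.dvd_of_dvd_mul_left ⟨a', h.inj ?_⟩
    rw [map_mul, map_mul, hb, ← ha]; ring

/-- Descent along an analytic isomorphism. -/
theorem An.desc [IsDomain A] [IsDomain A₁] {f : A} (h : An i₁ f) (hf : f ≠ 0) {e : Matrix ι ι A₁}
    (he : e * e = e) (hq : QFree (i₁ f) e) : ∃ (μ : Type) (_ : Fintype μ) (d : Matrix μ μ A),
      d * d = d ∧ Eqv e (d.map i₁) ∧ ∃ k : ℕ, QFree (f ^ k) d := by
  obtain ⟨A₂, _, _, i₂, h2⟩ := exists_loc (zero_notMem_powers hf)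
  obtain ⟨A₃, _, _, j₁, h3⟩ := exists_loc (zero_notMem_powers
    ((map_ne_zero_iff _ h.inj).2 hf))
  obtain ⟨j₂, -, hs⟩ := h.exists_sq h3 h2
  obtain ⟨μ, _, d, hd, h4, h5⟩ := hs.patch' he
    ((hq.map j₁).free (h3.unit _ (Submonoid.mem_powers _)))
  obtain ⟨_, ⟨k, rfl⟩, h6⟩ := h2.qfree' h5
  exact ⟨μ, _, d, hd, h4, k, h6⟩

/-- Zariski extension. -/
theorem IsLoc.zext [IsDomain A] {M : Submonoid A} (h : IsLoc i₁ M) {s f : A} (hs : s ∈ Sat M)
    (hc : IsCoprime s f) (hf : f ≠ 0) {e : Matrix ι ι A₁} (he : e * e = e) {n : ℕ}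
    {u : Matrix ι (Fin n) A₁} {v : Matrix (Fin n) ι A₁} (h1 : u * v = i₁ f • e)
    (h2 : v * u = i₁ f • (1 : Matrix (Fin n) (Fin n) A₁))
    (d1 : ∀ i j, ∃ k a, e i j * i₁ s ^ k = i₁ a) (d2 : ∀ i j, ∃ k a, u i j * i₁ s ^ k = i₁ a)
    (d3 : ∀ i j, ∃ k a, v i j * i₁ s ^ k = i₁ a) :
    ∃ (μ : Type) (_ : Fintype μ) (d : Matrix μ μ A),
      d * d = d ∧ Eqv e (d.map i₁) ∧ ∃ k : ℕ, QFree (f ^ k) d := by
  have hs0 : s ≠ 0 := by
    rintro rfl
    obtain ⟨m, hm, hd⟩ := hs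
    exact h.zero_notMem (zero_dvd_iff.1 hd ▸ hm)
  obtain ⟨B, _, _, ψ, hψ⟩ := exists_loc (zero_notMem_powers hs0)
  obtain ⟨χ, rfl⟩ := hψ.lift i₁ (by
    rintro _ ⟨k, rfl⟩
    exact h.unit' (Submonoid.pow_mem _ hs k))
  have hχ := hψ.inj_of_comp h.inj
  have key : ∀ x, (∃ k a, x * χ.comp ψ s ^ k = χ.comp ψ a) → ∃ b, χ b = x := fun x ⟨k, a, ha⟩ => by
    obtain ⟨w, hw⟩ := (hψ.unit _ ⟨k, rfl⟩).exists_right_inv
    have := congrArg χ hw
    simp only [map_mul, map_pow, map_one, RingHom.comp_apply] at this ha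
    exact ⟨ψ a * w, by rw [map_mul, ← ha, mul_assoc, this, mul_one]⟩
  obtain ⟨e, rfl⟩ := exists_map_eq χ e fun i j => key _ (d1 i j)
  obtain ⟨u, rfl⟩ := exists_map_eq χ u fun i j => key _ (d2 i j)
  obtain ⟨v, rfl⟩ := exists_map_eq χ v fun i j => key _ (d3 i j)
  obtain ⟨μ, _, d, hd, h4, h5⟩ := (hψ.an (f := f) (by rintro _ ⟨k, rfl⟩; exact hc.pow_left)).desc hf
    (e := e) (Matrix.map_injective hχ (by simpa only [Matrix.map_mul] using he))
    ⟨n, u, v, Matrix.map_injective hχ (by simpa only [Matrix.map_mul, map_smul', RingHom.comp_apply] using h1),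
      Matrix.map_injective hχ (by simpa only [Matrix.map_mul, map_smul', map_one', RingHom.comp_apply] using h2)⟩
  exact ⟨μ, _, d, hd, h4.map χ, h5⟩

end patch

section infty

open Polynomial

variable {Λ L : Type} [CommRing Λ] [CommRing L] {φ : Λ[X] →+* L} {ι : Type} [Fintype ι]

lemma IsLoc.inv (h : IsLoc φ (Submonoid.powers X)) : ∃ ψ : Λ[X] →+* L,
    IsLoc ψ (Submonoid.powers X) ∧ ψ.comp C = φ.comp C ∧
      ∀ f, ψ (reverse f) * φ X ^ f.natDegree = φ f := by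
  obtain ⟨t, ht⟩ := h.unit X (Submonoid.mem_powers _)
  have e : ∀ f, φ f = eval₂ (φ.comp C) (t : L) f := fun f => by
    rw [ht]
    exact congrArg (fun g : Λ[X] →+* L => g f) (Polynomial.ringHom_ext' (f := φ)
      (g := eval₂RingHom (φ.comp C) (φ X)) (by ext; simp) (by simp))
  have k1 : ∀ f : Λ[X], eval₂ (φ.comp C) (↑t⁻¹ : L) (reverse f) * (t : L) ^ f.natDegree = φ f :=
    fun f => by
    rw [e]
    exact @eval₂_reverse_mul_pow _ _ _ _ (φ.comp C) (t : L) t.invertible f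
  have k2 : ∀ f : Λ[X], φ (reverse f) * (↑t⁻¹ : L) ^ f.natDegree =
      eval₂ (φ.comp C) (↑t⁻¹ : L) f := fun f => by
    rw [e]
    exact @eval₂_reverse_mul_pow _ _ _ _ (φ.comp C) (↑t⁻¹ : L) t⁻¹.invertible f
  refine ⟨eval₂RingHom (φ.comp C) (↑t⁻¹ : L), ⟨?_, ?_, fun b => ?_⟩, by ext; simp,
    fun f => by rw [← ht]; exact k1 f⟩
  · rw [injective_iff_map_eq_zero]
    intro p hp
    rw [coe_eval₂RingHom, ← k2, (t⁻¹.isUnit.pow _).mul_left_eq_zero,
      map_eq_zero_iff _ h.inj] at hp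
    exact reverse_eq_zero.1 hp
  · rintro _ ⟨n, rfl⟩
    simpa using t⁻¹.isUnit.pow n
  · obtain ⟨_, ⟨k, rfl⟩, a, ha⟩ := h.surj b
    refine ⟨_, ⟨a.natDegree, rfl⟩, reverse a * X ^ k, ?_⟩
    have h1 := k1 a
    have h2 : ∀ n : ℕ, (t : L) ^ n * (↑t⁻¹ : L) ^ n = 1 := fun n => by rw [← mul_pow]; simp
    simp only [map_pow, ← ht, map_mul, coe_eval₂RingHom, eval₂_X] at ha ⊢
    linear_combination (↑t⁻¹ ^ k * ↑t⁻¹ ^ a.natDegree : L) * ha -
      (↑t⁻¹ ^ k * ↑t⁻¹ ^ a.natDegree : L) * h1 - (b * ↑t⁻¹ ^ a.natDegree) * h2 k +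
      (eval₂ (φ.comp C) (↑t⁻¹ : L) a.reverse * ↑t⁻¹ ^ k) * h2 a.natDegree

/-- Extension over the point at infinity. -/
theorem IsLoc.extInf [IsDomain Λ] (h : IsLoc φ (Submonoid.powers X)) {e : Matrix ι ι L}
    (he : e * e = e) {f : Λ[X]} (hf : f.Monic) (hq : QFree (φ f) e) :
    ∃ ψ : Λ[X] →+* L, IsLoc ψ (Submonoid.powers X) ∧ ψ.comp C = φ.comp C ∧
      ∃ (μ : Type) (_ : Fintype μ) (d : Matrix μ μ Λ[X]), d * d = d ∧ Eqv e (d.map ψ) ∧
        Free (d.map (evalRingHom 0)) := by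
  obtain ⟨ψ, h1, h2, h3⟩ := h.inv
  have := h.domain
  have g0 : (reverse f).eval 0 = 1 := by
    rw [← coeff_zero_eq_eval_zero, coeff_zero_reverse, hf.leadingCoeff]
  have hc : IsCoprime X (reverse f) := by
    refine ⟨-divX (reverse f), 1, ?_⟩
    have := divX_mul_X_add (reverse f)
    rw [coeff_zero_eq_eval_zero, g0, C_1] at this
    linear_combination -this
  obtain ⟨w, hw⟩ := ((h.unit X (Submonoid.mem_powers _)).pow f.natDegree).exists_right_inv
  obtain ⟨μ, _, d, hd, h4, k, h5⟩ := (h1.an (f := reverse f)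
    (by rintro _ ⟨k, rfl⟩; exact hc.pow_left)).desc (fun h0 => by simp [h0] at g0) he
    (hq.of_dvd ⟨w, by rw [← h3, mul_assoc, hw, mul_one]⟩)
  exact ⟨ψ, h1, h2, μ, _, d, hd, h4, (h5.map (evalRingHom 0)).free (by simp [g0])⟩

end infty

end Pool.Agent.Lib.MP_a37f0b_ag
end

-- part Pool.Agent.Lib.MP_a37f0b_ag.Horrocks
section

/-!
Theorems of Quillen and Horrocks.
-/

open Matrix Polynomial

namespace Pool.Agent.Lib.MP_a37f0b_ag

variable {A B : Type} [CommRing A] [CommRing B] {ι κ : Type} [Fintype ι] [Fintype κ]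

lemma res_lemma [Nontrivial B] (χ : A →+* B) {f g : A[X]} (hf : f.Monic)
    (hc : IsCoprime (f.map χ) (g.map χ)) : ∃ ρ, IsUnit (χ ρ) ∧ ∃ α β, α * f + β * g = C ρ := by
  by_cases h0 : f.natDegree = 0
  · exact ⟨1, by simp, 1, 0, by simp [eq_one_of_monic_natDegree_zero hf h0]⟩
  obtain ⟨p, q, -, -, h⟩ := exists_mul_add_mul_eq_C_resultant f g le_rfl le_rfl (Or.inl h0)
  refine ⟨_, ?_, p, q, by rw [← h]; ring⟩
  have h1 := (isUnit_resultant_iff_isCoprime (hf.map χ)).2 hc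
  rw [← resultant_map_map, ← Nat.add_sub_cancel' (natDegree_map_le (f := χ) (p := g)),
    resultant_add_right_deg _ _ _ _ _ le_rfl, coeff_map, coeff_natDegree, hf.leadingCoeff, map_one,
    one_pow, one_mul, ← hf.natDegree_map χ]
  exact h1

lemma IsLoc.qeqv {φ : A →+* B} {M : Submonoid A} (h : IsLoc φ M) {e : Matrix ι ι A}
    {e' : Matrix κ κ A} (H : Eqv (e.map φ) (e'.map φ)) :
    ∃ m ∈ M, ∃ (u : Matrix ι κ A) (v : Matrix κ ι A), u * v = m • e ∧ v * u = m • e' := by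
  obtain ⟨u, v, h1, h2⟩ := H
  obtain ⟨m, hm, u', hu⟩ := h.den u
  obtain ⟨m', hm', v', hv⟩ := h.den v
  refine ⟨m * m', M.mul_mem hm hm', u', v', Matrix.map_injective h.inj ?_,
    Matrix.map_injective h.inj ?_⟩
  · simp only [Matrix.map_mul, hu, hv, map_smul', Matrix.smul_mul, Matrix.mul_smul, h1, smul_smul,
      map_mul, mul_comm]
  · simp only [Matrix.map_mul, hu, hv, map_smul', Matrix.smul_mul, Matrix.mul_smul, h2, smul_smul,
      map_mul]

lemma QFree.of_eqv {h : A} {e : Matrix ι ι A} {e' : Matrix κ κ A} (H : QFree h e') (h' : Eqv e e')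
    (he : e * e = e) : QFree (h * h) e := by
  obtain ⟨n, u, v, h1, h2⟩ := H
  obtain ⟨a, b, h3, h4⟩ := h'
  refine ⟨n, a * u, h • (v * b), ?_, ?_⟩
  · rw [Matrix.mul_smul, Matrix.mul_assoc, ← Matrix.mul_assoc u, h1, ← h4, ← he, ← h3]
    simp only [Matrix.smul_mul, Matrix.mul_smul, smul_smul, Matrix.mul_assoc]
  · rw [Matrix.smul_mul, Matrix.mul_assoc, ← Matrix.mul_assoc b, h4, ← Matrix.mul_smul,
      ← Matrix.smul_mul, ← h1, Matrix.mul_assoc, h2, ← Matrix.mul_assoc, h2]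
    simp [smul_smul]

/-- The constant term, as a constant polynomial. -/
noncomputable def c0 (A : Type) [CommRing A] : A[X] →+* A[X] := C.comp (evalRingHom 0)

/-- The ideal in Quillen's patching theorem. -/
def QJ {e : Matrix ι ι A[X]} (he : e * e = e) : Ideal A where
  carrier := {a | ∀ (B : Type) [CommRing B] (φ : A →+* B) (y z : B),
    Eqv (e.map (eval₂RingHom φ (y + φ a * z))) (e.map (eval₂RingHom φ y))}
  zero_mem' := fun B _ φ y z => by
    rw [map_zero, zero_mul, add_zero]; exact Eqv.refl (idem_map he _)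
  add_mem' := fun {a b} ha hb B _ φ y z => by
    have := hb B φ (y + φ a * z) z
    rw [add_assoc, ← add_mul, ← map_add] at this
    exact this.trans (ha B φ y z) (idem_map he _) (idem_map he _)
  smul_mem' := fun c a ha B _ φ y z => by
    have := ha B φ y (φ c * z)
    rwa [← mul_assoc, ← map_mul, mul_comm a] at this

lemma mem_QJ [IsDomain A] {e : Matrix ι ι A[X]} (he : e * e = e) {s : A} (hs : s ≠ 0)
    {u v : Matrix ι ι A[X]} (h1 : u * v = C s • e) (h2 : v * u = C s • e.map (c0 A)) :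
    s ∈ QJ he := fun B _ φ y z => by
  let τ : A[X] →+* A[X][X] := eval₂RingHom (C.comp C) (C X + C (C s) * X)
  have hτ : ∀ p, ∃ a, τ p = C p + C (C s) * a := fun p => by
    have : (Ideal.Quotient.mk (Ideal.span {(C (C s) : A[X][X])})).comp τ =
        (Ideal.Quotient.mk _).comp C := by
      refine Polynomial.ringHom_ext (fun a => by simp [τ]) ?_
      simp only [τ, RingHom.comp_apply, coe_eval₂RingHom, eval₂_X, Ideal.Quotient.eq,
        add_sub_cancel_left]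
      exact Ideal.mul_mem_right _ _ (Ideal.mem_span_singleton_self _)
    obtain ⟨a, ha⟩ := Ideal.mem_span_singleton.1 (Ideal.Quotient.eq.1
      (RingHom.congr_fun this p))
    exact ⟨a, by rw [← ha]; ring⟩
  choose t ht using hτ
  have e1 : ∀ w : Matrix ι ι A[X], w.map τ = w.map C + (C (C s) : A[X][X]) • w.map t := fun w => by
    ext1 i j; exact ht _
  have e2 : (e.map (c0 A)).map τ = (e.map (c0 A)).map C := by ext1 i j; simp [τ, c0]
  have e3 : τ (C s) = C (C s) := by simp [τ]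
  have a1 := congrArg (·.map τ) h1
  have a2 := congrArg (·.map τ) h2
  have a3 := congrArg (·.map (C : A[X] →+* A[X][X])) h1
  have a4 := congrArg (·.map (C : A[X] →+* A[X][X])) h2
  simp only [Matrix.map_mul, map_smul', e2, e3] at a1 a2 a3 a4
  have s0 : (C (C s) : A[X][X]) * C (C s) ≠ 0 := by simpa using hs
  have b1 : (C (C s) : A[X][X]) • (e.map C + u.map t * v.map C) = u.map τ * v.map C := by
    rw [e1 u, Matrix.add_mul, a3, smul_add, Matrix.smul_mul]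
  have b2 : (C (C s) : A[X][X]) • (e.map C + u.map C * v.map t) = u.map C * v.map τ := by
    rw [e1 v, Matrix.mul_add, a3, smul_add, Matrix.mul_smul]
  have key : Eqv (e.map τ) (e.map C) := by
    refine ⟨e.map C + u.map t * v.map C, e.map C + u.map C * v.map t,
      smul_right_injective _ s0 ?_, smul_right_injective _ s0 ?_⟩
    · simp only
      rw [← smul_mul_smul_comm, b1, b2, Matrix.mul_assoc, ← Matrix.mul_assoc (v.map C), a4, ← a2,
        Matrix.mul_assoc, ← Matrix.mul_assoc, a1, smul_mul_smul_comm, idem_map he]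
    · simp only
      rw [← smul_mul_smul_comm, b1, b2, Matrix.mul_assoc, ← Matrix.mul_assoc (v.map τ), a2, ← a4,
        Matrix.mul_assoc, ← Matrix.mul_assoc, a3, smul_mul_smul_comm, idem_map he]
  have := key.map (eval₂RingHom (eval₂RingHom φ y) z)
  rwa [map_comp', map_comp', show (eval₂RingHom (eval₂RingHom φ y) z).comp τ =
      eval₂RingHom φ (y + φ s * z) from Polynomial.ringHom_ext (by simp [τ]) (by simp [τ]),
    show (eval₂RingHom (eval₂RingHom φ y) z).comp C = eval₂RingHom φ y from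
      Polynomial.ringHom_ext (by simp) (by simp)] at this

/-- Quillen's patching theorem. -/
theorem quillen [IsDomain A] {e : Matrix ι ι A[X]} (he : e * e = e)
    (h : ∀ (𝔪 : Ideal A) [𝔪.IsMaximal] (B : Type) [CommRing B] [IsDomain B] [IsLocalRing B]
      (φ : A →+* B), IsLoc φ 𝔪.primeCompl → Free (e.map (mapRingHom φ))) :
    Eqv e (e.map (c0 A)) := by
  have h1 : QJ he = ⊤ := by
    by_contra hn
    obtain ⟨𝔪, h𝔪, hle⟩ := Ideal.exists_le_maximal _ hn
    have hl := isLoc_loc (M := 𝔪.primeCompl) fun h0 => h0 𝔪.zero_mem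
    obtain ⟨n, u, v, h1, h2⟩ := h 𝔪 (Localization.AtPrime 𝔪) _ hl
    obtain ⟨_, ⟨s, hs, rfl⟩, u', v', h3, h4⟩ := hl.poly.qeqv (e := e) (e' := e.map (c0 A))
      ⟨u * v.map (c0 _), u.map (c0 _) * v, by
        rw [Matrix.mul_assoc, ← Matrix.mul_assoc (v.map _), ← Matrix.map_mul, h2, map_one',
          Matrix.one_mul, h1], by
        rw [Matrix.mul_assoc, ← Matrix.mul_assoc v, h2, Matrix.one_mul, ← Matrix.map_mul, h1]
        ext1 i j
        simp [c0, ← coeff_zero_eq_eval_zero, -eval_map_algebraMap]⟩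
    exact hs (hle (mem_QJ he (fun h0 => hs (h0 ▸ 𝔪.zero_mem)) h3 h4))
  have := (h1 ▸ Submodule.mem_top : (1 : A) ∈ QJ he) A[X] C 0 X
  rwa [show eval₂RingHom C (0 + C 1 * X) = RingHom.id A[X] from
      Polynomial.ringHom_ext (by simp) (by simp),
    show eval₂RingHom C 0 = c0 A from Polynomial.ringHom_ext (by simp [c0]) (by simp [c0])] at this

/-- Monic polynomials. -/
def monics (A : Type) [CommRing A] : Submonoid A[X] where
  carrier := {f | f.Monic}
  one_mem' := monic_one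
  mul_mem' := Monic.mul

section localH

variable [IsDomain A] {K : Type} [CommRing K] [Algebra A[X] K] [Algebra A K]
  [IsScalarTower A A[X] K]

/-- Fractions that are regular at infinity. -/
def Binf (A K : Type) [CommRing A] [IsDomain A] [CommRing K] [Algebra A[X] K] [Algebra A K]
    [IsScalarTower A A[X] K] : Subalgebra A K where
  carrier := {x | ∃ f g : A[X], f.Monic ∧ g.natDegree ≤ f.natDegree ∧
    x * algebraMap _ K f = algebraMap _ K g}
  mul_mem' := fun ⟨f, g, h1, h2, h3⟩ ⟨f', g', h1', h2', h3'⟩ => ⟨f * f', g * g', h1.mul h1', by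
    rw [h1.natDegree_mul h1']
    exact natDegree_mul_le.trans (add_le_add h2 h2'), by
    rw [map_mul, map_mul, ← h3, ← h3']; ring⟩
  add_mem' := fun ⟨f, g, h1, h2, h3⟩ ⟨f', g', h1', h2', h3'⟩ =>
    ⟨f * f', g * f' + f * g', h1.mul h1', by
      rw [h1.natDegree_mul h1']
      exact natDegree_add_le_of_degree_le (natDegree_mul_le.trans (add_le_add h2 le_rfl))
        (natDegree_mul_le.trans (add_le_add le_rfl h2')), by
      rw [map_add, map_mul, map_mul, map_mul, ← h3, ← h3']; ring⟩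
  algebraMap_mem' := fun a => ⟨1, C a, monic_one, by simp, by
    rw [map_one, mul_one, IsScalarTower.algebraMap_apply A A[X] K]; rfl⟩

lemma binf_dec (h : IsLoc (algebraMap A[X] K) (monics A)) (x : K) :
    ∃ g b, b * algebraMap A[X] K X ∈ Binf A K ∧ x = algebraMap A[X] K g + b := by
  obtain ⟨f, hf, g, hg⟩ := h.surj x
  refine ⟨g /ₘ f, x - algebraMap _ K (g /ₘ f), ?_, by ring⟩
  by_cases h0 : g %ₘ f = 0
  · have : (x - algebraMap _ K (g /ₘ f)) * algebraMap _ K f = 0 := by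
      have := modByMonic_add_div g f
      rw [h0, zero_add] at this
      rw [sub_mul, hg, ← map_mul, mul_comm, this, sub_self]
    rw [(h.unit f hf).mul_left_eq_zero.1 this, zero_mul]
    exact zero_mem _
  refine ⟨f, g %ₘ f * X, hf, ?_, ?_⟩
  · rw [natDegree_mul_X h0]
    exact natDegree_lt_natDegree h0 (degree_modByMonic_lt g hf)
  · rw [eq_sub_of_add_eq (modByMonic_add_div g f), map_mul, map_sub, map_mul, ← hg]; ring

lemma binf_det (h : IsLoc (algebraMap A[X] K) (monics A)) {n : ℕ} {q : Matrix (Fin n) (Fin n) K}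
    (hq : ∀ i j, q i j * algebraMap A[X] K X ∈ Binf A K) : IsUnit (1 - q).det := by
  obtain ⟨t, ht⟩ := (h.unit X monic_X).exists_right_inv
  have t1 : -t ∈ Binf A K := neg_mem ⟨X, 1, monic_X, by simp, by rw [mul_comm, ht, map_one]⟩
  let q' : Matrix (Fin n) (Fin n) (Binf A K) := Matrix.of fun i j => ⟨_, hq i j⟩
  obtain ⟨c, hc⟩ : ∃ c, (1 + (⟨_, t1⟩ : Binf A K) • q').det = 1 + ⟨_, t1⟩ * c :=
    ⟨_, by rw [det_one_add_smul, add_assoc, pow_two, ← mul_assoc, ← add_mul, mul_comm]⟩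
  have e1 : 1 - q = (1 + (⟨_, t1⟩ : Binf A K) • q').map (Binf A K).val.toRingHom := by
    rw [map_add', map_one', map_smul', sub_eq_add_neg]
    congr 1
    ext i j
    simp only [q', Matrix.neg_apply, Matrix.smul_apply, Matrix.map_apply, Matrix.of_apply]
    change _ = -t * (q i j * _)
    linear_combination q i j * ht
  rw [e1, ← RingHom.mapMatrix_apply, ← RingHom.map_det, hc]
  obtain ⟨c, f, g, h1, h2, h3⟩ := c
  have m1 : (X * f - g).Monic := (monic_X.mul h1).sub_of_left (degree_lt_degree (by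
    rw [monic_X.natDegree_mul h1, natDegree_X]; omega))
  refine isUnit_of_dvd_unit ⟨algebraMap A[X] K (X * f), ?_⟩ (h.unit _ m1)
  change _ = (1 + -t * c) * _
  rw [map_sub, map_mul, ← h3]
  linear_combination (c * algebraMap A[X] K f) * ht

omit [IsDomain A] [Algebra A[X] K] [IsScalarTower A A[X] K] in
lemma mem_smul_top {n : ℕ} (𝔪 : Ideal A) {x : Matrix (Fin n) (Fin n) K}
    (hx : ∀ i j, x i j ∈ 𝔪.map (algebraMap A K)) :
    x ∈ 𝔪 • (⊤ : Submodule A (Matrix (Fin n) (Fin n) K)) := by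
  rw [matrix_eq_sum_single x]
  refine sum_mem fun i _ => sum_mem fun j _ => ?_
  have h1 : x i j ∈ 𝔪 • (⊤ : Submodule A K) := by rw [Ideal.smul_top_eq_map]; exact hx i j
  have h2 := Submodule.mem_map_of_mem (f := Matrix.singleLinearMap A i j) h1
  rw [Submodule.map_smul''] at h2
  exact Submodule.smul_mono le_rfl le_top h2

/-- The image of the matrices with entries in `𝔞`. -/
def Limg {n : ℕ} (V : Matrix (Fin n) ι K) (𝔞 : Ideal A[X]) :
    Submodule A (Matrix (Fin n) (Fin n) K) where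
  carrier := {x | ∃ p : Matrix ι (Fin n) A[X], (∀ i j, p i j ∈ 𝔞) ∧
    x = V * p.map (algebraMap _ K)}
  zero_mem' := ⟨0, fun _ _ => zero_mem _, by simp⟩
  add_mem' := by
    rintro _ _ ⟨p, h, rfl⟩ ⟨p', h', rfl⟩
    exact ⟨p + p', fun i j => add_mem (h i j) (h' i j), by rw [map_add', Matrix.mul_add]⟩
  smul_mem' := by
    rintro a _ ⟨p, h, rfl⟩
    refine ⟨C a • p, fun i j => 𝔞.mul_mem_left _ (h i j), ?_⟩
    rw [map_smul', Matrix.mul_smul, ← algebraMap_smul K a, IsScalarTower.algebraMap_apply A A[X] K]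
    rfl

/-- Matrices vanishing at infinity. -/
def Binf0 (A K : Type) [CommRing A] [IsDomain A] [CommRing K] [Algebra A[X] K] [Algebra A K]
    [IsScalarTower A A[X] K] (n : ℕ) : Submodule A (Matrix (Fin n) (Fin n) K) where
  carrier := {q | ∀ i j, q i j * algebraMap A[X] K X ∈ Binf A K}
  zero_mem' := fun i j => by simp
  add_mem' := fun h h' i j => by
    rw [Matrix.add_apply, add_mul]; exact add_mem (h i j) (h' i j)
  smul_mem' := fun a q h i j => by
    rw [Matrix.smul_apply, smul_mul_assoc]; exact Subalgebra.smul_mem _ (h i j) a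

lemma roberts [IsLocalRing A] (h : IsLoc (algebraMap A[X] K) (monics A)) {n : ℕ}
    (V : Matrix (Fin n) ι K) {f : A[X]} (hf : f.Monic) (u y : Matrix ι (Fin n) A[X])
    (hu : V * u.map (algebraMap _ K) = algebraMap _ K f • (1 : Matrix (Fin n) (Fin n) K))
    (hy : ∀ i j, (1 - V * y.map (algebraMap _ K) : Matrix (Fin n) (Fin n) K) i j ∈
      (IsLocalRing.maximalIdeal A).map (algebraMap A K)) :
    ∃ p : Matrix ι (Fin n) A[X], (∀ i j, p i j ∈ (IsLocalRing.maximalIdeal A).map C) ∧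
      IsUnit (V * (y + p).map (algebraMap _ K)).det := by
  let Λ : Matrix (Fin n) (Fin n) (degreeLT A f.natDegree) →ₗ[A] Matrix (Fin n) (Fin n) K :=
    ((IsScalarTower.toAlgHom A A[X] K).toLinearMap ∘ₗ (degreeLT A f.natDegree).subtype).mapMatrix
  have : Module.Finite A (degreeLT A f.natDegree) :=
    Module.Finite.equiv (degreeLTEquiv A f.natDegree).symm
  have : Module.Finite A (Matrix (Fin n) (Fin n) (degreeLT A f.natDegree)) :=
    inferInstanceAs (Module.Finite A (Fin n → Fin n → degreeLT A f.natDegree))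
  have fg : (LinearMap.range Λ).FG := by
    rw [← Submodule.map_top]; exact Module.Finite.fg_top.map _
  have h1 : ⊤ ≤ (Limg V ⊤ ⊔ Binf0 A K n) ⊔ LinearMap.range Λ := fun x _ => by
    choose g b hb hx using fun i j => binf_dec h (x i j)
    have e : x = V * (u * Matrix.of fun i j => g i j /ₘ f).map (algebraMap _ K) + Matrix.of b +
        Λ (Matrix.of fun i j => ⟨g i j %ₘ f, by
          rw [mem_degreeLT, ← degree_eq_natDegree hf.ne_zero]
          exact degree_modByMonic_lt _ hf⟩) := by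
      rw [Matrix.map_mul, ← Matrix.mul_assoc, hu, Matrix.smul_mul, Matrix.one_mul]
      ext i j
      rw [hx]
      conv_lhs => rw [← modByMonic_add_div (g i j) f]
      simp [Λ, -algebraMap_smul]
      ring
    rw [e]
    exact add_mem (Submodule.mem_sup_left (add_mem (Submodule.mem_sup_left
      ⟨_, fun _ _ => trivial, rfl⟩) (Submodule.mem_sup_right hb)))
      (Submodule.mem_sup_right ⟨_, rfl⟩)
  have h2 : LinearMap.range Λ ≤ Limg V ⊤ ⊔ Binf0 A K n := by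
    refine Submodule.le_of_le_smul_of_le_jacobson_bot fg
      (IsLocalRing.maximalIdeal_le_jacobson _) ?_
    rintro _ ⟨r, rfl⟩
    have e : Λ r = V * (y * r.map Subtype.val).map (algebraMap _ K) +
        (1 - V * y.map (algebraMap _ K)) * Λ r := by
      rw [Matrix.map_mul, Matrix.sub_mul, Matrix.one_mul, ← Matrix.mul_assoc]
      exact (add_sub_cancel _ _).symm
    rw [e]
    refine add_mem (Submodule.mem_sup_left (Submodule.mem_sup_left ⟨_, fun _ _ => trivial, rfl⟩)) ?_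
    have := Submodule.smul_mono le_rfl h1 (mem_smul_top (IsLocalRing.maximalIdeal A)
      (x := (1 - V * y.map (algebraMap _ K)) * Λ r) fun i j => by
        rw [Matrix.mul_apply]
        exact sum_mem fun k _ => Ideal.mul_mem_right _ _ (hy i k))
    rw [Submodule.smul_sup] at this
    exact sup_le_sup_right (Submodule.smul_le_right (I := IsLocalRing.maximalIdeal A)
      (N := Limg V ⊤ ⊔ Binf0 A K n)) (IsLocalRing.maximalIdeal A • LinearMap.range Λ) this
  have h3 := Submodule.smul_mono le_rfl (h1.trans (sup_le le_rfl h2)) (mem_smul_top _ hy)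
  rw [Submodule.smul_sup] at h3
  have h4 : IsLocalRing.maximalIdeal A • Limg V (⊤ : Ideal A[X]) ≤
      Limg V ((IsLocalRing.maximalIdeal A).map C) := by
    rw [Submodule.smul_le]
    rintro a ha _ ⟨p, -, rfl⟩
    refine ⟨C a • p, fun i j => Ideal.mul_mem_right _ _ (Ideal.mem_map_of_mem _ ha), ?_⟩
    rw [map_smul', Matrix.mul_smul, ← algebraMap_smul K a, IsScalarTower.algebraMap_apply A A[X] K]
    rfl
  obtain ⟨_, ⟨p, hp, rfl⟩, q, hq, e⟩ := Submodule.mem_sup.1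
    (sup_le_sup h4 Submodule.smul_le_right h3)
  refine ⟨p, hp, ?_⟩
  rw [map_add', Matrix.mul_add, show V * y.map (algebraMap _ K) + V * p.map (algebraMap _ K) =
    1 - q by rw [eq_sub_of_add_eq e]; abel]
  exact binf_det h hq

end localH

lemma lift_GL {K F : Type} [CommRing K] [Field F] (ρ : K →+* F)
    (h : ∀ x, x ≠ 0 → ∃ y, IsUnit y ∧ ρ y = x) {n : ℕ} (G : Matrix (Fin n) (Fin n) F)
    (hG : G.det ≠ 0) : ∃ G' : Matrix (Fin n) (Fin n) K, IsUnit G'.det ∧ G'.map ρ = G := by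
  refine diagonal_transvection_induction_of_det_ne_zero
    (fun G => ∃ G' : Matrix (Fin n) (Fin n) K, IsUnit G'.det ∧ G'.map ρ = G) G hG
    (fun D hD => ?_) (fun t => ?_) ?_
  · rw [det_diagonal, Finset.prod_ne_zero_iff] at hD
    choose y h1 h2 using fun i => h _ (hD i (Finset.mem_univ i))
    exact ⟨diagonal y, by rw [det_diagonal]; exact IsUnit.prod_iff.2 fun i _ => h1 i, by
      rw [diagonal_map ρ.map_zero]; simp [h2]⟩
  · obtain ⟨c, hc⟩ : ∃ c, ρ c = t.c := by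
      by_cases h0 : t.c = 0
      · exact ⟨0, by simp [h0]⟩
      · exact (h _ h0).imp fun _ => And.right
    refine ⟨transvection t.i t.j c, by rw [det_transvection_of_ne _ _ t.hij]; exact isUnit_one, ?_⟩
    rw [TransvectionStruct.toMatrix, transvection, transvection, map_add', map_one', map_single,
      hc]
  · rintro _ _ - - ⟨a, ha, rfl⟩ ⟨b, hb, rfl⟩
    exact ⟨a * b, by rw [det_mul]; exact ha.mul hb, Matrix.map_mul⟩

/-- Horrocks' theorem over a local ring. -/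
theorem horrocks_local [IsDomain A] [IsLocalRing A] {e : Matrix ι ι A[X]} (he : e * e = e)
    {f : A[X]} (hf : f.Monic) (hq : QFree f e) : Free e := by
  classical
  have hl := isLoc_loc (M := monics A) not_monic_zero
  set φ := algebraMap A[X] (Localization (monics A)) with hφ
  let π := mapRingHom (IsLocalRing.residue A)
  have hπ : Function.Surjective π := map_surjective _ IsLocalRing.residue_surjective
  let F := FractionRing (IsLocalRing.ResidueField A)[X]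
  have hF : Function.Injective (algebraMap (IsLocalRing.ResidueField A)[X] F) :=
    IsFractionRing.injective _ _
  obtain ⟨ρ, hρ⟩ := hl.lift ((algebraMap _ F).comp π) fun m hm =>
    ((map_ne_zero_iff _ hF).2 (Monic.map _ hm).ne_zero).isUnit
  have hρ' : ∀ p, ρ (φ p) = algebraMap _ F (π p) := fun p => RingHom.congr_fun hρ p
  have r1 : ∀ p, p ≠ 0 → ∃ y, π y = p ∧ IsUnit (φ y) := fun p hp => by
    obtain ⟨y, h1, -, h2⟩ := lifts_and_degree_eq_and_monic
      (mem_lifts _ |>.2 (hπ (p * C p.leadingCoeff⁻¹))) (monic_mul_leadingCoeff_inv hp)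
    obtain ⟨c, hc⟩ := IsLocalRing.residue_surjective p.leadingCoeff
    have hc0 := leadingCoeff_ne_zero.2 hp
    refine ⟨y * C c, ?_, ?_⟩
    · rw [map_mul, show π y = _ from h1, show π (C c) = C p.leadingCoeff by simp [π, hc],
        mul_assoc, ← C_mul, inv_mul_cancel₀ hc0, C_1, mul_one]
    · rw [map_mul]
      exact (hl.unit y h2).mul ((((IsLocalRing.residue_ne_zero_iff_isUnit c).1
        (hc ▸ hc0)).map C).map φ)
  have r2 : ∀ x, x ≠ 0 → ∃ y, IsUnit y ∧ ρ y = x := fun x hx => by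
    obtain ⟨p, q, hq, rfl⟩ := IsFractionRing.div_surjective (A := (IsLocalRing.ResidueField A)[X]) x
    obtain ⟨y, h1, h2⟩ := r1 p (by rintro rfl; simp at hx)
    obtain ⟨z, h3, h4⟩ := r1 q (nonZeroDivisors.ne_zero hq)
    obtain ⟨w, hw⟩ := h4.exists_right_inv
    refine ⟨φ y * w, h2.mul (IsUnit.of_mul_eq_one_right _ hw), ?_⟩
    have := congrArg ρ hw
    rw [map_mul, hρ', h3, map_one] at this
    rw [map_mul, hρ', h1, eq_inv_of_mul_eq_one_right this, div_eq_mul_inv]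
  have r3 : ∀ x, ρ x = 0 → x ∈ (IsLocalRing.maximalIdeal A).map (algebraMap A _) := fun x hx => by
    obtain ⟨m, hm, a, ha⟩ := hl.surj x
    obtain ⟨w, hw⟩ := (hl.unit m hm).exists_right_inv
    have h1 : a ∈ RingHom.ker π := by
      rw [RingHom.mem_ker, ← map_eq_zero_iff _ hF, ← hρ', ← ha, map_mul, hx, zero_mul]
    rw [ker_mapRingHom, IsLocalRing.ker_residue] at h1
    have h2 := Ideal.mem_map_of_mem φ h1
    rw [Ideal.map_map, ← ha] at h2
    have h3 := Ideal.mul_mem_right w _ h2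
    rwa [mul_assoc, hw, mul_one] at h3
  obtain ⟨n, u, v, h1, h2⟩ := hq
  obtain ⟨t, ht⟩ := (hl.unit f hf).exists_right_inv
  obtain ⟨V, hV⟩ : ∃ V, V = t • v.map φ := ⟨_, rfl⟩
  have a1 : u.map φ * V = e.map φ := by
    rw [hV, Matrix.mul_smul, ← Matrix.map_mul, h1, map_smul', smul_smul, mul_comm t, ht, one_smul]
  have a2 : V * u.map φ = 1 := by
    rw [hV, Matrix.smul_mul, ← Matrix.map_mul, h2, map_smul', smul_smul, mul_comm t, ht, one_smul,
      map_one']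
  obtain ⟨m, y, w, b1, b2⟩ := allFree_pid _ ι _ (idem_map he π)
  obtain ⟨y, rfl⟩ := exists_map_eq π y fun i j => hπ _
  obtain ⟨w, rfl⟩ := exists_map_eq π w fun i j => hπ _
  have c0 : ∀ {α β : Type} (x : Matrix α β A[X]), (x.map φ).map ρ = (x.map π).map (algebraMap _ F) :=
    fun x => by ext i j; exact hρ' _
  have c1 : (V * y.map φ).map ρ * (w.map φ * u.map φ).map ρ = 1 := by
    simp only [Matrix.map_mul]
    rw [Matrix.mul_assoc, ← Matrix.mul_assoc ((y.map φ).map ρ), c0 y, c0 w, ← Matrix.map_mul, b1,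
      ← c0, ← a1, ← Matrix.map_mul, ← Matrix.map_mul, Matrix.mul_assoc, a2, Matrix.mul_one, a2,
      map_one']
  have c2 : (w.map φ * u.map φ).map ρ * (V * y.map φ).map ρ = 1 := by
    rw [← Matrix.map_mul, Matrix.mul_assoc, ← Matrix.mul_assoc (u.map φ), a1, Matrix.map_mul,
      Matrix.map_mul, c0, c0, c0, ← Matrix.map_mul, ← Matrix.map_mul, ← b1, Matrix.mul_assoc, b2,
      Matrix.mul_one, b2, map_one']
  obtain rfl : n = m := Fin.equiv_iff_eq.1 ⟨indexEquivOfInv c1 c2⟩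
  obtain ⟨G, g1, g2⟩ := lift_GL ρ r2 ((V * y.map φ).map ρ)
    (isUnit_det_of_right_inverse c1).ne_zero
  obtain ⟨f', hf', u', hu'⟩ := hl.den (u.map φ * G)
  have g3 : G⁻¹.map ρ * G.map ρ = 1 := by rw [← Matrix.map_mul, nonsing_inv_mul _ g1, map_one']
  obtain ⟨p, hp, d1⟩ := roberts hl (G⁻¹ * V) hf' u' y (by
      rw [← hφ, hu', Matrix.mul_smul, Matrix.mul_assoc, ← Matrix.mul_assoc V, a2, Matrix.one_mul,
        nonsing_inv_mul _ g1]) fun i j => r3 _ (by
      rw [← Matrix.map_apply (f := ρ), map_sub', map_one', ← hφ, Matrix.mul_assoc, Matrix.map_mul,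
        ← g2, g3, sub_self, Matrix.zero_apply])
  rw [← hφ] at d1
  obtain ⟨D, hD⟩ : ∃ D, D = G⁻¹ * V * (y + p).map φ := ⟨_, rfl⟩
  obtain ⟨y', hy'⟩ : ∃ y', y' = e * (y + p) := ⟨_, rfl⟩
  rw [← hD] at d1
  have ey : e * y' = y' := by rw [hy', ← Matrix.mul_assoc, he]
  have d2 : y'.map φ = u.map φ * G * D := by
    rw [hD, hy', Matrix.map_mul, ← a1]
    simp only [Matrix.mul_assoc]
    rw [← Matrix.mul_assoc G, mul_nonsing_inv _ g1, Matrix.one_mul]
  obtain ⟨m, hm, v₁, hv₁⟩ := hl.den (D⁻¹ * G⁻¹ * V)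
  have d3 : y' * v₁ = m • e := Matrix.map_injective hl.inj (by
    simp only [Matrix.map_mul, hv₁, d2, map_smul', Matrix.mul_smul, Matrix.mul_assoc]
    rw [← Matrix.mul_assoc D, mul_nonsing_inv _ d1, Matrix.one_mul, ← Matrix.mul_assoc G,
      mul_nonsing_inv _ g1, Matrix.one_mul, a1])
  have d4 : v₁ * y' = m • (1 : Matrix (Fin n) (Fin n) A[X]) := Matrix.map_injective hl.inj (by
    simp only [Matrix.map_mul, hv₁, d2, map_smul', Matrix.smul_mul, Matrix.mul_assoc, map_one']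
    rw [← Matrix.mul_assoc V, a2, Matrix.one_mul, ← Matrix.mul_assoc G⁻¹, nonsing_inv_mul _ g1,
      Matrix.one_mul, nonsing_inv_mul _ d1])
  have d5 : y'.map π = y.map π := by
    have : p.map π = 0 := by
      ext1 i j
      have := hp i j
      rwa [← IsLocalRing.ker_residue, ← ker_mapRingHom] at this
    rw [hy', Matrix.map_mul, map_add', this, add_zero, ← b1, Matrix.mul_assoc, b2, Matrix.mul_one]
  have d6 : π (1 + (y' * w - e)).det = 1 := by
    rw [RingHom.map_det, RingHom.mapMatrix_apply, map_add', map_sub', Matrix.map_mul, d5, b1,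
      map_one', sub_self, add_zero, det_one]
  have d7 : y' * (w * (1 + (y' * w - e)).adjugate) = (1 + (y' * w - e)).det • e := by
    have : y' * w = e * (1 + (y' * w - e)) := by
      rw [Matrix.mul_add, Matrix.mul_sub, ← Matrix.mul_assoc, ey, he]; simp
    rw [← Matrix.mul_assoc]
    conv_lhs => rw [this, Matrix.mul_assoc, ← this, mul_adjugate]
    simp
  obtain ⟨r, hr, α, β, hαβ⟩ := res_lemma (IsLocalRing.residue A) (f := m)
    (g := (1 + (y' * w - e)).det) hm (by rw [show Polynomial.map _ _ = 1 from d6]; exact isCoprime_one_right)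
  obtain ⟨r', hr'⟩ := ((IsLocalRing.residue_ne_zero_iff_isUnit r).1 hr.ne_zero).exists_left_inv
  have d8 : y' * (C r' • (α • v₁ + β • (w * (1 + (y' * w - e)).adjugate))) = e := by
    rw [Matrix.mul_smul, Matrix.mul_add, Matrix.mul_smul, Matrix.mul_smul, d3, d7, smul_smul,
      smul_smul, ← add_smul, hαβ, smul_smul, ← C_mul, hr', C_1, one_smul]
  refine ⟨n, y', _, d8, smul_right_injective _ (Monic.ne_zero hm) ?_⟩
  simp only
  rw [← Matrix.one_mul (_ * y'), ← Matrix.smul_mul, ← d4, Matrix.mul_assoc,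
    ← Matrix.mul_assoc y', d8, ey]

/-- Horrocks' theorem. -/
theorem horrocks [IsDomain A] {e : Matrix ι ι A[X]} (he : e * e = e)
    {f : A[X]} (hf : f.Monic) (hq : QFree f e) : Free e := by
  have h1 := quillen he fun 𝔪 _ B _ _ _ φ _ =>
    horrocks_local (idem_map he _) (hf.map φ) (hq.map (mapRingHom φ))
  have he0 := idem_map he (evalRingHom 0)
  obtain ⟨L, _, _, φ, hφ⟩ := exists_loc (zero_notMem_powers (X_ne_zero (R := A)))
  have he1 := idem_map he0 (φ.comp C)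
  obtain ⟨ψ, h2, h3, μ, _, d, hd, h4, h5⟩ := hφ.extInf he1 (hf.mul hf)
    ((hq.of_eqv h1.symm (idem_map he _)).map φ)
  have h6 := quillen hd fun 𝔪 _ B _ _ _ φ' _ => by
    obtain ⟨L', _, _, ψ', hψ'⟩ := exists_loc (zero_notMem_powers (X_ne_zero (R := B)))
    obtain ⟨χ, hχ⟩ := h2.lift (ψ'.comp (mapRingHom φ')) (by
      rintro _ ⟨k, rfl⟩
      exact hψ'.unit _ ⟨k, by simp⟩)
    have a1 := h4.map χ
    rw [map_comp' ψ, hχ, map_comp' (φ.comp C), ← h3, ← RingHom.comp_assoc, hχ,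
      show (ψ'.comp (mapRingHom φ')).comp C = (ψ'.comp C).comp φ' by ext; simp] at a1
    obtain ⟨_, ⟨k, rfl⟩, a2⟩ := hψ'.qfree' (e := d.map (mapRingHom φ'))
      (Free.of_eqv a1.symm (idem_map (idem_map hd _) _) ((allFree_local B ι _ (idem_map he0 φ')).map (ψ'.comp C)))
    exact horrocks_local (idem_map hd _) (monic_X_pow k) a2
  have h7 := Free.of_eqv h4 he1 ((Free.of_eqv h6 hd (h5.map C)).map ψ)
  obtain ⟨χ, hχ⟩ := hφ.lift (evalRingHom 1) (by rintro _ ⟨k, rfl⟩; simp)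
  have h8 := h7.map χ
  rw [map_comp' (φ.comp C), ← RingHom.comp_assoc, hχ,
    show (evalRingHom 1).comp C = RingHom.id A by ext; simp] at h8
  exact Free.of_eqv h1 he (h8.map C)

end Pool.Agent.Lib.MP_a37f0b_ag
end

-- part Pool.Agent.Lib.MP_a37f0b_ag.QS
section

/-!
Theorems of Quillen, Suslin, Swan and Roitman.
-/

open Matrix Polynomial

namespace Pool.Agent.Lib.MP_a37f0b_ag

variable {A B : Type} [CommRing A] [CommRing B]

lemma IsLoc.pid [IsDomain A] [UniqueFactorizationMonoid A] {φ : A →+* B} {M : Submonoid A}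
    (h : IsLoc φ M) (H : ∀ P : Ideal A, P.IsPrime → (∀ m ∈ M, m ∉ P) → ∀ f ∈ P, Prime f →
      ∀ g ∈ P, f ∣ g) : IsPrincipalIdealRing B := by
  refine IsPrincipalIdealRing.of_prime_ne_bot fun Q hQ h0 => ?_
  have key : ∀ b ∈ Q, ∃ a ∈ Q.comap φ, φ a ∣ b ∧ (a = 0 → b = 0) := fun b hb => by
    obtain ⟨m, hm, a, ha⟩ := h.surj b
    refine ⟨a, by rw [Ideal.mem_comap, ← ha]; exact Q.mul_mem_right _ hb, ?_, ?_⟩
    · rw [← ha]; exact (h.unit m hm).mul_right_dvd.2 dvd_rfl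
    · rintro rfl
      rwa [map_zero, (h.unit m hm).mul_left_eq_zero] at ha
  obtain ⟨f, hf, hp⟩ := (Ideal.comap_isPrime φ Q).exists_mem_prime_of_ne_bot fun h1 => h0 (by
    rw [eq_bot_iff]
    intro b hb
    obtain ⟨a, h2, -, h3⟩ := key b hb
    exact h3 (by rwa [h1] at h2))
  refine ⟨φ f, le_antisymm (fun b hb => ?_) ((Ideal.span_singleton_le_iff_mem _).2 hf)⟩
  obtain ⟨a, h2, h3, -⟩ := key b hb
  exact Ideal.mem_span_singleton.2 ((_root_.map_dvd φ (H _ inferInstance (fun m hm h4 =>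
    hQ.ne_top (Q.eq_top_of_isUnit_mem h4 (h.unit m hm))) f hf hp a h2)).trans h3)

lemma gauss_bezout [IsDomain A] [UniqueFactorizationMonoid A] {f g : A[X]} (h : IsRelPrime f g) :
    ∃ ρ : A, ρ ≠ 0 ∧ ∃ α β, α * f + β * g = C ρ := by
  classical
  obtain ⟨_⟩ : Nonempty (NormalizedGCDMonoid A) := inferInstance
  let K := FractionRing A
  have hl : IsLoc (algebraMap A K) (nonZeroDivisors A) := IsLoc.of_alg (IsFractionRing.injective _ _)
  have hc : IsCoprime (f.map (algebraMap A K)) (g.map (algebraMap A K)) := by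
    refine isCoprime_of_irreducible_dvd (fun h0 => ?_) fun z hz h1 h2 => ?_
    · rw [Polynomial.map_eq_zero_iff hl.inj, Polynomial.map_eq_zero_iff hl.inj] at h0
      exact not_isUnit_zero (h (h0.1 ▸ dvd_rfl) (h0.2 ▸ dvd_rfl))
    obtain ⟨m, hm, q, hq⟩ := hl.poly.surj z
    have u1 := hl.poly.unit m hm
    have q0 : q ≠ 0 := by
      rintro rfl
      rw [map_zero, u1.mul_left_eq_zero] at hq
      exact hz.ne_zero hq
    rw [q.eq_C_content_mul_primPart, map_mul] at hq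
    have u2 : IsUnit (mapRingHom (algebraMap A K) (C q.content)) :=
      hl.poly.unit _ ⟨_, mem_nonZeroDivisors_of_ne_zero (mt content_eq_zero_iff.1 q0), rfl⟩
    have d1 : q.primPart.map (algebraMap A K) ∣ z :=
      u1.dvd_mul_right.1 (by rw [hq]; exact dvd_mul_left _ _)
    have u3 := h (q.isPrimitive_primPart.dvd_of_fraction_map_dvd_fraction_map (d1.trans h1))
      (q.isPrimitive_primPart.dvd_of_fraction_map_dvd_fraction_map (d1.trans h2))
    have u4 := u2.mul (u3.map (mapRingHom (algebraMap A K)))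
    rw [← hq] at u4
    exact hz.not_isUnit (isUnit_of_mul_isUnit_left u4)
  obtain ⟨a, b, hab⟩ := hc
  obtain ⟨_, ⟨m, hm, rfl⟩, a', ha⟩ := hl.poly.surj a
  obtain ⟨_, ⟨m', hm', rfl⟩, b', hb⟩ := hl.poly.surj b
  refine ⟨m * m', nonZeroDivisors.ne_zero (mul_mem hm hm'), a' * C m', b' * C m, hl.poly.inj ?_⟩
  simp only [map_add, map_mul, ← ha, ← hb, coe_mapRingHom]
  linear_combination (Polynomial.map (algebraMap A K) (C m) *
    Polynomial.map (algebraMap A K) (C m')) * hab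

lemma pid_monics [IsDomain A] [IsPrincipalIdealRing A] {φ : A[X] →+* B} (h : IsLoc φ (monics A)) :
    IsPrincipalIdealRing B := by
  refine h.pid fun P hP hM f hf hp g hg => ?_
  by_contra hn
  obtain ⟨ρ, h0, α, β, hρ⟩ := gauss_bezout (hp.irreducible.isRelPrime_iff_not_dvd.2 hn)
  have h1 : P.comap C ≠ ⊥ := fun h1 => h0 (by
    rw [← Ideal.mem_bot, ← h1, Ideal.mem_comap, ← hρ]
    exact add_mem (P.mul_mem_left _ hf) (P.mul_mem_left _ hg))
  have hmax : (P.comap C).IsMaximal := IsPrime.to_maximal_ideal h1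
  obtain ⟨p, hp'⟩ := (IsPrincipalIdealRing.principal (P.comap C)).principal
  have hC : C p ∈ P := by
    rw [← Ideal.mem_comap, hp']; exact Ideal.mem_span_singleton_self p
  let := Ideal.Quotient.field (P.comap C)
  have hk : RingHom.ker (mapRingHom (Ideal.Quotient.mk (P.comap C))) = Ideal.span {C p} := by
    rw [ker_mapRingHom, Ideal.mk_ker, hp', Ideal.submodule_span_eq, Ideal.map_span,
      Set.image_singleton]
  have key : ∀ w ∈ P, C p ∣ w := fun w hw => by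
    rw [← Ideal.mem_span_singleton, ← hk, RingHom.mem_ker]
    by_contra hw0
    obtain ⟨y, h2, -, h3⟩ := lifts_and_degree_eq_and_monic (mem_lifts _ |>.2
      (map_surjective _ Ideal.Quotient.mk_surjective _)) (monic_mul_leadingCoeff_inv hw0)
    obtain ⟨c, hc⟩ := Ideal.Quotient.mk_surjective
      (mapRingHom (Ideal.Quotient.mk (P.comap C)) w).leadingCoeff⁻¹
    have h4 : y - w * C c ∈ Ideal.span {C p} := by
      rw [← hk, RingHom.mem_ker, map_sub, map_mul, sub_eq_zero]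
      simpa [hc] using h2
    refine hM y h3 ?_
    simpa using add_mem ((Ideal.span_singleton_le_iff_mem _).2 hC h4) (P.mul_mem_right (C c) hw)
  rcases hp.irreducible.dvd_iff.1 (key f hf) with h2 | h2
  · exact hP.ne_top (P.eq_top_of_isUnit_mem hC h2)
  · exact hn (h2.dvd.trans (key g hg))

lemma le_sat_map {φ : A →+* B} {M : Submonoid A} {M' : Submonoid B} (h : M' ≤ Sat (M.map φ)) :
    ∀ m' ∈ M', ∃ m ∈ M, m' ∣ φ m := fun _ hm =>
  let ⟨_, ⟨m, h1, rfl⟩, h2⟩ := h hm; ⟨m, h1, h2⟩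

lemma IsLoc.af_iff {φ : A →+* B} {M N : Submonoid A} {M' : Submonoid B} (h : IsLoc φ N)
    (h1 : M ≤ (Sat M').comap φ) (h2 : N ≤ Sat M) (h3 : M' ≤ Sat (M.map φ)) : AF A M ↔ AF B M' :=
  ⟨fun H => H.up h h1 h2 (le_sat_map h3), fun H => H.down h h1 h2 (le_sat_map h3)⟩

lemma IsLoc.comp' {C : Type} [CommRing C] {φ : A →+* B} {ψ : B →+* C} {N : Submonoid A}
    {M' : Submonoid B} (h : IsLoc φ N) (h' : IsLoc ψ M') :
    IsLoc (ψ.comp φ) ((Sat M').comap φ) :=
  h.comp h' le_rfl (fun n hn => Sat.of_mem (Sat.of_unit (h.unit n hn))) fun m' hm' => by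
    obtain ⟨n, hn, a, ha⟩ := h.surj m'
    exact ⟨a, Sat.of_dvd (Sat.of_mem hm') (ha ▸ (h.unit n hn).mul_right_dvd.2 dvd_rfl),
      ha ▸ dvd_mul_right _ _⟩

/-- Exchange of variables. -/
noncomputable def swp (σ : Type) (R : Type) [CommRing R] :
    MvPolynomial σ R[X] ≃+* (MvPolynomial σ R)[X] :=
  ((MvPolynomial.optionEquivRight R σ).symm.trans (MvPolynomial.optionEquivLeft R σ)).toRingEquiv

lemma swp_X (σ : Type) (i : σ) : swp σ A (MvPolynomial.X i) = C (MvPolynomial.X i) := by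
  rw [← MvPolynomial.optionEquivRight_X_some]
  simp [swp, -MvPolynomial.optionEquivRight_apply]

lemma swp_C (σ : Type) (p : A[X]) : swp σ A (MvPolynomial.C p) = p.map MvPolynomial.C := by
  refine RingHom.congr_fun (Polynomial.ringHom_ext (f := (swp σ A).toRingHom.comp MvPolynomial.C)
    (g := mapRingHom MvPolynomial.C) (fun a => ?_) ?_) p
  · rw [RingHom.comp_apply, ← MvPolynomial.optionEquivRight_C]
    simp [swp, -MvPolynomial.optionEquivRight_apply]
  · rw [RingHom.comp_apply, ← MvPolynomial.optionEquivRight_X_none]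
    simp [swp, -MvPolynomial.optionEquivRight_apply]

/-- The theorem of Quillen and Suslin. -/
theorem quillen_suslin (σ : Type) [Finite σ] : ∀ (Λ : Type) [CommRing Λ] [IsDomain Λ]
    [IsPrincipalIdealRing Λ], AllFree (MvPolynomial σ Λ) := by
  refine Finite.induction_empty_option (P := fun σ => ∀ (Λ : Type) [CommRing Λ] [IsDomain Λ]
    [IsPrincipalIdealRing Λ], AllFree (MvPolynomial σ Λ)) (fun ε h Λ _ _ _ => ?_)
    (fun Λ _ _ _ => ?_) (fun {α} _ h Λ _ _ _ => ?_) σ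
  · exact (h Λ).of_equiv (MvPolynomial.renameEquiv Λ ε).toRingEquiv
  · exact (allFree_pid Λ).of_equiv (MvPolynomial.isEmptyRingEquiv Λ _).symm
  · refine AllFree.of_equiv (fun ι _ e he => ?_)
      (MvPolynomial.optionEquivLeft Λ α).symm.toRingEquiv
    obtain ⟨K, _, _, φ, hφ⟩ := exists_loc (M := monics Λ) not_monic_zero
    have := pid_monics hφ
    obtain ⟨_, ⟨f, hf, rfl⟩, hq⟩ := ((hφ.mv α).af (h K)).qfree (isLoc_equiv (swp α Λ)) bot_le he
    exact horrocks he (f := swp α Λ (MvPolynomial.C f)) (swp_C α f ▸ Monic.map _ hf) hq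

/-- Constants from `K` and the variables. -/
noncomputable def LM (σ : Type) (K : Submonoid A) : Submonoid (MvPolynomial σ A) :=
  K.map MvPolynomial.C ⊔ Submonoid.closure (Set.range MvPolynomial.X)

lemma LM_le {σ : Type} {K : Submonoid A} {S : Submonoid (MvPolynomial σ A)}
    (h1 : ∀ k ∈ K, MvPolynomial.C k ∈ S) (h2 : ∀ i, MvPolynomial.X i ∈ S) : LM σ K ≤ S :=
  sup_le (Submonoid.map_le_iff_le_comap.2 h1) (Submonoid.closure_le.2 (Set.range_subset_iff.2 h2))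

lemma C_mem_LM {σ : Type} {K : Submonoid A} {k : A} (h : k ∈ K) : MvPolynomial.C k ∈ LM σ K :=
  Submonoid.mem_sup_left ⟨k, h, rfl⟩

lemma X_mem_LM {σ : Type} {K : Submonoid A} (i : σ) : MvPolynomial.X i ∈ LM σ K :=
  Submonoid.mem_sup_right (Submonoid.subset_closure ⟨i, rfl⟩)

lemma C_sat_LM {σ : Type} {K : Submonoid A} {k : A} (h : k ∈ Sat K) :
    MvPolynomial.C k ∈ Sat (LM σ K) :=
  let ⟨_, hm, hd⟩ := h; ⟨_, C_mem_LM hm, _root_.map_dvd _ hd⟩

lemma zero_notMem_LM [IsDomain A] {σ : Type} {K : Submonoid A} (h : 0 ∉ K) : 0 ∉ LM σ K :=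
  fun h0 => zero_notMem_nonZeroDivisors (LM_le (S := nonZeroDivisors _)
    (fun k hk => mem_nonZeroDivisors_of_ne_zero (by
      rw [Ne, MvPolynomial.C_eq_zero]; rintro rfl; exact h hk))
    (fun i => mem_nonZeroDivisors_of_ne_zero (MvPolynomial.X_ne_zero i)) h0)

lemma IsLoc.lm_iff {φ : A →+* B} {M N : Submonoid A} {M' : Submonoid B} (h : IsLoc φ N)
    (h1 : M ≤ (Sat M').comap φ) (h2 : N ≤ Sat M) (h3 : M' ≤ Sat (M.map φ)) (σ : Type) :
    AF _ (LM σ M) ↔ AF _ (LM σ M') :=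
  (h.mv σ).af_iff
    (LM_le (fun k hk => by simpa using C_sat_LM (h1 hk))
      fun i => by simpa using Sat.of_mem (X_mem_LM i))
    (Submonoid.map_le_iff_le_comap.2 fun n hn => C_sat_LM (h2 hn))
    (LM_le (fun k hk => by
      obtain ⟨m, hm, hd⟩ := le_sat_map h3 k hk
      exact ⟨_, ⟨_, C_mem_LM hm, rfl⟩, by simpa using _root_.map_dvd MvPolynomial.C hd⟩)
      fun i => Sat.of_mem ⟨_, X_mem_LM i, by simp⟩)

section model

variable {σ : Type} {K : Submonoid A} {φ : MvPolynomial σ A →+* B}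

lemma IsLoc.lm_poly (h : IsLoc φ (LM σ K)) {K₀ : Submonoid A[X]} (hK : ∀ k ∈ K, C k ∈ Sat K₀) :
    AF _ (LM σ K₀) ↔ AF B[X] (K₀.map (mapRingHom (φ.comp MvPolynomial.C))) := by
  have e1 : ∀ p, mapRingHom φ (swp σ A (MvPolynomial.C p)) =
      mapRingHom (φ.comp MvPolynomial.C) p := fun p => by simp [swp_C, Polynomial.map_map]
  have h1 : IsLoc ((mapRingHom φ).comp (swp σ A)) (LM σ (K.map C)) :=
    (isLoc_equiv (swp σ A)).comp h.poly
      (LM_le (by
        rintro _ ⟨k, hk, rfl⟩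
        exact Sat.of_mem ⟨_, C_mem_LM hk, by simp [swp_C]⟩)
        fun i => Sat.of_mem ⟨_, X_mem_LM i, (swp_X σ i).symm⟩) bot_le
      (le_sat_map (Submonoid.map_le_iff_le_comap.2 (LM_le
        (fun k hk => Sat.of_mem ⟨_, C_mem_LM ⟨k, hk, rfl⟩, by simp [swp_C]⟩)
        fun i => Sat.of_mem ⟨_, X_mem_LM i, swp_X σ i⟩)))
  exact h1.af_iff (LM_le (fun k hk => Sat.of_mem ⟨k, hk, (e1 k).symm⟩)
      fun i => Sat.of_unit (h1.unit _ (X_mem_LM i)))
    (LM_le (by rintro _ ⟨k, hk, rfl⟩; exact C_sat_LM (hK k hk)) fun i => Sat.of_mem (X_mem_LM i))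
    (by rintro _ ⟨k, hk, rfl⟩; exact Sat.of_mem ⟨_, C_mem_LM hk, e1 k⟩)

lemma IsLoc.lm_option (h : IsLoc φ (LM σ K)) :
    AF _ (LM (Option σ) K) ↔ AF B[X] (Submonoid.powers X) := by
  let ε := (MvPolynomial.optionEquivLeft A σ).toRingEquiv
  have h1 := (isLoc_equiv ε).comp' h.poly
  refine h1.af_iff (LM_le (fun k hk => Sat.of_unit ?_) fun i => ?_) ?_ ?_
  · simpa [ε] using (h.unit _ (C_mem_LM hk)).map C
  · rcases i with _ | i
    · exact Sat.of_mem ⟨1, by simp [ε]⟩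
    · exact Sat.of_unit (by simpa [ε] using (h.unit _ (X_mem_LM i)).map C)
  · rintro p ⟨_, ⟨m, hm, rfl⟩, hd⟩
    have h2 : LM σ K ≤ (Sat (LM (Option σ) K)).comap (ε.symm.toRingHom.comp C) :=
      LM_le (fun k hk => by simpa [ε] using Sat.of_mem (C_mem_LM hk))
        fun i => by simpa [ε] using Sat.of_mem (X_mem_LM (some i))
    exact Sat.of_dvd (h2 hm) (by simpa using _root_.map_dvd ε.symm hd)
  · exact Submonoid.powers_le.2 (Sat.of_mem ⟨_, X_mem_LM none, by simp [ε]⟩)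

end model

/-- All projective modules over Laurent polynomial rings over the localization are free. -/
def LAF (A : Type) [CommRing A] (K : Submonoid A) : Prop :=
  ∀ (σ : Type) [Finite σ], AF _ (LM σ K)

lemma IsLoc.laf_iff {φ : A →+* B} {M N : Submonoid A} {M' : Submonoid B} (h : IsLoc φ N)
    (h1 : M ≤ (Sat M').comap φ) (h2 : N ≤ Sat M) (h3 : M' ≤ Sat (M.map φ)) :
    LAF A M ↔ LAF B M' :=
  forall_congr' fun σ => forall_congr' fun _ => h.lm_iff h1 h2 h3 σ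

lemma lm_empty {K : Submonoid A} : AF _ (LM PEmpty.{1} K) ↔ AF A K := by
  let ε := MvPolynomial.isEmptyRingEquiv A PEmpty.{1}
  have e : ∀ k, ε (MvPolynomial.C k) = k := fun k => by
    rw [← MvPolynomial.isEmptyRingEquiv_symm_apply, RingEquiv.apply_symm_apply]
  exact (isLoc_equiv ε).af_iff (LM_le (fun k hk => Sat.of_mem (by simpa [e] using hk))
    fun i => i.elim) bot_le fun k hk => Sat.of_mem ⟨_, C_mem_LM hk, e k⟩

lemma LAF.af {K : Submonoid A} (h : LAF A K) : AF A K := lm_empty.1 (h _)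

lemma lm_rename {K : Submonoid A} {σ σ' : Type} (ε : σ ≃ σ') (h : AF _ (LM σ K)) :
    AF _ (LM σ' K) :=
  h.equiv (MvPolynomial.renameEquiv A ε).toRingEquiv
    (LM_le (fun k hk => Sat.of_mem (by simpa using C_mem_LM hk))
      fun i => Sat.of_mem (by simpa using X_mem_LM _))
    (LM_le (fun k hk => Sat.of_mem (by simpa using C_mem_LM hk))
      fun i => Sat.of_mem (by simpa using X_mem_LM _))

/-- The theorem of Swan on Laurent polynomial rings. -/
theorem swan (τ : Type) [Finite τ] : ∀ (σ : Type) [Finite σ] (Λ : Type) [CommRing Λ] [IsDomain Λ]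
    [IsPrincipalIdealRing Λ], AF _ (LM τ (⊥ : Submonoid (MvPolynomial σ Λ))) := by
  refine Finite.induction_empty_option (P := fun τ => ∀ (σ : Type) [Finite σ] (Λ : Type)
    [CommRing Λ] [IsDomain Λ] [IsPrincipalIdealRing Λ],
      AF _ (LM τ (⊥ : Submonoid (MvPolynomial σ Λ)))) (fun ε h σ _ Λ _ _ _ => lm_rename ε (h σ Λ))
    (fun σ _ Λ _ _ _ => lm_empty.2 (quillen_suslin σ Λ).af) (fun {α} _ h σ _ Λ _ _ _ => ?_) τ
  obtain ⟨D, _, _, φ, hφ⟩ := exists_loc (zero_notMem_LM (σ := α)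
    (K := (⊥ : Submonoid (MvPolynomial σ Λ))) (by simp))
  refine hφ.lm_option.2 fun L _ ψ hψ ι _ e he => ?_
  obtain ⟨K, _, _, χ, hχ⟩ := exists_loc (M := monics Λ) not_monic_zero
  have := pid_monics hχ
  have h1 := ((hχ.mv σ).lm_iff (M' := ⊥) (fun m hm => Sat.of_unit ((hχ.mv σ).unit m hm))
    (le_Sat _) bot_le α).2 (h σ K)
  have h2 := ((isLoc_equiv (swp σ Λ)).lm_iff (fun m hm => Sat.of_mem (Submonoid.mem_map_of_mem _ hm))
    bot_le (le_Sat _) α).1 h1
  obtain ⟨_, ⟨_, ⟨_, ⟨f, hf, rfl⟩, rfl⟩, rfl⟩, hq⟩ := ((hφ.lm_poly (by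
    rintro k rfl; simp)).1 h2).qfree hψ (Submonoid.powers_le.2
      (Sat.of_mem ⟨_, ⟨_, ⟨X, monic_X, rfl⟩, rfl⟩, by simp [swp_C]⟩)) he
  obtain ⟨ψ', -, -, μ, _, d, hd, h3, -⟩ := hψ.extInf he (by
    rw [RingHom.coe_coe, swp_C]; exact (Monic.map _ hf).map _) hq
  have h4 := ((isLoc_equiv (MvPolynomial.optionEquivLeft Λ σ).toRingEquiv).lm_iff (M := ⊥) (M' := ⊥)
    bot_le bot_le bot_le α).1 (h (Option σ) Λ)
  have h5 := (hφ.lm_poly (K₀ := ⊥) (by rintro k rfl; simp)).1 h4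
  rw [Submonoid.map_bot] at h5
  exact Free.of_eqv h3 he ((h5.allFree μ d hd).map ψ')

theorem laf_pid (Λ : Type) [CommRing Λ] [IsDomain Λ] [IsPrincipalIdealRing Λ] : LAF Λ ⊥ :=
  ((isLoc_equiv (MvPolynomial.isEmptyRingEquiv Λ PEmpty)).laf_iff (M := ⊥) bot_le bot_le bot_le).1
    fun τ _ => swan τ PEmpty Λ

/-- Roitman's argument. -/
theorem roitman [IsDomain A] [IsDomain B] [IsLocalRing B] (H : AllFree A[X]) {φ : A →+* B}
    {M : Submonoid A} (h : IsLoc φ M) : AllFree B[X] := fun ι _ e he => by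
  obtain ⟨n, u0, v0, a1, a2⟩ := allFree_local B ι _ (idem_map he (evalRingHom 0))
  have e0 : ∀ {α β : Type} (w : Matrix α β B), (w.map C).map (evalRingHom 0) = w := fun w => by
    ext i j; simp
  obtain ⟨f, f0, n, u, v, b1, b2⟩ := lift_free (evalRingHom 0) he (u0.map C) (v0.map C)
    (by rw [e0, e0, a1]) (by rw [e0, e0, a2])
  obtain ⟨_, ⟨s1, m1, rfl⟩, e', he'⟩ := h.poly.den e
  obtain ⟨_, ⟨s2, m2, rfl⟩, u', hu'⟩ := h.poly.den u
  obtain ⟨_, ⟨s3, m3, rfl⟩, v', hv'⟩ := h.poly.den v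
  obtain ⟨_, ⟨s4, m4, rfl⟩, f', hf'⟩ := h.poly.surj f
  obtain ⟨s, hs⟩ : ∃ s, s = s1 * s2 * s3 * s4 := ⟨_, rfl⟩
  have ms : s ∈ M := hs ▸ mul_mem (mul_mem (mul_mem m1 m2) m3) m4
  obtain ⟨w, hw⟩ := (h.unit s ms).exists_right_inv
  let ρ : B[X] →+* B[X] := eval₂RingHom C (C (φ s) ^ 2 * X)
  let ρ' : B[X] →+* B[X] := eval₂RingHom C (C w ^ 2 * X)
  let ρ₀ : A[X] →+* A[X] := eval₂RingHom C (C s ^ 2 * X)
  have r1 : ∀ a, ρ (mapRingHom φ a) = mapRingHom φ (ρ₀ a) :=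
    RingHom.congr_fun (f := ρ.comp _) (g := (mapRingHom φ).comp ρ₀)
      (Polynomial.ringHom_ext (by simp [ρ, ρ₀]) (by simp [ρ, ρ₀]))
  have r2 : ρ'.comp ρ = RingHom.id _ := Polynomial.ringHom_ext (by simp [ρ, ρ']) (by
    simp only [ρ, ρ', RingHom.comp_apply, coe_eval₂RingHom, eval₂_X, eval₂_mul, eval₂_pow, eval₂_C,
      RingHom.id_apply]
    rw [← mul_assoc, ← mul_pow, ← C_mul, hw]; simp)
  have r3 : ∀ a, ρ₀ (C a) = C a := fun a => by simp [ρ₀]
  have key : ∀ x a t t', s = t * t' → x * mapRingHom φ (C t) = mapRingHom φ a →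
      ρ x * mapRingHom φ (C s) ^ 1 = mapRingHom φ (ρ₀ (a * C t')) := fun x a t t' h1 h2 => by
    rw [← r1, map_mul, ← h2, map_mul, map_mul, r1, r1, r3, r3, h1, C_mul, map_mul, pow_one,
      mul_assoc]
  have k1 := key f f' s4 (s1 * s2 * s3) (by rw [hs]; ring) hf'
  obtain ⟨a, ha⟩ : ∃ a, a = f' * C (s1 * s2 * s3) := ⟨_, rfl⟩
  have k2 : a.coeff 0 = s := h.inj (by
    have := congrArg (eval 0) hf'
    simp only [eval_mul, coe_mapRingHom, map_C, eval_C, ← coeff_zero_eq_eval_zero f',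
      show eval 0 f = 1 from f0, eval_zero_map] at this
    rw [ha, coeff_mul_C, map_mul, ← this, hs, map_mul φ _ s4]; ring)
  have k3 : ρ f = mapRingHom φ (1 + C s * (ρ₀ (divX a) * X)) := by
    refine (h.poly.unit _ ⟨s, ms, rfl⟩).mul_right_cancel ?_
    rw [← pow_one (mapRingHom φ (C s)), k1, ← ha, pow_one, ← map_mul]
    conv_lhs => rw [← divX_mul_X_add a, k2, map_add, map_mul, r3]
    congr 1
    simp only [ρ₀, coe_eval₂RingHom, eval₂_X]
    ring
  obtain ⟨μ, _, d, hd, h1, -⟩ := h.poly.zext (s := C s) (f := 1 + C s * (ρ₀ (divX a) * X))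
    (Sat.of_mem ⟨s, ms, rfl⟩) ⟨-(ρ₀ (divX a) * X), 1, by ring⟩
    (fun h0 => by simpa using congrArg (eval 0) h0) (idem_map he ρ) (u := u.map ρ) (v := v.map ρ)
    (by rw [← Matrix.map_mul, b1, map_smul', k3]) (by rw [← Matrix.map_mul, b2, map_smul', k3,
      map_one'])
    (fun i j => ⟨1, _, key _ _ s1 (s2 * s3 * s4) (by rw [hs]; ring)
      ((mul_comm _ _).trans (congrFun (congrFun he' i) j).symm)⟩)
    (fun i j => ⟨1, _, key _ _ s2 (s1 * s3 * s4) (by rw [hs]; ring)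
      ((mul_comm _ _).trans (congrFun (congrFun hu' i) j).symm)⟩)
    (fun i j => ⟨1, _, key _ _ s3 (s1 * s2 * s4) (by rw [hs]; ring)
      ((mul_comm _ _).trans (congrFun (congrFun hv' i) j).symm)⟩)
  have := (Free.of_eqv h1 (idem_map he ρ) ((H μ d hd).map _)).map ρ'
  rwa [map_comp', r2] at this

/-- Projective modules over the polynomial ring are extended. -/
def BQ (A : Type) [CommRing A] : Prop :=
  ∀ (ι : Type) [Fintype ι] (e : Matrix ι ι A[X]), e * e = e → Eqv e (e.map (c0 A))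

theorem IsLoc.bq [IsDomain A] (H : AllFree A[X]) {φ : A →+* B} {M : Submonoid A}
    (h : IsLoc φ M) : BQ B := fun ι _ _ he =>
  have := h.domain
  quillen he fun _ _ _ _ _ _ _ h' => roitman H (h.comp' h') ι _ (idem_map he _)

lemma BQ.free {ι : Type} [Fintype ι] (h : BQ A) {e : Matrix ι ι A[X]} (he : e * e = e)
    (h0 : Free (e.map (evalRingHom 0))) : Free e :=
  Free.of_eqv (h ι e he) he (h0.map C)

end Pool.Agent.Lib.MP_a37f0b_ag
end
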