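import Pool.Agent.Lib.MP_a37f0b_ag.Main
import Mathlib.RingTheory.AdicCompletion.Completeness
import Mathlib.RingTheory.Henselian
import Mathlib.RingTheory.Polynomial.Ideal
import Mathlib.RingTheory.UniqueFactorizationDomain.Kaplansky
import Mathlib.RingTheory.UniqueFactorizationDomain.Multiplicity
import Mathlib.FieldTheory.IntermediateField.Adjoin.Basic
import Mathlib.RingTheory.IntegralDomain
import Mathlib.RingTheory.Unramified.LocalStructure
import Mathlib.RingTheory.Smooth.Kaehler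

-- part Pool.Agent.Lib.MP_a37f0b_ag.Lindel
section

/-!
Simple etale extensions and the lemma of Lindel.
-/

open Matrix Polynomial

namespace Pool.Agent.Lib.MP_a37f0b_ag

variable {A B D W : Type} [CommRing A] [CommRing B] [CommRing D] [CommRing W] {τ σ : Type}

/-- `B` is a localization of the hypersurface `F = 0`. -/
structure HS (φ : W →+* B) (F : W) : Prop where
  ker : ∀ a, φ a = 0 ↔ F ∣ a
  surj : ∀ c, ∃ m a, IsUnit (φ m) ∧ c * φ m = φ a

section HS

variable {φ : W →+* B} {F : W}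

lemma HS.zero (h : HS φ F) : φ F = 0 := (h.ker F).2 dvd_rfl

lemma HS.loc (h : HS φ F) {j : B →+* D} {N : Submonoid B} (h' : IsLoc j N) : HS (j.comp φ) F :=
  ⟨fun a => (map_eq_zero_iff j h'.inj).trans (h.ker a), fun c => by
    obtain ⟨n, hn, b, h1⟩ := h'.surj c
    obtain ⟨m, a, h2, h3⟩ := h.surj n
    obtain ⟨m', a', h4, h5⟩ := h.surj b
    refine ⟨a * m', a' * m, ?_, ?_⟩ <;> simp only [RingHom.comp_apply, map_mul, ← h3, ← h5, ← h1]
    · exact ((h'.unit n hn).mul (h2.map j)).mul (h4.map j)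
    · ring⟩

lemma HS.up {l : A →+* W} {M : Submonoid A} {F : A} (h : HS (φ.comp l) F) (hl : IsLoc l M) :
    HS φ (l F) :=
  ⟨fun a => ⟨fun h0 => by
    obtain ⟨m, hm, b, h1⟩ := hl.surj a
    exact (hl.unit m hm).dvd_mul_right.1 (h1 ▸ _root_.map_dvd l ((h.ker b).1 (by
      rw [RingHom.comp_apply, ← h1, map_mul, h0, zero_mul]))),
    fun ⟨c, hc⟩ => by rw [hc, map_mul, show φ (l F) = 0 from h.zero, zero_mul]⟩,
    fun c => let ⟨_, _, h1⟩ := h.surj c; ⟨_, _, h1⟩⟩

lemma HS.mv (h : HS φ F) : HS (MvPolynomial.map (σ := τ) φ) (MvPolynomial.C F) :=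
  ⟨fun a => by simp [MvPolynomial.C_dvd_iff_dvd_coeff, MvPolynomial.ext_iff, MvPolynomial.coeff_map,
    h.ker], fun c => by
    induction c using MvPolynomial.induction_on with
    | C c =>
      obtain ⟨m, a, h1, h2⟩ := h.surj c
      exact ⟨MvPolynomial.C m, MvPolynomial.C a, by simpa using h1.map MvPolynomial.C,
        by simp [← h2]⟩
    | add p q hp hq =>
      obtain ⟨m, a, h1, h2⟩ := hp
      obtain ⟨m', a', h3, h4⟩ := hq
      exact ⟨m * m', a * m' + a' * m, by simpa using ⟨h1, h3⟩, by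
        simp only [map_add, map_mul, ← h2, ← h4]; ring⟩
    | mul_X p i hp =>
      obtain ⟨m, a, h1, h2⟩ := hp
      exact ⟨m, a * MvPolynomial.X i, h1, by rw [map_mul, ← h2, MvPolynomial.map_X]; ring⟩⟩

lemma HS.isLoc (h : HS φ F) : ∃ φ' : W ⧸ Ideal.span {F} →+* B,
    φ'.comp (Ideal.Quotient.mk _) = φ ∧ IsLoc φ' ((IsUnit.submonoid B).comap φ') := by
  have h1 : ∀ a, a ∈ Ideal.span {F} ↔ φ a = 0 := fun a => Ideal.mem_span_singleton.trans (h.ker a).symm
  refine ⟨Ideal.Quotient.lift _ φ fun a => (h1 a).1, rfl, RingHom.lift_injective_of_ker_le_ideal _ _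
    fun a => (h1 a).2, fun _ h => h, fun c => ?_⟩
  obtain ⟨m, a, h2, h3⟩ := h.surj c
  exact ⟨Ideal.Quotient.mk _ m, h2, Ideal.Quotient.mk _ a, h3⟩

lemma HS.lift (h : HS φ F) (ψ : W →+* D) (h0 : ψ F = 0) (hu : ∀ m, IsUnit (φ m) → IsUnit (ψ m)) :
    ∃ χ : B →+* D, χ.comp φ = ψ := by
  obtain ⟨φ', rfl, h1⟩ := h.isLoc
  obtain ⟨χ, h2⟩ := h1.lift (Ideal.Quotient.lift _ ψ fun a ha => by
    obtain ⟨c, rfl⟩ := Ideal.mem_span_singleton.1 ha
    rw [map_mul, h0, zero_mul]) fun m hm => by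
      obtain ⟨m, rfl⟩ := Ideal.Quotient.mk_surjective m
      exact hu m hm
  exact ⟨χ, by rw [← RingHom.comp_assoc, h2]; rfl⟩

lemma IsLoc.noeth {l : A →+* B} {M : Submonoid A} (h : IsLoc l M) [IsNoetherianRing A] :
    IsNoetherianRing B :=
  let _ := l.toAlgebra
  have := h.alg
  IsLocalization.isNoetherianRing M B ‹_›

lemma IsLoc.ufd {l : A →+* B} {M : Submonoid A} (h : IsLoc l M) [IsDomain A] [IsDomain B]
    [UniqueFactorizationMonoid A] : UniqueFactorizationMonoid B :=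
  let _ := l.toAlgebra
  have := h.alg
  .of_isLocalization M B

lemma HS.noeth (h : HS φ F) [IsNoetherianRing W] : IsNoetherianRing B :=
  let ⟨_, _, h1⟩ := h.isLoc
  h1.noeth

lemma HS.lt_comap (h : HS φ F) {P Q : Ideal B} (h1 : P < Q) : P.comap φ < Q.comap φ :=
  lt_of_le_of_ne (Ideal.comap_mono h1.le) fun h2 => h1.not_ge fun c hc => by
    obtain ⟨m, a, h3, h4⟩ := h.surj c
    have : a ∈ Q.comap φ := by rw [Ideal.mem_comap, ← h4]; exact Q.mul_mem_right _ hc
    rwa [← h2, Ideal.mem_comap, ← h4, Ideal.mul_unit_mem_iff_mem _ h3] at this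

end HS

/-- `B` is a localization of a simple etale extension of `A`. -/
def Et (γ : A →+* B) : Prop := ∃ (t : B) (F : A[X]), F.Monic ∧ HS (eval₂RingHom γ t) F ∧
  IsUnit (F.derivative.eval₂ γ t)

section Et

variable {γ : A →+* B}

lemma Et.loc (h : Et γ) {j : B →+* D} {N : Submonoid B} (h' : IsLoc j N) : Et (j.comp γ) :=
  let ⟨t, F, h1, h2, h3⟩ := h
  ⟨j t, F, h1, (Polynomial.ringHom_ext (by simp) (by simp) :
    j.comp (eval₂RingHom γ t) = eval₂RingHom (j.comp γ) (j t)) ▸ h2.loc h',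
    hom_eval₂ _ γ j t ▸ h3.map j⟩

lemma Et.up {l : D →+* A} {M : Submonoid D} (h : Et (γ.comp l)) (hl : IsLoc l M) : Et γ :=
  let ⟨t, F, h1, h2, h3⟩ := h
  ⟨t, F.map l, h1.map l, HS.up ((Polynomial.ringHom_ext (by simp) (by simp) :
    eval₂RingHom (γ.comp l) t = (eval₂RingHom γ t).comp (mapRingHom l)) ▸ h2) hl.poly,
    by rwa [derivative_map, eval₂_map]⟩

lemma Et.mv (h : Et γ) : Et (MvPolynomial.map (σ := τ) γ) := by
  obtain ⟨t, F, h1, h2, h3⟩ := h
  refine ⟨MvPolynomial.C t, F.map MvPolynomial.C, h1.map _, ?_, ?_⟩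
  · rw [← swp_C]
    refine HS.up ?_ (isLoc_equiv (swp τ A))
    convert h2.mv
    exact MvPolynomial.ringHom_ext' (Polynomial.ringHom_ext (by simp [swp_C]) (by simp [swp_C]))
      (by simp [swp_X])
  · rw [derivative_map, eval₂_map, MvPolynomial.map_comp_C, ← hom_eval₂]
    exact h3.map _

lemma HS.inj [Nontrivial B] {t : B} {F : A[X]} (h : HS (eval₂RingHom γ t) F) (h1 : F.Monic) :
    Function.Injective γ := by
  have := γ.domain_nontrivial
  refine (injective_iff_map_eq_zero γ).2 fun a ha => by_contra fun h0 =>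
    h1.not_dvd_of_natDegree_lt (C_ne_zero.2 h0) ?_ ((h.ker _).1 (by simpa using ha))
  rw [natDegree_C, pos_iff_ne_zero, Ne, h1.natDegree_eq_zero]
  rintro rfl
  simpa using h.zero

lemma Et.inj [Nontrivial B] (h : Et γ) : Function.Injective γ :=
  let ⟨_, _, h1, h2, _⟩ := h
  h2.inj h1

lemma Et.equiv (h : Et γ) (E : D ≃+* A) : Et (γ.comp (E : D →+* A)) :=
  Et.up (l := (E.symm : A →+* D)) (by rwa [RingHom.comp_assoc, RingEquiv.comp_symm, RingHom.comp_id])
    (isLoc_equiv E.symm)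

lemma exists_prime_mem [IsDomain A] [UniqueFactorizationMonoid A] {P : Ideal A} (hP : P.IsPrime)
    {x : A} (h0 : x ≠ 0) (hx : x ∈ P) : ∃ p ∈ P, Prime p ∧ p ∣ x :=
  let ⟨p, h1, h2⟩ := (hP.multiset_prod_mem_iff_exists_mem (UniqueFactorizationMonoid.factors x)).1
    (Ideal.mem_of_dvd _ (UniqueFactorizationMonoid.factors_prod h0).symm.dvd hx)
  ⟨p, h2, UniqueFactorizationMonoid.prime_of_factor p h1,
    UniqueFactorizationMonoid.dvd_of_mem_factors h1⟩

variable {F : Type} [Field F] {χ : B →+* F}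

lemma et_of_weak [IsDomain A] [UniqueFactorizationMonoid A] (hχ : ∀ c, χ c ≠ 0 → IsUnit c) {t : B}
    {f : A[X]} (hf : f.Monic) (h0 : f.eval₂ γ t = 0) (hd : IsUnit (f.derivative.eval₂ γ t))
    (h1 : ∀ a : A[X], a.eval₂ γ t = 0 → ∃ m : A[X], IsUnit (m.eval₂ γ t) ∧ f ∣ a * m)
    (h2 : ∀ c, ∃ m a : A[X], IsUnit (m.eval₂ γ t) ∧ c * m.eval₂ γ t = a.eval₂ γ t) :
    IsDomain B ∧ Et γ := by
  obtain ⟨p, G, hp, h3, rfl, h4⟩ : ∃ p G : A[X], Prime p ∧ p.Monic ∧ f = p * G ∧
      χ (p.eval₂ γ t) = 0 := by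
    obtain ⟨p, h4, h3, G, rfl⟩ := exists_prime_mem (RingHom.ker_isPrime
      (χ.comp (eval₂RingHom γ t))) hf.ne_zero (by simp [RingHom.mem_ker, h0])
    have h5 : G.leadingCoeff * p.leadingCoeff = 1 := by rw [mul_comm, ← leadingCoeff_mul]; exact hf
    refine ⟨C G.leadingCoeff * p, C p.leadingCoeff * G, (associated_unit_mul_right _ _
      ((IsUnit.of_mul_eq_one _ h5).map C)).prime h3,
      by rw [Monic, leadingCoeff_mul, leadingCoeff_C, h5], ?_, by
        simp [show χ (p.eval₂ γ t) = 0 from h4]⟩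
    rw [mul_mul_mul_comm, ← C_mul, h5, C_1, one_mul]
  have h5 := (hd.map χ).ne_zero
  simp only [derivative_mul, eval₂_add, eval₂_mul, map_add, map_mul, h4, zero_mul, add_zero,
    mul_ne_zero_iff] at h5
  have h6 : HS (eval₂RingHom γ t) p := ⟨fun a => ⟨fun ha => by
    obtain ⟨m, h7, h8⟩ := h1 a ha
    refine (hp.dvd_or_dvd ((dvd_mul_right _ _).trans h8)).resolve_right fun ⟨c, hc⟩ => ?_
    simpa [hc, h4] using (h7.map χ).ne_zero, fun ⟨c, hc⟩ => by
      rw [eval₂_mul, (hχ _ h5.2).mul_left_eq_zero] at h0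
      simp [hc, h0]⟩, h2⟩
  obtain ⟨φ', -, h7⟩ := h6.isLoc
  have := (Ideal.span_singleton_prime hp.ne_zero).2 hp
  exact ⟨h7.domain, t, p, h3, h6, hχ _ h5.1⟩

lemma Et.quot (h : Et γ) (hχ : ∀ c, χ c ≠ 0 → IsUnit c) {p : A →+* D} [IsDomain D]
    [UniqueFactorizationMonoid D] (hp : Function.Surjective p) {J : Ideal B}
    (hJ : J = (RingHom.ker p).map γ) (h0 : J ≤ RingHom.ker χ) : IsDomain (B ⧸ J) ∧
      ∃ γ' : D →+* B ⧸ J, γ'.comp p = (Ideal.Quotient.mk J).comp γ ∧ Et γ' := by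
  obtain ⟨t, f, h1, h2, h3⟩ := h
  let γ' := p.liftOfSurjective hp ⟨(Ideal.Quotient.mk J).comp γ, fun a ha =>
    Ideal.Quotient.eq_zero_iff_mem.2 (hJ ▸ Ideal.mem_map_of_mem γ ha)⟩
  have e1 : γ'.comp p = (Ideal.Quotient.mk J).comp γ := RingHom.liftOfRightInverse_comp _ _ _ _
  have e2 : ∀ a : A[X], (a.map p).eval₂ γ' (Ideal.Quotient.mk J t) =
      Ideal.Quotient.mk J (a.eval₂ γ t) := fun a => by rw [eval₂_map, e1, hom_eval₂]
  have := et_of_weak (γ := γ') (χ := Ideal.Quotient.lift J χ h0) (t := Ideal.Quotient.mk J t)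
    (fun c hc => by
      obtain ⟨c, rfl⟩ := Ideal.Quotient.mk_surjective c
      exact (hχ c hc).map _) (h1.map p) (by rw [e2, show eval₂ γ t f = 0 from h2.zero, map_zero])
    (by rw [derivative_map, e2]; exact h3.map _) (fun a ha => ?_) fun c => ?_
  · exact ⟨this.1, γ', e1, this.2⟩
  · obtain ⟨a, rfl⟩ := map_surjective p hp a
    rw [e2, Ideal.Quotient.eq_zero_iff_mem, hJ] at ha
    have : ∀ c ∈ (RingHom.ker p).map γ, ∃ m b : A[X], IsUnit (m.eval₂ γ t) ∧ b.map p = 0 ∧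
        c * m.eval₂ γ t = b.eval₂ γ t := fun c hc => by
      refine Submodule.span_induction ?_ ⟨1, 0, by simp⟩ ?_ ?_ hc
      · rintro _ ⟨x, hx, rfl⟩
        exact ⟨1, C x, by simpa using hx⟩
      · rintro x y - - ⟨m, b, u, v, w⟩ ⟨m', b', u', v', w'⟩
        exact ⟨m * m', b * m' + b' * m, by simpa using ⟨u, u'⟩, by simp [v, v'], by
          simp only [eval₂_add, eval₂_mul, ← w, ← w']; ring⟩
      · rintro x y - ⟨m, b, u, v, w⟩
        obtain ⟨m', b', u', w'⟩ := h2.surj x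
        exact ⟨m * m', b * b', by simpa using ⟨u, u'⟩, by simp [v], by
          simp only [coe_eval₂RingHom] at w'
          simp only [eval₂_mul, ← w, ← w', smul_eq_mul]; ring⟩
    obtain ⟨m, b, u, v, w⟩ := this _ ha
    refine ⟨m.map p, e2 m ▸ u.map _, ?_⟩
    simpa [v] using Polynomial.map_dvd p ((h2.ker (a * m - b)).1 (by simp [← w]))
  · obtain ⟨c, rfl⟩ := Ideal.Quotient.mk_surjective c
    obtain ⟨m, a, u, w⟩ := h2.surj c
    exact ⟨m.map p, a.map p, e2 m ▸ u.map _, by rw [e2, e2, ← map_mul]; exact congrArg _ w⟩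

end Et

section An

variable {φ : A →+* B} {f : A}

lemma An.mv (h : An φ f) : An (MvPolynomial.map (σ := τ) φ) (MvPolynomial.C f) :=
  ⟨MvPolynomial.map_injective _ h.inj, fun b => by
    induction b using MvPolynomial.induction_on with
    | C b =>
      obtain ⟨a, b', rfl⟩ := h.surj b
      exact ⟨MvPolynomial.C a, MvPolynomial.C b', by simp⟩
    | add p q hp hq =>
      obtain ⟨a, b, rfl⟩ := hp
      obtain ⟨a', b', rfl⟩ := hq
      exact ⟨a + a', b + b', by rw [map_add]; ring⟩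
    | mul_X p i hp =>
      obtain ⟨a, b, rfl⟩ := hp
      exact ⟨a * MvPolynomial.X i, b * MvPolynomial.X i, by rw [map_mul, MvPolynomial.map_X]; ring⟩,
    fun a ha => by
      rw [MvPolynomial.map_C, MvPolynomial.C_dvd_iff_dvd_coeff] at ha
      exact (MvPolynomial.C_dvd_iff_dvd_coeff _ _).2 fun i =>
        h.dvd _ (MvPolynomial.coeff_map φ a i ▸ ha i)⟩

lemma An.loc (h : An φ f) {α : A →+* D} {β : B →+* W} {M : Submonoid A} {N : Submonoid B}
    (hα : IsLoc α M) (hβ : IsLoc β N) (hN : N ≤ Sat (M.map φ)) {j : D →+* W}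
    (hj : j.comp α = β.comp φ) : An j (α f) := by
  have e : ∀ a, j (α a) = β (φ a) := RingHom.congr_fun hj
  refine ⟨hα.inj_of_comp (hj ▸ hβ.inj.comp h.inj), fun b => ?_, fun a ⟨c, hc⟩ => ?_⟩
  · obtain ⟨n, hn, x, hx⟩ := hβ.surj b
    obtain ⟨m, hm, y, hy⟩ := le_sat_map hN n hn
    obtain ⟨a, c, h1⟩ := h.surj (x * y)
    obtain ⟨s, hs⟩ := (hα.unit m hm).exists_right_inv
    have h2 := congrArg j hs
    have h3 := congrArg β h1
    simp only [map_mul, map_add, map_one, e, hy, ← hx] at h2 h3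
    exact ⟨α a * s, β c * j s, by
      rw [map_mul, e, e]; linear_combination j s * h3 - b * h2⟩
  · obtain ⟨m, hm, x, hx⟩ := hα.surj a
    obtain ⟨n, hn, y, hy⟩ := hβ.surj c
    obtain ⟨m', hm', z, hz⟩ := le_sat_map hN n hn
    have := _root_.map_dvd α (h.dvd (x * m') ⟨y * z * φ m, hβ.inj (by
      simp only [map_mul, ← e x, ← hx, hc, hz, ← hy, e]; ring)⟩)
    rwa [map_mul, ← hx, (hα.unit m' hm').dvd_mul_right, (hα.unit m hm).dvd_mul_right] at this

lemma An.prime [IsDomain A] (h : An φ f) (hf : f ≠ 0) {p : A} (hp : Prime p) (hd : p ∣ f) :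
    Prime (φ p) := by
  obtain ⟨q, rfl⟩ := hd
  have h1 : ∀ a, φ p ∣ φ a → p ∣ a := fun a ha => (mul_dvd_mul_iff_right
    (right_ne_zero_of_mul hf)).1 (h.dvd _ (by simpa using mul_dvd_mul_right ha (φ q)))
  refine ⟨(map_ne_zero_iff _ h.inj).2 hp.ne_zero, fun hu =>
    hp.not_isUnit (isUnit_of_dvd_one (h1 1 hu.dvd)), fun x y hxy => ?_⟩
  obtain ⟨a, x, rfl⟩ := h.surj x
  obtain ⟨b, y, rfl⟩ := h.surj y
  simp only [map_mul, mul_assoc, dvd_add_left (dvd_mul_right _ _)]
  refine (hp.dvd_or_dvd (h1 _ ?_)).imp (_root_.map_dvd φ) (_root_.map_dvd φ)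
  obtain ⟨c, hc⟩ := hxy
  exact ⟨c - φ q * (φ a * y + x * φ b + φ (p * q) * x * y), by
    simp only [map_mul] at hc ⊢; linear_combination hc⟩

lemma An.laf [IsDomain A] [IsDomain B] (h : An φ f) (hf : f ≠ 0) {w : A} (hw : w ≠ 0)
    (hK : LAF A (Submonoid.powers w)) [Finite τ] {β : MvPolynomial τ B →+* D}
    (hβ : IsLoc β (LM τ (Submonoid.powers (φ w)))) {ι : Type} [Fintype ι] {e : Matrix ι ι D}
    (he : e * e = e) (hq : QFree (β (MvPolynomial.C (φ f))) e) : Free e := by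
  obtain ⟨D', _, _, α, hα⟩ := exists_loc (zero_notMem_LM (σ := τ) (zero_notMem_powers hw))
  have := hβ.domain
  obtain ⟨j, hj⟩ := hα.lift (β.comp (MvPolynomial.map φ)) (LM_pow_le
    (S := (IsUnit.submonoid D).comap _) (show IsUnit _ by
      simpa using hβ.unit _ (C_mem_LM (Submonoid.mem_powers _)))
    fun i => show IsUnit _ by simpa using hβ.unit _ (X_mem_LM i))
  obtain ⟨μ, _, d, hd, h1, -⟩ := (h.mv.loc hα hβ (LM_pow_le
    (Sat.of_mem ⟨_, C_mem_LM (Submonoid.mem_powers _), by simp⟩)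
    fun i => Sat.of_mem ⟨_, X_mem_LM i, by simp⟩) hj).desc
    ((map_ne_zero_iff _ hα.inj).2 (by simpa using hf)) he (by
      rwa [← RingHom.comp_apply, hj, RingHom.comp_apply, MvPolynomial.map_C])
  exact Free.of_eqv h1 he ((hK τ _ _ hα μ d hd).map j)

end An

section LL

variable {F : Type} [Field F]

lemma IsLoc.nz_unit {α : A →+* B} {χ : B →+* F} (h : IsLoc α (NZ (χ.comp α))) (b : B)
    (hb : χ b ≠ 0) : IsUnit b := by
  obtain ⟨m, hm, a, ha⟩ := h.surj b
  refine isUnit_of_mul_isUnit_left (ha ▸ h.unit a ?_)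
  simpa [NZ, ← ha, hb] using hm

lemma nak {χ : A →+* F} (hχ : ∀ a, χ a ≠ 0 → IsUnit a) {f g : A[X]} (hf : f.Monic) {s : F}
    {f₁ : F[X]} (h1 : f.map χ = (X - C s) * f₁) (h2 : IsCoprime (g.map χ) f₁)
    (h3 : (g.map χ).eval s = 0) : ∃ c a b, X - C c = a * f + b * g := by
  classical
  have : IsLocalHom χ := ⟨fun b hb => hχ b hb.ne_zero⟩
  have := χ.domain_isLocalRing
  let ρ := IsLocalRing.residue A
  let ι := IsLocalRing.ResidueField.lift χ
  have e : ∀ p : A[X], (p.map ρ).map ι = p.map χ := fun p => by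
    rw [Polynomial.map_map, IsLocalRing.ResidueField.lift_comp_residue]
  have d1 := Polynomial.map_dvd ι (EuclideanDomain.gcd_dvd_left (f.map ρ) (g.map ρ))
  have d2 := Polynomial.map_dvd ι (EuclideanDomain.gcd_dvd_right (f.map ρ) (g.map ρ))
  have d3 := EuclideanDomain.gcd_eq_gcd_ab (f.map ρ) (g.map ρ)
  rw [e] at d1 d2
  rw [h1] at d1
  replace d1 := (h2.of_isCoprime_of_dvd_left d2).dvd_of_dvd_mul_right d1
  obtain ⟨x, y, h4⟩ := exists_eq_X_add_C_of_natDegree_le_one (((natDegree_map ι).symm.le.trans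
    (natDegree_le_of_dvd d1 (X_sub_C_ne_zero s))).trans (natDegree_X_sub_C s).le)
  obtain ⟨x, rfl⟩ := IsLocalRing.residue_surjective x
  obtain ⟨y, rfl⟩ := IsLocalRing.residue_surjective y
  obtain ⟨a, ha⟩ := map_surjective ρ IsLocalRing.residue_surjective
    (EuclideanDomain.gcdA (f.map ρ) (g.map ρ))
  obtain ⟨b, hb⟩ := map_surjective ρ IsLocalRing.residue_surjective
    (EuclideanDomain.gcdB (f.map ρ) (g.map ρ))
  rw [h4, ← ha, ← hb] at d3
  obtain ⟨z, hz⟩ := (hχ x fun h0 => by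
    have := congrArg (fun p => (p.map ι).eval s) d3
    simp only [Polynomial.map_add, Polynomial.map_mul, e, h1, eval_add, eval_mul, h3] at this
    simp [h4, ι, h0] at this d1
    simp [this, X_sub_C_ne_zero] at d1).exists_left_inv
  have := hf.finite_adjoinRoot
  let J := Ideal.span {AdjoinRoot.mk f g}
  have h5 := Submodule.le_of_le_smul_of_le_jacobson_bot (N := Submodule.span A {1} ⊔
    J.restrictScalars A) (Module.Finite.fg_top (R := A) (M := AdjoinRoot f))
    (IsLocalRing.maximalIdeal_le_jacobson ⊥) fun p _ => by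
      obtain ⟨p, rfl⟩ := AdjoinRoot.mk_surjective p
      obtain ⟨q, hq⟩ := X_sub_C_dvd_sub_C_eval (p := p) (a := -(z * y))
      have h6 : C x * X + C y - (f * a + g * b) ∈ (IsLocalRing.maximalIdeal A).map C := by
        rw [← IsLocalRing.ker_residue, ← ker_mapRingHom, RingHom.mem_ker]
        simpa [sub_eq_zero] using d3
      have h7 := Ideal.mem_map_of_mem (AdjoinRoot.mk f) (Ideal.mul_mem_left _ (C z * q) h6)
      rw [Ideal.map_map] at h7
      rw [Ideal.smul_top_eq_map, show AdjoinRoot.mk f p = p.eval (-(z * y)) • 1 +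
        AdjoinRoot.mk f g * AdjoinRoot.mk f (C z * q * b) + AdjoinRoot.mk f
          (C z * q * (C x * X + C y - (f * a + g * b))) by
        rw [Algebra.smul_def, mul_one, AdjoinRoot.algebraMap_eq, AdjoinRoot.of,
          RingHom.comp_apply, ← map_mul, ← map_add, ← map_add, AdjoinRoot.mk_eq_mk]
        have := congrArg C hz
        rw [C_mul, C_1] at this
        rw [C_neg, C_mul] at hq
        exact ⟨C z * q * a, by linear_combination hq - q * X * this⟩]
      exact Submodule.add_mem_sup (Submodule.add_mem_sup (Submodule.smul_mem _ _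
        (Submodule.mem_span_singleton_self _)) (J.mul_mem_right _
          (Ideal.mem_span_singleton_self _))) h7
  obtain ⟨u, hu, v, hv, h8⟩ := Submodule.mem_sup.1 (h5 (Submodule.mem_top (x := AdjoinRoot.mk f X)))
  obtain ⟨c, rfl⟩ := Submodule.mem_span_singleton.1 hu
  obtain ⟨w, rfl⟩ := Ideal.mem_span_singleton'.1 hv
  obtain ⟨w, rfl⟩ := AdjoinRoot.mk_surjective w
  rw [Algebra.smul_def, mul_one, AdjoinRoot.algebraMap_eq, AdjoinRoot.of, RingHom.comp_apply,
    ← map_mul, ← map_add, eq_comm, AdjoinRoot.mk_eq_mk] at h8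
  obtain ⟨k, hk⟩ := h8
  exact ⟨c, k, w, by linear_combination hk⟩

lemma an_of_lin {j : A →+* B} {χ : B →+* F} (hχ : ∀ b, χ b ≠ 0 → IsUnit b)
    (hj : ∀ a, χ (j a) ≠ 0 → IsUnit a) {u : B} {f g : A[X]} (hf : f.Monic)
    (h : HS (eval₂RingHom j u) f) {f₁ : F[X]} (h1 : f.map (χ.comp j) = (X - C (χ u)) * f₁)
    (h2 : IsCoprime (g.map (χ.comp j)) f₁) (h3 : χ (g.eval₂ j u) = 0) :
    ∃ x, An j x ∧ g.eval₂ j u ∣ j x := by
  have := χ.domain_nontrivial
  have e1 : ∀ p : A[X], (p.map (χ.comp j)).eval (χ u) = χ (p.eval₂ j u) := fun p => by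
    rw [eval_map, hom_eval₂]
  obtain ⟨c, a, b, h4⟩ := nak (χ := χ.comp j) hj hf h1 h2 ((e1 g).trans h3)
  have h0 : f.eval₂ j u = 0 := h.zero
  replace h4 : u - j c = b.eval₂ j u * g.eval₂ j u := by
    simpa [h0] using congrArg (eval₂ j u) h4
  have h5 : χ (j c) = χ u := by
    rw [eq_comm, ← sub_eq_zero, ← map_sub, h4, map_mul, h3, mul_zero]
  have h6 := (mul_divByMonic_eq_iff_isRoot (p := f.map j) (a := u)).2 (by rwa [IsRoot, eval_map])
  have h7 : IsUnit ((f.map j /ₘ (X - C u)).eval (j c)) := hχ _ fun h8 => by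
    have := congrArg (Polynomial.map χ) h6
    rw [Polynomial.map_map, h1, Polynomial.map_mul, Polynomial.map_sub, map_X, map_C,
      mul_right_inj' (X_sub_C_ne_zero _)] at this
    obtain ⟨p, q, h9⟩ := h2
    rw [← eval₂_hom, ← eval_map, this, h5] at h8
    simpa [e1, h3, h8] using congrArg (eval (χ u)) h9
  have h8 : j (f.eval c) = (j c - u) * (f.map j /ₘ (X - C u)).eval (j c) := by
    conv_lhs => rw [← eval₂_hom, ← eval_map, ← h6]
    simp
  have h9 : ∀ y, j (f.eval c) ∣ y ↔ u - j c ∣ y := fun y => by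
    rw [h8, h7.mul_right_dvd, ← neg_sub, neg_dvd]
  have e2 : ∀ p : A[X], u - j c ∣ p.eval₂ j u - j (p.eval c) := fun p => by
    simpa [eval_map, eval₂_hom] using sub_dvd_eval_sub u (j c) (p.map j)
  have e3 : ∀ m : A[X], IsUnit (m.eval₂ j u) → IsUnit (m.eval c) := fun m hm => hj _ (by
    obtain ⟨k, hk⟩ := e2 m
    have := congrArg χ hk
    rw [map_mul, map_sub, map_sub, h5, sub_self, zero_mul, sub_eq_zero] at this
    exact this ▸ (hm.map χ).ne_zero)
  refine ⟨f.eval c, ⟨h.inj hf, fun y => ?_, fun x hx => ?_⟩, ?_⟩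
  · obtain ⟨m, p, hm, hp⟩ := h.surj y
    obtain ⟨s, hs⟩ := (e3 m hm).exists_right_inv
    obtain ⟨k, hk⟩ := (h9 (y - j (p.eval c * s))).2 (by
      obtain ⟨k, hk⟩ := e2 m
      obtain ⟨k', hk'⟩ := e2 p
      have := congrArg j hs
      simp only [map_mul, map_one, coe_eval₂RingHom] at this hp ⊢
      exact ⟨j s * (k' - y * k), by
        linear_combination j s * hp - y * this - y * j s * hk + j s * hk'⟩)
    exact ⟨_, k, by rw [← hk]; ring⟩
  · obtain ⟨y, hy⟩ := (h9 _).1 hx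
    obtain ⟨m, p, hm, hp⟩ := h.surj y
    have := eval_dvd (x := c) ((h.ker (C x * m - (X - C c) * p)).1 (by
      simp only [map_sub, map_mul, ← hp]; simp [hy, mul_assoc]))
    rwa [eval_sub, eval_mul, eval_mul, eval_sub, eval_X, eval_C, eval_C, sub_self, zero_mul,
      sub_zero, (e3 m hm).dvd_mul_right] at this
  · rw [h8, ← neg_sub, h4]
    exact ((dvd_mul_left _ _).neg_right).mul_right _

lemma lead_eval₂ [IsDomain B] (ρ : A →+* B[X]) (y : B[X]) {f : A[X]} (hf : f.Monic)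
    (h : ∀ k, (ρ (f.coeff k)).natDegree < y.natDegree) :
    (f.eval₂ ρ y).leadingCoeff = y.leadingCoeff ^ f.natDegree := by
  have h0 : y ≠ 0 := fun h0 => by simpa [h0] using h 0
  conv_lhs => rw [hf.as_sum]
  rw [eval₂_add, eval₂_X_pow, leadingCoeff_add_of_degree_lt', leadingCoeff_pow]
  rw [eval₂_finsetSum]
  refine (degree_sum_le _ _).trans_lt ((Finset.sup_lt_iff (bot_lt_iff_ne_bot.2
    (degree_ne_bot.2 (pow_ne_zero _ h0)))).2 fun i hi => degree_lt_degree ?_)
  rw [eval₂_mul, eval₂_C, eval₂_X_pow, natDegree_pow]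
  refine natDegree_mul_le.trans_lt ?_
  rw [natDegree_pow]
  nlinarith [h i, Finset.mem_range.1 hi]

variable {Λ κ : Type} [CommRing Λ] [IsDomain Λ] [Field κ] {ψ : Λ →+* κ}

lemma exists_top_model (ψ : Λ →+* κ) {f : (MvPolynomial σ Λ)[X]} (hf : f.Monic) : ∃ z,
    Top ψ (f.eval₂ (MvPolynomial.rename some).toRingHom
      (MvPolynomial.X none + MvPolynomial.rename some z)) := by
  obtain ⟨z, h1, h2⟩ : ∃ z : MvPolynomial σ Λ, (∀ k, (th _ Λ (MvPolynomial.rename some
      (f.coeff k))).natDegree <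
        (th _ Λ (MvPolynomial.X none + MvPolynomial.rename some z)).natDegree) ∧
      Top ψ (MvPolynomial.X none + MvPolynomial.rename some z) := by
    have e : ∀ o : Option σ, th _ Λ (MvPolynomial.X o) = C (MvPolynomial.X o) * X := fun o => by
      simp [th]
    rcases isEmpty_or_nonempty σ with _ | ⟨⟨i⟩⟩
    · refine ⟨0, fun k => ?_, by simp [Top, e]⟩
      rw [MvPolynomial.eq_C_of_isEmpty (f.coeff k)]
      simp [th]
    · obtain ⟨N, hN⟩ : ∃ N, N = 2 + ∑ k ∈ f.support,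
        (th _ Λ (MvPolynomial.rename some (f.coeff k))).natDegree := ⟨_, rfl⟩
      have h1 : ((C (MvPolynomial.X (some i)) * X : (MvPolynomial (Option σ) Λ)[X]) ^ N).natDegree
        = N := by rw [natDegree_pow, natDegree_C_mul_X _ (MvPolynomial.X_ne_zero _), mul_one]
      have h2 : (C (MvPolynomial.X none) * X : (MvPolynomial (Option σ) Λ)[X]).natDegree <
          ((C (MvPolynomial.X (some i)) * X : (MvPolynomial (Option σ) Λ)[X]) ^ N).natDegree := by
        rw [h1, natDegree_C_mul_X _ (MvPolynomial.X_ne_zero _)]; omega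
      refine ⟨MvPolynomial.X i ^ N, fun k => ?_, ?_⟩
      · rw [map_pow, map_add, map_pow, MvPolynomial.rename_X, e, e,
          natDegree_add_eq_right_of_natDegree_lt h2, h1]
        by_cases hk : k ∈ f.support
        · have := Finset.single_le_sum (f := fun k => (th _ Λ (MvPolynomial.rename some
            (f.coeff k))).natDegree) (fun _ _ => Nat.zero_le _) hk
          omega
        · simp [notMem_support_iff.1 hk, hN]
      · rw [Top, map_pow, map_add, map_pow, MvPolynomial.rename_X, e, e,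
          leadingCoeff_add_of_degree_lt (degree_lt_degree h2)]
        simp
  exact ⟨z, by
    rw [Top, hom_eval₂, lead_eval₂ ((th _ Λ).comp _) _ hf h1, map_pow]; exact pow_ne_zero _ h2⟩

theorem lindel [Finite σ] [Infinite κ] (hψ : Function.Surjective ψ)
    (hl : ∀ v, ψ v ≠ 0 → IsUnit v) {ι : κ →+* F} {γ : MvPolynomial σ Λ →+* B} (h : Et γ)
    {χ : B →+* F} (hχ : ∀ b, χ b ≠ 0 → IsUnit b)
    (hc : (χ.comp γ).comp MvPolynomial.C = ι.comp ψ) :
    ∃ (φ : MvPolynomial (Option σ) Λ →+* B) (G : MvPolynomial (Option σ) Λ), HS φ G ∧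
      φ.comp MvPolynomial.C = γ.comp MvPolynomial.C ∧ G.map ψ ≠ 0 ∧
      ∀ g, Rg (g.map ψ) (G.map ψ) → IsUnit (φ g) ∨ ∃ (R : Type) (_ : CommRing R) (_ : IsDomain R)
        (α : MvPolynomial σ Λ →+* R) (j : R →+* B) (x : R), IsLoc α (NZ ((χ.comp j).comp α)) ∧
        (j.comp α).comp MvPolynomial.C = γ.comp MvPolynomial.C ∧ An j x ∧ x ≠ 0 ∧ φ g ∣ j x := by
  obtain ⟨t, f, h1, h2, h3⟩ := h
  obtain ⟨z, h4⟩ := exists_top_model ψ h1
  obtain ⟨E, hE⟩ := exists_equiv (f := eval₂RingHom (MvPolynomial.rename some).toRingHom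
    (MvPolynomial.X none + MvPolynomial.rename some z)) (MvPolynomial.eval₂Hom
      (C.comp MvPolynomial.C) fun o => o.elim (X - C z) fun i => C (MvPolynomial.X i))
    (MvPolynomial.ringHom_ext (by simp) fun o => by cases o <;> simp) (by
      have : (MvPolynomial.eval₂Hom (C.comp MvPolynomial.C) fun o : Option σ => o.elim (X - C z)
          fun i => C (MvPolynomial.X i)).comp (MvPolynomial.rename some).toRingHom = C :=
        MvPolynomial.ringHom_ext (by simp) (by simp)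
      exact Polynomial.ringHom_ext (by simpa using RingHom.congr_fun this)
        (by simpa [sub_add_eq_add_sub, sub_eq_iff_eq_add] using RingHom.congr_fun this z))
  have e1 : ∀ a, E (C a) = MvPolynomial.rename some a := fun a => by
    rw [← RingHom.coe_coe, hE]; simp
  have e2 : E X = MvPolynomial.X none + MvPolynomial.rename some z := by
    rw [← RingHom.coe_coe, hE]; simp
  obtain ⟨φ, hφ⟩ : ∃ φ : _ →+* B, φ.comp E = eval₂RingHom γ t :=
    ⟨(eval₂RingHom γ t).comp E.symm.toRingHom, RingHom.ext (by simp)⟩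
  have e3 : ∀ a, φ (MvPolynomial.rename some a) = γ a := fun a => by
    simpa [e1] using RingHom.congr_fun hφ (C a)
  have e4 : φ (MvPolynomial.X none) = t - γ z := by
    simpa [e2, e3, eq_sub_iff_add_eq] using RingHom.congr_fun hφ X
  have e5 : φ.comp MvPolynomial.C = γ.comp MvPolynomial.C := RingHom.ext fun c => by
    simpa using e3 (MvPolynomial.C c)
  have h5 : HS φ (E f) := HS.up (hφ ▸ h2) (isLoc_equiv E)
  replace h4 : Top ψ (E f) := by rwa [← RingHom.coe_coe, hE]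
  have h6 : (th _ F (tr (χ.comp φ) (E f))).coeff 1 ≠ 0 := fun h0 => by
    let L := (mapRingHom (MvPolynomial.eval fun o : Option σ => o.elim (1 : F) fun _ => 0)).comp
      ((th _ F).comp (tr (χ.comp φ)))
    have e6 : ∀ a, L (MvPolynomial.rename some a) = C (χ (γ a)) := RingHom.congr_fun
      (f := L.comp (MvPolynomial.rename some).toRingHom) (g := C.comp (χ.comp γ))
      (MvPolynomial.ringHom_ext (fun c => by simp [L, tr, th, ← e3]) fun i => by
        simp [L, tr, th, ← e3])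
    have := congrArg (coeff · 1) (RingHom.congr_fun (f := L.comp E) (g := (eval₂RingHom C
      (X + C (χ t))).comp (mapRingHom (χ.comp γ))) (Polynomial.ringHom_ext (by simp [e1, e6])
        (by simp only [RingHom.comp_apply, RingHom.coe_coe, e2, map_add, e6]
            simp [L, tr, th, e4]; ring)) f)
    refine (h3.map χ).ne_zero ?_
    rw [hom_eval₂, ← eval_map, ← derivative_map, ← taylor_coeff_one]
    exact this.symm.trans (by simp [L, h0])
  have g0 : (E f).map ψ ≠ 0 := fun h0 => by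
    have := RingHom.congr_fun (f := (mapRingHom (MvPolynomial.map ψ)).comp (th (Option σ) Λ))
      (g := (th _ κ).comp (MvPolynomial.map ψ))
      (MvPolynomial.ringHom_ext (by simp [th]) (by simp [th])) (E f)
    exact h4 (by simpa [h0] using congrArg (coeff · (th _ Λ (E f)).natDegree) this)
  have hc' : (χ.comp φ).comp MvPolynomial.C = ι.comp ψ := by
    rw [RingHom.comp_assoc, e5, ← hc]; rfl
  refine ⟨φ, E f, h5, e5, g0, fun g hg => or_iff_not_imp_left.2 fun h7 => ?_⟩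
  obtain ⟨r, r0, hr⟩ := gen_line (hg.tr hc') (k := 1) (q₁ := divX (th _ F (tr (χ.comp φ) (E f))))
    (by
      conv_lhs => rw [← divX_mul_X_add (th _ F _), tr_coeff, RingHom.comp_apply, h5.zero]
      simp [mul_comm]) (by rwa [coeff_divX])
  obtain ⟨ε, b, c, h8, e6, -, h9, h10, e7⟩ := shear_core hψ hl hc' h4 r0
  let γ' := φ.comp (ε.symm.toRingHom.comp C)
  obtain ⟨R, _, _, α, hα⟩ := exists_loc (M := NZ (χ.comp γ')) fun h => h (map_zero _)
  obtain ⟨j, hj⟩ := hα.lift γ' fun m hm => hχ _ hm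
  rw [← hj] at hα
  have e8 : ((eval₂RingHom j (φ (ε.symm X))).comp (mapRingHom α)).comp ε = φ := by
    rw [(Polynomial.ringHom_ext (by simpa [γ'] using RingHom.congr_fun hj) (by simp) :
      (eval₂RingHom j (φ (ε.symm X))).comp (mapRingHom α) = φ.comp ε.symm.toRingHom)]
    exact RingHom.ext (by simp)
  have e9 : ((ε g).map α).eval₂ j (φ (ε.symm X)) = φ g := RingHom.congr_fun e8 g
  have e10 : ∀ a, ((ε a).map α).map (χ.comp j) = eval₂RingHom C (X - C (χ (φ (ε.symm X))))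
      ((th _ F (tr (χ.comp φ) a)).map (MvPolynomial.eval b)) := fun a => by
    rw [Polynomial.map_map, RingHom.comp_assoc, hj]; exact e7 a
  have h13 : HS φ (MvPolynomial.C c * E f) :=
    ⟨fun a => (h5.ker a).trans (h9.map MvPolynomial.C).mul_left_dvd.symm, h5.surj⟩
  rw [← e8] at h13
  obtain ⟨x, h11, h12⟩ := an_of_lin hχ (IsLoc.nz_unit (χ := χ.comp j) hα) (h10.map α)
    (u := φ (ε.symm X)) (g := (ε g).map α) ((h13.up (isLoc_equiv ε)).up hα.poly)
    (f₁ := C (χ (φ (MvPolynomial.C c))) * eval₂RingHom C (X - C (χ (φ (ε.symm X))))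
      ((divX (th _ F (tr (χ.comp φ) (E f)))).map (MvPolynomial.eval b))) (by
      rw [e10, map_mul, map_mul]
      conv_lhs => rw [← divX_mul_X_add (th _ F (tr _ (E f))), tr_coeff, RingHom.comp_apply, h5.zero]
      simp [tr, th]
      ring) (by
      rw [isCoprime_mul_unit_left_right ((((h9.map _).map φ).map χ).map C), e10]
      exact (hr b h8).map _) (by rw [e9]; exact not_not.1 fun h => h7 (hχ _ h))
  rw [e9] at h12
  have e11 : (j.comp α).comp MvPolynomial.C = γ.comp MvPolynomial.C := by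
    rw [hj, ← e5]; exact RingHom.ext fun c => by simp [γ', ← e6]
  by_cases h0 : x = 0
  · subst h0
    obtain ⟨y, _, hy⟩ := h11.surj (φ g)
    rw [map_zero, zero_mul, add_zero] at hy
    refine ⟨R, _, ‹_›, α, j, y, hα, e11, ⟨h11.inj, fun w => ?_, fun a ⟨w, hw⟩ => ?_⟩, ?_, hy.dvd⟩
    · obtain ⟨a, _, ha⟩ := h11.surj w
      exact ⟨a, 0, by simpa using ha⟩
    · obtain ⟨a', _, ha⟩ := h11.surj w
      exact ⟨a', h11.inj (by simpa [ha] using hw)⟩
    · rintro rfl
      have := _root_.map_dvd (MvPolynomial.eval₂Hom ι fun i => χ (φ (MvPolynomial.X i)))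
        (hg 1 (by simpa using _root_.map_dvd _ ((h5.ker g).1 (by simpa using hy))))
      rw [← RingHom.comp_apply, (MvPolynomial.ringHom_ext (by
        simpa using fun r => (RingHom.congr_fun hc' r).symm) (by simp) :
        (MvPolynomial.eval₂Hom ι fun i => χ (φ (MvPolynomial.X i))).comp (MvPolynomial.map ψ) =
          χ.comp φ)] at this
      simp [h5.zero] at this
  · exact ⟨R, _, ‹_›, α, j, x, hα, e11, h11, h0, h12⟩

end LL

end Pool.Agent.Lib.MP_a37f0b_ag
end

-- part Pool.Agent.Lib.MP_a37f0b_ag.Etale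
section

/-!
Local rings of etale schemes over affine spaces.
-/

open Matrix Polynomial

namespace Pool.Agent.Lib.MP_a37f0b_ag

variable {A B D W : Type} [CommRing A] [CommRing B] [CommRing D] [CommRing W] {τ σ : Type}

lemma rg_or [IsNoetherianRing W] [IsDomain B] [UniqueFactorizationMonoid B] {f : W →+* B}
    (hf : Function.Surjective f) {s : Finset W} (hk : RingHom.ker f = Ideal.span s) (P : Ideal W)
    [P.IsPrime] (hP : (s.card : ℕ∞) + 1 ≤ P.height) {G : B} (hG : G ≠ 0) :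
    (∃ g ∈ P, Rg (f g) G) ∨ RingHom.ker f ≤ P ∧ P.height ≤ s.card + 1 := by
  classical
  open UniqueFactorizationMonoid in
  by_cases h : (P : Set W) ⊆ ⋃ q ∈ (↑(factors G).toFinset : Set B), ↑((Ideal.span {q}).comap f)
  · have hp : ∀ q ∈ (factors G).toFinset, (Ideal.span {q}).IsPrime := fun q hq =>
      have := prime_of_factor q (Multiset.mem_toFinset.1 hq)
      (Ideal.span_singleton_prime this.ne_zero).2 this
    obtain ⟨q, h5, h6⟩ := (Ideal.subset_union_prime 0 0 fun q hq _ _ =>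
      have := hp q hq; inferInstance).1 h
    have := hp q h5
    obtain ⟨b, rfl⟩ := hf q
    have e : (Ideal.span {f b}).comap f = Ideal.span ((insert b s : Finset W) : Set W) := by
      rw [← Set.image_singleton, ← Ideal.map_span, Ideal.comap_map_of_surjective f hf,
        ← RingHom.ker_eq_comap_bot, hk, Finset.coe_insert, Ideal.span_insert]
    have h4 : ((Ideal.span {f b}).comap f).height ≤ s.card + 1 :=
      (Ideal.height_le_card_of_mem_minimalPrimes_span_finset (s := insert b s) (by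
        rw [← e, Ideal.minimalPrimes_eq_subsingleton_self]; rfl)).trans
        (by exact_mod_cast Finset.card_insert_le b s)
    rw [P.eq_of_le_of_height_le h6 (h4.trans hP)]
    exact Or.inr ⟨Ideal.ker_le_comap f, h4⟩
  · obtain ⟨g, hg, h5⟩ := Set.not_subset.1 h
    refine Or.inl ⟨g, hg, fun _ =>
      dvd_of_dvd_mul_right_of_no_prime_factors hG fun d1 d2 hd => h5 ?_⟩
    obtain ⟨q, h6, h7⟩ := exists_mem_factors_of_dvd hG hd.irreducible d1
    exact Set.mem_biUnion (Finset.mem_coe.2 (Multiset.mem_toFinset.2 h6))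
      (Ideal.mem_span_singleton.2 (h7.symm.dvd.trans d2))

lemma HS.height_lt {φ : W →+* B} {G : W} (h : HS φ G) {P Q : Ideal B} [P.IsPrime] [Q.IsPrime]
    (h1 : P < Q) {n : ℕ∞} (h2 : n ≤ (P.comap φ).height) : n + 1 ≤ (Q.comap φ).height :=
  (add_le_add_left h2 1).trans (Ideal.height_add_one_le_of_lt_of_isPrime (h.lt_comap h1))

lemma HS.two_le [IsDomain W] [IsDomain B] {φ : W →+* B} {G : W} (h : HS φ G) (h0 : G ≠ 0)
    {P : Ideal B} [P.IsPrime] (h1 : P ≠ ⊥) : 1 + 1 ≤ (P.comap φ).height :=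
  h.height_lt (bot_lt_iff_ne_bot.2 h1) (le_add_self.trans (Ideal.height_add_one_le_of_lt_of_isPrime
    (I := ⊥) (bot_lt_iff_ne_bot.2 fun h2 => h0 (Ideal.mem_bot.1 (h2 ▸ h.zero)))))

lemma ker_map_span {ψ : A →+* B} {s : Finset A} (hs : RingHom.ker ψ = Ideal.span s) :
    RingHom.ker (MvPolynomial.map (σ := τ) ψ) =
      Ideal.span (s.map ⟨MvPolynomial.C, MvPolynomial.C_injective τ A⟩) := by
  rw [MvPolynomial.ker_map, hs, Ideal.map_span, Finset.coe_map]; rfl

variable {F : Type} [Field F]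

lemma LAF.lq {χ : A →+* F} (hχ : ∀ b, χ b ≠ 0 → IsUnit b) {w : A} :
    LAF A (Submonoid.powers w) ↔ LQ χ w :=
  have h1 : Submonoid.powers w ≤ Sat (NZ χ ⊔ Submonoid.powers w) := le_sup_right.trans (le_Sat _)
  have h2 : NZ χ ⊔ Submonoid.powers w ≤ Sat (Submonoid.powers w) :=
    sup_le (fun a ha => Sat.of_unit (hχ a ha)) (le_Sat _)
  ⟨fun h => h.sat h1 h2, fun h => LAF.sat h h2 h1⟩

section core

variable {Λ κ : Type} [CommRing Λ] [IsDomain Λ] [IsNoetherianRing Λ] [Field κ] {ψ : Λ →+* κ}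
  [Finite σ] [Infinite κ] [IsDomain B] {ι : κ →+* F} {γ : MvPolynomial σ Λ →+* B} {χ : B →+* F}
  {s : Finset Λ}

theorem ufd_core [UniqueFactorizationMonoid Λ] (hψ : Function.Surjective ψ)
    (hl : ∀ v, ψ v ≠ 0 → IsUnit v) (h : Et γ) (hχ : ∀ b, χ b ≠ 0 → IsUnit b)
    (hc : (χ.comp γ).comp MvPolynomial.C = ι.comp ψ) (hs : RingHom.ker ψ = Ideal.span s)
    (h1 : s.card ≤ 1) (h2 : 0 ∉ s) : UniqueFactorizationMonoid B := by
  obtain ⟨φ, G, h3, h4, h5, h6⟩ := lindel hψ hl h hχ hc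
  refine UniqueFactorizationMonoid.iff_exists_prime_mem_of_isPrime.2 fun P h0 hP => ?_
  have h7 := h3.two_le (fun h => h5 (by simp [h])) h0
  obtain ⟨g, h8, h9⟩ | ⟨h8, h9⟩ := rg_or (MvPolynomial.map_surjective _ hψ) (ker_map_span hs)
    (P.comap φ) (le_trans (by rw [Finset.card_map]; norm_cast; omega) h7) h5
  · obtain h10 | ⟨R, _, _, α, j, x, h10, -, h11, h12, h13⟩ := h6 g h9
    · exact absurd (P.eq_top_of_isUnit_mem h8 h10) hP.ne_top
    · have := h10.ufd
      obtain ⟨p, m, hp, hd⟩ := exists_prime_mem (Ideal.comap_isPrime j P) h12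
        (P.mem_of_dvd h13 h8)
      exact ⟨_, m, h11.prime h12 hp hd⟩
  · obtain ⟨π, rfl⟩ := Finset.card_eq_one.1 (le_antisymm h1 (by
      have := h7.trans h9
      rw [Finset.card_map] at this
      norm_cast at this
      omega))
    have h10 : ψ π = 0 := by rw [← RingHom.mem_ker, hs]; exact Ideal.subset_span (by simp)
    have h11 : γ (MvPolynomial.C π) ≠ 0 := by
      simpa [map_eq_zero_iff _ h.inj, eq_comm (a := (0 : Λ))] using h2
    refine ⟨_, show (γ.comp MvPolynomial.C) π ∈ P from h4 ▸ h8 (by simp [RingHom.mem_ker, h10]),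
      (Ideal.span_singleton_prime h11).1 ((Ideal.Quotient.isDomain_iff_prime _).1
        (h.quot hχ (MvPolynomial.map_surjective _ hψ) ?_ ?_).1)⟩
    · simp [ker_map_span hs, Ideal.map_span]
    · rw [Ideal.span_singleton_le_iff_mem, RingHom.mem_ker]
      exact (RingHom.congr_fun hc π).trans (by simp [h10])

/-- The elements regular modulo `G` after applying `f`. -/
def RgS (f : W →+* A) (G : A) : Submonoid W where
  carrier := {g | Rg (f g) G}
  one_mem' := fun h => by simp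
  mul_mem' := fun h h' x hx => h' _ (h _ (by rwa [map_mul, mul_assoc] at hx))

theorem eml_core [UniqueFactorizationMonoid B] (hψ : Function.Surjective ψ)
    (hl : ∀ v, ψ v ≠ 0 → IsUnit v) (h : Et γ) (hχ : ∀ b, χ b ≠ 0 → IsUnit b)
    (hc : (χ.comp γ).comp MvPolynomial.C = ι.comp ψ) (hs : RingHom.ker ψ = Ideal.span s) {w : Λ}
    (hw : w ≠ 0) (h1 : s.card ≤ 1 ∨ s.card ≤ 2 ∧ ψ w = 0)
    (hp : ∀ χ' : MvPolynomial σ Λ →+* F, LQ χ' (MvPolynomial.C w)) :
    LAF B (Submonoid.powers (γ (MvPolynomial.C w))) := fun τ _ D _ β hβ μ _ e he => by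
  obtain ⟨φ, G, h3, h4, h5, h6⟩ := lindel hψ hl h hχ hc
  have h2 : γ (MvPolynomial.C w) ≠ 0 := by simpa [map_eq_zero_iff _ h.inj] using hw
  have h7 : LAF B ((RgS (MvPolynomial.map ψ) (G.map ψ)).map φ ⊔
      Submonoid.powers (γ (MvPolynomial.C w))) := by
    refine laf_ufd (fun h => zero_notMem_nonZeroDivisors (sup_le (c := nonZeroDivisors B) ?_
      (le_nzd (zero_notMem_powers h2)) h)) fun P _ hP f hf hp g hg => by_contra fun hn => ?_
    · rintro _ ⟨g, hg, rfl⟩
      obtain h10 | ⟨R, _, _, α, j, x, -, -, h11, h12, h13⟩ := h6 g hg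
      · exact h10.mem_nonZeroDivisors
      · exact mem_nonZeroDivisors_of_ne_zero
          (ne_zero_of_dvd_ne_zero ((map_ne_zero_iff _ h11.inj).2 h12) h13)
    have := (Ideal.span_singleton_prime hp.ne_zero).2 hp
    have h8 := h3.height_lt (lt_of_le_of_ne ((Ideal.span_singleton_le_iff_mem _).2 hf)
      fun h => hn (Ideal.mem_span_singleton.1 (h ▸ hg)))
      (h3.two_le (fun h => h5 (by simp [h])) (by simpa using hp.ne_zero))
    obtain ⟨g, h8, h9⟩ | ⟨h10, h9⟩ := rg_or (MvPolynomial.map_surjective _ hψ) (ker_map_span hs)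
      (P.comap φ) (le_trans (by rw [Finset.card_map]; norm_cast; omega) h8) h5
    · exact hP _ (Submonoid.mem_sup_left ⟨g, h9, rfl⟩) h8
    · have := h8.trans h9
      rw [Finset.card_map] at this
      norm_cast at this
      exact hP _ (Submonoid.mem_sup_right (Submonoid.mem_powers _))
        (show (γ.comp MvPolynomial.C) w ∈ P from h4 ▸ h10 (by
          simp [RingHom.mem_ker, (h1.resolve_left (by omega)).2]))
  obtain ⟨n, hn, hq⟩ := (h7 τ).qfree hβ (LM_pow_le (Sat.of_mem (C_mem_LM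
    (Submonoid.mem_sup_right (Submonoid.mem_powers _)))) fun i => Sat.of_mem (X_mem_LM i)) he
  obtain ⟨_, ⟨g, hg, rfl⟩, y, hy, rfl⟩ := mem_LM hn
  replace hq := hq.of_dvd (h' := β (MvPolynomial.C (φ g)))
    (by rw [map_mul, (hβ.unit y hy).mul_right_dvd])
  obtain h10 | ⟨R, _, _, α, j, x, h10, h14, h11, h12, h13⟩ := h6 g hg
  · exact hq.free ((h10.map _).map β)
  · exact h11.laf h12 (w := α (MvPolynomial.C w)) (by simpa [map_eq_zero_iff _ h10.inj] using hw)
      ((LAF.lq h10.nz_unit).2 ((h10.lq _ _).1 (hp _)))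
      (by rwa [show j _ = _ from RingHom.congr_fun h14 w]) he
      (hq.of_dvd (_root_.map_dvd (β.comp MvPolynomial.C) h13))

end core

lemma exists_res {c : A →+* F} (hl : ∀ b, c b ≠ 0 → IsUnit b) : ∃ (κ : Type) (_ : Field κ)
    (ψ : A →+* κ) (ι : κ →+* F), Function.Surjective ψ ∧ (∀ v, ψ v ≠ 0 → IsUnit v) ∧
      c = ι.comp ψ :=
  have : IsLocalHom c := ⟨fun b hb => hl b hb.ne_zero⟩
  have := c.domain_isLocalRing
  ⟨_, _, _, _, IsLocalRing.residue_surjective,
    fun v => (IsLocalRing.residue_ne_zero_iff_isUnit v).1,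
    (IsLocalRing.ResidueField.lift_comp_residue _).symm⟩

lemma Et.base [IsDomain A] {γ : MvPolynomial σ A →+* B} (h : Et γ) {χ : B →+* F}
    (hχ : ∀ b, χ b ≠ 0 → IsUnit b) : ∃ (Λ : Type) (_ : CommRing Λ) (_ : IsDomain Λ) (a : A →+* Λ)
      (γ' : MvPolynomial σ Λ →+* B), IsLoc a (NZ (((χ.comp γ').comp MvPolynomial.C).comp a)) ∧
      γ'.comp (MvPolynomial.map a) = γ ∧ Et γ' := by
  obtain ⟨Λ, _, _, a, ha⟩ := exists_loc (M := NZ ((χ.comp γ).comp MvPolynomial.C))
    fun h => h (map_zero _)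
  obtain ⟨γ', rfl⟩ := (ha.mv σ).lift γ (by rintro _ ⟨m, hm, rfl⟩; exact hχ _ hm)
  exact ⟨Λ, _, ‹_›, a, γ', by convert ha using 2; ext; simp, rfl, h.up (ha.mv σ)⟩

lemma exists_locNZ [IsDomain A] (χ : A →+* F) : ∃ (R : Type) (_ : CommRing R) (_ : IsDomain R)
    (l : A →+* R) (χ' : R →+* F), IsLoc l (NZ χ) ∧ χ'.comp l = χ ∧ ∀ b, χ' b ≠ 0 → IsUnit b := by
  obtain ⟨R, _, _, l, h⟩ := exists_loc (M := NZ χ) fun h => h (map_zero _)
  obtain ⟨χ', rfl⟩ := h.lift χ fun m hm => Ne.isUnit hm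
  exact ⟨R, _, ‹_›, l, χ', h, rfl, h.nz_unit⟩

variable {V : Type} [CommRing V] [IsDomain V] [IsPrincipalIdealRing V]

omit [IsDomain V] [IsPrincipalIdealRing V] in
lemma Inf.map (h : Inf V) (a : V →+* A) : Inf A := fun F _ c =>
  (h F (c.comp a)).mono (by rintro _ ⟨x, rfl⟩; exact ⟨_, rfl⟩)

omit [IsDomain V] [IsPrincipalIdealRing V] in
lemma Inf.infinite (h : Inf V) {κ : Type} [Field κ] (a : V →+* κ) : Infinite κ :=
  Set.infinite_univ_iff.1 ((h κ a).mono (Set.subset_univ _))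

omit [IsDomain V] in
lemma exists_gen (I : Ideal V) : ∃ s : Finset V, I = Ideal.span s ∧ s.card ≤ 1 ∧ 0 ∉ s := by
  obtain ⟨π, rfl⟩ := (IsPrincipalIdealRing.principal I).principal
  by_cases h : π = 0
  · exact ⟨∅, by simp [h], by simp, by simp⟩
  · exact ⟨{π}, by simp, by simp, by simpa [eq_comm] using h⟩

section eml

variable [Finite σ] [IsDomain B] {χ : B →+* F}

theorem eml0_loc (hV : Inf V) {γ : MvPolynomial σ V →+* B} (h : Et γ)
    (hχ : ∀ b, χ b ≠ 0 → IsUnit b) : UniqueFactorizationMonoid B ∧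
      ∀ v ≠ 0, LAF B (Submonoid.powers (γ (MvPolynomial.C v))) := by
  obtain ⟨Λ, _, _, a, γ', ha, rfl, h'⟩ := h.base hχ
  obtain ⟨κ, _, ψ, ι, h1, h2, h3⟩ := exists_res ha.nz_unit
  have := ha.pid fun _ hP _ _ hf hp _ => pid_dvd hP hf hp
  have := hV.infinite (ψ.comp a)
  obtain ⟨s, h4, h5, h6⟩ := exists_gen (RingHom.ker ψ)
  have := ufd_core h1 h2 h' hχ h3 h4 h5 h6
  refine ⟨this, fun v hv => ?_⟩
  have h7 := (map_ne_zero_iff _ ha.inj).2 hv
  simpa using eml_core h1 h2 h' hχ h3 h4 h7 (Or.inl h5) fun χ' => lq_base (hV.map a) χ' h7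

theorem eml0 (hV : Inf V) {γ : MvPolynomial σ V →+* B} (h : Et γ) (χ : B →+* F) {v : V}
    (hv : v ≠ 0) : LQ χ (γ (MvPolynomial.C v)) := by
  obtain ⟨R, _, _, l, χ', h1, rfl, h2⟩ := exists_locNZ χ
  exact (h1.lq _ _).2 ((LAF.lq h2).1 ((eml0_loc hV (h.loc h1) h2).2 v hv))

theorem eml1 (hV : Inf V) {γ : MvPolynomial σ V[X] →+* B} (h : Et γ) (χ : B →+* F)
    (h0 : χ (γ (MvPolynomial.C X)) = 0) : LQ χ (γ (MvPolynomial.C X)) := by
  classical
  obtain ⟨R, _, _, l, χ', h1, rfl, hχ⟩ := exists_locNZ χ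
  refine (h1.lq _ _).2 ((LAF.lq hχ).1 ?_)
  have := (eml0_loc hV ((h.loc h1).equiv (MvPolynomial.optionEquivRight V σ).toRingEquiv) hχ).1
  obtain ⟨Λ, _, _, a, γ', ha, e, h'⟩ := (h.loc h1).base hχ
  obtain ⟨κ, _, ψ, ι, h2, h3, h4⟩ := exists_res ha.nz_unit
  have := ha.noeth
  have := hV.infinite ((ψ.comp a).comp C)
  obtain ⟨π, h5⟩ := (IsPrincipalIdealRing.principal (RingHom.ker ((ψ.comp a).comp C))).principal
  have e1 : l (γ (MvPolynomial.C X)) = γ' (MvPolynomial.C (a X)) := by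
    simpa using (RingHom.congr_fun e (MvPolynomial.C X)).symm
  have h6 : ψ (a X) = 0 := ι.injective (by
    rw [map_zero, ← RingHom.comp_apply, ← h4, ← h0]; exact congrArg χ' e1.symm)
  rw [e1]
  refine eml_core h2 h3 h' hχ h4 (s := {a (C π), a X}) (le_antisymm (fun b hb => ?_) ?_)
    ((map_ne_zero_iff _ ha.inj).2 X_ne_zero) (Or.inr ⟨Finset.card_le_two, h6⟩) fun χ₁ => ?_
  · obtain ⟨m, hm, p, hp⟩ := ha.surj b
    have h7 := congrArg ψ hp
    rw [← divX_mul_X_add p] at hp h7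
    rw [map_mul, show ψ b = 0 from hb, zero_mul, map_add, map_add, map_mul, map_mul, h6, mul_zero,
      zero_add] at h7
    obtain ⟨c, hc⟩ := Ideal.mem_span_singleton'.1 (h5.le h7.symm)
    rw [← Ideal.mul_unit_mem_iff_mem _ (ha.unit m hm), hp, ← hc, C_mul, map_add, map_mul, map_mul]
    exact add_mem (Ideal.mul_mem_left _ _ (Ideal.subset_span (by simp)))
      (Ideal.mul_mem_left _ _ (Ideal.subset_span (by simp)))
  · rw [Ideal.span_le, Finset.coe_pair, Set.pair_subset_iff]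
    exact ⟨(h5.ge (Ideal.mem_span_singleton_self π) :), h6⟩
  · simpa [MvPolynomial.optionEquivRight_X_none] using
      (((isLoc_equiv (MvPolynomial.optionEquivRight V σ).toRingEquiv).comp' (ha.mv σ)).lq χ₁ _).1
        (ml hV _ one_ne_zero 1)

omit [IsDomain V] [IsPrincipalIdealRing V] in
lemma LAF.poly (h : LAF B (Submonoid.powers 1)) : AllFree B[X] := fun _ _ e he => by
  let ε := MvPolynomial.isEmptyRingEquiv B PEmpty.{1}
  have h1 := (isLoc_equiv ε).mono (N := LM PEmpty (Submonoid.powers 1)) bot_le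
    (LM_pow_le (S := (IsUnit.submonoid B).comap _) (show IsUnit _ by simp) fun i => i.elim)
  obtain ⟨_, ⟨k, rfl⟩, hq⟩ := (h1.lm_option.1 (h _)).qfree isLoc_id bot_le he
  exact horrocks he (monic_X_pow k) hq

theorem Et.bq (hV : Inf V) {γ : MvPolynomial σ V →+* B} (h : Et γ) : BQ B := fun ι _ _ he =>
  quillen he fun _ _ R _ _ _ _ h' => LAF.poly (by
    simpa using (eml0_loc hV (h.loc h') fun v =>
      (IsLocalRing.residue_ne_zero_iff_isUnit v).1).2 1 one_ne_zero) ι _ (idem_map he _)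

end eml

section rec

lemma an_ps [IsDomain A] [IsDomain B] [IsNoetherianRing B] {i : B →+* PowerSeries A} {x : B}
    (hx : i x = PowerSeries.X) (hs : ∀ a, ∃ b, PowerSeries.constantCoeff (i b) = a)
    (hk : ∀ b, PowerSeries.constantCoeff (i b) = 0 → x ∣ b) : An i x := by
  refine ⟨(injective_iff_map_eq_zero i).2 fun b hb => by_contra fun h0 => ?_, fun b => ?_,
    fun b hb => hk b (PowerSeries.X_dvd_iff.1 (hx ▸ hb))⟩
  · have := IsNoetherianRing.wfDvdMonoid (R := B)
    obtain ⟨n, a, h1, rfl⟩ := WfDvdMonoid.max_power_factor' h0 fun h : IsUnit x =>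
      PowerSeries.X_prime.not_isUnit (hx ▸ h.map i)
    rw [map_mul, map_pow, hx, mul_eq_zero, or_iff_right (pow_ne_zero _ PowerSeries.X_ne_zero)] at hb
    exact h1 (hk a (by simp [hb]))
  · obtain ⟨a, ha⟩ := hs (PowerSeries.constantCoeff b)
    obtain ⟨c, hc⟩ := PowerSeries.X_dvd_iff.2 (show PowerSeries.constantCoeff (b - i a) = 0 by
      simp [ha])
    exact ⟨a, c, by rw [hx, ← hc]; ring⟩

lemma exists_ps {γ : MvPolynomial σ D[X] →+* B} (h : Et γ) (ρ : B →+* A)
    (h0 : ρ (γ (MvPolynomial.C X)) = 0) : ∃ i : B →+* PowerSeries A,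
      i (γ (MvPolynomial.C X)) = PowerSeries.X ∧ ∀ b, PowerSeries.constantCoeff (i b) = ρ b := by
  obtain ⟨t, f, h1, h2, h3⟩ := h
  let c : MvPolynomial σ D[X] →+* PowerSeries A := MvPolynomial.eval₂Hom (eval₂RingHom
    ((PowerSeries.C.comp (ρ.comp γ)).comp (MvPolynomial.C.comp C)) PowerSeries.X)
    fun i => PowerSeries.C (ρ (γ (MvPolynomial.X i)))
  have e1 : PowerSeries.constantCoeff.comp c = ρ.comp γ := MvPolynomial.ringHom_ext'
    (Polynomial.ringHom_ext (by simp [c]) (by simp [c, h0])) (by simp [c])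
  have e2 : ∀ y, PowerSeries.constantCoeff y = ρ t → ∀ p : (MvPolynomial σ D[X])[X],
      PowerSeries.constantCoeff (p.eval₂ c y) = ρ (p.eval₂ γ t) := fun y hy p => by
    rw [hom_eval₂, hom_eval₂, e1, hy]
  obtain ⟨y, h4, h5⟩ := HenselianRing.is_henselian (I := Ideal.span {PowerSeries.X}) (f.map c)
    (h1.map c) (PowerSeries.C (ρ t)) (by
      rw [Ideal.mem_span_singleton, PowerSeries.X_dvd_iff, eval_map, e2 _ (by simp),
        show eval₂ γ t f = 0 from h2.zero, map_zero]) (IsUnit.map _ (by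
      rw [PowerSeries.isUnit_iff_constantCoeff, derivative_map, eval_map, e2 _ (by simp)]
      exact h3.map ρ))
  rw [Ideal.mem_span_singleton, PowerSeries.X_dvd_iff, map_sub, sub_eq_zero,
    PowerSeries.constantCoeff_C] at h5
  obtain ⟨i, hi⟩ := h2.lift (eval₂RingHom c y) ((eval_map _ _).symm.trans h4) fun m hm => by
    rw [PowerSeries.isUnit_iff_constantCoeff, coe_eval₂RingHom, e2 y h5]; exact hm.map ρ
  refine ⟨i, by simpa [c] using RingHom.congr_fun hi (C (MvPolynomial.C X)), fun b => ?_⟩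
  obtain ⟨m, a, h6, h7⟩ := h2.surj b
  have e3 : ∀ p, PowerSeries.constantCoeff (i (eval₂RingHom γ t p)) = ρ (eval₂RingHom γ t p) :=
    fun p => (congrArg _ (RingHom.congr_fun hi p)).trans (e2 y h5 p)
  refine (h6.map ρ).mul_right_cancel ?_
  rw [← map_mul, h7, ← e3, ← e3, ← h7, map_mul, map_mul]

theorem step' [IsDomain A] [IsDomain B] {i : B →+* PowerSeries A} {x : B} (hi : An i x)
    (hx : i x = PowerSeries.X)
    (hB : ∀ (B : Type) [CommRing B] (φ : A →+* B) (M : Submonoid A), IsLoc φ M → BQ B)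
    (hL : ∀ (F : Type) [Field F] (χ : A →+* F),
      AF B (NZ ((χ.comp PowerSeries.constantCoeff).comp i) ⊔ Submonoid.powers x))
    (h1 : AllFree B) (h2 : AF A[X] (Submonoid.powers X)) : AF B (Submonoid.powers x) :=
  fun B' _ φ hφ ι _ e he => by
  obtain ⟨j, hj, sq⟩ := hi.exists_sq (j₁ := iS A) (by rw [hx]; exact isLoc_iS) hφ
  obtain ⟨μ, _, d, hd, h4⟩ := key hB (e := e.map j) fun 𝔪 _ => by
    obtain ⟨m, hm, hq⟩ := (hL _ (algebraMap A 𝔪.ResidueField)).qfree hφ
      (le_sup_right.trans (le_Sat _)) he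
    obtain ⟨p, hp, _, ⟨k, rfl⟩, rfl⟩ := Submonoid.mem_sup.1 hm
    refine ⟨_, Ideal.algebraMap_residueField_eq_zero.not.1 hp, fun D _ ψ hu =>
      ((hq.map j).map (mS ψ)).free ?_⟩
    rw [show j (φ _) = iS A (i _) from RingHom.congr_fun hj _, mS_iS, map_mul, map_mul, map_mul]
    refine ((PowerSeries.isUnit_iff_constantCoeff.2 ?_).map _).mul ?_
    · rwa [← PowerSeries.coeff_zero_eq_constantCoeff_apply, PowerSeries.coeff_map,
        PowerSeries.coeff_zero_eq_constantCoeff_apply]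
    · simpa [hx] using (IsLocalization.Away.algebraMap_isUnit (S := LS D) PowerSeries.X).pow k
  obtain ⟨ν, _, d', hd', h5, -⟩ := sq.symm.patch' he
    (Free.of_eqv h4.symm (idem_map he j) ((h2 _ _ isLoc_iP μ d hd).map _))
  exact Free.of_eqv h5 he ((h1 ν d' hd').map _)

lemma et_step [Finite σ] [IsDomain B] (hV : Inf V) {γ : MvPolynomial σ V[X] →+* B} (h : Et γ)
    {χ : B →+* F} (hχ : ∀ b, χ b ≠ 0 → IsUnit b) (h0 : χ (γ (MvPolynomial.C X)) = 0)
    {w : MvPolynomial σ V[X]} (hw : w.map (evalRingHom 0) ≠ 0) (h1 : LQ χ (γ w))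
    (h2 : ∀ (R : Type) [CommRing R] [IsDomain R] (γ' : MvPolynomial σ V →+* R) (χ' : R →+* F),
      Et γ' → LQ χ' (γ' (w.map (evalRingHom 0)))) :
    LQ χ (γ w * γ (MvPolynomial.C X)) := (LAF.lq hχ).1 fun τ _ => by
  set x := γ (MvPolynomial.C X) with hx
  have h3 : Ideal.span {x} ≤ RingHom.ker χ := (Ideal.span_singleton_le_iff_mem _).2 h0
  obtain ⟨_, γ', e1, h4⟩ := h.quot hχ (p := MvPolynomial.map (evalRingHom 0))
    (MvPolynomial.map_surjective _ (eval_surjective (0 : V))) (by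
      simp [MvPolynomial.ker_map, ker_evalRingHom, Ideal.map_span, hx]) h3
  replace h2 := (LAF.lq fun c hc => by
    obtain ⟨c, rfl⟩ := Ideal.Quotient.mk_surjective c
    exact (hχ c hc).map _).2 (h2 _ γ' (Ideal.Quotient.lift _ χ h3) h4)
  have h5 := (map_ne_zero_iff _ h4.inj).2 hw
  rw [show γ' _ = Ideal.Quotient.mk _ (γ w) from RingHom.congr_fun e1 w] at h2 h5
  obtain ⟨B₀, _, _, β, hβ⟩ := exists_loc (zero_notMem_LM (σ := τ) (zero_notMem_powers
    (fun h => h5 (by simp [h]) : γ w ≠ 0)))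
  obtain ⟨A₀, _, _, α, hα⟩ := exists_loc (zero_notMem_LM (σ := τ) (zero_notMem_powers h5))
  obtain ⟨ρ, hρ⟩ := hβ.lift (α.comp (MvPolynomial.map (Ideal.Quotient.mk _))) (LM_pow_le
    (S := (IsUnit.submonoid A₀).comap _) (show IsUnit _ by
      simpa using hα.unit _ (C_mem_LM (Submonoid.mem_powers _)))
    fun i => show IsUnit _ by simpa using hα.unit _ (X_mem_LM i))
  have h6 : HS ρ (β (MvPolynomial.C x)) := HS.up (hρ ▸ (HS.mv ⟨fun a =>
    Ideal.Quotient.eq_zero_iff_mem.trans Ideal.mem_span_singleton, fun c =>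
      let ⟨a, ha⟩ := Ideal.Quotient.mk_surjective c; ⟨1, a, by simp [ha]⟩⟩).loc hα) hβ
  have h7 := (h.mv.loc hβ).equiv (MvPolynomial.sumRingEquiv V[X] τ σ)
  have e2 : ((β.comp (MvPolynomial.map γ)).comp (MvPolynomial.sumRingEquiv V[X] τ σ :
      MvPolynomial (τ ⊕ σ) V[X] →+* MvPolynomial τ (MvPolynomial σ V[X]))) (MvPolynomial.C X) =
      β (MvPolynomial.C x) := by simp [hx]
  obtain ⟨i, h8, h9⟩ := exists_ps h7 ρ (e2 ▸ h6.zero)
  have : IsNoetherianRing B₀ := let ⟨_, _, _, h, _⟩ := h7; h.noeth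
  refine (hβ.af_iff (LM_pow_le (show _ ∈ Sat _ by
      rw [map_mul, map_mul]
      exact mul_mem (Sat.of_unit (hβ.unit _ (C_mem_LM (Submonoid.mem_powers _))))
        (Sat.of_mem (Submonoid.mem_powers _))) fun i => Sat.of_unit (hβ.unit _ (X_mem_LM i)))
    (LM_pow_le (C_sat_LM ⟨_, Submonoid.mem_powers _, dvd_mul_right _ _⟩)
      fun i => Sat.of_mem (X_mem_LM i)) (Submonoid.powers_le.2 ⟨_, ⟨_, C_mem_LM
      (Submonoid.mem_powers _), rfl⟩, _root_.map_dvd (β.comp MvPolynomial.C) (dvd_mul_left _ _)⟩)).2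
    (step' (an_ps (e2 ▸ h8) (fun a => ?_) fun b hb => (h6.ker b).1 (h9 b ▸ hb)) (e2 ▸ h8)
      (fun _ _ _ _ h' => have := h'.domain
        (((h4.mv.loc hα).equiv (MvPolynomial.sumRingEquiv V τ σ)).loc h').bq hV)
      (fun _ _ χ₁ => e2 ▸ (eml1 hV h7 _ (by
        rw [RingHom.comp_apply, h8]; simp)).af) ((LAF.lq hχ).2 h1 τ _ _ hβ)
      (hα.lm_option.1 (h2 _)))
  obtain ⟨m, hm, y, hy⟩ := hα.surj a
  obtain ⟨m, hm', rfl⟩ := LM_pow_le (S := (LM τ (Submonoid.powers (γ w))).map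
    (MvPolynomial.map (Ideal.Quotient.mk _))) ⟨_, C_mem_LM (Submonoid.mem_powers _), by simp⟩
    (fun i => ⟨_, X_mem_LM i, by simp⟩) hm
  obtain ⟨y, rfl⟩ := MvPolynomial.map_surjective _ Ideal.Quotient.mk_surjective y
  obtain ⟨s, hs⟩ := (hβ.unit m hm').exists_right_inv
  refine ⟨β y * s, ?_⟩
  rw [h9, map_mul, show ρ (β y) = _ from RingHom.congr_fun hρ y, RingHom.comp_apply, ← hy,
    ← RingHom.comp_apply α, ← hρ, mul_assoc, RingHom.comp_apply, ← map_mul, hs, map_one, mul_one]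

theorem et_prod (hV : Inf V) {v : V} (hv : v ≠ 0) (n : ℕ) : ∀ (τ : Type) [Finite τ] (I : Finset τ)
    (B : Type) [CommRing B] [IsDomain B] (γ : MvPolynomial τ V →+* B) (χ : B →+* F), Et γ →
      I.card = n → LQ χ (γ (MvPolynomial.C v * ∏ i ∈ I, MvPolynomial.X i)) := by
  classical
  induction n with
  | zero => intro τ _ I B _ _ γ χ h hI; simpa [Finset.card_eq_zero.1 hI] using eml0 hV h χ hv
  | succ n ih =>
    intro τ _ I B _ _ γ χ h hI
    obtain ⟨x, J, hx, rfl, hJ⟩ := Finset.card_eq_succ.1 hI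
    have h1 := ih τ J B γ χ h hJ
    rw [Finset.prod_insert hx, mul_comm (MvPolynomial.X x), ← mul_assoc, map_mul]
    by_cases h0 : χ (γ (MvPolynomial.X x)) = 0
    · let ε := ((MvPolynomial.renameEquiv V (Equiv.optionSubtypeNe x).symm).trans
        (MvPolynomial.optionEquivRight V _)).toRingEquiv
      have e1 : ε (MvPolynomial.X x) = MvPolynomial.C X := by simp [ε]
      have h2 : ∀ i ∈ J, i ≠ x := fun i hi h => hx (h ▸ hi)
      have e2 : ε (MvPolynomial.C v * ∏ i ∈ J, MvPolynomial.X i) =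
          MvPolynomial.C (C v) * ∏ i ∈ J.subtype (· ≠ x), MvPolynomial.X i := by
        rw [← Finset.prod_subtype_of_mem _ h2, map_mul, map_prod]
        exact congr($(by simp [ε]) * $(Finset.prod_congr rfl fun i _ => by
          simp [ε, Equiv.optionSubtypeNe_symm_of_ne i.2]))
      obtain ⟨γ, rfl⟩ : ∃ γ' : _ →+* B, γ'.comp ε = γ :=
        ⟨γ.comp ε.symm.toRingHom, RingHom.ext (by simp)⟩
      obtain ⟨R, _, _, l, χ, h3, rfl, hχ⟩ := exists_locNZ χ
      rw [RingHom.comp_apply γ, RingHom.coe_coe, e2] at h1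
      rw [RingHom.comp_apply γ, RingHom.coe_coe, e1] at h0
      rw [RingHom.comp_apply γ, RingHom.comp_apply γ, RingHom.coe_coe, e1, e2, h3.lq, map_mul l]
      refine et_step hV ((h.up (isLoc_equiv ε)).loc h3) hχ h0 (by
        simp [hv, Finset.prod_eq_zero_iff]) ((h3.lq _ _).1 h1) fun R' _ _ γ' χ' h' => ?_
      simpa using ih _ (J.subtype (· ≠ x)) R' γ' χ' h'
          (by rwa [Finset.card_subtype, Finset.filter_true_of_mem h2])
    · exact LAF.sat h1 (sup_le (le_sup_left.trans (le_Sat _)) (Submonoid.powers_le.2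
        ⟨_, Submonoid.mem_sup_right (Submonoid.mem_powers _), dvd_mul_right _ _⟩))
        ((sup_le le_sup_left (Submonoid.powers_le.2 (mul_mem (Submonoid.mem_sup_right
          (Submonoid.mem_powers _)) (Submonoid.mem_sup_left h0)))).trans (le_Sat _))

theorem et_main [Finite τ] [IsDomain B] [IsDomain W] [UniqueFactorizationMonoid W]
    {γ : MvPolynomial τ W →+* B} (h : Et γ) {χ : B →+* F} (hχ : ∀ b, χ b ≠ 0 → IsUnit b)
    (hV : (Set.range ((χ.comp γ).comp MvPolynomial.C)).Infinite)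
    (hW : ∀ P : Ideal W, P.IsPrime → (∀ m ∈ P, χ (γ (MvPolynomial.C m)) = 0) → ∀ f ∈ P, Prime f →
      ∀ g ∈ P, f ∣ g) {v : W} (hv : v ≠ 0) (I : Finset τ) :
    LAF B (Submonoid.powers (γ (MvPolynomial.C v * ∏ i ∈ I, MvPolynomial.X i))) := by
  obtain ⟨V', _, _, a, γ', ha, rfl, h'⟩ := h.base hχ
  have := ha.pid fun P hP h0 => hW P hP fun m hm => by_contra fun hn => h0 m (by simpa [NZ] using hn) hm
  have : Inf V' := fun F _ c hc => hV ((hc.image fun y =>
    χ (γ' (MvPolynomial.C (Function.invFun c y)))).subset (by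
      rintro _ ⟨x, rfl⟩
      refine ⟨_, ⟨a x, rfl⟩, ?_⟩
      by_contra hn
      refine (ha.nz_unit (Function.invFun c (c (a x)) - a x)
        (by simpa [sub_eq_zero] using hn)).map c |>.ne_zero ?_
      rw [map_sub, Function.invFun_eq (f := c) ⟨_, rfl⟩, sub_self]))
  have := (LAF.lq hχ).2 (et_prod this ((map_ne_zero_iff _ ha.inj).2 hv) _ τ I B γ' χ h' rfl)
  simpa using this

end rec

end Pool.Agent.Lib.MP_a37f0b_ag
end

-- part Pool.Agent.Lib.MP_a37f0b_ag.Smooth
section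

/-!
Essentially smooth local algebras over principal ideal domains.
-/

open Polynomial IsLocalRing

namespace Pool.Agent.Lib.MP_a37f0b_ag

section inf

variable {A B F V τ : Type} [CommRing A] [CommRing B] [Field F]

lemma fin_sub {ι : Type} [Finite ι] {c : A →+* F} (hc : (Set.range c).Finite) (x : ι → F)
    (hx : ∀ i, ∃ p : A[X], p.eval₂ c (x i) = 0 ∧ p.map c ≠ 0) :
    ∃ S : Subfield F, (S : Set F).Finite ∧ (∀ a, c a ∈ S) ∧ ∀ i, x i ∈ S := by
  have : Finite c.range := hc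
  let K : Subfield F := { c.range with
    inv_mem' := fun y hy => by
      by_cases h : y = 0
      · exact ⟨0, by simp [h]⟩
      obtain ⟨b, hb⟩ := (Finite.isField_of_domain c.range).mul_inv_cancel (a := ⟨y, hy⟩)
        fun h' => h congr($h'.1)
      exact (eq_inv_of_mul_eq_one_right congr($hb.1)) ▸ b.2 }
  have : Finite K := hc
  have := IntermediateField.finiteDimensional_adjoin (K := K) (S := Set.range x) (by
    rintro _ ⟨i, rfl⟩
    obtain ⟨p, h1, h2⟩ := hx i
    let c' : A →+* K := c.codRestrict K fun a => ⟨a, rfl⟩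
    refine IsAlgebraic.isIntegral ⟨p.map c', fun h => h2 ?_, by rwa [aeval_def, eval₂_map]⟩
    rw [show c = (algebraMap K F).comp c' from rfl, ← map_map, h, Polynomial.map_zero])
  exact ⟨(IntermediateField.adjoin K (Set.range x)).toSubfield, Module.finite_of_finite K
    (M := IntermediateField.adjoin K (Set.range x)),
    fun a => (IntermediateField.adjoin K _).algebraMap_mem ⟨c a, a, rfl⟩,
    fun i => IntermediateField.subset_adjoin _ _ ⟨i, rfl⟩⟩

variable [CommRing V] [IsDomain V] [IsPrincipalIdealRing V]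

theorem et_inf [Finite τ] [IsDomain B] {γ : MvPolynomial τ V →+* B} (h : Et γ)
    {χ : B →+* F} (hχ : ∀ b, χ b ≠ 0 → IsUnit b) (hs : (Set.range χ).Infinite) {v : V} (hv : v ≠ 0)
    (I : Finset τ) :
    LAF B (Submonoid.powers (γ (MvPolynomial.C v * ∏ i ∈ I, MvPolynomial.X i))) := by
  classical
  by_cases hV : (Set.range ((χ.comp γ).comp MvPolynomial.C)).Finite
  swap
  · exact et_main h hχ hV (fun _ hP _ _ hf hp _ => pid_dvd hP hf hp) hv I
  set c := (χ.comp γ).comp MvPolynomial.C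
  have : ∃ x, ∀ p : V[X], p.eval₂ c (χ (γ (MvPolynomial.X x))) = 0 → p.map c = 0 := by
    by_contra! H
    obtain ⟨S, h1, h2, h3⟩ := fin_sub hV _ H
    obtain ⟨t, G, h4, h5, -⟩ := h
    obtain ⟨S', h6, h7, h8⟩ := fin_sub (c := χ.comp γ) (h1.subset (by
      rintro _ ⟨p, rfl⟩
      induction p using MvPolynomial.induction_on with
      | C a => exact h2 a
      | add p q hp hq => exact map_add (χ.comp γ) p q ▸ add_mem hp hq
      | mul_X p i hp => exact map_mul (χ.comp γ) p _ ▸ mul_mem hp (h3 i))) (fun _ : Unit => χ t)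
      fun _ => ⟨G, by rw [← hom_eval₂, ← coe_eval₂RingHom, h5.zero, map_zero], (h4.map _).ne_zero⟩
    have h9 : ∀ p, χ (eval₂RingHom γ t p) ∈ S' := fun p => by
      rw [coe_eval₂RingHom, hom_eval₂, eval₂_eq_sum]
      exact sum_mem fun n _ => mul_mem (h7 _) (pow_mem (h8 ()) n)
    refine hs (h6.subset ?_)
    rintro _ ⟨b, rfl⟩
    obtain ⟨m, a, h1, h2⟩ := h5.surj b
    rw [eq_div_of_mul_eq (h1.map χ).ne_zero ((map_mul χ _ _).symm.trans congr(χ $h2))]
    exact div_mem (h9 a) (h9 m)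
  obtain ⟨x, hx⟩ := this
  let ε := ((MvPolynomial.renameEquiv V (Equiv.optionSubtypeNe x).symm).trans
    (MvPolynomial.optionEquivRight V _)).toRingEquiv
  have e1 : ε (MvPolynomial.X x) = MvPolynomial.C X := by simp [ε]
  have e2 : ε (MvPolynomial.C v * ∏ i ∈ I, MvPolynomial.X i) =
      MvPolynomial.C (C v * if x ∈ I then X else 1) * ∏ i ∈ I.subtype (· ≠ x), MvPolynomial.X i := by
    have : ∀ i : {i // i ≠ x}, ε (MvPolynomial.X i) = MvPolynomial.X i := fun i => by
      simp [ε, Equiv.optionSubtypeNe_symm_of_ne i.2]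
    have h1 : ε (MvPolynomial.C v) = MvPolynomial.C (C v) := by simp [ε]
    rw [← Finset.prod_filter_not_mul_prod_filter I (· ≠ x), ← Finset.prod_subtype_eq_prod_filter
      (p := (· ≠ x))]
    simp only [map_mul, map_prod, this, h1, not_not, mul_assoc]
    congr 2
    split_ifs with hI
    · rw [Finset.prod_eq_single_of_mem x (by simpa) fun i hi h =>
        (h (Finset.mem_filter.1 hi).2).elim, e1]
    · rw [Finset.filter_false_of_mem fun i hi (h : i = x) => hI (h ▸ hi), Finset.prod_empty, map_one]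
  obtain ⟨γ, rfl⟩ : ∃ γ' : _ →+* B, γ'.comp ε = γ :=
    ⟨γ.comp ε.symm.toRingHom, RingHom.ext (by simp)⟩
  have e3 : (χ.comp γ).comp MvPolynomial.C =
      eval₂RingHom c (χ (γ (ε (MvPolynomial.X x)))) := by
    ext <;> simp [c, e1, ε]
  have e4 : ∀ p, χ (γ (MvPolynomial.C p)) = 0 → p.map c = 0 := fun p hp =>
    hx p ((RingHom.congr_fun e3 p).symm.trans hp)
  rw [RingHom.comp_apply γ, RingHom.coe_coe, e2]
  refine et_main (h.up (isLoc_equiv ε)) hχ (Set.infinite_of_injective_forall_mem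
    (f := fun n : ℕ => χ (γ (MvPolynomial.C (X ^ n)))) (fun n m hnm => ?_) fun n => ⟨_, rfl⟩)
    (fun P hP h0 f hf hp g hg => ?_) (by split_ifs <;> simp [hv]) _
  · have := e4 (X ^ n - X ^ m) (by simpa [sub_eq_zero] using hnm)
    simpa using congr(natDegree $(show (X : F[X]) ^ n = X ^ m by simpa [sub_eq_zero] using this))
  · obtain ⟨π, hπ⟩ := (IsPrincipalIdealRing.principal (RingHom.ker c)).principal
    have h1 : ∀ a ∈ P, C π ∣ a := fun a ha => (C_dvd_iff_dvd_coeff _ _).2 fun n =>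
      Ideal.mem_span_singleton.1 (hπ.le (by simpa using congr($(e4 a (h0 a ha)).coeff n)))
    refine ((hp.irreducible.dvd_iff.1 (h1 f hf)).resolve_left fun h => ?_).dvd.trans (h1 g hg)
    exact ((isUnit_C.1 h).map c).ne_zero (hπ.ge (Ideal.mem_span_singleton_self π))

end inf

variable {A R : Type} [CommRing A] [CommRing R] [IsLocalRing R] [Algebra A R]

lemma res_unit (c : R) (h : residue R c ≠ 0) : IsUnit c :=
  (notMem_maximalIdeal).1 fun h' => h ((residue_eq_zero_iff c).2 h')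

theorem et_of_etale [IsDomain A] [IsNoetherianRing A] [UniqueFactorizationMonoid A]
    [Algebra.EssFiniteType A R] [Algebra.FormallyEtale A R] :
    IsDomain R ∧ Et (algebraMap A R) := by
  let S := Algebra.EssFiniteType.subalgebra A R
  let Q := (maximalIdeal R).comap (algebraMap S R)
  have hu : ∀ s : S, s ∉ Q → IsUnit (s : R) := fun s hs => notMem_maximalIdeal.1 hs
  have : IsLocalization Q.primeCompl R := IsLocalization.of_le
    (Algebra.EssFiniteType.submonoid A R) _ (fun s hs => notMem_maximalIdeal.2 hs) hu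
  have : Algebra.IsEtaleAt A Q :=
    .of_equiv ((IsLocalization.algEquiv Q.primeCompl R _).restrictScalars A)
  have : Algebra.FinitePresentation A S := Algebra.FinitePresentation.of_finiteType.1 inferInstance
  obtain ⟨f, hf, ⟨⟨P⟩⟩⟩ := Algebra.IsEtaleAt.exists_isStandardEtale (R := A) Q
  let j : Localization.Away f →ₐ[A] R :=
    IsLocalization.Away.liftAlgHom f (f := S.val) (hu f hf)
  have hj : ∀ s : S, j (algebraMap _ _ s) = s := fun s => by simp [j]
  have h1 := P.hasMap.map j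
  have h2 : ∀ a : A[X], a.eval₂ (algebraMap A R) (j P.x) = j (aeval P.x a) := fun a => by
    rw [← aeval_def, aeval_algHom_apply]
  have hg : IsUnit (j (aeval P.x P.g)) := P.hasMap.2.map j
  have h3 : ∀ s : S, ∃ (p : A[X]) (n : ℕ), s * j (aeval P.x (P.g ^ n)) = j (aeval P.x p) :=
    fun s => by
      obtain ⟨p, n, h⟩ := P.exists_mul_aeval_x_g_pow_eq_aeval_x (algebraMap _ _ s)
      exact ⟨p, n, by rw [← h, map_mul, hj, map_pow]⟩
  refine et_of_weak res_unit P.monic_f h1.1 h1.isUnit_derivative_f (fun a ha => ?_) fun c => ?_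
  · obtain ⟨⟨y, m⟩, hy⟩ := IsLocalization.surj (Submonoid.powers f) (aeval P.x a)
    have h4 : y = 0 := Subtype.ext (by rw [← hj, ← hy, map_mul, ← h2, ha, zero_mul]; rfl)
    rw [h4, map_zero, (IsLocalization.map_units _ m).mul_left_eq_zero] at hy
    have h5 : algebraMap _ (Localization.Away (AdjoinRoot.mk P.f P.g)) (AdjoinRoot.mk P.f a) = 0 := by
      have := congr(P.P.equivAwayAdjoinRoot (P.equivRing $hy))
      simpa [← aeval_algHom_apply, StandardEtalePair.equivAwayAdjoinRoot,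
        aeval_algebraMap_apply] using this
    obtain ⟨⟨_, n, rfl⟩, hn⟩ := (IsLocalization.map_eq_zero_iff
      (Submonoid.powers (AdjoinRoot.mk P.f P.g)) _ _).1 h5
    refine ⟨P.g ^ n, by rw [h2, map_pow, map_pow]; exact hg.pow n, ?_⟩
    rwa [← AdjoinRoot.mk_eq_zero, map_mul, map_pow, mul_comm]
  · obtain ⟨⟨y, s⟩, hy⟩ := IsLocalization.surj Q.primeCompl c
    replace hy : c * s = y := hy
    obtain ⟨p, n, hp⟩ := h3 s
    obtain ⟨p', k, hp'⟩ := h3 y
    refine ⟨p * P.g ^ k, p' * P.g ^ n, ?_, ?_⟩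
    · rw [h2, map_mul, map_mul, ← hp]
      simpa using ⟨⟨hu _ s.2, hg.pow n⟩, hg.pow k⟩
    · rw [h2, h2, map_mul, map_mul, map_mul, map_mul, ← hp, ← hp']
      linear_combination j (aeval P.x (P.g ^ n)) * j (aeval P.x (P.g ^ k)) * hy

open TensorProduct KaehlerDifferential in
theorem exists_coord [IsNoetherianRing A] [IsDomain A] [UniqueFactorizationMonoid A]
    [Algebra.EssFiniteType A R] [Algebra.FormallySmooth A R] {ι : Type} {r : ι → R}
    (hr : LinearIndependent (ResidueField R) fun i => (1 : ResidueField R) ⊗ₜ[R] D A R (r i)) :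
    ∃ (τ : Type) (_ : Finite τ) (γ : MvPolynomial τ A →+* R) (e : ι ↪ τ), IsDomain R ∧ Et γ ∧
      γ.comp MvPolynomial.C = algebraMap A R ∧ ∀ i, γ (MvPolynomial.X (e i)) = r i := by
  let w := TensorProduct.mk R (ResidueField R) Ω[R⁄A] 1 ∘ D A R
  have h0 : Function.Injective r := Function.Injective.of_comp (f := w) hr.injective
  obtain ⟨b, -, h1, h2, h3⟩ := exists_linearIndepOn_extension
    ((linearIndepOn_range_iff h0 w).2 hr) (Set.subset_univ _)
  have h4 := (map_tensorProduct_mk_eq_top (N := Submodule.span R (Set.range (D A R)))).2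
    (span_range_derivation A R)
  rw [← Submodule.span_image, ← Set.range_comp, eq_top_iff, ← SetLike.coe_subset_coe,
    Submodule.top_coe] at h4
  obtain ⟨β, hβ⟩ := Module.exists_basis_of_basis_baseChange (fun x : b => D A R x) h3
    (by
      rw [eq_top_iff]
      refine h4.trans ((Submodule.span_subset_span R (ResidueField R) _).trans ?_)
      rw [SetLike.coe_subset_coe, Submodule.span_le, ← Set.image_univ]
      exact h2.trans (Submodule.span_mono (by rintro _ ⟨x, hx, rfl⟩; exact ⟨⟨x, hx⟩, rfl⟩)))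
    (Module.Flat.rTensor_preserves_injective_linearMap _ Subtype.val_injective)
  have := Module.Finite.finite_basis β
  let φ : MvPolynomial b A →ₐ[A] R := MvPolynomial.aeval Subtype.val
  let := φ.toAlgebra
  have := IsScalarTower.of_algebraMap_eq' φ.comp_algebraMap.symm
  have h5 : Function.Bijective (mapBaseChange A (MvPolynomial b A) R) := by
    have : mapBaseChange A (MvPolynomial b A) R =
        (((mvPolynomialBasis A b).baseChange R).equiv β (Equiv.refl _)).toLinearMap :=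
      ((mvPolynomialBasis A b).baseChange R).ext fun i => by
        rw [LinearEquiv.coe_coe, Module.Basis.equiv_apply]
        simp [hβ, φ, RingHom.algebraMap_toAlgebra]
    exact this ▸ LinearEquiv.bijective _
  have : Algebra.FormallyEtale (MvPolynomial b A) R := by
    refine ⟨subsingleton_of_forall_eq 0 fun x => ?_, subsingleton_of_forall_eq 0 fun x => ?_⟩
    · obtain ⟨x, rfl⟩ := map_surjective A (MvPolynomial b A) R x
      exact (exact_mapBaseChange_map A _ R x).2 (h5.2 x)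
    · obtain ⟨y, rfl⟩ := (Algebra.H1Cotangent.exact_map_δ A _ R x).1 (h5.1
        (((Algebra.H1Cotangent.exact_δ_mapBaseChange A _ R _).2 ⟨x, rfl⟩).trans (map_zero _).symm))
      rw [Subsingleton.elim y 0, map_zero]
  have : Algebra.EssFiniteType (MvPolynomial b A) R := .of_comp A _ _
  obtain ⟨h6, h7⟩ := et_of_etale (A := MvPolynomial b A) (R := R)
  exact ⟨b, ‹_›, φ, ⟨fun i => ⟨r i, h1 ⟨i, rfl⟩⟩, fun i j h => h0 congr($h.1)⟩, h6, h7,
    φ.comp_algebraMap, fun i => by simp [φ]⟩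

open TensorProduct KaehlerDifferential in
theorem indep_of_smooth {ι : Type} [Fintype ι] {r : ι → R} (hr : ∀ i, r i ∈ maximalIdeal R)
    (h : ∀ a : ι → R, ∑ i, a i * r i ∈ maximalIdeal R ^ 2 → ∀ i, a i ∈ maximalIdeal R)
    [Algebra.FormallySmooth A (R ⧸ Ideal.span (Set.range r))] :
    LinearIndependent (ResidueField R) fun i => (1 : ResidueField R) ⊗ₜ[R] D A R (r i) := by
  set I := Ideal.span (Set.range r)
  have hI : I ≤ maximalIdeal R := Ideal.span_le.2 (Set.range_subset_iff.2 hr)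
  have hJ : I ^ 2 ≤ I := Ideal.pow_le_self two_ne_zero
  let f : (R ⧸ I ^ 2) →ₐ[A] R ⧸ I := Ideal.Quotient.factorₐ A hJ
  have hf : RingHom.ker f = I.map (Ideal.Quotient.mk _) := Ideal.Quotient.factor_ker hJ
  have h2 : RingHom.ker f ^ 2 = ⊥ := by rw [hf, ← Ideal.map_pow, Ideal.map_quotient_self]
  let L := ((derivationOfSectionOfKerSqZero f h2 _ (Algebra.FormallySmooth.comp_liftOfSurjective
    (AlgHom.id _ _) f (Ideal.Quotient.factor_surjective hJ) ⟨2, h2⟩)).compAlgebraMap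
      R).liftKaehlerDifferential
  rw [Fintype.linearIndependent_iff]
  intro c hc i
  choose a ha using fun i => residue_surjective (c i)
  have h4 : ∑ i, a i • D A R (r i) ∈ maximalIdeal R • (⊤ : Submodule R Ω[R⁄A]) := by
    rw [← LinearMap.ker_tensorProductMk]
    change TensorProduct.mk R (ResidueField R) _ 1 _ = 0
    rw [map_sum, ← hc]
    refine Finset.sum_congr rfl fun i _ => ?_
    rw [map_smul, ← ha, ← algebraMap_smul (ResidueField R)]; rfl
  have h5 : (L (∑ i, a i • D A R (r i))).1 ∈ (maximalIdeal R ^ 2).map (Ideal.Quotient.mk _) := by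
    refine Submodule.smul_induction_on (p := fun x => (L x).1 ∈ _) h4 (fun b hb x _ => ?_)
      fun x y hx hy => by rw [map_add]; exact add_mem hx hy
    rw [map_smul, pow_two (maximalIdeal R), Ideal.map_mul]
    exact Ideal.mul_mem_mul (Ideal.mem_map_of_mem _ hb) (Ideal.map_mono hI (hf.le (L x).2))
  have h6 : ∀ i, f (Ideal.Quotient.mk _ (r i)) = 0 := fun i =>
    Ideal.Quotient.eq_zero_iff_mem.2 (Ideal.subset_span ⟨i, rfl⟩)
  rw [← ha, residue_eq_zero_iff]
  refine h a ((Ideal.mem_quotient_iff_mem (Ideal.pow_right_mono hI 2)).1 ?_) i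
  simpa [L, h6, Algebra.smul_def] using h5

end Pool.Agent.Lib.MP_a37f0b_ag
end
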